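import Pool.Agent.helper968_onebased.Gen

/-!
General facts on algebraic closure (by helper159).
-/

/-!
General facts on algebraic closure.
-/

namespace H968G

open FirstOrder FirstOrder.Language SKF Cardinal

variable {L : FirstOrder.Language.{0, 0}} {U : Type} [L.Structure U]

namespace Aux

/-- The relation `R` is definable without parameters. -/
def Df (L : FirstOrder.Language.{0, 0}) {U : Type} [L.Structure U] {β : Type}
    (R : (β → U) → Prop) : Prop := ∃ φ : L.Formula β, ∀ v, φ.Realize v ↔ R v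

variable {β γ : Type}

theorem Df.form (φ : L.Formula β) : Df L (fun v : β → U => φ.Realize v) := ⟨φ, fun _ => Iff.rfl⟩

theorem Df.and {R S : (β → U) → Prop} (hR : Df L R) (hS : Df L S) :
    Df L (fun v => R v ∧ S v) := by
  obtain ⟨φ, hφ⟩ := hR
  obtain ⟨ψ, hψ⟩ := hS
  exact ⟨φ ⊓ ψ, fun v => by rw [Formula.realize_inf, hφ, hψ]⟩

theorem Df.not {R : (β → U) → Prop} (hR : Df L R) : Df L (fun v => ¬ R v) := by
  obtain ⟨φ, hφ⟩ := hR
  exact ⟨φ.not, fun v => by rw [Formula.realize_not, hφ]⟩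

theorem Df.all {ι : Type} [Finite ι] {R : ι → (β → U) → Prop} (hR : ∀ i, Df L (R i)) :
    Df L (fun v => ∀ i, R i v) := by
  choose φ hφ using hR
  exact ⟨Formula.iInf φ, fun v => by
    rw [Formula.realize_iInf]; exact forall_congr' fun i => hφ i v⟩

theorem Df.some {ι : Type} [Finite ι] {R : ι → (β → U) → Prop} (hR : ∀ i, Df L (R i)) :
    Df L (fun v => ∃ i, R i v) := by
  choose φ hφ using hR
  exact ⟨Formula.iSup φ, fun v => by
    rw [Formula.realize_iSup]; exact exists_congr fun i => hφ i v⟩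

theorem Df.ex [Finite γ] {R : (β → U) → (γ → U) → Prop}
    (hR : Df L (fun w : β ⊕ γ → U => R (fun b => w (.inl b)) (fun c => w (.inr c)))) :
    Df L (fun v => ∃ w, R v w) := by
  obtain ⟨φ, hφ⟩ := hR
  exact ⟨φ.iExs γ, fun v => by
    rw [Formula.realize_iExs]
    exact exists_congr fun w => by rw [hφ]; rfl⟩

theorem Df.comp {R : (β → U) → Prop} (hR : Df L R) (f : β → γ) :
    Df L (fun v : γ → U => R (fun b => v (f b))) := by
  obtain ⟨φ, hφ⟩ := hR
  exact ⟨φ.relabel f, fun v => by rw [Formula.realize_relabel, hφ]; rfl⟩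

theorem Df.eq (a b : β) : Df L (fun v : β → U => v a = v b) :=
  ⟨Term.equal (Term.var a) (Term.var b), fun v => by simp [Formula.realize_equal]⟩

theorem Df.of_iff {R S : (β → U) → Prop} (hR : Df L R) (h : ∀ v, R v ↔ S v) : Df L S := by
  obtain ⟨φ, hφ⟩ := hR
  exact ⟨φ, fun v => (hφ v).trans (h v)⟩

/-- At most `K` elements. -/
def AM (K : ℕ) (s : Set U) : Prop := ¬ ∃ z : Fin (K + 1) → U, (∀ i, z i ∈ s) ∧
  ∀ i j, i ≠ j → z i ≠ z j

omit [L.Structure U] in
theorem AM.finite {K : ℕ} {s : Set U} (h : AM K s) : s.Finite := by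
  by_contra hs
  apply h
  have hs' : s.Infinite := hs
  obtain ⟨t, ht, hc⟩ := hs'.exists_subset_card_eq (K + 1)
  have e := (t.equivFinOfCardEq hc).symm
  exact ⟨fun i => (e i : U), fun i => ht (e i).2, fun i j hij h' => hij (e.injective (Subtype.ext h'))⟩

omit [L.Structure U] in
theorem AM.of_finite {s : Set U} (h : s.Finite) : ∃ K, AM K s := by
  refine ⟨h.toFinset.card, ?_⟩
  rintro ⟨z, hz, hi⟩
  have h1 : Function.Injective z := fun i j hij => by
    by_contra hne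
    exact hi i j hne hij
  have h2 := Finset.card_le_card_of_injOn (s := Finset.univ) (t := h.toFinset) z
    (fun i _ => by simpa using hz i) (fun i _ j _ hij => h1 hij)
  simp at h2

theorem Df.am (K : ℕ) {R : (Fin 1 ⊕ β → U) → Prop} (hR : Df L R) :
    Df L (fun v : β → U => AM K {y | R (Sum.elim (fun _ => y) v)}) := by
  refine Df.not (Df.ex (Df.and (Df.all fun i => ?_) (Df.all fun i => Df.all fun j => ?_)))
  · refine (hR.comp (fun a : Fin 1 ⊕ β => Sum.elim (fun _ => (Sum.inr i : β ⊕ Fin (K + 1)))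
      (fun b => Sum.inl b) a)).of_iff fun v => ?_
    simp only [Set.mem_ofPred_eq]
    apply iff_of_eq
    congr 1
    funext a
    rcases a with a | a <;> rfl
  · by_cases hij : i = j
    · subst hij
      exact ⟨⊤, fun v => by simp⟩
    · exact (Df.not (Df.eq (Sum.inr i) (Sum.inr j))).of_iff fun v => by simp [hij]

theorem mem_acl_of {X : Set U} {x : U} {P : Type} [Finite P] (c : P → U)
    {R : (Fin 1 ⊕ P → U) → Prop} (hR : Df L R) (hc : ∀ i, c i ∈ X)
    (hx : R (Sum.elim (fun _ => x) c)) (hf : {y | R (Sum.elim (fun _ => y) c)}.Finite) :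
    x ∈ acl L X := by
  obtain ⟨n, ⟨e⟩⟩ := Finite.exists_equiv_fin P
  obtain ⟨φ, hφ⟩ := hR
  have key : ∀ y : U, (φ.relabel (Sum.map id e)).Realize (Sum.elim (fun _ => y) (c ∘ e.symm)) ↔
      R (Sum.elim (fun _ => y) c) := by
    intro y
    rw [Formula.realize_relabel, ← hφ]
    apply iff_of_eq
    congr 1
    funext a
    rcases a with a | a <;> simp
  refine ⟨n, c ∘ e.symm, φ.relabel (Sum.map id e), fun i => hc _, (key x).2 hx, ?_⟩
  simpa only [key] using hf

theorem tv (M : L.ElementarySubstructure U) {P : Type} [Finite γ] {R : (P ⊕ γ → U) → Prop}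
    (hR : Df L R) (c : P → U) (hc : ∀ i, c i ∈ M) (h : ∃ y, R (Sum.elim c y)) :
    ∃ y : γ → U, (∀ i, y i ∈ M) ∧ R (Sum.elim c y) := by
  obtain ⟨φ, hφ⟩ := hR
  have h1 : (φ.iExs γ).Realize (M.subtype ∘ (fun i => (⟨c i, hc i⟩ : M))) := by
    rw [Formula.realize_iExs]
    obtain ⟨y, hy⟩ := h
    exact ⟨y, (hφ _).2 hy⟩
  rw [ElementaryEmbedding.map_formula, Formula.realize_iExs] at h1
  obtain ⟨y, hy⟩ := h1
  refine ⟨fun i => (y i : U), fun i => (y i).2, (hφ _).1 ?_⟩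
  rw [← ElementaryEmbedding.map_formula M.subtype] at hy
  refine (iff_of_eq ?_).1 hy
  congr 1
  funext a
  rcases a with a | a <;> rfl

end Aux

open Aux

theorem acl_mono {X Y : Set U} (h : X ⊆ Y) : acl L X ⊆ acl L Y := by
  rintro x ⟨p, c, φ, h1, h2, h3⟩
  exact ⟨p, c, φ, fun i => h (h1 i), h2, h3⟩

theorem sub_acl (X : Set U) : X ⊆ acl L X := by
  intro x hx
  refine mem_acl_of (P := Fin 1) (fun _ => x) (Df.eq (Sum.inl 0) (Sum.inr 0)) (fun _ => hx) rfl ?_
  simp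

theorem acl_acl (X : Set U) : acl L (acl L X) ⊆ acl L X := by
  rintro x ⟨p, b, θ, hb, hx, hf⟩
  choose q c φ h1 h2 h3 using hb
  obtain ⟨K, hK⟩ := AM.of_finite hf
  refine mem_acl_of (P := Σ i, Fin (q i)) (fun a => c a.1 a.2)
    (R := fun v => ∃ y : Fin p → U, (∀ i, (φ i).Realize (Sum.elim (fun _ => y i)
      (fun j => v (Sum.inr ⟨i, j⟩)))) ∧ AM K {z | θ.Realize (Sum.elim (fun _ => z) y)} ∧
      θ.Realize (Sum.elim (fun _ => v (Sum.inl 0)) y)) ?_ (fun a => h1 a.1 a.2) ?_ ?_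
  · refine Df.ex (Df.and (Df.all fun i => ?_) (Df.and ?_ ?_))
    · refine ((Df.form (φ i)).comp (fun a : Fin 1 ⊕ Fin (q i) => Sum.elim
        (fun _ => (Sum.inr i : (Fin 1 ⊕ (Σ i, Fin (q i))) ⊕ Fin p))
        (fun b => Sum.inl (Sum.inr ⟨i, b⟩)) a)).of_iff fun v => ?_
      apply iff_of_eq
      congr 1
      funext a
      rcases a with a | a <;> rfl
    · exact (Df.am K (Df.form θ)).comp (fun i : Fin p =>
        (Sum.inr i : (Fin 1 ⊕ (Σ i, Fin (q i))) ⊕ Fin p))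
    · refine ((Df.form θ).comp (fun a : Fin 1 ⊕ Fin p => Sum.elim
        (fun _ => (Sum.inl (Sum.inl 0) : (Fin 1 ⊕ (Σ i, Fin (q i))) ⊕ Fin p))
        (fun b => Sum.inr b) a)).of_iff fun v => ?_
      apply iff_of_eq
      congr 1
      funext a
      rcases a with a | a <;> rfl
  · exact ⟨b, fun i => h2 i, hK, hx⟩
  · have hfin : {y : Fin p → U | ∀ i, (φ i).Realize (Sum.elim (fun _ => y i) (c i))}.Finite :=
      Set.Finite.pi' h3
    have hfin' : {y : Fin p → U | (∀ i, (φ i).Realize (Sum.elim (fun _ => y i) (c i))) ∧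
        AM K {z | θ.Realize (Sum.elim (fun _ => z) y)}}.Finite := hfin.subset fun y hy => hy.1
    refine (hfin'.biUnion (t := fun y => {z | θ.Realize (Sum.elim (fun _ => z) y)})
      fun y hy => hy.2.finite).subset ?_
    rintro z ⟨y, hy1, hy2, hy3⟩
    exact Set.mem_biUnion (x := y) ⟨hy1, hy2⟩ hy3

theorem acl_model (M : L.ElementarySubstructure U) : acl L (M : Set U) ⊆ M := by
  rintro x ⟨p, c, φ, hc, hx, hf⟩
  by_contra hxM
  set S : Set U := {y | φ.Realize (Sum.elim (fun _ => y) c)} ∩ M with hS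
  have hSf : S.Finite := hf.subset Set.inter_subset_left
  have : Finite S := hSf
  have hD : Df L (U := U) (fun w : (Fin p ⊕ S) ⊕ Fin 1 → U =>
      φ.Realize (Sum.elim (fun _ => w (Sum.inr 0)) (fun i => w (Sum.inl (Sum.inl i)))) ∧
      ∀ s : S, ¬ (w (Sum.inr 0) = w (Sum.inl (Sum.inr s)))) := by
    refine Df.and ?_ (Df.all fun s => Df.not (Df.eq _ _))
    refine ((Df.form φ).comp (fun a : Fin 1 ⊕ Fin p => Sum.elim
        (fun _ => (Sum.inr 0 : (Fin p ⊕ S) ⊕ Fin 1)) (fun b => Sum.inl (Sum.inl b)) a)).of_iff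
        fun v => ?_
    apply iff_of_eq
    congr 1
    funext a
    rcases a with a | a <;> rfl
  obtain ⟨y, hyM, hy1, hy2⟩ := tv M hD (Sum.elim c (fun s => (s : U)))
    (by rintro (i | s); exacts [hc i, s.2.2])
    ⟨fun _ => x, hx, fun s hs => hxM (by
      have : x = (s : U) := hs
      rw [this]; exact s.2.2)⟩
  exact hy2 ⟨y 0, hy1, hyM 0⟩ rfl

theorem card_acl [Countable (Σ n, L.Functions n)] [Countable (Σ n, L.Relations n)]
    {κ : Cardinal.{0}} (hκ : ℵ₀ < κ) {X : Set U} (hX : #X < κ) : #(acl L X) < κ := by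
  classical
  have : Countable L.Symbols := by
    unfold Language.Symbols
    infer_instance
  let F : (Σ p : ℕ, L.Formula (Fin 1 ⊕ Fin p) × (Fin p → X)) → Set U := fun i =>
    if {y | i.2.1.Realize (Sum.elim (fun _ => y) (fun j => (i.2.2 j : U)))}.Finite then
      {y | i.2.1.Realize (Sum.elim (fun _ => y) (fun j => (i.2.2 j : U)))} else ∅
  have hF : ∀ i, #(F i) ≤ ℵ₀ := by
    intro i
    rw [Cardinal.mk_le_aleph0_iff]
    by_cases h : {y | i.2.1.Realize (Sum.elim (fun _ => y) (fun j => (i.2.2 j : U)))}.Finite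
    · simp only [F, if_pos h]
      exact h.countable.to_subtype
    · simp only [F, if_neg h]
      infer_instance
  have hsub : acl L X ⊆ ⋃ i, F i := by
    rintro x ⟨p, c, φ, hc, hx, hf⟩
    refine Set.mem_iUnion.2 ⟨⟨p, φ, fun i => ⟨c i, hc i⟩⟩, ?_⟩
    simp only [F]
    rw [if_pos hf]
    exact hx
  have hI : #(Σ p : ℕ, L.Formula (Fin 1 ⊕ Fin p) × (Fin p → X)) ≤ max ℵ₀ #X := by
    let g : (Σ p : ℕ, L.Formula (Fin 1 ⊕ Fin p) × (Fin p → X)) →
      (Σ p : ℕ, L.Formula (Fin 1 ⊕ Fin p)) × List X := fun i => (⟨i.1, i.2.1⟩, List.ofFn i.2.2)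
    have hg : Function.Injective g := by
      rintro ⟨p, φ, c⟩ ⟨p', φ', c'⟩ h
      simp only [g, Prod.mk.injEq, Sigma.mk.injEq] at h
      obtain ⟨⟨rfl, h1⟩, h2⟩ := h
      rw [heq_iff_eq] at h1
      rw [h1, List.ofFn_injective h2]
    refine (Cardinal.mk_le_of_injective hg).trans ?_
    rw [Cardinal.mk_prod, Cardinal.lift_id, Cardinal.lift_id]
    refine (mul_le_mul' (Cardinal.mk_le_aleph0_iff.2 inferInstance)
      (Cardinal.mk_list_le_max X)).trans ?_
    exact (Cardinal.mul_eq_max (le_refl _) (le_max_left _ _)).le.trans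
      (max_le (le_max_left _ _) le_rfl)
  calc #(acl L X) ≤ #(⋃ i, F i) := Cardinal.mk_le_mk_of_subset hsub
    _ ≤ #(Σ p : ℕ, L.Formula (Fin 1 ⊕ Fin p) × (Fin p → X)) * ⨆ i, #(F i) :=
      Cardinal.mk_iUnion_le F
    _ ≤ max ℵ₀ #X * ℵ₀ := mul_le_mul' hI (ciSup_le' hF)
    _ ≤ max ℵ₀ #X := by
      rw [Cardinal.mul_eq_max (le_max_left _ _) (le_refl _)]
      exact max_le le_rfl (le_max_left _ _)
    _ < κ := max_lt hκ hX

namespace Aux

theorem st_df {M : Set U} {γ : Type} {u v : γ → U} (h : ST L M u v) {P : Type} [Finite P]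
    (m : P → U) (hm : ∀ i, m i ∈ M) {R : (γ ⊕ P → U) → Prop} (hR : Df L R) :
    R (Sum.elim u m) ↔ R (Sum.elim v m) := by
  obtain ⟨n, ⟨e⟩⟩ := Finite.exists_equiv_fin P
  obtain ⟨φ, hφ⟩ := hR
  have key : ∀ w : γ → U, (φ.relabel (Sum.map id e)).Realize (Sum.elim w (m ∘ e.symm)) ↔
      R (Sum.elim w m) := by
    intro y
    rw [Formula.realize_relabel, ← hφ]
    apply iff_of_eq
    congr 1
    funext a
    rcases a with a | a <;> simp
  rw [← key, ← key]
  exact h n (m ∘ e.symm) (fun i => hm _) _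

omit [L.Structure U] in
theorem rep {M : Set U} {γ : Type} {v : γ → U} {S : Set γ} {p : ℕ} {c : Fin p → U}
    (hc : ∀ i, c i ∈ M ∪ v '' S) : ∃ (P : Type) (_ : Finite P) (m : P → U)
      (idx : Fin p → γ ⊕ P), (∀ j, m j ∈ M) ∧ (∀ i, c i = Sum.elim v m (idx i)) ∧
      ∀ (w : γ → U) (i), Sum.elim w m (idx i) ∈ M ∪ w '' S := by
  classical
  have hs : ∀ i, c i ∉ M → ∃ s ∈ S, v s = c i := by
    intro i hi
    rcases hc i with h | ⟨s, h1, h2⟩
    · exact absurd h hi
    · exact ⟨s, h1, h2⟩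
  choose s hs1 hs2 using hs
  refine ⟨{i : Fin p // c i ∈ M}, inferInstance, fun i => c i.1,
    fun i => if h : c i ∈ M then Sum.inr ⟨i, h⟩ else Sum.inl (s i h), fun j => j.2, ?_, ?_⟩
  · intro i
    by_cases h : c i ∈ M
    · simp [h]
    · simp [h, hs2]
  · intro w i
    by_cases h : c i ∈ M
    · simp [h]
    · simp only [h, dite_false, Sum.elim_inl]
      exact Or.inr ⟨_, hs1 i h, rfl⟩

end Aux

theorem ST.inter {M : Set U} {γ : Type} {u v : γ → U} (h : ST L M u v) {S T : Set γ}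
    (hu : acl L (M ∪ u '' S) ∩ acl L (M ∪ u '' T) ⊆ M) :
    acl L (M ∪ v '' S) ∩ acl L (M ∪ v '' T) ⊆ M := by
  rintro x ⟨⟨p, c, θ, hc, hx, hf⟩, ⟨p', c', θ', hc', hx', hf'⟩⟩
  obtain ⟨P, _, m, idx, hm, hci, hw⟩ := rep hc
  obtain ⟨P', _, m', idx', hm', hci', hw'⟩ := rep hc'
  obtain ⟨K, hK⟩ := AM.of_finite hf
  obtain ⟨K', hK'⟩ := AM.of_finite hf'
  have e : c = fun i => Sum.elim v m (idx i) := funext hci
  have e' : c' = fun i => Sum.elim v m' (idx' i) := funext hci'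
  subst e
  subst e'
  set N : Set U := {z | θ.Realize (Sum.elim (fun _ => z) fun i => Sum.elim u m (idx i)) ∧
    θ'.Realize (Sum.elim (fun _ => z) fun i => Sum.elim u m' (idx' i)) ∧
    AM K {z | θ.Realize (Sum.elim (fun _ => z) fun i => Sum.elim u m (idx i))} ∧
    AM K' {z | θ'.Realize (Sum.elim (fun _ => z) fun i => Sum.elim u m' (idx' i))}} with hN
  have hNM : N ⊆ M := by
    rintro z ⟨h1, h2, h3, h4⟩
    exact hu ⟨⟨p, _, θ, hw u, h1, h3.finite⟩, ⟨p', _, θ', hw' u, h2, h4.finite⟩⟩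
  have hNf : N.Finite := by
    rcases N.eq_empty_or_nonempty with h0 | ⟨z, hz⟩
    · rw [h0]; exact Set.finite_empty
    · exact hz.2.2.1.finite.subset fun y hy => hy.1
  have : Finite N := hNf
  by_contra hxM
  -- the property
  have hD : Df L (U := U) (fun t : γ ⊕ (P ⊕ (P' ⊕ N)) → U => ¬ ∃ z : Fin 1 → U,
      θ.Realize (Sum.elim (fun _ => z 0) fun i => t (Sum.map id Sum.inl (idx i))) ∧
      θ'.Realize (Sum.elim (fun _ => z 0) fun i => t (Sum.map id (Sum.inr ∘ Sum.inl) (idx' i))) ∧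
      AM K {z | θ.Realize (Sum.elim (fun _ => z) fun i => t (Sum.map id Sum.inl (idx i)))} ∧
      AM K' {z | θ'.Realize (Sum.elim (fun _ => z) fun i =>
        t (Sum.map id (Sum.inr ∘ Sum.inl) (idx' i)))} ∧
      ∀ n : N, ¬ (z 0 = t (Sum.inr (Sum.inr (Sum.inr n))))) := by
    refine Df.not (Df.ex (Df.and ?_ (Df.and ?_ (Df.and ?_ (Df.and ?_
      (Df.all fun n => Df.not (Df.eq _ _)))))))
    · refine ((Df.form θ).comp (fun a : Fin 1 ⊕ Fin p => Sum.elim
        (fun _ => (Sum.inr 0 : (γ ⊕ (P ⊕ (P' ⊕ N))) ⊕ Fin 1))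
        (fun b => Sum.inl (Sum.map id Sum.inl (idx b))) a)).of_iff fun v => ?_
      apply iff_of_eq
      congr 1
      funext a
      rcases a with a | a <;> rfl
    · refine ((Df.form θ').comp (fun a : Fin 1 ⊕ Fin p' => Sum.elim
        (fun _ => (Sum.inr 0 : (γ ⊕ (P ⊕ (P' ⊕ N))) ⊕ Fin 1))
        (fun b => Sum.inl (Sum.map id (Sum.inr ∘ Sum.inl) (idx' b))) a)).of_iff fun v => ?_
      apply iff_of_eq
      congr 1
      funext a
      rcases a with a | a <;> rfl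
    · exact (Df.am K (Df.form θ)).comp (fun i : Fin p =>
        (Sum.inl (Sum.map id Sum.inl (idx i)) : (γ ⊕ (P ⊕ (P' ⊕ N))) ⊕ Fin 1))
    · exact (Df.am K' (Df.form θ')).comp (fun i : Fin p' =>
        (Sum.inl (Sum.map id (Sum.inr ∘ Sum.inl) (idx' i)) : (γ ⊕ (P ⊕ (P' ⊕ N))) ⊕ Fin 1))
  have key := st_df h (Sum.elim m (Sum.elim m' (fun n : N => (n : U))))
    (by rintro (j | j | j); exacts [hm j, hm' j, hNM j.2]) hD
  have e1 : ∀ (w : γ → U) (i : Fin p), Sum.elim w (Sum.elim m (Sum.elim m' (fun n : N => (n : U))))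
      (Sum.map id Sum.inl (idx i)) = Sum.elim w m (idx i) := by
    intro w i
    rcases idx i with a | a <;> rfl
  have e2 : ∀ (w : γ → U) (i : Fin p'), Sum.elim w (Sum.elim m (Sum.elim m' (fun n : N => (n : U))))
      (Sum.map id (Sum.inr ∘ Sum.inl) (idx' i)) = Sum.elim w m' (idx' i) := by
    intro w i
    rcases idx' i with a | a <;> rfl
  simp only [e1, e2] at key
  refine key.1 ?_ ⟨fun _ => x, hx, hx', hK, hK', fun n hn => ?_⟩
  · rintro ⟨z, h1, h2, h3, h4, h5⟩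
    exact h5 ⟨z 0, h1, h2, h3, h4⟩ rfl
  · have hn' : x = (n : U) := hn
    exact hxM (hn' ▸ hNM n.2)

/-- The types of finite tuples in the sense of `SKF`. -/
theorem st_iff {M : Set U} {k : ℕ} {c c' : Fin k → U} : ST L M c c' ↔ SameType L M c c' := by
  constructor
  · intro h ψ hψ
    exact h ψ.len ψ.par hψ ψ.form
  · intro h p m hm φ
    exact h ⟨p, φ, m⟩ hm

end H968G
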