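import Pool.Agent.helper968_onebased.Closed

/-!
Amalgamation of three structures over a point (by helper577).
-/

/-!
Amalgamation of three structures over a point.
-/

namespace H968G

open Classical Finset H968F

/-- Change the relation `S`. -/
def Rl.setS {V : Type} (r : Rl V) (o : V → V → V → Prop) : Rl V := ⟨r.G, r.P, o⟩

namespace Am3

variable {V : Type}

theorem cl_of_dc {G : SimpleGraph V} {A U : Set V} (h : DC G A U) {T B : Finset V}
    (hT : ∀ x ∈ T, x ∈ U) (hB : ∀ x, x ∈ B ↔ x ∈ T ∧ x ∈ A) : Cl G B (T : Set V) where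
  sub x hx := ((hB x).1 hx).1
  lt Y hY hBY := by
    have h1 : Y.filter (· ∈ A) = B := by
      ext x
      rw [Finset.mem_filter, hB]
      constructor
      · rintro ⟨a, b⟩
        exact ⟨hY a, b⟩
      · rintro ⟨a, b⟩
        exact ⟨hBY.1 ((hB x).2 ⟨a, b⟩), b⟩
    have h2 : ¬ (Y : Set V) ⊆ A := by
      intro hsub
      apply (Finset.ssubset_iff_subset_ne.1 hBY).2
      apply Finset.Subset.antisymm hBY.1
      intro x hx
      exact (hB x).2 ⟨hY hx, hsub hx⟩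
    have h3 := h.lt Y (fun x hx => hT x (hY hx)) h2
    rw [h1] at h3
    exact h3

/-- A subset closed under the choice of neighbours is weakly closed. -/
theorem wcx {G : SimpleGraph V} {S : V → V → Prop} {W' W : Finset V} (hsub : W' ⊆ W)
    (hcl : ∀ z ∈ W', ∀ w ∈ W, S z w → w ∈ W')
    (hcov : ∀ z ∈ W, ∀ w ∈ W, G.Adj z w → S z w ∨ S w z)
    (htwo : ∀ z ∈ W, ∀ a ∈ W, ∀ b ∈ W, ∀ c ∈ W, S z a → S z b → S z c →
      a = b ∨ a = c ∨ b = c) : dl G W' ≤ dl G W := by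
  have h1 : es G W \ es G W' ⊆
      (W \ W').biUnion (fun z => (W.filter (fun w => S z w)).image (fun w => s(z, w))) := by
    intro e he
    induction e using Sym2.inductionOn with
    | _ u v =>
      rw [Finset.mem_sdiff, mem_es, mem_es] at he
      obtain ⟨⟨h2, h3⟩, h4⟩ := he
      have hu : u ∈ W := h2 u (by simp)
      have hv : v ∈ W := h2 v (by simp)
      have hadj : G.Adj u v := by simpa using h3
      have h5 : ∀ z w : V, z ∈ W → w ∈ W → S z w → s(z, w) = s(u, v) → z ∉ W' := by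
        intro z w hz hw hs heq hz'
        apply h4
        refine ⟨?_, h3⟩
        intro a ha
        have ha' : a ∈ s(z, w) := by rw [heq]; exact ha
        rcases Sym2.mem_iff.1 ha' with rfl | rfl
        · exact hz'
        · exact hcl z hz' a hw hs
      rw [Finset.mem_biUnion]
      rcases hcov u hu v hv hadj with hs | hs
      · exact ⟨u, Finset.mem_sdiff.2 ⟨hu, h5 u v hu hv hs rfl⟩,
          Finset.mem_image.2 ⟨v, Finset.mem_filter.2 ⟨hv, hs⟩, rfl⟩⟩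
      · exact ⟨v, Finset.mem_sdiff.2 ⟨hv, h5 v u hv hu hs Sym2.eq_swap⟩,
          Finset.mem_image.2 ⟨u, Finset.mem_filter.2 ⟨hu, hs⟩, Sym2.eq_swap⟩⟩
  have h2 := Finset.card_le_card h1
  have h3 : ((W \ W').biUnion (fun z => (W.filter (fun w => S z w)).image
      (fun w => s(z, w)))).card ≤ ∑ z ∈ W \ W', 2 := by
    refine Finset.card_biUnion_le.trans (Finset.sum_le_sum fun z hz => ?_)
    refine Finset.card_image_le.trans ?_
    by_contra hcon
    obtain ⟨a, ha, b, hb, c, hc, hab, hac, hbc⟩ := Finset.two_lt_card.1 (not_le.1 hcon)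
    rw [Finset.mem_filter] at ha hb hc
    rcases htwo z (Finset.mem_sdiff.1 hz).1 a ha.1 b hb.1 c hc.1 ha.2 hb.2 hc.2 with h | h | h
    · exact hab h
    · exact hac h
    · exact hbc h
  rw [Finset.sum_const, smul_eq_mul] at h3
  rw [Finset.card_sdiff_of_subset (es_mono hsub)] at h2
  rw [Finset.card_sdiff_of_subset hsub] at h3
  have h4 := Finset.card_le_card (es_mono (G := G) hsub)
  have h5 := Finset.card_le_card hsub
  simp only [dl]
  omega

/-- The data, for three sets indexed by `Fin 3`. -/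
structure Dat (r : Rl V) (D : Fin 3 → Set V) (x0 : V) : Prop where
  h : ∀ i, Ax r (D i)
  c : ∀ i j, CS r (D i ∩ D j) (D i)
  G : ∀ u v, r.G.Adj u v → ∃ i, u ∈ D i ∧ v ∈ D i
  S : ∀ x z w, r.S x z w → ∃ i, x ∈ D i ∧ z ∈ D i ∧ w ∈ D i
  P : r.P x0
  m : ∀ i, x0 ∈ D i

variable {r : Rl V} {D : Fin 3 → Set V} {x0 : V}

theorem Dat.loc (d : Dat r D x0) {i : Fin 3} {x z w : V} (hx : x ∈ D i) (hz : z ∈ D i)
    (hs : r.S x z w) : w ∈ D i := by
  obtain ⟨j, a, b, c⟩ := d.S x z w hs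
  exact ((d.c j i).S x ⟨a, hx⟩ z ⟨b, hz⟩ w c hs).2

theorem Dat.ind (d : Dat r D x0) (X : Finset V) (i j k : Fin 3) (Z E F : Finset V)
    (hE : ∀ x, x ∈ E ↔ x ∈ X ∧ x ∈ D i ∧ x ∈ D j)
    (hF : ∀ x, x ∈ F ↔ x ∈ X ∧ x ∈ D i ∧ x ∈ D k)
    (hZ : E ∪ F ⊆ Z) (hZ' : ∀ x ∈ Z, x ∈ X ∧ x ∈ D i) :
    dl r.G E + dl r.G F ≤ dl r.G Z + dl r.G (E ∩ F) := by
  have hEF : ∀ x ∈ E ∪ F, x ∈ X ∧ x ∈ D i := fun x hx => hZ' x (hZ hx)
  have clE : ∀ u ∈ E, ∀ v ∈ X, r.S x0 u v → v ∈ E := by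
    intro u hu v hv hs
    have h1 := (hE u).1 hu
    exact (hE v).2 ⟨hv, d.loc (d.m i) h1.2.1 hs, d.loc (d.m j) h1.2.2 hs⟩
  have clF : ∀ u ∈ F, ∀ v ∈ X, r.S x0 u v → v ∈ F := by
    intro u hu v hv hs
    have h1 := (hF u).1 hu
    exact (hF v).2 ⟨hv, d.loc (d.m i) h1.2.1 hs, d.loc (d.m k) h1.2.2 hs⟩
  have h1 : dl r.G (E ∪ F) + dl r.G (E ∩ F) = dl r.G E + dl r.G F := by
    apply dl_free
    have hf : ∀ u ∈ E ∪ F, ∀ v ∈ E ∪ F, r.S x0 u v → (u ∈ E ∧ v ∈ E) ∨ (u ∈ F ∧ v ∈ F) := by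
      intro u hu v hv hs
      rcases Finset.mem_union.1 hu with h2 | h2
      · exact Or.inl ⟨h2, clE u h2 v (hEF v hv).1 hs⟩
      · exact Or.inr ⟨h2, clF u h2 v (hEF v hv).1 hs⟩
    intro u hu v hv huv
    rcases (d.h i).cov x0 (d.m i) d.P u (hEF u hu).2 v (hEF v hv).2 huv with hs | hs
    · exact hf u hu v hv hs
    · rcases hf v hv u hu hs with h2 | h2
      · exact Or.inl ⟨h2.2, h2.1⟩
      · exact Or.inr ⟨h2.2, h2.1⟩
  have h2 : dl r.G (E ∪ F) ≤ dl r.G Z := by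
    apply wcx (S := r.S x0) hZ
    · intro z hz w hw hs
      rcases Finset.mem_union.1 hz with h3 | h3
      · exact Finset.mem_union_left _ (clE z h3 w (hZ' w hw).1 hs)
      · exact Finset.mem_union_right _ (clF z h3 w (hZ' w hw).1 hs)
    · intro z hz w hw hzw
      exact (d.h i).cov x0 (d.m i) d.P z (hZ' z hz).2 w (hZ' w hw).2 hzw
    · intro z hz a ha b hb c hc h3 h4 h5
      exact (d.h i).two x0 (d.m i) z (hZ' z hz).2 a (hZ' a ha).2 b (hZ' b hb).2 c (hZ' c hc).2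
        h3 h4 h5
  omega

theorem Dat.cl (d : Dat r D x0) (i j : Fin 3) (T B : Finset V) (hT : ∀ x ∈ T, x ∈ D i)
    (hB : ∀ x, x ∈ B ↔ x ∈ T ∧ x ∈ D j) : Cl r.G B (T : Set V) :=
  cl_of_dc (d.c i j).dc hT (fun x => by
    rw [hB, Set.mem_inter_iff]
    constructor
    · rintro ⟨a, b⟩
      exact ⟨a, hT x a, b⟩
    · rintro ⟨a, _, b⟩
      exact ⟨a, b⟩)

theorem Dat.tri (d : Dat r D x0) (X : Finset V) (i j k : Fin 3)
    (hijk : ∀ l : Fin 3, l = i ∨ l = j ∨ l = k) :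
    Tri r.G (X.filter (· ∈ D i)) (X.filter (· ∈ D j)) (X.filter (· ∈ D k)) := by
  have fi : ∀ (l : Fin 3) (x : V), x ∈ X.filter (· ∈ D l) ↔ x ∈ X ∧ x ∈ D l := fun l x =>
    Finset.mem_filter
  refine ⟨?_, ?_, ?_, ?_, ?_, ?_, ?_, ?_, ?_, ?_, ?_, ?_, ?_⟩
  · intro u hu v hv huv
    simp only [Finset.mem_union, fi] at hu hv ⊢
    obtain ⟨l, h1, h2⟩ := d.G u v huv
    rcases hijk l with rfl | rfl | rfl
    · left; tauto
    · right; left; tauto
    · right; right; tauto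
  · intro Z hZ hZ'
    have e : (X.filter (· ∈ D i)) ∩ (X.filter (· ∈ D j)) ∩ (X.filter (· ∈ D k)) =
        ((X.filter (· ∈ D i)) ∩ (X.filter (· ∈ D j))) ∩
        ((X.filter (· ∈ D i)) ∩ (X.filter (· ∈ D k))) := by
      ext x; simp only [Finset.mem_inter, fi]; tauto
    rw [e]
    refine d.ind X i j k Z _ _ ?_ ?_ hZ ?_
    · intro x; simp only [Finset.mem_inter, fi]; tauto
    · intro x; simp only [Finset.mem_inter, fi]; tauto
    · intro x hx; exact (fi i x).1 (hZ' hx)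
  · intro Z hZ hZ'
    have e : (X.filter (· ∈ D i)) ∩ (X.filter (· ∈ D j)) ∩ (X.filter (· ∈ D k)) =
        ((X.filter (· ∈ D i)) ∩ (X.filter (· ∈ D j))) ∩
        ((X.filter (· ∈ D j)) ∩ (X.filter (· ∈ D k))) := by
      ext x; simp only [Finset.mem_inter, fi]; tauto
    rw [e]
    refine d.ind X j i k Z _ _ ?_ ?_ hZ ?_
    · intro x; simp only [Finset.mem_inter, fi]; tauto
    · intro x; simp only [Finset.mem_inter, fi]; tauto
    · intro x hx; exact (fi j x).1 (hZ' hx)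
  · intro Z hZ hZ'
    have e : (X.filter (· ∈ D i)) ∩ (X.filter (· ∈ D j)) ∩ (X.filter (· ∈ D k)) =
        ((X.filter (· ∈ D i)) ∩ (X.filter (· ∈ D k))) ∩
        ((X.filter (· ∈ D j)) ∩ (X.filter (· ∈ D k))) := by
      ext x; simp only [Finset.mem_inter, fi]; tauto
    rw [e]
    refine d.ind X k i j Z _ _ ?_ ?_ hZ ?_
    · intro x; simp only [Finset.mem_inter, fi]; tauto
    · intro x; simp only [Finset.mem_inter, fi]; tauto
    · intro x hx; exact (fi k x).1 (hZ' hx)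
  · refine d.cl i k _ _ ?_ ?_
    · intro x; simp only [Finset.mem_inter, fi]; tauto
    · intro x; simp only [Finset.mem_inter, fi]; tauto
  · refine d.cl i j _ _ ?_ ?_
    · intro x; simp only [Finset.mem_inter, fi]; tauto
    · intro x; simp only [Finset.mem_inter, fi]; tauto
  · refine d.cl j i _ _ ?_ ?_
    · intro x; simp only [Finset.mem_inter, fi]; tauto
    · intro x; simp only [Finset.mem_inter, fi]; tauto
  · refine d.cl i j _ _ ?_ ?_
    · intro x; simp only [fi]; tauto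
    · intro x; simp only [Finset.mem_inter, fi]; tauto
  · refine d.cl j i _ _ ?_ ?_
    · intro x; simp only [fi]; tauto
    · intro x; simp only [Finset.mem_inter, fi]; tauto
  · refine d.cl i k _ _ ?_ ?_
    · intro x; simp only [fi]; tauto
    · intro x; simp only [Finset.mem_inter, fi]; tauto
  · refine d.cl k i _ _ ?_ ?_
    · intro x; simp only [fi]; tauto
    · intro x; simp only [Finset.mem_inter, fi]; tauto
  · refine d.cl j k _ _ ?_ ?_
    · intro x; simp only [fi]; tauto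
    · intro x; simp only [Finset.mem_inter, fi]; tauto
  · refine d.cl k j _ _ ?_ ?_
    · intro x; simp only [fi]; tauto
    · intro x; simp only [Finset.mem_inter, fi]; tauto

theorem eq_un (X : Finset V) (i j k : Fin 3) (hX : ∀ x ∈ X, x ∈ D i ∨ x ∈ D j ∨ x ∈ D k) :
    X.filter (· ∈ D i) ∪ X.filter (· ∈ D j) ∪ X.filter (· ∈ D k) = X := by
  ext x
  have := hX x
  simp only [Finset.mem_union, Finset.mem_filter]
  tauto

theorem Dat.gr (d : Dat r D x0) (U : Set V) (hU : ∀ x, x ∈ U ↔ ∃ i, x ∈ D i) : Gr r.G U := by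
  intro X hX hne
  have h1 := d.tri X 0 1 2 (by decide)
  have h2 : ∀ i, Gr r.G ((X.filter (· ∈ D i) : Finset V) : Set V) := fun i =>
    (d.h i).gr.mono (fun x hx => (Finset.mem_filter.1 (Finset.mem_coe.1 hx)).2)
  have h3 := h1.gr (h2 0) (h2 1) (h2 2)
  rw [eq_un X 0 1 2 (fun x hx => by
    obtain ⟨i, hi⟩ := (hU x).1 (hX hx)
    fin_cases i
    · exact Or.inl hi
    · exact Or.inr (Or.inl hi)
    · exact Or.inr (Or.inr hi))] at h3
  exact h3 X subset_rfl hne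

theorem ex2 : ∀ i : Fin 3, ∃ j k : Fin 3, ∀ l : Fin 3, l = i ∨ l = j ∨ l = k := by
  decide

theorem Dat.dcU (d : Dat r D x0) (U : Set V) (hU : ∀ x, x ∈ U ↔ ∃ i, x ∈ D i) (i : Fin 3) :
    DC r.G (D i) U where
  sub x hx := (hU x).2 ⟨i, hx⟩
  lt Y hY hYD := by
    obtain ⟨j, k, hjk⟩ := ex2 i
    have h1 := (d.tri Y i j k hjk).closed
    rw [eq_un Y i j k (fun x hx => by
      obtain ⟨l, hl⟩ := (hU x).1 (hY hx)
      rcases hjk l with rfl | rfl | rfl
      · exact Or.inl hl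
      · exact Or.inr (Or.inl hl)
      · exact Or.inr (Or.inr hl))] at h1
    refine h1.lt Y subset_rfl (Finset.ssubset_iff_subset_ne.2 ⟨Finset.filter_subset _ _, ?_⟩)
    intro heq
    apply hYD
    intro x hx
    have : x ∈ Y.filter (· ∈ D i) := by rw [heq]; exact hx
    exact (Finset.mem_filter.1 this).2

/-- The new relation. -/
def oo (r : Rl V) (D : Fin 3 → Set V) (x0 : V) (x z w : V) : Prop :=
  ((∃ i, x ∈ D i ∧ z ∈ D i) ∧ r.S x z w) ∨
    ((¬ ∃ i, x ∈ D i ∧ z ∈ D i) ∧ r.P x ∧ r.S x0 z w)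

theorem oo_in {i : Fin 3} {x z w : V} (hx : x ∈ D i) (hz : z ∈ D i) :
    oo r D x0 x z w ↔ r.S x z w := by
  have h1 : ∃ i, x ∈ D i ∧ z ∈ D i := ⟨i, hx, hz⟩
  constructor
  · rintro (h2 | h2)
    · exact h2.2
    · exact absurd h1 h2.1
  · intro h2
    exact Or.inl ⟨h1, h2⟩

theorem oo_out {x z w : V} (h : ¬ ∃ i, x ∈ D i ∧ z ∈ D i) :
    oo r D x0 x z w ↔ r.P x ∧ r.S x0 z w := by
  constructor
  · rintro (h2 | h2)
    · exact absurd h2.1 h
    · exact h2.2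
  · intro h2
    exact Or.inr ⟨h, h2⟩

theorem Dat.ax (d : Dat r D x0) (U : Set V) (hU : ∀ x, x ∈ U ↔ ∃ i, x ∈ D i) :
    Ax (r.setS (oo r D x0)) U where
  gr := d.gr U hU
  iso u _ v _ huv := by
    obtain ⟨i, h1, h2⟩ := d.G u v huv
    exact (d.h i).iso u h1 v h2 huv
  SP x _ z _ w _ hs := by
    change r.P x ∧ r.G.Adj z w
    change oo r D x0 x z w at hs
    by_cases h1 : ∃ i, x ∈ D i ∧ z ∈ D i
    · obtain ⟨i, hx, hz⟩ := h1
      rw [oo_in hx hz] at hs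
      obtain ⟨j, a, b, c⟩ := d.S x z w hs
      exact (d.h j).SP x a z b w c hs
    · rw [oo_out h1] at hs
      obtain ⟨j, a, b, c⟩ := d.S x0 z w hs.2
      exact ⟨hs.1, ((d.h j).SP x0 a z b w c hs.2).2⟩
  two x _ z hz a _ b _ c _ h1 h2 h3 := by
    change oo r D x0 x z a at h1
    change oo r D x0 x z b at h2
    change oo r D x0 x z c at h3
    by_cases h4 : ∃ i, x ∈ D i ∧ z ∈ D i
    · obtain ⟨i, hx, hz⟩ := h4
      rw [oo_in hx hz] at h1 h2 h3
      exact (d.h i).two x hx z hz a (d.loc hx hz h1) b (d.loc hx hz h2) c (d.loc hx hz h3)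
        h1 h2 h3
    · rw [oo_out h4] at h1 h2 h3
      obtain ⟨i, hi⟩ := (hU z).1 hz
      exact (d.h i).two x0 (d.m i) z hi a (d.loc (d.m i) hi h1.2) b (d.loc (d.m i) hi h2.2)
        c (d.loc (d.m i) hi h3.2) h1.2 h2.2 h3.2
  cov x _ hx z _ w _ hzw := by
    change r.P x at hx
    change oo r D x0 x z w ∨ oo r D x0 x w z
    have key : ∀ z w : V, r.G.Adj z w → r.S x0 z w →
        oo r D x0 x z w ∨ oo r D x0 x w z := by
      intro z w hzw hs
      by_cases h4 : ∃ i, x ∈ D i ∧ z ∈ D i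
      · obtain ⟨i, hxi, hzi⟩ := h4
        have hwi : w ∈ D i := d.loc (d.m i) hzi hs
        rw [oo_in hxi hzi, oo_in hxi hwi]
        exact (d.h i).cov x hxi hx z hzi w hwi hzw
      · left
        rw [oo_out h4]
        exact ⟨hx, hs⟩
    obtain ⟨i, h1, h2⟩ := d.G z w hzw
    rcases (d.h i).cov x0 (d.m i) d.P z h1 w h2 hzw with hs | hs
    · exact key z w hzw hs
    · exact (key w z hzw.symm hs).symm

theorem Dat.csU (d : Dat r D x0) (U : Set V) (hU : ∀ x, x ∈ U ↔ ∃ i, x ∈ D i) (i : Fin 3) :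
    CS (r.setS (oo r D x0)) (D i) U where
  dc := d.dcU U hU i
  S x hx z hz c _ hs := by
    change oo r D x0 x z c at hs
    rw [oo_in hx hz] at hs
    exact d.loc hx hz hs

theorem Dat.full (d : Dat r D x0) (U : Set V) (hU : ∀ x, x ∈ U ↔ ∃ i, x ∈ D i)
    (hf : ∀ i, Full r (D i)) : Full (r.setS (oo r D x0)) U := by
  intro x _ hx z hz hzP
  change r.P x at hx
  change ¬ r.P z at hzP
  change ∃ a ∈ U, ∃ b ∈ U, a ≠ b ∧ oo r D x0 x z a ∧ oo r D x0 x z b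
  by_cases h4 : ∃ i, x ∈ D i ∧ z ∈ D i
  · obtain ⟨i, hxi, hzi⟩ := h4
    obtain ⟨a, ha, b, hb, hab, h1, h2⟩ := hf i x hxi hx z hzi hzP
    exact ⟨a, (hU a).2 ⟨i, ha⟩, b, (hU b).2 ⟨i, hb⟩, hab, (oo_in hxi hzi).2 h1,
      (oo_in hxi hzi).2 h2⟩
  · obtain ⟨i, hi⟩ := (hU z).1 hz
    obtain ⟨a, ha, b, hb, hab, h1, h2⟩ := hf i x0 (d.m i) d.P z hi hzP
    exact ⟨a, (hU a).2 ⟨i, ha⟩, b, (hU b).2 ⟨i, hb⟩, hab, (oo_out h4).2 ⟨hx, h1⟩,
      (oo_out h4).2 ⟨hx, h2⟩⟩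

theorem cs_self (r : Rl V) (A : Set V) : CS r (A ∩ A) A := by
  rw [Set.inter_self]
  exact ⟨⟨subset_rfl, fun Y hY hY' => absurd hY hY'⟩, fun x _ z _ c hc _ => hc⟩

end Am3

theorem am3 {V : Type} (r : Rl V) (D1 D2 D3 : Set V) (h1 : Ax r D1) (h2 : Ax r D2) (h3 : Ax r D3)
    (c12 : CS r (D1 ∩ D2) D1) (c21 : CS r (D1 ∩ D2) D2) (c13 : CS r (D1 ∩ D3) D1)
    (c31 : CS r (D1 ∩ D3) D3) (c23 : CS r (D2 ∩ D3) D2) (c32 : CS r (D2 ∩ D3) D3)
    (hG : ∀ u v, r.G.Adj u v → (u ∈ D1 ∧ v ∈ D1) ∨ (u ∈ D2 ∧ v ∈ D2) ∨ (u ∈ D3 ∧ v ∈ D3))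
    (hS : ∀ x z w, r.S x z w → (x ∈ D1 ∧ z ∈ D1 ∧ w ∈ D1) ∨ (x ∈ D2 ∧ z ∈ D2 ∧ w ∈ D2) ∨
      (x ∈ D3 ∧ z ∈ D3 ∧ w ∈ D3))
    (x0 : V) (hx : r.P x0) (m1 : x0 ∈ D1) (m2 : x0 ∈ D2) (m3 : x0 ∈ D3) :
    ∃ o : V → V → V → Prop, Ax (r.setS o) (D1 ∪ D2 ∪ D3) ∧
      (∀ x ∈ D1, ∀ z ∈ D1, ∀ w ∈ D1, (o x z w ↔ r.S x z w)) ∧
      (∀ x ∈ D2, ∀ z ∈ D2, ∀ w ∈ D2, (o x z w ↔ r.S x z w)) ∧
      (∀ x ∈ D3, ∀ z ∈ D3, ∀ w ∈ D3, (o x z w ↔ r.S x z w)) ∧
      CS (r.setS o) D1 (D1 ∪ D2 ∪ D3) ∧ CS (r.setS o) D2 (D1 ∪ D2 ∪ D3) ∧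
      CS (r.setS o) D3 (D1 ∪ D2 ∪ D3) ∧
      (Full r D1 → Full r D2 → Full r D3 → Full (r.setS o) (D1 ∪ D2 ∪ D3)) := by
  have d : Am3.Dat r (![D1, D2, D3] : Fin 3 → Set V) x0 := {
    h := fun i => by
      fin_cases i
      · exact h1
      · exact h2
      · exact h3
    c := fun i j => by
      fin_cases i <;> fin_cases j
      · exact Am3.cs_self r D1
      · exact c12
      · exact c13
      · change CS r (D2 ∩ D1) D2
        rw [Set.inter_comm]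
        exact c21
      · exact Am3.cs_self r D2
      · exact c23
      · change CS r (D3 ∩ D1) D3
        rw [Set.inter_comm]
        exact c31
      · change CS r (D3 ∩ D2) D3
        rw [Set.inter_comm]
        exact c32
      · exact Am3.cs_self r D3
    G := fun u v huv => by
      rcases hG u v huv with h | h | h
      · exact ⟨0, h⟩
      · exact ⟨1, h⟩
      · exact ⟨2, h⟩
    S := fun x z w hs => by
      rcases hS x z w hs with h | h | h
      · exact ⟨0, h⟩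
      · exact ⟨1, h⟩
      · exact ⟨2, h⟩
    P := hx
    m := fun i => by
      fin_cases i
      · exact m1
      · exact m2
      · exact m3 }
  have hU : ∀ x, x ∈ D1 ∪ D2 ∪ D3 ↔ ∃ i, x ∈ (![D1, D2, D3] : Fin 3 → Set V) i := by
    intro x
    constructor
    · rintro ((h | h) | h)
      · exact ⟨0, h⟩
      · exact ⟨1, h⟩
      · exact ⟨2, h⟩
    · rintro ⟨i, h⟩
      fin_cases i
      · exact Or.inl (Or.inl h)
      · exact Or.inl (Or.inr h)
      · exact Or.inr h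
  refine ⟨Am3.oo r ![D1, D2, D3] x0, d.ax _ hU, ?_, ?_, ?_, d.csU _ hU 0, d.csU _ hU 1,
    d.csU _ hU 2, ?_⟩
  · intro x hx z hz w _
    exact Am3.oo_in (i := 0) hx hz
  · intro x hx z hz w _
    exact Am3.oo_in (i := 1) hx hz
  · intro x hx z hz w _
    exact Am3.oo_in (i := 2) hx hz
  · intro f1 f2 f3
    apply d.full _ hU
    intro i
    fin_cases i
    · exact f1
    · exact f2
    · exact f3

end H968G
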