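import Pool.Agent.helper968_onebased.Closed

/-!
Amalgamation of finite structures (by helper344).
-/

/-!
Amalgamation of finite structures (by helper344).
-/

namespace H968G

open Classical Finset H968F

namespace AmG

/-! ### Closed sets -/

theorem DC.of_cl' {V : Type} {G : SimpleGraph V} {A : Finset V} {S U : Set V} (h : Cl G A U)
    (hA : ∀ x, x ∈ S ↔ x ∈ A) : DC G S U where
  sub := fun x hx => h.sub ((hA x).1 hx)
  lt Y hY hYA := by
    have h1 : Cl G (Y.filter (· ∈ S)) (Y : Set V) := h.inter_sub hY (by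
      intro x
      simp only [Finset.mem_filter, Finset.mem_coe, hA]
      tauto)
    refine h1.lt Y subset_rfl (Finset.ssubset_iff_subset_ne.2 ⟨Finset.filter_subset _ _, ?_⟩)
    intro heq
    apply hYA
    intro y hy
    have : y ∈ Y.filter (· ∈ S) := by
      rw [heq]
      exact hy
    exact (Finset.mem_filter.1 this).2

theorem DC.of_cl {V : Type} {G : SimpleGraph V} {A : Finset V} {U : Set V} (h : Cl G A U) :
    DC G (A : Set V) U := DC.of_cl' h fun _ => Finset.mem_coe

theorem DC.cl {V : Type} {G : SimpleGraph V} {A : Finset V} {S U : Set V} (h : DC G S U)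
    (hA : (A : Set V) = S) : Cl G A U where
  sub := by
    rw [hA]
    exact h.sub
  lt X hX hAX := by
    have h0 : ∀ x, x ∈ S ↔ x ∈ A := fun x => by rw [← hA, Finset.mem_coe]
    have h1 := h.lt X hX (by
      intro h2
      have h3 : X ⊆ A := fun x hx => (h0 x).1 (h2 hx)
      exact absurd (hAX.trans_subset h3) (lt_irrefl A))
    have h2 : X.filter (· ∈ S) = A := by
      ext x
      simp only [Finset.mem_filter, h0]
      exact ⟨fun h => h.2, fun h => ⟨hAX.1 h, h⟩⟩
    rwa [h2] at h1

/-! ### Transport along isomorphisms of finite substructures -/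

section

variable {F V : Type}

theorem RefOn.dl {q : Rl F} {r : Rl V} {B : Set F} {e : F → V} (h : RefOn q r B e)
    {Y : Finset F} (hY : (Y : Set F) ⊆ B) : dl r.G (Y.image e) = dl q.G Y :=
  dl_image (h.inj.mono hY) fun x hx y hy => h.G x (hY hx) y (hY hy)

theorem RefOn.cl {q : Rl F} {r : Rl V} {B : Finset F} {g : F → V}
    (h : RefOn q r (B : Set F) g) {A : Finset F} (hA : Cl q.G A (B : Set F)) :
    Cl r.G (A.image g) ((B.image g : Finset V) : Set V) where
  sub := by
    have : A ⊆ B := by exact_mod_cast hA.sub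
    exact_mod_cast Finset.image_subset_image this
  lt X hX hAX := by
    have hX' : X ⊆ B.image g := by exact_mod_cast hX
    obtain ⟨Y, hY, rfl⟩ := Finset.subset_image_iff.1 hX'
    have hAB : A ⊆ B := by exact_mod_cast hA.sub
    have hAY : A ⊂ Y := by
      refine Finset.ssubset_iff_subset_ne.2 ⟨?_, ?_⟩
      · intro x hx
        have h1 := hAX.1 (Finset.mem_image_of_mem g hx)
        obtain ⟨y, hy, hxy⟩ := Finset.mem_image.1 h1
        have := h.inj (hY hy) (hAB hx) hxy
        exact this ▸ hy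
      · rintro rfl
        exact lt_irrefl _ hAX
    rw [RefOn.dl h (by exact_mod_cast hAB), RefOn.dl h (by exact_mod_cast hY)]
    exact hA.lt Y (by exact_mod_cast hY) hAY

theorem RefOn.ax {q : Rl F} {r : Rl V} {B : Finset F} {e : F → V}
    (h : RefOn q r (B : Set F) e) (hq : Ax q (B : Set F)) :
    Ax r ((B.image e : Finset V) : Set V) where
  gr := by
    intro X hX hne
    have hX' : X ⊆ B.image e := by exact_mod_cast hX
    obtain ⟨Y, hY, rfl⟩ := Finset.subset_image_iff.1 hX'
    have hY' : (Y : Set F) ⊆ B := hY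
    rw [RefOn.dl h hY', Finset.card_image_of_injOn (h.inj.mono hY')]
    exact hq.gr Y hY' (Finset.image_nonempty.1 hne)
  iso := by
    intro u hu v hv huv
    obtain ⟨x, hx, rfl⟩ := Finset.mem_image.1 (Finset.mem_coe.1 hu)
    obtain ⟨y, hy, rfl⟩ := Finset.mem_image.1 (Finset.mem_coe.1 hv)
    rw [h.G x hx y hy] at huv
    rw [h.P x hx]
    exact hq.iso x hx y hy huv
  SP := by
    intro x hx z hz c hc h1
    obtain ⟨x, hx', rfl⟩ := Finset.mem_image.1 (Finset.mem_coe.1 hx)
    obtain ⟨z, hz', rfl⟩ := Finset.mem_image.1 (Finset.mem_coe.1 hz)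
    obtain ⟨c, hc', rfl⟩ := Finset.mem_image.1 (Finset.mem_coe.1 hc)
    rw [h.P x hx', h.G z hz' c hc']
    exact hq.SP x hx' z hz' c hc' ((h.S x hx' z hz' c hc').1 h1)
  two := by
    intro x hx z hz a ha b hb c hc h1 h2 h3
    obtain ⟨x, hx', rfl⟩ := Finset.mem_image.1 (Finset.mem_coe.1 hx)
    obtain ⟨z, hz', rfl⟩ := Finset.mem_image.1 (Finset.mem_coe.1 hz)
    obtain ⟨a, ha', rfl⟩ := Finset.mem_image.1 (Finset.mem_coe.1 ha)
    obtain ⟨b, hb', rfl⟩ := Finset.mem_image.1 (Finset.mem_coe.1 hb)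
    obtain ⟨c, hc', rfl⟩ := Finset.mem_image.1 (Finset.mem_coe.1 hc)
    rcases hq.two x hx' z hz' a ha' b hb' c hc' ((h.S x hx' z hz' a ha').1 h1)
      ((h.S x hx' z hz' b hb').1 h2) ((h.S x hx' z hz' c hc').1 h3) with h4 | h4 | h4
    · exact Or.inl (by rw [h4])
    · exact Or.inr (Or.inl (by rw [h4]))
    · exact Or.inr (Or.inr (by rw [h4]))
  cov := by
    intro x hx hp z hz w hw hG
    obtain ⟨x, hx', rfl⟩ := Finset.mem_image.1 (Finset.mem_coe.1 hx)
    obtain ⟨z, hz', rfl⟩ := Finset.mem_image.1 (Finset.mem_coe.1 hz)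
    obtain ⟨w, hw', rfl⟩ := Finset.mem_image.1 (Finset.mem_coe.1 hw)
    rw [h.P x hx'] at hp
    rw [h.G z hz' w hw'] at hG
    rw [h.S x hx' z hz' w hw', h.S x hx' w hw' z hz']
    exact hq.cov x hx' hp z hz' w hw' hG

end

/-! ### Extending partial choices -/

variable {V : Type}

/-- A choice of neighbours of the elements of `A`, with values in `U`. -/
structure PA (G : SimpleGraph V) (s : V → V → Prop) (A U : Set V) : Prop where
  adj : ∀ z ∈ A, ∀ w ∈ U, s z w → G.Adj z w
  two : ∀ z ∈ A, ∀ a ∈ U, ∀ b ∈ U, ∀ c ∈ U, s z a → s z b → s z c → a = b ∨ a = c ∨ b = c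
  cov : ∀ z ∈ A, ∀ w ∈ A, G.Adj z w → s z w ∨ s w z

theorem PA.extend {G : SimpleGraph V} {s : V → V → Prop} {A B : Finset V}
    (hc : WC G A B) (h : PA G s (A : Set V) (B : Set V)) :
    ∃ s' : V → V → Prop, PA G s' (B : Set V) (B : Set V) ∧
      ∀ z ∈ A, ∀ c ∈ B, (s' z c ↔ s z c) := by
  obtain ⟨f, hf1, hf2⟩ := hc.exists_assign
  have hmem : ∀ v w (S : Finset V), s(v, w) ∈ es G S ↔ (v ∈ S ∧ w ∈ S) ∧ G.Adj v w := by
    intro v w S
    rw [mem_es]
    simp
  have hAB : A ⊆ B := hc.sub
  let N : V → Finset (Sym2 V) := fun z => (es G B \ es G A).filter (fun e => f e = z)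
  have hN : ∀ z, (N z).card ≤ 2 := hf2
  refine ⟨fun z w => (z ∈ A ∧ s z w) ∨ (z ∉ A ∧ s(z, w) ∈ N z), ⟨?_, ?_, ?_⟩, ?_⟩
  · rintro z hz c hcc (⟨h1, h2⟩ | ⟨h1, h2⟩)
    · exact h.adj z h1 c hcc h2
    · have h3 := (Finset.mem_sdiff.1 (Finset.mem_filter.1 h2).1).1
      exact ((hmem _ _ _).1 h3).2
  · intro z hz a ha b hb c hcc h1 h2 h3
    by_cases hzA : z ∈ A
    · have k : ∀ d, ((z ∈ A ∧ s z d) ∨ (z ∉ A ∧ s(z, d) ∈ N z)) → s z d := by
        rintro d (h1 | h1)
        · exact h1.2
        · exact absurd hzA h1.1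
      exact h.two z hzA a ha b hb c hcc (k a h1) (k b h2) (k c h3)
    · have k : ∀ d, ((z ∈ A ∧ s z d) ∨ (z ∉ A ∧ s(z, d) ∈ N z)) → s(z, d) ∈ N z := by
        rintro d (h1 | h1)
        · exact absurd h1.1 hzA
        · exact h1.2
      have ka := k a h1
      have kb := k b h2
      have kc := k c h3
      by_contra hcon
      obtain ⟨nab, nac, nbc⟩ : a ≠ b ∧ a ≠ c ∧ b ≠ c :=
        ⟨fun e => hcon (Or.inl e), fun e => hcon (Or.inr (Or.inl e)),
          fun e => hcon (Or.inr (Or.inr e))⟩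
      have h3 : ({s(z, a), s(z, b), s(z, c)} : Finset (Sym2 V)) ⊆ N z := by
        intro e he
        simp only [Finset.mem_insert, Finset.mem_singleton] at he
        rcases he with rfl | rfl | rfl
        · exact ka
        · exact kb
        · exact kc
      have h4 := Finset.card_le_card h3
      have h5 := hN z
      have h6 : ({s(z, a), s(z, b), s(z, c)} : Finset (Sym2 V)).card = 3 := by
        rw [Finset.card_eq_three]
        refine ⟨_, _, _, ?_, ?_, ?_, rfl⟩
        · exact fun h => nab (Sym2.congr_right.1 h)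
        · exact fun h => nac (Sym2.congr_right.1 h)
        · exact fun h => nbc (Sym2.congr_right.1 h)
      omega
  · intro z hz w hw hzw
    have h1 : s(z, w) ∈ es G B := (hmem _ _ _).2 ⟨⟨hz, hw⟩, hzw⟩
    by_cases h2 : s(z, w) ∈ es G A
    · have h3 := (hmem _ _ _).1 h2
      rcases h.cov z h3.1.1 w h3.1.2 hzw with k | k
      · exact Or.inl (Or.inl ⟨h3.1.1, k⟩)
      · exact Or.inr (Or.inl ⟨h3.1.2, k⟩)
    · have h3 := hf1 _ h1 h2
      rcases Sym2.mem_iff.1 h3.1 with h4 | h4
      · refine Or.inl (Or.inr ⟨?_, ?_⟩)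
        · rw [← h4]
          exact h3.2.2
        · exact Finset.mem_filter.2 ⟨Finset.mem_sdiff.2 ⟨h1, h2⟩, h4⟩
      · refine Or.inr (Or.inr ⟨?_, ?_⟩)
        · rw [← h4]
          exact h3.2.2
        · refine Finset.mem_filter.2 ⟨Finset.mem_sdiff.2 ⟨?_, ?_⟩, ?_⟩
          · rw [Sym2.eq_swap]; exact h1
          · rw [Sym2.eq_swap]; exact h2
          · rw [Sym2.eq_swap]; exact h4
  · intro z hz c hcc
    constructor
    · rintro (⟨_, h1⟩ | ⟨h1, _⟩)
      · exact h1
      · exact absurd hz h1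
    · intro h1
      exact Or.inl ⟨hz, h1⟩

/-- Replace the choices. -/
def setS (r : Rl V) (o : V → V → V → Prop) : Rl V := { r with S := o }

/-- Partial choices on weakly closed subsets extend to a structure satisfying the axioms. -/
theorem complete {r : Rl V} {B : Finset V} (hgr : Gr r.G (B : Set V))
    (hiso : ∀ u ∈ B, ∀ v ∈ B, r.G.Adj u v → ¬ r.P u) (K : V → Finset V)
    (hK : ∀ x ∈ B, r.P x → WC r.G (K x) B)
    (hact : ∀ x ∈ B, r.P x → PA r.G (r.S x) (K x : Set V) (B : Set V)) :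
    ∃ o : V → V → V → Prop, Ax (setS r o) (B : Set V) ∧
      (∀ x z c, o x z c → r.P x) ∧
      ∀ x ∈ B, r.P x → ∀ z ∈ K x, ∀ c ∈ B, (o x z c ↔ r.S x z c) := by
  have h1 : ∀ x : V, ∃ p : V → V → Prop, x ∈ B → r.P x → PA r.G p (B : Set V) (B : Set V) ∧
      ∀ z ∈ K x, ∀ c ∈ B, (p z c ↔ r.S x z c) := by
    intro x
    by_cases hx : x ∈ B
    · by_cases hp : r.P x
      · obtain ⟨p, hp1, hp2⟩ := PA.extend (hK x hx hp) (hact x hx hp)
        exact ⟨p, fun _ _ => ⟨hp1, hp2⟩⟩
      · exact ⟨fun _ _ => False, fun _ h => absurd h hp⟩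
    · exact ⟨fun _ _ => False, fun h => absurd h hx⟩
  choose p hp using h1
  refine ⟨fun x z c => r.P x ∧ p x z c, ?_, fun x z c h => h.1, ?_⟩
  · exact {
      gr := hgr
      iso := fun u hu v hv h => hiso u hu v hv h
      SP := fun x hx z hz w hw h => ⟨h.1, (hp x hx h.1).1.adj z hz w hw h.2⟩
      two := fun x hx z hz a ha b hb c hc h3 h4 h5 =>
        (hp x hx h3.1).1.two z hz a ha b hb c hc h3.2 h4.2 h5.2
      cov := fun x hx hpx z hz w hw hzw => by
        rcases (hp x hx hpx).1.cov z hz w hw hzw with k | k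
        · exact Or.inl ⟨hpx, k⟩
        · exact Or.inr ⟨hpx, k⟩ }
  · intro x hx hpx z hz c hc
    rw [← (hp x hx hpx).2 z hz c hc]
    exact ⟨fun h => h.2, fun h => ⟨hpx, h⟩⟩

/-- Free amalgams of structures satisfying the axioms. -/
theorem amalg {r : Rl V} {S T : Finset V} (h : Free r.G S T) (hS : Ax r (S : Set V))
    (hT : Ax r (T : Set V)) (hcS : Cl r.G (S ∩ T) (S : Set V))
    (hcT : Cl r.G (S ∩ T) (T : Set V))
    (hcTS : ∀ x ∈ S ∩ T, ∀ z ∈ S ∩ T, ∀ c ∈ T, r.S x z c → c ∈ S ∩ T)
    (hO : ∀ x ∈ S ∪ T, ∀ z ∈ S ∪ T, ∀ c ∈ S ∪ T, r.S x z c →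
      (x ∈ S ∧ z ∈ S ∧ c ∈ S) ∨ (x ∈ T ∧ z ∈ T ∧ c ∈ T)) :
    ∃ o : V → V → V → Prop, Ax (setS r o) ((S ∪ T : Finset V) : Set V) ∧
      (∀ x ∈ S, ∀ z ∈ S, ∀ c ∈ S, (o x z c ↔ r.S x z c)) ∧
      (∀ x ∈ T, ∀ z ∈ T, ∀ c ∈ T, (o x z c ↔ r.S x z c)) ∧
      CS (setS r o) (S : Set V) ((S ∪ T : Finset V) : Set V) ∧
      Cl r.G T ((S ∪ T : Finset V) : Set V) := by
  have hgr : Gr r.G ((S ∪ T : Finset V) : Set V) := h.gr hS.gr hT.gr hcS hcT
  have hiso : ∀ u ∈ S ∪ T, ∀ v ∈ S ∪ T, r.G.Adj u v → ¬ r.P u := by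
    intro u hu v hv huv
    rcases h u hu v hv huv with ⟨a, b⟩ | ⟨a, b⟩
    · exact hS.iso u a v b huv
    · exact hT.iso u a v b huv
  have hcS' : Cl r.G S ((S ∪ T : Finset V) : Set V) := h.closed hcT
  have hcT' : Cl r.G T ((S ∪ T : Finset V) : Set V) := by
    rw [Finset.union_comm]
    have := hcS
    rw [Finset.inter_comm] at this
    exact h.symm.closed this
  have hSS : ∀ x ∈ S, ∀ z ∈ S, ∀ c ∈ S ∪ T, r.S x z c → c ∈ S := by
    intro x hx z hz c hc h1
    rcases hO x (Finset.mem_union_left _ hx) z (Finset.mem_union_left _ hz) c hc h1 with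
      ⟨_, _, h2⟩ | ⟨h2, h3, h4⟩
    · exact h2
    · exact (Finset.mem_inter.1 (hcTS x (Finset.mem_inter.2 ⟨hx, h2⟩) z
        (Finset.mem_inter.2 ⟨hz, h3⟩) c h4 h1)).1
  -- values at elements outside `S` are in `T`
  have hST : ∀ x ∈ S ∪ T, ∀ z ∈ S ∪ T, ∀ c ∈ S ∪ T, (x ∉ S ∨ z ∉ S) → r.S x z c → c ∈ T := by
    intro x hx z hz c hc h0 h1
    rcases hO x hx z hz c hc h1 with ⟨h2, h3, h4⟩ | ⟨_, _, h2⟩
    · rcases h0 with h0 | h0
      · exact absurd h2 h0
      · exact absurd h3 h0
    · exact h2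
  obtain ⟨o, ho1, hoP, ho2⟩ := complete hgr hiso
    (fun x => if x ∈ S then (if x ∈ T then S ∪ T else S) else T) (by
      intro x hx hp
      by_cases h1 : x ∈ S
      · by_cases h2 : x ∈ T
        · simp only [h1, h2, if_true]
          exact WC.refl _
        · simp only [h1, h2, if_true, if_false]
          exact hcS'.wc
      · simp only [h1, if_false]
        exact hcT'.wc) (by
      intro x hx hp
      by_cases h1 : x ∈ S
      · have pS : PA r.G (r.S x) (S : Set V) ((S ∪ T : Finset V) : Set V) := {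
          adj := fun z hz c hc h2 => (hS.SP x h1 z hz c (hSS x h1 z hz c hc h2) h2).2
          two := fun z hz a ha b hb c hc h2 h3 h4 => hS.two x h1 z hz a (hSS x h1 z hz a ha h2) b
            (hSS x h1 z hz b hb h3) c (hSS x h1 z hz c hc h4) h2 h3 h4
          cov := fun z hz w hw hzw => hS.cov x h1 hp z hz w hw hzw }
        by_cases h2 : x ∈ T
        · simp only [h1, h2, if_true]
          exact {
            adj := fun z hz c hc h3 => by
              by_cases h4 : z ∈ S
              · exact pS.adj z h4 c hc h3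
              · have h5 : z ∈ T := by
                  rcases Finset.mem_union.1 (Finset.mem_coe.1 hz) with h6 | h6
                  · exact absurd h6 h4
                  · exact h6
                exact (hT.SP x h2 z h5 c (hST x hx z hz c hc (Or.inr h4) h3) h3).2
            two := fun z hz a ha b hb c hc h3 h3' h3'' => by
              by_cases h4 : z ∈ S
              · exact pS.two z h4 a ha b hb c hc h3 h3' h3''
              · have h5 : z ∈ T := by
                  rcases Finset.mem_union.1 (Finset.mem_coe.1 hz) with h6 | h6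
                  · exact absurd h6 h4
                  · exact h6
                exact hT.two x h2 z h5 a (hST x hx z hz a ha (Or.inr h4) h3) b
                  (hST x hx z hz b hb (Or.inr h4) h3') c
                  (hST x hx z hz c hc (Or.inr h4) h3'') h3 h3' h3''
            cov := fun z hz w hw hzw => by
              rcases h z (Finset.mem_coe.1 hz) w (Finset.mem_coe.1 hw) hzw with
                ⟨h6, h7⟩ | ⟨h6, h7⟩
              · exact pS.cov z h6 w h7 hzw
              · exact hT.cov x h2 hp z h6 w h7 hzw }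
        · simp only [h1, h2, if_true, if_false]
          exact pS
      · simp only [h1, if_false]
        have h2 : x ∈ T := by
          rcases Finset.mem_union.1 (Finset.mem_coe.1 hx) with h3 | h3
          · exact absurd h3 h1
          · exact h3
        exact {
          adj := fun z hz c hc h3 => (hT.SP x h2 z hz c (hST x hx z
            (Finset.mem_union_right _ (Finset.mem_coe.1 hz)) c hc (Or.inl h1) h3) h3).2
          two := fun z hz a ha b hb c hc h3 h3' h3'' => by
            have hz' : z ∈ S ∪ T := Finset.mem_union_right _ (Finset.mem_coe.1 hz)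
            exact hT.two x h2 z hz a (hST x hx z hz' a ha (Or.inl h1) h3) b
              (hST x hx z hz' b hb (Or.inl h1) h3') c
              (hST x hx z hz' c hc (Or.inl h1) h3'') h3 h3' h3''
          cov := fun z hz w hw hzw => hT.cov x h2 hp z hz w hw hzw })
  have hoS : ∀ x ∈ S, ∀ z ∈ S, ∀ c ∈ S ∪ T, (o x z c ↔ r.S x z c) := by
    intro x hx z hz c hc
    have hxu : x ∈ S ∪ T := Finset.mem_union_left _ hx
    have hzu : z ∈ S ∪ T := Finset.mem_union_left _ hz
    by_cases hp : r.P x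
    · have h3 := ho2 x hxu hp
      by_cases h2 : x ∈ T
      · simp only [hx, h2, if_true] at h3
        exact h3 z hzu c hc
      · simp only [hx, h2, if_true, if_false] at h3
        exact h3 z hz c hc
    · exact ⟨fun h4 => absurd (hoP x z c h4) hp,
        fun h4 => absurd (hS.SP x hx z hz c (hSS x hx z hz c hc h4) h4).1 hp⟩
  have hoT : ∀ x ∈ T, ∀ z ∈ T, ∀ c ∈ T, (o x z c ↔ r.S x z c) := by
    intro x hx z hz c hc
    have hxu : x ∈ S ∪ T := Finset.mem_union_right _ hx
    have hzu : z ∈ S ∪ T := Finset.mem_union_right _ hz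
    have hcu : c ∈ S ∪ T := Finset.mem_union_right _ hc
    by_cases hp : r.P x
    · have h3 := ho2 x hxu hp
      by_cases h2 : x ∈ S
      · simp only [hx, h2, if_true] at h3
        exact h3 z hzu c hcu
      · simp only [h2, if_false] at h3
        exact h3 z hz c hcu
    · exact ⟨fun h4 => absurd (hoP x z c h4) hp,
        fun h4 => absurd (hT.SP x hx z hz c hc h4).1 hp⟩
  refine ⟨o, ho1, fun x hx z hz c hc => hoS x hx z hz c (Finset.mem_union_left _ hc), hoT,
    ⟨DC.of_cl hcS', ?_⟩, hcT'⟩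
  intro x hx z hz c hc h1
  exact hSS x hx z hz c (Finset.mem_coe.1 hc) ((hoS x hx z hz c (Finset.mem_coe.1 hc)).1 h1)

/-! ### The union of the two structures -/

/-- The union of the structure `Q` on `D` and the image of `q` on `B`. -/
def amR {F V : Type} (Q : Rl V) (D : Finset V) (q : Rl F) (B : Finset F) (e : F → V)
    (he : Set.InjOn e (B : Set F)) : Rl V where
  G :=
    { Adj := fun u v => (u ∈ D ∧ v ∈ D ∧ Q.G.Adj u v) ∨
        ∃ x ∈ B, ∃ y ∈ B, u = e x ∧ v = e y ∧ q.G.Adj x y
      symm := by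
        constructor
        rintro u v (⟨h1, h2, h3⟩ | ⟨x, hx, y, hy, h1, h2, h3⟩)
        · exact Or.inl ⟨h2, h1, h3.symm⟩
        · exact Or.inr ⟨y, hy, x, hx, h2, h1, h3.symm⟩
      loopless := by
        constructor
        rintro u (⟨h1, h2, h3⟩ | ⟨x, hx, y, hy, h1, h2, h3⟩)
        · exact Q.G.loopless.irrefl u h3
        · have : x = y := he hx hy (h1.symm.trans h2)
          subst this
          exact q.G.loopless.irrefl x h3 }
  P := fun u => (u ∈ D ∧ Q.P u) ∨ ∃ x ∈ B, u = e x ∧ q.P x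
  S := fun x v w => (x ∈ D ∧ v ∈ D ∧ w ∈ D ∧ Q.S x v w) ∨
    ∃ x' ∈ B, ∃ v' ∈ B, ∃ w' ∈ B, x = e x' ∧ v = e v' ∧ w = e w' ∧ q.S x' v' w'

section

variable {F V : Type} {Q : Rl V} {D : Finset V} {q : Rl F} {A B : Finset F} {e : F → V}
  {he : Set.InjOn e (B : Set F)}

theorem amR_left (hg : RefOn q Q (A : Set F) e)
    (hout : ∀ x ∈ B, e x ∈ D → x ∈ A) :
    RefOn Q (amR Q D q B e he) (D : Set V) id where
  inj := Set.injOn_id _
  P x hx := by
    constructor
    · rintro (⟨_, h⟩ | ⟨y, hy, h1, h2⟩)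
      · exact h
      · have h3 : y ∈ A := hout y hy (by rw [← h1]; exact hx)
        have := (hg.P y h3).2 h2
        rw [← h1] at this
        exact this
    · intro h
      exact Or.inl ⟨hx, h⟩
  G x hx y hy := by
    constructor
    · rintro (⟨_, _, h⟩ | ⟨x', hx', y', hy', h1, h2, h3⟩)
      · exact h
      · have hx1 : x' ∈ A := hout x' hx' (by rw [← h1]; exact hx)
        have hy1 : y' ∈ A := hout y' hy' (by rw [← h2]; exact hy)
        have := (hg.G x' hx1 y' hy1).2 h3
        rw [← h1, ← h2] at this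
        exact this
    · intro h
      exact Or.inl ⟨hx, hy, h⟩
  S x hx v hv w hw := by
    constructor
    · rintro (⟨_, _, _, h⟩ | ⟨x', hx', v', hv', w', hw', h1, h2, h3, h4⟩)
      · exact h
      · have hx1 : x' ∈ A := hout x' hx' (by rw [← h1]; exact hx)
        have hv1 : v' ∈ A := hout v' hv' (by rw [← h2]; exact hv)
        have hw1 : w' ∈ A := hout w' hw' (by rw [← h3]; exact hw)
        have := (hg.S x' hx1 v' hv1 w' hw1).2 h4
        rw [← h1, ← h2, ← h3] at this
        exact this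
    · intro h
      exact Or.inl ⟨hx, hv, hw, h⟩

theorem amR_right (hg : RefOn q Q (A : Set F) e) (hout : ∀ x ∈ B, e x ∈ D → x ∈ A) :
    RefOn q (amR Q D q B e he) (B : Set F) e where
  inj := he
  P x hx := by
    constructor
    · rintro (⟨h1, h2⟩ | ⟨y, hy, h1, h2⟩)
      · exact (hg.P x (hout x hx h1)).1 h2
      · have : x = y := he hx hy h1
        subst this
        exact h2
    · intro h
      exact Or.inr ⟨x, hx, rfl, h⟩
  G x hx y hy := by
    constructor
    · rintro (⟨h1, h2, h3⟩ | ⟨x', hx', y', hy', h1, h2, h3⟩)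
      · exact (hg.G x (hout x hx h1) y (hout y hy h2)).1 h3
      · have hx1 : x = x' := he hx hx' h1
        have hy1 : y = y' := he hy hy' h2
        subst hx1 hy1
        exact h3
    · intro h
      exact Or.inr ⟨x, hx, y, hy, rfl, rfl, h⟩
  S x hx v hv w hw := by
    constructor
    · rintro (⟨h1, h2, h3, h4⟩ | ⟨x', hx', v', hv', w', hw', h1, h2, h3, h4⟩)
      · exact (hg.S x (hout x hx h1) v (hout v hv h2) w (hout w hw h3)).1 h4
      · have hx1 : x = x' := he hx hx' h1
        have hv1 : v = v' := he hv hv' h2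
        have hw1 : w = w' := he hw hw' h3
        subst hx1 hv1 hw1
        exact h4
    · intro h
      exact Or.inr ⟨x, hx, v, hv, w, hw, rfl, rfl, rfl, h⟩

theorem amR_free : Free (amR Q D q B e he).G D (B.image e) := by
  rintro u _ v _ (⟨h1, h2, _⟩ | ⟨x, hx, y, hy, h1, h2, _⟩)
  · exact Or.inl ⟨h1, h2⟩
  · right
    rw [h1, h2]
    exact ⟨Finset.mem_image_of_mem e hx, Finset.mem_image_of_mem e hy⟩

end

/-- The embedding of `B` extending `g`, fresh outside `D`. -/
theorem exists_fresh {F V : Type} [Infinite V] (D : Finset V) (A B : Finset F) (g : F → V)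
    (hg : Set.InjOn g (A : Set F)) (hD : ∀ x ∈ A, g x ∈ D) :
    ∃ e : F → V, (∀ x ∈ A, e x = g x) ∧ Set.InjOn e (B : Set F) ∧
      ∀ x ∈ B, e x ∈ D → x ∈ A := by
  let idx : F → ℕ := fun x => if h : x ∈ B then (B.equivFin ⟨x, h⟩).val else 0
  have hidx : ∀ x ∈ B, ∀ y ∈ B, idx x = idx y → x = y := by
    intro x hx y hy hxy
    simp only [idx, dif_pos hx, dif_pos hy] at hxy
    have h1 := B.equivFin.injective (Fin.ext hxy)
    exact congrArg Subtype.val h1
  have hinf : ((D : Set V)ᶜ).Infinite := D.finite_toSet.infinite_compl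
  let emb := hinf.natEmbedding
  have hemb : ∀ n, (emb n : V) ∉ D := fun n h => (emb n).2 (Finset.mem_coe.2 h)
  refine ⟨fun x => if x ∈ A then g x else emb (idx x), ?_, ?_, ?_⟩
  · intro x hx
    simp [hx]
  · intro x hx y hy hxy
    simp only at hxy
    by_cases h1 : x ∈ A
    · by_cases h2 : y ∈ A
      · simp only [h1, h2, if_true] at hxy
        exact hg h1 h2 hxy
      · simp only [h1, h2, if_true, if_false] at hxy
        exact absurd (hD x h1) (by rw [hxy]; exact hemb _)
    · by_cases h2 : y ∈ A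
      · simp only [h1, h2, if_true, if_false] at hxy
        exact absurd (hD y h2) (by rw [← hxy]; exact hemb _)
      · simp only [h1, h2, if_false] at hxy
        exact hidx x hx y hy (emb.injective (Subtype.ext hxy))
  · intro x hx hxD
    by_contra h1
    simp only [h1, if_false] at hxD
    exact hemb _ hxD

/-! ### Adding one vertex -/

/-- The structure with a new vertex `w` joined to `z`, chosen by `x` at `z`. -/
def addR (Q : Rl V) (D : Finset V) (x z w : V) (hw : w ∉ D) (hz : z ∈ D) : Rl V where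
  G :=
    { Adj := fun u v => (u ∈ D ∧ v ∈ D ∧ Q.G.Adj u v) ∨ (u = w ∧ v = z) ∨ (u = z ∧ v = w)
      symm := by
        constructor
        rintro u v (⟨h1, h2, h3⟩ | ⟨h1, h2⟩ | ⟨h1, h2⟩)
        · exact Or.inl ⟨h2, h1, h3.symm⟩
        · exact Or.inr (Or.inr ⟨h2, h1⟩)
        · exact Or.inr (Or.inl ⟨h2, h1⟩)
      loopless := by
        constructor
        rintro u (⟨h1, h2, h3⟩ | ⟨h1, h2⟩ | ⟨h1, h2⟩)
        · exact Q.G.loopless.irrefl u h3
        · exact hw (by rw [← h1, h2]; exact hz)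
        · exact hw (by rw [← h2, h1]; exact hz) }
  P := fun u => u ∈ D ∧ Q.P u
  S := fun x' z' c => (x' ∈ D ∧ z' ∈ D ∧ c ∈ D ∧ Q.S x' z' c) ∨ (x' = x ∧ z' = z ∧ c = w) ∨
    (x' ∈ D ∧ Q.P x' ∧ z' = w ∧ c = z)

section

variable {Q : Rl V} {D : Finset V} {x z w : V} {hw : w ∉ D} {hz : z ∈ D}

theorem addR_ref : RefOn Q (addR Q D x z w hw hz) (D : Set V) id where
  inj := Set.injOn_id _
  P u hu := ⟨fun h => h.2, fun h => ⟨hu, h⟩⟩
  G u hu v hv := by
    constructor
    · rintro (⟨_, _, h⟩ | ⟨h1, _⟩ | ⟨_, h1⟩)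
      · exact h
      · exact absurd (h1 ▸ hu : w ∈ (D : Set V)) hw
      · exact absurd (h1 ▸ hv : w ∈ (D : Set V)) hw
    · intro h
      exact Or.inl ⟨hu, hv, h⟩
  S u hu v hv c hc := by
    constructor
    · rintro (⟨_, _, _, h⟩ | ⟨_, _, h1⟩ | ⟨_, _, h1, _⟩)
      · exact h
      · exact absurd (h1 ▸ hc : w ∈ (D : Set V)) hw
      · exact absurd (h1 ▸ hv : w ∈ (D : Set V)) hw
    · intro h
      exact Or.inl ⟨hu, hv, hc, h⟩

theorem addR_dl {X : Finset V} (hX : w ∈ X) :
    dl (addR Q D x z w hw hz).G (X.erase w) + 1 ≤ dl (addR Q D x z w hw hz).G X := by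
  have h1 : es (addR Q D x z w hw hz).G X ⊆
      insert s(z, w) (es (addR Q D x z w hw hz).G (X.erase w)) := by
    intro e he
    rw [Finset.mem_insert]
    rw [mem_es] at he
    induction e using Sym2.inductionOn with
    | _ u v =>
      have hu := he.1 u (by simp)
      have hv := he.1 v (by simp)
      have h2 : (addR Q D x z w hw hz).G.Adj u v := by simpa using he.2
      rcases h2 with ⟨h2, h3, h4⟩ | ⟨h2, h3⟩ | ⟨h2, h3⟩
      · right
        rw [mem_es]
        refine ⟨?_, he.2⟩
        intro c hc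
        rcases Sym2.mem_iff.1 hc with rfl | rfl
        · exact Finset.mem_erase.2 ⟨fun h => hw (h ▸ h2), hu⟩
        · exact Finset.mem_erase.2 ⟨fun h => hw (h ▸ h3), hv⟩
      · left
        rw [h2, h3]
        exact Sym2.eq_swap
      · left
        rw [h2, h3]
  have h2 := (Finset.card_le_card h1).trans (Finset.card_insert_le _ _)
  have h3 := Finset.card_erase_add_one hX
  simp only [dl]
  omega

end

end AmG

open AmG

theorem amG {F V : Type} [Infinite V] (Q : Rl V) (D : Finset V) (hQ : Ax Q (D : Set V))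
    (q : Rl F) (A B : Finset F) (hq : Ax q (B : Set F)) (hA : CS q (A : Set F) (B : Set F))
    (g : F → V) (hg : RefOn q Q (A : Set F) g) (hgc : DC Q.G (g '' (A : Set F)) (D : Set V)) :
    ∃ (Q' : Rl V) (D' : Finset V) (g' : F → V), D ⊆ D' ∧ Ax Q' (D' : Set V) ∧
      RefOn Q Q' (D : Set V) id ∧ CS Q' (D : Set V) (D' : Set V) ∧ RefOn q Q' (B : Set F) g' ∧
      (∀ x ∈ A, g' x = g x) ∧ (∀ x ∈ B, g' x ∈ D') ∧
      DC Q'.G (g' '' (B : Set F)) (D' : Set V) := by
  have hAB : A ⊆ B := by exact_mod_cast hA.dc.sub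
  have hgD : ∀ x ∈ A, g x ∈ D := fun x hx =>
    Finset.mem_coe.1 (hgc.sub (Set.mem_image_of_mem g (Finset.mem_coe.2 hx)))
  obtain ⟨e, he1, he2, he3⟩ := AmG.exists_fresh D A B g hg.inj hgD
  have hge : RefOn q Q (A : Set F) e :=
    { inj := fun x hx y hy hxy => hg.inj hx hy (by rw [← he1 x hx, ← he1 y hy]; exact hxy)
      P := fun x hx => by rw [he1 x hx]; exact hg.P x hx
      G := fun x hx y hy => by rw [he1 x hx, he1 y hy]; exact hg.G x hx y hy
      S := fun x hx v hv w hw => by
        rw [he1 x hx, he1 v hv, he1 w hw]; exact hg.S x hx v hv w hw }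
  have himg : A.image e = A.image g := Finset.image_congr fun x hx => he1 x hx
  have hint : D ∩ B.image e = A.image g := by
    ext u
    rw [Finset.mem_inter, Finset.mem_image, Finset.mem_image]
    constructor
    · rintro ⟨h1, x, hx, rfl⟩
      have h2 := he3 x hx h1
      exact ⟨x, h2, (he1 x h2).symm⟩
    · rintro ⟨x, hx, rfl⟩
      exact ⟨hgD x hx, x, hAB hx, he1 x hx⟩
  let r : Rl V := amR Q D q B e he2
  have hL : RefOn Q r (D : Set V) id := amR_left hge he3
  have hR : RefOn q r (B : Set F) e := amR_right hge he3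
  have hfree : Free r.G D (B.image e) := amR_free
  have hAxD : Ax r (D : Set V) := by
    have := RefOn.ax hL hQ
    rwa [Finset.image_id] at this
  have hAxT : Ax r ((B.image e : Finset V) : Set V) := RefOn.ax hR hq
  have hcS : Cl r.G (D ∩ B.image e) (D : Set V) := by
    have h1 : Cl Q.G (A.image g) (D : Set V) := DC.cl hgc (by rw [Finset.coe_image])
    have := RefOn.cl hL h1
    rw [Finset.image_id, Finset.image_id] at this
    rwa [hint]
  have hcT : Cl r.G (D ∩ B.image e) ((B.image e : Finset V) : Set V) := by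
    have h1 : Cl q.G A (B : Set F) := DC.cl hA.dc rfl
    have := RefOn.cl hR h1
    rw [himg] at this
    rwa [hint]
  obtain ⟨o, ho1, ho2, ho3, ho4, ho5⟩ := AmG.amalg hfree hAxD hAxT hcS hcT (by
    intro x hx v hv w hw h1
    rw [hint] at hx hv ⊢
    obtain ⟨x', hx', rfl⟩ := Finset.mem_image.1 hx
    obtain ⟨v', hv', rfl⟩ := Finset.mem_image.1 hv
    obtain ⟨w', hw', rfl⟩ := Finset.mem_image.1 hw
    rw [← he1 x' hx', ← he1 v' hv'] at h1
    have h2 := (hR.S x' (hAB hx') v' (hAB hv') w' hw').1 h1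
    have h3 := hA.S x' hx' v' hv' w' hw' h2
    rw [he1 w' h3]
    exact Finset.mem_image_of_mem g h3) (by
    rintro x _ v _ w _ (⟨h1, h2, h3, h4⟩ | ⟨x', hx', v', hv', w', hw', h1, h2, h3, h4⟩)
    · exact Or.inl ⟨h1, h2, h3⟩
    · right
      rw [h1, h2, h3]
      exact ⟨Finset.mem_image_of_mem e hx', Finset.mem_image_of_mem e hv',
        Finset.mem_image_of_mem e hw'⟩)
  refine ⟨setS r o, D ∪ B.image e, e, Finset.subset_union_left, ho1, ?_, ho4, ?_, he1, ?_, ?_⟩
  · exact
      { inj := hL.inj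
        P := hL.P
        G := hL.G
        S := fun x hx v hv w hw => (ho2 x hx v hv w hw).trans (hL.S x hx v hv w hw) }
  · exact
      { inj := hR.inj
        P := hR.P
        G := hR.G
        S := fun x hx v hv w hw =>
          (ho3 (e x) (Finset.mem_image_of_mem e hx) (e v) (Finset.mem_image_of_mem e hv) (e w)
            (Finset.mem_image_of_mem e hw)).trans (hR.S x hx v hv w hw) }
  · intro x hx
    exact Finset.mem_union_right _ (Finset.mem_image_of_mem e hx)
  · have := DC.of_cl ho5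
    rwa [Finset.coe_image] at this

namespace AmG

/-- Adding one chosen neighbour. -/
theorem fill1 {V : Type} [Infinite V] (Q : Rl V) (D : Finset V) (hQ : Ax Q (D : Set V)) {x z : V}
    (hx : x ∈ D) (hz : z ∈ D) (hP : Q.P x) (hz' : ¬ Q.P z)
    (hno : ∀ a ∈ D, ∀ b ∈ D, Q.S x z a → Q.S x z b → a = b) :
    ∃ (Q' : Rl V) (D' : Finset V), D ⊆ D' ∧ Ax Q' (D' : Set V) ∧ RefOn Q Q' (D : Set V) id ∧
      DC Q'.G (D : Set V) (D' : Set V) ∧ ∃ w ∈ D', w ∉ D ∧ Q'.S x z w := by
  obtain ⟨w, hw⟩ := Infinite.exists_notMem_finset D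
  have hR : RefOn Q (addR Q D x z w hw hz) (D : Set V) id := addR_ref
  have hdl : ∀ X : Finset V, X ⊆ D → dl (addR Q D x z w hw hz).G X = dl Q.G X := by
    intro X hX
    have := RefOn.dl hR (Y := X) (by exact_mod_cast hX)
    rwa [Finset.image_id] at this
  have hwz : w ≠ z := fun h => hw (h ▸ hz)
  have hmem : ∀ u, u ∈ insert w D → u ≠ w → u ∈ D := by
    intro u hu hne
    rcases Finset.mem_insert.1 hu with h | h
    · exact absurd h hne
    · exact h
  refine ⟨addR Q D x z w hw hz, insert w D, Finset.subset_insert _ _, ?_, hR, ?_,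
    w, Finset.mem_insert_self _ _, hw, Or.inr (Or.inl ⟨rfl, rfl, rfl⟩)⟩
  · exact {
      gr := by
        intro X hX hne
        have hX' : X ⊆ insert w D := by exact_mod_cast hX
        by_cases hwX : w ∈ X
        · have h1 := addR_dl (Q := Q) (D := D) (x := x) (z := z) (hw := hw) (hz := hz) hwX
          have h2 : X.erase w ⊆ D := by
            intro u hu
            exact hmem u (hX' (Finset.mem_erase.1 hu).2) (Finset.mem_erase.1 hu).1
          have h3 := Finset.card_erase_add_one hwX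
          rcases (X.erase w).eq_empty_or_nonempty with h4 | h4
          · rw [h4] at h3
            have h5 : X = {w} := by
              apply Finset.eq_singleton_iff_unique_mem.2
              refine ⟨hwX, fun u hu => ?_⟩
              by_contra h6
              have : u ∈ X.erase w := Finset.mem_erase.2 ⟨h6, hu⟩
              rw [h4] at this
              exact absurd this (Finset.notMem_empty u)
            have h6 : dl (addR Q D x z w hw hz).G {w} = 2 := by
              have : es (addR Q D x z w hw hz).G {w} = ∅ := by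
                apply Finset.eq_empty_of_forall_notMem
                intro e he
                rw [mem_es] at he
                induction e using Sym2.inductionOn with
                | _ u v =>
                  have hu := he.1 u (by simp)
                  have hv := he.1 v (by simp)
                  have h2 : (addR Q D x z w hw hz).G.Adj u v := by simpa using he.2
                  rw [Finset.mem_singleton] at hu hv
                  rw [hu, hv] at h2
                  exact (addR Q D x z w hw hz).G.loopless.irrefl w h2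
              simp only [dl, this]
              simp
            rw [h5, h6, Finset.card_singleton]
            decide
          · have h5 := hQ.gr (X.erase w) (by exact_mod_cast h2) h4
            rw [hdl _ h2] at h1
            have h6 : 1 ≤ (X.erase w).card := Finset.card_pos.2 h4
            have h7 := hQ.gr.two_le (X := X.erase w) (by exact_mod_cast h2) h4
            have h8 : (dl Q.G (X.erase w)).toNat + 1 ≤
                (dl (addR Q D x z w hw hz).G X).toNat := by omega
            have h9 : 3 ^ ((dl Q.G (X.erase w)).toNat + 1) ≤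
                3 ^ (dl (addR Q D x z w hw hz).G X).toNat :=
              Nat.pow_le_pow_right (by norm_num) h8
            rw [pow_succ] at h9
            omega
        · have h2 : X ⊆ D := by
            intro u hu
            exact hmem u (hX' hu) (fun h => hwX (h ▸ hu))
          rw [hdl X h2]
          exact hQ.gr X (by exact_mod_cast h2) hne
      iso := by
        rintro u hu v hv (⟨h1, h2, h3⟩ | ⟨h1, h2⟩ | ⟨h1, h2⟩) ⟨h4, h5⟩
        · exact hQ.iso u h1 v h2 h3 h5
        · exact hw (h1 ▸ h4)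
        · exact hz' (h1 ▸ h5)
      SP := by
        rintro u hu v hv c hc (⟨h1, h2, h3, h4⟩ | ⟨h1, h2, h3⟩ | ⟨h1, h2, h3, h4⟩)
        · have h5 := hQ.SP u h1 v h2 c h3 h4
          exact ⟨⟨h1, h5.1⟩, Or.inl ⟨h2, h3, h5.2⟩⟩
        · exact ⟨⟨h1 ▸ hx, h1 ▸ hP⟩, Or.inr (Or.inr ⟨h2, h3⟩)⟩
        · exact ⟨⟨h1, h2⟩, Or.inr (Or.inl ⟨h3, h4⟩)⟩
      two := by
        rintro u hu v hv a ha b hb c hc h1 h2 h3
        by_cases hvw : v = w
        · have key : ∀ d, (addR Q D x z w hw hz).S u v d → d = z := by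
            rintro d (⟨_, h, _, _⟩ | ⟨_, h, _⟩ | ⟨_, _, _, h⟩)
            · exact absurd (hvw ▸ h) hw
            · exact absurd (hvw.symm.trans h) hwz
            · exact h
          exact Or.inl ((key a h1).trans (key b h2).symm)
        · have key : ∀ d, (addR Q D x z w hw hz).S u v d →
              (u ∈ D ∧ v ∈ D ∧ d ∈ D ∧ Q.S u v d) ∨ (u = x ∧ v = z ∧ d = w) := by
            rintro d (h | h | ⟨_, _, h, _⟩)
            · exact Or.inl h
            · exact Or.inr h
            · exact absurd h hvw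
          rcases key a h1 with ⟨a1, a2, a3, a4⟩ | ⟨a1, a2, a3⟩
          · rcases key b h2 with ⟨b1, b2, b3, b4⟩ | ⟨b1, b2, b3⟩
            · rcases key c h3 with ⟨c1, c2, c3, c4⟩ | ⟨c1, c2, c3⟩
              · exact hQ.two u a1 v a2 a a3 b b3 c c3 a4 b4 c4
              · subst c1 c2
                exact Or.inl (hno a a3 b b3 a4 b4)
            · rcases key c h3 with ⟨c1, c2, c3, c4⟩ | ⟨c1, c2, c3⟩
              · subst b1 b2
                exact Or.inr (Or.inl (hno a a3 c c3 a4 c4))
              · exact Or.inr (Or.inr (b3.trans c3.symm))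
          · rcases key b h2 with ⟨b1, b2, b3, b4⟩ | ⟨b1, b2, b3⟩
            · rcases key c h3 with ⟨c1, c2, c3, c4⟩ | ⟨c1, c2, c3⟩
              · subst a1 a2
                exact Or.inr (Or.inr (hno b b3 c c3 b4 c4))
              · exact Or.inr (Or.inl (a3.trans c3.symm))
            · exact Or.inl (a3.trans b3.symm)
      cov := by
        rintro u hu ⟨h1, h2⟩ v hv c hc (⟨h3, h4, h5⟩ | ⟨h3, h4⟩ | ⟨h3, h4⟩)
        · rcases hQ.cov u h1 h2 v h3 c h4 h5 with k | k
          · exact Or.inl (Or.inl ⟨h1, h3, h4, k⟩)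
          · exact Or.inr (Or.inl ⟨h1, h4, h3, k⟩)
        · exact Or.inl (Or.inr (Or.inr ⟨h1, h2, h3, h4⟩))
        · exact Or.inr (Or.inr (Or.inr ⟨h1, h2, h4, h3⟩)) }
  · apply DC.of_cl
    refine ⟨by exact_mod_cast Finset.subset_insert w D, ?_⟩
    intro X hX hDX
    have hX' : X ⊆ insert w D := by exact_mod_cast hX
    have hwX : w ∈ X := by
      by_contra hwX
      apply (Finset.ssubset_iff_subset_ne.1 hDX).2
      apply Finset.Subset.antisymm hDX.1
      intro u hu
      exact hmem u (hX' hu) (fun h => hwX (h ▸ hu))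
    have h1 := addR_dl (Q := Q) (D := D) (x := x) (z := z) (hw := hw) (hz := hz) hwX
    have h2 : X.erase w = D := by
      ext u
      rw [Finset.mem_erase]
      constructor
      · rintro ⟨h3, h4⟩
        exact hmem u (hX' h4) h3
      · intro h3
        exact ⟨fun h => hw (h ▸ h3), hDX.1 h3⟩
    rw [h2] at h1
    omega

end AmG

theorem fill {V : Type} [Infinite V] (Q : Rl V) (D : Finset V) (hQ : Ax Q (D : Set V)) {x z : V}
    (hx : x ∈ D) (hz : z ∈ D) (hP : Q.P x) (hz' : ¬ Q.P z) :
    ∃ (Q' : Rl V) (D' : Finset V), D ⊆ D' ∧ Ax Q' (D' : Set V) ∧ RefOn Q Q' (D : Set V) id ∧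
      DC Q'.G (D : Set V) (D' : Set V) ∧
      ∃ a ∈ D', ∃ b ∈ D', a ≠ b ∧ Q'.S x z a ∧ Q'.S x z b := by
  by_cases h1 : ∃ a ∈ D, ∃ b ∈ D, a ≠ b ∧ Q.S x z a ∧ Q.S x z b
  · exact ⟨Q, D, subset_rfl, hQ,
      ⟨Set.injOn_id _, fun _ _ => Iff.rfl, fun _ _ _ _ => Iff.rfl, fun _ _ _ _ _ _ => Iff.rfl⟩,
      DC.of_cl (Cl.refl D), h1⟩
  · obtain ⟨Q1, D1, hD1, hQ1, hR1, hc1, w1, hw1, hw1', hS1⟩ := fill1 Q D hQ hx hz hP hz' (by
      intro a ha b hb h2 h3
      by_contra h4
      exact h1 ⟨a, ha, b, hb, h4, h2, h3⟩)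
    by_cases h2 : ∃ a ∈ D1, ∃ b ∈ D1, a ≠ b ∧ Q1.S x z a ∧ Q1.S x z b
    · exact ⟨Q1, D1, hD1, hQ1, hR1, hc1, h2⟩
    · obtain ⟨Q2, D2, hD2, hQ2, hR2, hc2, w2, hw2, hw2', hS2⟩ := fill1 Q1 D1 hQ1 (hD1 hx) (hD1 hz)
        ((hR1.P x hx).2 hP) (fun h => hz' ((hR1.P z hz).1 h)) (by
        intro a ha b hb h3 h4
        by_contra h5
        exact h2 ⟨a, ha, b, hb, h5, h3, h4⟩)
      have hR : RefOn Q Q2 (D : Set V) id :=
        { inj := Set.injOn_id _
          P := fun u hu => (hR2.P u (hD1 hu)).trans (hR1.P u hu)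
          G := fun u hu v hv => (hR2.G u (hD1 hu) v (hD1 hv)).trans (hR1.G u hu v hv)
          S := fun u hu v hv c hc =>
            (hR2.S u (hD1 hu) v (hD1 hv) c (hD1 hc)).trans (hR1.S u hu v hv c hc) }
      refine ⟨Q2, D2, hD1.trans hD2, hQ2, hR, ?_, w1, hD2 hw1, w2, hw2, ?_, ?_, hS2⟩
      · apply DC.of_cl
        have h3 : Cl Q2.G D (D1 : Set V) := by
          have := RefOn.cl hR2 (DC.cl hc1 rfl)
          rwa [Finset.image_id, Finset.image_id] at this
        exact h3.trans (DC.cl hc2 rfl)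
      · intro h
        exact hw2' (h ▸ hw1)
      · exact (hR2.S x (hD1 hx) z (hD1 hz) w1 hw1).2 hS1

end H968G
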