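import Pool.Agent.helper968_nsop1.Tri

/-!
Sparse graphs with points choosing neighbours of the vertices: definitions.
-/

namespace H968G

open Classical Finset H968F

/-- A graph `G`, a predicate `P` (points) and a relation `S x z w` (the point `x` chooses the
neighbour `w` of the vertex `z`). -/
structure Rl (V : Type) where
  G : SimpleGraph V
  P : V → Prop
  S : V → V → V → Prop

variable {V : Type}

/-- The axioms, on a set `U`. -/
structure Ax (r : Rl V) (U : Set V) : Prop where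
  gr : Gr r.G U
  iso : ∀ u ∈ U, ∀ v ∈ U, r.G.Adj u v → ¬ r.P u
  SP : ∀ x ∈ U, ∀ z ∈ U, ∀ w ∈ U, r.S x z w → r.P x ∧ r.G.Adj z w
  two : ∀ x ∈ U, ∀ z ∈ U, ∀ a ∈ U, ∀ b ∈ U, ∀ c ∈ U,
    r.S x z a → r.S x z b → r.S x z c → a = b ∨ a = c ∨ b = c
  cov : ∀ x ∈ U, r.P x → ∀ z ∈ U, ∀ w ∈ U, r.G.Adj z w → r.S x z w ∨ r.S x w z

/-- Every point of `U` chooses exactly two neighbours of every vertex of `U`. -/
def Full (r : Rl V) (U : Set V) : Prop :=
  ∀ x ∈ U, r.P x → ∀ z ∈ U, ¬ r.P z → ∃ a ∈ U, ∃ b ∈ U, a ≠ b ∧ r.S x z a ∧ r.S x z b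

/-- `A` is closed in `U` in the sense of the graph. -/
structure DC (G : SimpleGraph V) (A U : Set V) : Prop where
  sub : A ⊆ U
  lt : ∀ Y : Finset V, (Y : Set V) ⊆ U → ¬ (Y : Set V) ⊆ A → dl G (Y.filter (· ∈ A)) < dl G Y

/-- `A` is closed in `U`. -/
structure CS (r : Rl V) (A U : Set V) : Prop where
  dc : DC r.G A U
  S : ∀ x ∈ A, ∀ z ∈ A, ∀ c ∈ U, r.S x z c → c ∈ A

/-- On the set `A` the map `g` is injective and preserves and reflects all relations. -/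
structure RefOn {F V : Type} (Q : Rl F) (r : Rl V) (A : Set F) (g : F → V) : Prop where
  inj : Set.InjOn g A
  P : ∀ x ∈ A, (r.P (g x) ↔ Q.P x)
  G : ∀ x ∈ A, ∀ y ∈ A, (r.G.Adj (g x) (g y) ↔ Q.G.Adj x y)
  S : ∀ x ∈ A, ∀ v ∈ A, ∀ w ∈ A, (r.S (g x) (g v) (g w) ↔ Q.S x v w)

/-- The extension property. -/
def EP (r : Rl V) : Prop :=
  ∀ (n : ℕ) (Q : Rl (Fin n)) (A : Set (Fin n)) (g : Fin n → V), Ax Q Set.univ →
    CS Q A Set.univ → RefOn Q r A g → DC r.G (g '' A) Set.univ →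
    ∃ g' : Fin n → V, RefOn Q r Set.univ g' ∧ (∀ x ∈ A, g' x = g x) ∧
      DC r.G (Set.range g') Set.univ

/-- The closure of a set. -/
def clo (r : Rl V) (X : Set V) : Set V := ⋂₀ {A | X ⊆ A ∧ CS r A Set.univ}

end H968G
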