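import Pool.Agent.helper968_onebased.Closed

/-!
Maps between structures and closed sets (by helper530).
-/

namespace H968G

open Classical Finset H968F

variable {F V W : Type} {Q : Rl F} {r : Rl V} {s : Rl W} {A B : Set F} {g : F → V}

theorem RefOn.mono (h : RefOn Q r A g) (hB : B ⊆ A) : RefOn Q r B g where
  inj := h.inj.mono hB
  P x hx := h.P x (hB hx)
  G x hx y hy := h.G x (hB hx) y (hB hy)
  S x hx v hv w hw := h.S x (hB hx) v (hB hv) w (hB hw)

theorem RefOn.id' (r : Rl V) (A : Set V) : RefOn r r A id where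
  inj := Function.injective_id.injOn
  P _ _ := Iff.rfl
  G _ _ _ _ := Iff.rfl
  S _ _ _ _ _ _ := Iff.rfl

theorem RefOn.congr {g' : F → V} (h : RefOn Q r A g) (h' : ∀ x ∈ A, g' x = g x) :
    RefOn Q r A g' where
  inj := by
    intro x hx y hy hxy
    rw [h' x hx, h' y hy] at hxy
    exact h.inj hx hy hxy
  P x hx := by rw [h' x hx]; exact h.P x hx
  G x hx y hy := by rw [h' x hx, h' y hy]; exact h.G x hx y hy
  S x hx v hv w hw := by rw [h' x hx, h' v hv, h' w hw]; exact h.S x hx v hv w hw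

theorem RefOn.comp {f : V → W} (h : RefOn Q r A g) (h' : RefOn r s (g '' A) f) :
    RefOn Q s A (f ∘ g) where
  inj := by
    intro x hx y hy hxy
    exact h.inj hx hy (h'.inj (Set.mem_image_of_mem g hx) (Set.mem_image_of_mem g hy) hxy)
  P x hx := (h'.P (g x) (Set.mem_image_of_mem g hx)).trans (h.P x hx)
  G x hx y hy := (h'.G (g x) (Set.mem_image_of_mem g hx) (g y) (Set.mem_image_of_mem g hy)).trans
    (h.G x hx y hy)
  S x hx v hv w hw := (h'.S (g x) (Set.mem_image_of_mem g hx) (g v) (Set.mem_image_of_mem g hv)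
    (g w) (Set.mem_image_of_mem g hw)).trans (h.S x hx v hv w hw)

namespace J5982

theorem dl_image {H : SimpleGraph F} {G : SimpleGraph V} {X : Finset F} {g : F → V}
    (hi : Set.InjOn g (X : Set F)) (hG : ∀ x ∈ X, ∀ y ∈ X, (G.Adj (g x) (g y) ↔ H.Adj x y)) :
    H968F.dl G (X.image g) = H968F.dl H X := by
  have h1 : (X.image g).card = X.card := Finset.card_image_of_injOn hi
  have h2 : es G (X.image g) = (es H X).image (Sym2.map g) := by
    ext e
    induction e using Sym2.inductionOn with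
    | _ u v =>
      rw [mem_es]
      simp only [Sym2.mem_iff, SimpleGraph.mem_edgeSet, Finset.mem_image, forall_eq_or_imp,
        forall_eq]
      constructor
      · rintro ⟨⟨⟨x, hx, rfl⟩, ⟨y, hy, rfl⟩⟩, h3⟩
        refine ⟨s(x, y), ?_, by simp⟩
        rw [mem_es]
        simp only [Sym2.mem_iff, SimpleGraph.mem_edgeSet, forall_eq_or_imp, forall_eq]
        exact ⟨⟨hx, hy⟩, (hG x hx y hy).1 h3⟩
      · rintro ⟨e, he, h3⟩
        induction e using Sym2.inductionOn with
        | _ x y =>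
          rw [mem_es] at he
          simp only [Sym2.mem_iff, SimpleGraph.mem_edgeSet, forall_eq_or_imp, forall_eq] at he
          obtain ⟨⟨hx, hy⟩, hxy⟩ := he
          simp only [Sym2.map_mk, Sym2.eq_iff] at h3
          rcases h3 with ⟨rfl, rfl⟩ | ⟨rfl, rfl⟩
          · exact ⟨⟨⟨x, hx, rfl⟩, ⟨y, hy, rfl⟩⟩, (hG x hx y hy).2 hxy⟩
          · exact ⟨⟨⟨y, hy, rfl⟩, ⟨x, hx, rfl⟩⟩, ((hG x hx y hy).2 hxy).symm⟩
  have h3 : (es G (X.image g)).card = (es H X).card := by
    rw [h2]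
    apply Finset.card_image_of_injOn
    intro e he e' he' hee
    rw [Finset.mem_coe, mem_es] at he he'
    induction e using Sym2.inductionOn with
    | _ x y =>
      induction e' using Sym2.inductionOn with
      | _ x' y' =>
        simp only [Sym2.mem_iff, SimpleGraph.mem_edgeSet, forall_eq_or_imp, forall_eq] at he he'
        simp only [Sym2.map_mk, Sym2.eq_iff] at hee
        obtain ⟨⟨hx, hy⟩, _⟩ := he
        obtain ⟨⟨hx', hy'⟩, _⟩ := he'
        rw [Sym2.eq_iff]
        rcases hee with ⟨a, b⟩ | ⟨a, b⟩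
        · exact Or.inl ⟨hi hx hx' a, hi hy hy' b⟩
        · exact Or.inr ⟨hi hx hy' a, hi hy hx' b⟩
  simp only [H968F.dl, h1, h3]

theorem filter_image (h : RefOn Q r A g) (hBA : B ⊆ A) {X : Finset F} (hX : (X : Set F) ⊆ A) :
    (X.image g).filter (· ∈ g '' B) = (X.filter (· ∈ B)).image g := by
  ext y
  simp only [Finset.mem_filter, Finset.mem_image]
  constructor
  · rintro ⟨⟨x, hx, rfl⟩, ⟨z, hz, hzx⟩⟩
    have : z = x := h.inj (hBA hz) (hX hx) hzx
    exact ⟨x, ⟨hx, this ▸ hz⟩, rfl⟩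
  · rintro ⟨x, ⟨hx, hxB⟩, rfl⟩
    exact ⟨⟨x, hx, rfl⟩, ⟨x, hxB, rfl⟩⟩

theorem filter_sub {X : Finset F} {U : Set F} (hX : (X : Set F) ⊆ U) (B : Set F) :
    ((X.filter (· ∈ B) : Finset F) : Set F) ⊆ U := by
  intro x hx
  exact hX (Finset.mem_coe.2 (Finset.mem_filter.1 (Finset.mem_coe.1 hx)).1)

theorem image_sub {X : Finset F} {A : Set F} (g : F → V) (hX : (X : Set F) ⊆ A) :
    ((X.image g : Finset V) : Set V) ⊆ g '' A := by
  rw [Finset.coe_image]
  exact Set.image_mono hX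

end J5982

theorem RefOn.dl (h : RefOn Q r A g) {X : Finset F} (hX : (X : Set F) ⊆ A) :
    H968F.dl r.G (X.image g) = H968F.dl Q.G X :=
  J5982.dl_image (h.inj.mono hX) fun x hx y hy => h.G x (hX hx) y (hX hy)

theorem RefOn.ax (h : RefOn Q r A g) (hA : Ax Q A) : Ax r (g '' A) where
  gr := by
    intro X hX hne
    obtain ⟨Y, hY, rfl⟩ := Finset.subset_set_image_iff.1 hX
    have hne' : Y.Nonempty := by
      rw [Finset.image_nonempty] at hne
      exact hne
    have := hA.gr Y hY hne'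
    rw [h.dl hY, Finset.card_image_of_injOn (h.inj.mono hY)]
    exact this
  iso := by
    rintro _ ⟨u, hu, rfl⟩ _ ⟨v, hv, rfl⟩ huv hP
    exact hA.iso u hu v hv ((h.G u hu v hv).1 huv) ((h.P u hu).1 hP)
  SP := by
    rintro _ ⟨x, hx, rfl⟩ _ ⟨z, hz, rfl⟩ _ ⟨w, hw, rfl⟩ hS
    obtain ⟨a, b⟩ := hA.SP x hx z hz w hw ((h.S x hx z hz w hw).1 hS)
    exact ⟨(h.P x hx).2 a, (h.G z hz w hw).2 b⟩
  two := by
    rintro _ ⟨x, hx, rfl⟩ _ ⟨z, hz, rfl⟩ _ ⟨a, ha, rfl⟩ _ ⟨b, hb, rfl⟩ _ ⟨c, hc, rfl⟩ h1 h2 h3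
    rcases hA.two x hx z hz a ha b hb c hc ((h.S x hx z hz a ha).1 h1) ((h.S x hx z hz b hb).1 h2)
      ((h.S x hx z hz c hc).1 h3) with e | e | e
    · exact Or.inl (by rw [e])
    · exact Or.inr (Or.inl (by rw [e]))
    · exact Or.inr (Or.inr (by rw [e]))
  cov := by
    rintro _ ⟨x, hx, rfl⟩ hP _ ⟨z, hz, rfl⟩ _ ⟨w, hw, rfl⟩ hadj
    rcases hA.cov x hx ((h.P x hx).1 hP) z hz w hw ((h.G z hz w hw).1 hadj) with e | e
    · exact Or.inl ((h.S x hx z hz w hw).2 e)
    · exact Or.inr ((h.S x hx w hw z hz).2 e)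

theorem RefOn.ax' (h : RefOn Q r A g) (hA : Ax r (g '' A)) : Ax Q A where
  gr := by
    intro X hX hne
    have := hA.gr (X.image g) (J5982.image_sub g hX) (Finset.image_nonempty.2 hne)
    rw [h.dl hX, Finset.card_image_of_injOn (h.inj.mono hX)] at this
    exact this
  iso := by
    intro u hu v hv huv hP
    exact hA.iso (g u) ⟨u, hu, rfl⟩ (g v) ⟨v, hv, rfl⟩ ((h.G u hu v hv).2 huv) ((h.P u hu).2 hP)
  SP := by
    intro x hx z hz w hw hS
    obtain ⟨a, b⟩ := hA.SP (g x) ⟨x, hx, rfl⟩ (g z) ⟨z, hz, rfl⟩ (g w) ⟨w, hw, rfl⟩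
      ((h.S x hx z hz w hw).2 hS)
    exact ⟨(h.P x hx).1 a, (h.G z hz w hw).1 b⟩
  two := by
    intro x hx z hz a ha b hb c hc h1 h2 h3
    rcases hA.two (g x) ⟨x, hx, rfl⟩ (g z) ⟨z, hz, rfl⟩ (g a) ⟨a, ha, rfl⟩ (g b) ⟨b, hb, rfl⟩
      (g c) ⟨c, hc, rfl⟩ ((h.S x hx z hz a ha).2 h1) ((h.S x hx z hz b hb).2 h2)
      ((h.S x hx z hz c hc).2 h3) with e | e | e
    · exact Or.inl (h.inj ha hb e)
    · exact Or.inr (Or.inl (h.inj ha hc e))
    · exact Or.inr (Or.inr (h.inj hb hc e))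
  cov := by
    intro x hx hP z hz w hw hadj
    rcases hA.cov (g x) ⟨x, hx, rfl⟩ ((h.P x hx).2 hP) (g z) ⟨z, hz, rfl⟩ (g w) ⟨w, hw, rfl⟩
      ((h.G z hz w hw).2 hadj) with e | e
    · exact Or.inl ((h.S x hx z hz w hw).1 e)
    · exact Or.inr ((h.S x hx w hw z hz).1 e)

theorem RefOn.full (h : RefOn Q r A g) (hA : Full Q A) : Full r (g '' A) := by
  rintro _ ⟨x, hx, rfl⟩ hP _ ⟨z, hz, rfl⟩ hz'
  obtain ⟨a, ha, b, hb, hab, h1, h2⟩ := hA x hx ((h.P x hx).1 hP) z hz
    (fun e => hz' ((h.P z hz).2 e))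
  exact ⟨g a, ⟨a, ha, rfl⟩, g b, ⟨b, hb, rfl⟩, fun e => hab (h.inj ha hb e),
    (h.S x hx z hz a ha).2 h1, (h.S x hx z hz b hb).2 h2⟩

theorem RefOn.dc (h : RefOn Q r A g) (hB : DC Q.G B A) : DC r.G (g '' B) (g '' A) where
  sub := Set.image_mono hB.sub
  lt := by
    intro Y hY hYB
    obtain ⟨X, hX, rfl⟩ := Finset.subset_set_image_iff.1 hY
    have h1 : ¬ (X : Set F) ⊆ B := fun e => hYB (J5982.image_sub g e)
    have h2 := hB.lt X hX h1
    rw [J5982.filter_image h hB.sub hX, h.dl hX, h.dl (J5982.filter_sub hX B)]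
    exact h2

theorem RefOn.dc' (h : RefOn Q r A g) (hBA : B ⊆ A) (hB : DC r.G (g '' B) (g '' A)) :
    DC Q.G B A where
  sub := hBA
  lt := by
    intro X hX hXB
    have h1 : ¬ ((X.image g : Finset V) : Set V) ⊆ g '' B := by
      intro e
      apply hXB
      intro x hx
      have hgx : g x ∈ ((X.image g : Finset V) : Set V) :=
        Finset.mem_coe.2 (Finset.mem_image_of_mem g (Finset.mem_coe.1 hx))
      obtain ⟨z, hz, hzx⟩ := e hgx
      have : z = x := h.inj (hBA hz) (hX hx) hzx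
      exact this ▸ hz
    have h2 := hB.lt (X.image g) (J5982.image_sub g hX) h1
    rw [J5982.filter_image h hBA hX, h.dl hX, h.dl (J5982.filter_sub hX B)] at h2
    exact h2

theorem RefOn.cs (h : RefOn Q r A g) (hB : CS Q B A) : CS r (g '' B) (g '' A) where
  dc := h.dc hB.dc
  S := by
    rintro _ ⟨x, hx, rfl⟩ _ ⟨z, hz, rfl⟩ _ ⟨c, hc, rfl⟩ hS
    have hx' := hB.dc.sub hx
    have hz' := hB.dc.sub hz
    exact ⟨c, hB.S x hx z hz c hc ((h.S x hx' z hz' c hc).1 hS), rfl⟩

theorem RefOn.cs' (h : RefOn Q r A g) (hBA : B ⊆ A) (hB : CS r (g '' B) (g '' A)) :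
    CS Q B A where
  dc := h.dc' hBA hB.dc
  S := by
    intro x hx z hz c hc hS
    obtain ⟨d, hd, hdc⟩ := hB.S (g x) ⟨x, hx, rfl⟩ (g z) ⟨z, hz, rfl⟩ (g c) ⟨c, hc, rfl⟩
      ((h.S x (hBA hx) z (hBA hz) c hc).2 hS)
    have : d = c := h.inj (hBA hd) hc hdc
    exact this ▸ hd

theorem RefOn.inv [Nonempty F] (h : RefOn Q r A g) : ∃ g' : V → F, (∀ x ∈ A, g' (g x) = x) ∧
    RefOn r Q (g '' A) g' ∧ g' '' (g '' A) = A := by
  have hg : ∀ x ∈ A, Function.invFunOn g A (g x) = x := fun x hx => h.inj.leftInvOn_invFunOn hx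
  refine ⟨Function.invFunOn g A, hg, ?_, ?_⟩
  · refine ⟨?_, ?_, ?_, ?_⟩
    · rintro _ ⟨x, hx, rfl⟩ _ ⟨y, hy, rfl⟩ hxy
      rw [hg x hx, hg y hy] at hxy
      rw [hxy]
    · rintro _ ⟨x, hx, rfl⟩
      rw [hg x hx]
      exact (h.P x hx).symm
    · rintro _ ⟨x, hx, rfl⟩ _ ⟨y, hy, rfl⟩
      rw [hg x hx, hg y hy]
      exact (h.G x hx y hy).symm
    · rintro _ ⟨x, hx, rfl⟩ _ ⟨v, hv, rfl⟩ _ ⟨w, hw, rfl⟩
      rw [hg x hx, hg v hv, hg w hw]
      exact (h.S x hx v hv w hw).symm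
  · ext x
    constructor
    · rintro ⟨_, ⟨y, hy, rfl⟩, rfl⟩
      rw [hg y hy]
      exact hy
    · intro hx
      exact ⟨g x, ⟨x, hx, rfl⟩, hg x hx⟩

theorem RefOn.cs_range (h : RefOn Q r Set.univ g) (hF : Full Q Set.univ) (hax : Ax r Set.univ)
    (hc : DC r.G (Set.range g) Set.univ) : CS r (Set.range g) Set.univ where
  dc := hc
  S := by
    rintro _ ⟨a, rfl⟩ _ ⟨b, rfl⟩ c _ hS
    have hu : ∀ x : F, x ∈ (Set.univ : Set F) := Set.mem_univ
    have hv : ∀ x : V, x ∈ (Set.univ : Set V) := Set.mem_univ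
    obtain ⟨hP, hadj⟩ := hax.SP (g a) (hv _) (g b) (hv _) c (hv _) hS
    have hb : ¬ Q.P b := fun e =>
      hax.iso (g b) (hv _) c (hv _) hadj ((h.P b (hu _)).2 e)
    obtain ⟨c1, _, c2, _, hne, h1, h2⟩ := hF a (hu _) ((h.P a (hu _)).1 hP) b (hu _) hb
    rcases hax.two (g a) (hv _) (g b) (hv _) c (hv _) (g c1) (hv _) (g c2) (hv _) hS
      ((h.S a (hu _) b (hu _) c1 (hu _)).2 h1) ((h.S a (hu _) b (hu _) c2 (hu _)).2 h2)
      with e | e | e
    · exact ⟨c1, e.symm⟩
    · exact ⟨c2, e.symm⟩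
    · exact absurd (h.inj (hu _) (hu _) e) hne

namespace J5982

theorem clo_sub {A X : Set F} (hX : X ⊆ A) (hA : CS Q A Set.univ) : clo Q X ⊆ A :=
  Set.sInter_subset_of_mem ⟨hX, hA⟩

theorem sub_clo (X : Set F) : X ⊆ clo Q X :=
  Set.subset_sInter fun _ hA => hA.1

/-- The intersection of two closed sets is closed in the second one. -/
theorem cs_inter {C D : Set V} (hC : CS r C Set.univ) (_hD : CS r D Set.univ) :
    CS r (C ∩ D) D where
  dc :=
    { sub := Set.inter_subset_right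
      lt := by
        intro Y hY hYC
        have h1 : ¬ (Y : Set V) ⊆ C := fun e => hYC (Set.subset_inter e hY)
        have h2 := hC.dc.lt Y (Set.subset_univ _) h1
        have h3 : ∀ Z : Finset V, (∀ y, y ∈ Z ↔ y ∈ Y ∧ y ∈ C ∩ D) → Z = Y.filter (· ∈ C) := by
          intro Z hZ
          ext y
          rw [hZ, Finset.mem_filter]
          exact ⟨fun e => ⟨e.1, e.2.1⟩, fun e => ⟨e.1, e.2, hY e.1⟩⟩
        exact lt_of_eq_of_lt (congrArg _ (h3 _ fun y => @Finset.mem_filter _ _ (_) _ _)) h2 }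
  S := by
    intro x hx z hz c hc hS
    exact ⟨hC.S x hx.1 z hz.1 c (Set.mem_univ _) hS, hc⟩

/-- A set closed in the closure is closed. -/
theorem cs_of_clo {X B : Set F} (hB : CS Q B (clo Q X)) : CS Q B Set.univ where
  dc :=
    { sub := Set.subset_univ _
      lt := by
        have key : ∀ n : ℕ, ∀ Y : Finset F, Y.card = n → ¬ (Y : Set F) ⊆ B →
            H968F.dl Q.G (Y.filter (· ∈ B)) < H968F.dl Q.G Y := by
          intro n
          induction n using Nat.strong_induction_on with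
          | _ n ih =>
            intro Y hn hYB
            by_cases hY : (Y : Set F) ⊆ clo Q X
            · exact hB.dc.lt Y hY hYB
            · have h1 : ∃ A : Set F, (X ⊆ A ∧ CS Q A Set.univ) ∧ ¬ (Y : Set F) ⊆ A := by
                by_contra hcon
                push Not at hcon
                exact hY (Set.subset_sInter fun A hA => hcon A hA)
              obtain ⟨A, ⟨hXA, hA⟩, hYA⟩ := h1
              have h2 := hA.dc.lt Y (Set.subset_univ _) hYA
              have hBA : B ⊆ A := hB.dc.sub.trans (clo_sub hXA hA)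
              have h3 : (Y.filter (· ∈ A)).filter (· ∈ B) = Y.filter (· ∈ B) := by
                ext y
                simp only [Finset.mem_filter]
                constructor
                · rintro ⟨⟨a, _⟩, b⟩
                  exact ⟨a, b⟩
                · rintro ⟨a, b⟩
                  exact ⟨⟨a, hBA b⟩, b⟩
              by_cases h4 : ((Y.filter (· ∈ A) : Finset F) : Set F) ⊆ B
              · have h5 : Y.filter (· ∈ A) = Y.filter (· ∈ B) := by
                  rw [← h3]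
                  symm
                  apply Finset.filter_true_of_mem
                  intro y hy
                  exact h4 (Finset.mem_coe.2 hy)
                rw [← h5]
                exact h2
              · have h6 : (Y.filter (· ∈ A)).card < n := by
                  rw [← hn]
                  apply Finset.card_lt_card
                  refine Finset.ssubset_iff_subset_ne.2 ⟨Finset.filter_subset _ _, fun e => ?_⟩
                  apply hYA
                  intro y hy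
                  have : y ∈ Y.filter (· ∈ A) := by rw [e]; exact Finset.mem_coe.1 hy
                  exact (Finset.mem_filter.1 this).2
                have h7 := ih _ h6 (Y.filter (· ∈ A)) rfl h4
                rw [h3] at h7
                exact h7.trans h2
        intro Y _ hYB
        exact key _ Y rfl hYB }
  S := by
    intro x hx z hz c _ hS
    refine hB.S x hx z hz c ?_ hS
    refine Set.mem_sInter.2 fun A hA => ?_
    exact hA.2.S x (clo_sub hA.1 hA.2 (hB.dc.sub hx)) z (clo_sub hA.1 hA.2 (hB.dc.sub hz)) c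
      (Set.mem_univ _) hS

end J5982

theorem image_clo {X : Set F} (h : RefOn Q r (clo Q X) g) (hc : CS r (g '' clo Q X) Set.univ) :
    g '' clo Q X = clo r (g '' X) := by
  apply Set.Subset.antisymm
  · refine Set.subset_sInter fun C hC => ?_
    obtain ⟨hXC, hC⟩ := hC
    set B : Set F := {x | x ∈ clo Q X ∧ g x ∈ C} with hBdef
    have hBsub : B ⊆ clo Q X := fun x hx => hx.1
    have himg : g '' B = C ∩ g '' clo Q X := by
      ext y
      constructor
      · rintro ⟨x, hx, rfl⟩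
        exact ⟨hx.2, ⟨x, hx.1, rfl⟩⟩
      · rintro ⟨hy, ⟨x, hx, rfl⟩⟩
        exact ⟨x, ⟨hx, hy⟩, rfl⟩
    have h1 : CS r (g '' B) (g '' clo Q X) := by
      rw [himg]
      exact J5982.cs_inter hC hc
    have h2 : CS Q B Set.univ := J5982.cs_of_clo (h.cs' hBsub h1)
    have h3 : X ⊆ B := fun x hx => ⟨J5982.sub_clo X hx, hXC ⟨x, hx, rfl⟩⟩
    rintro _ ⟨x, hx, rfl⟩
    exact (J5982.clo_sub h3 h2 hx).2
  · exact J5982.clo_sub (Set.image_mono (J5982.sub_clo X)) hc

/-- The restriction of a structure to a subset. -/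
def Rl.res (r : Rl V) (A : Set V) : Rl A where
  G := r.G.comap Subtype.val
  P := fun x => r.P x
  S := fun x y z => r.S x y z

theorem res_refOn (r : Rl V) (A : Set V) : RefOn (r.res A) r Set.univ (Subtype.val : A → V) where
  inj := Subtype.val_injective.injOn
  P _ _ := Iff.rfl
  G _ _ _ _ := Iff.rfl
  S _ _ _ _ _ _ := Iff.rfl

end H968G
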