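import Pool.Agent.helper968_onebased.Code
import Pool.Agent.helper968_onebased.Ref
import Pool.Agent.helper968_onebased.Acl

/-!
The closure is contained in the algebraic closure; finitely satisfiable types. Written by helper148 (lemma job 6043).
-/

namespace H968G

open FirstOrder FirstOrder.Language H968F


namespace CSA148

theorem fs_fin {L : FirstOrder.Language.{0, 0}} {U : Type} [L.Structure U] {M X : Set U}
    {α κ : Type} [Finite κ] {y : α → U} (h : FS L M X y) (c : κ → U) (hc : ∀ i, c i ∈ M ∪ X)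
    (φ : L.Formula (α ⊕ κ)) (hφ : φ.Realize (Sum.elim y c)) :
    ∃ y' : α → U, (∀ i, y' i ∈ M) ∧ φ.Realize (Sum.elim y' c) := by
  obtain ⟨n, ⟨e⟩⟩ := Finite.exists_equiv_fin κ
  have key : ∀ y' : α → U, Sum.elim y' (c ∘ e.symm) ∘ Sum.map id e = Sum.elim y' c := by
    intro y'
    funext i
    cases i <;> simp
  obtain ⟨y', h1, h2⟩ := h n (c ∘ e.symm) (fun i => hc _) (φ.relabel (Sum.map id e)) (by
    rw [Formula.realize_relabel, key]
    exact hφ)
  refine ⟨y', h1, ?_⟩
  rwa [Formula.realize_relabel, key] at h2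

/-- At most `K` solutions. -/
noncomputable def amF {L : FirstOrder.Language.{0, 0}} {β : Type} (θ : L.Formula (Fin 1 ⊕ β))
    (K : ℕ) : L.Formula β :=
  Formula.iAlls (Fin (K + 1))
    (((Formula.iInf fun i : Fin (K + 1) =>
        θ.relabel (Sum.elim (fun _ => Sum.inr i) Sum.inl)) : L.Formula (β ⊕ Fin (K + 1))).imp
      (Formula.iSup fun ij : {ij : Fin (K + 1) × Fin (K + 1) // ij.1 ≠ ij.2} =>
        Term.equal (Term.var (Sum.inr ij.1.1)) (Term.var (Sum.inr ij.1.2))))

theorem amF_iff {L : FirstOrder.Language.{0, 0}} {β : Type} (θ : L.Formula (Fin 1 ⊕ β))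
    (K : ℕ) {U : Type} [L.Structure U] (v : β → U) :
    (amF θ K).Realize v ↔
      ∀ z : Fin (K + 1) → U, (∀ i, θ.Realize (Sum.elim (fun _ => z i) v)) →
        ∃ i j, i ≠ j ∧ z i = z j := by
  have key : ∀ (z : Fin (K + 1) → U) (i : Fin (K + 1)),
      (fun a => Sum.elim v z a) ∘ (Sum.elim (fun _ => Sum.inr i) Sum.inl : Fin 1 ⊕ β → β ⊕ Fin (K + 1))
        = Sum.elim (fun _ => z i) v := by
    intro z i
    funext a
    cases a <;> rfl
  unfold amF
  rw [Formula.realize_iAlls]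
  refine forall_congr' fun z => ?_
  rw [Formula.realize_imp, Formula.realize_iInf, Formula.realize_iSup]
  constructor
  · intro h1 h2
    obtain ⟨ij, h3⟩ := h1 (fun i => by
      rw [Formula.realize_relabel, key]
      exact h2 i)
    rw [Formula.realize_equal] at h3
    exact ⟨ij.1.1, ij.1.2, ij.2, h3⟩
  · intro h1 h2
    obtain ⟨i, j, h3, h4⟩ := h1 (fun i => by
      have h5 := h2 i
      rw [Formula.realize_relabel, key] at h5
      exact h5)
    refine ⟨⟨(i, j), h3⟩, ?_⟩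
    rw [Formula.realize_equal]
    exact h4

theorem am_fin {U : Type} {S : Set U} {K : ℕ}
    (h : ∀ z : Fin (K + 1) → U, (∀ i, z i ∈ S) → ∃ i j, i ≠ j ∧ z i = z j) : S.Finite := by
  by_contra hinf
  obtain ⟨t, ht1, ht2⟩ := Set.Infinite.exists_subset_card_eq hinf (K + 1)
  have e : Fin (K + 1) ≃ t := (finCongr ht2.symm).trans t.equivFin.symm
  obtain ⟨i, j, hij, h2⟩ := h (fun i => (e i : U)) (fun i => ht1 (e i).2)
  exact hij (e.injective (Subtype.ext h2))

theorem fin_am {U : Type} {S : Set U} (hS : S.Finite) (z : Fin (S.ncard + 1) → U)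
    (hz : ∀ i, z i ∈ S) : ∃ i j, i ≠ j ∧ z i = z j := by
  by_contra hcon
  have hinj : Function.Injective z := by
    intro i j hij
    by_contra hne
    exact hcon ⟨i, j, hne, hij⟩
  have h1 : Set.range z ⊆ S := by
    rintro _ ⟨i, rfl⟩
    exact hz i
  have h2 := Set.ncard_le_ncard h1 hS
  have h3 : (Set.range z).ncard = S.ncard + 1 := by
    rw [← Set.image_univ, Set.ncard_image_of_injective _ hinj, Set.ncard_univ, Nat.card_eq_fintype_card,
      Fintype.card_fin]
  omega

theorem fin_two {V : Type} {p : V → Prop}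
    (h : ∀ a b c, p a → p b → p c → a = b ∨ a = c ∨ b = c) : {y | p y}.Finite := by
  by_cases h1 : ∃ a, p a
  · obtain ⟨a, ha⟩ := h1
    by_cases h2 : ∃ b, p b ∧ a ≠ b
    · obtain ⟨b, hb, hab⟩ := h2
      refine (Set.toFinite {a, b}).subset fun c hc => ?_
      rcases h a b c ha hb hc with h3 | h3 | h3
      · exact absurd h3 hab
      · simp [h3]
      · simp [h3]
    · refine (Set.toFinite {a}).subset fun c hc => ?_
      by_contra h3
      exact h2 ⟨c, hc, fun h4 => h3 h4.symm⟩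
  · exact Set.finite_empty.subset fun c hc => absurd ⟨c, hc⟩ h1

open Classical in
/-- The largest finite set of least predimension above a finite set. -/
theorem exists_top {V : Type} {G : SimpleGraph V} {S : Set V} (h : Gr G S) {X : Finset V}
    (hX : (X : Set V) ⊆ S) :
    ∃ Y : Finset V, X ⊆ Y ∧ Cl G Y S ∧
      ∀ Z : Finset V, X ⊆ Z → (Z : Set V) ⊆ S → dl G Z ≤ dl G Y → Z ⊆ Y := by
  have hb : ∀ Z : Finset V, (Z : Set V) ⊆ S → 0 ≤ dl G Z := by
    intro Z hZ
    rcases Z.eq_empty_or_nonempty with rfl | hne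
    · simp
    · have := h.two_le hZ hne
      omega
  let Q : ℕ → Prop := fun d => ∃ Z : Finset V, X ⊆ Z ∧ (Z : Set V) ⊆ S ∧ dl G Z = d
  have hQ : ∃ d, Q d := ⟨(dl G X).toNat, X, subset_rfl, hX, by
    have := hb X hX
    omega⟩
  set d := Nat.find hQ with hd
  have hd1 : Q d := Nat.find_spec hQ
  have hd2 : ∀ Z : Finset V, X ⊆ Z → (Z : Set V) ⊆ S → (d : ℤ) ≤ dl G Z := by
    intro Z h1 h2
    have h3 : d ≤ (dl G Z).toNat := Nat.find_min' hQ ⟨Z, h1, h2, by
      have := hb Z h2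
      omega⟩
    have := hb Z h2
    omega
  let P : ℕ → Prop := fun n => ∃ Z : Finset V, X ⊆ Z ∧ (Z : Set V) ⊆ S ∧ dl G Z = d ∧ Z.card = n
  have hP1 : ∃ n, P n := by
    obtain ⟨Z, h1, h2, h3⟩ := hd1
    exact ⟨_, Z, h1, h2, h3, rfl⟩
  have hP2 : ∀ n, P n → n ≤ 3 ^ d := by
    rintro n ⟨Z, h1, h2, h3, rfl⟩
    exact h.card_le h2 h3.le
  obtain ⟨Y, h1, h2, h3, h4⟩ : P (Nat.findGreatest P (3 ^ d)) := by
    obtain ⟨n, hn⟩ := hP1
    exact Nat.findGreatest_spec (hP2 n hn) hn
  have hcl : Cl G Y S := by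
    refine ⟨h2, ?_⟩
    intro Z hZ hYZ
    have h5 := hd2 Z (h1.trans hYZ.1) hZ
    by_contra hcon
    have h6 : dl G Z = d := by omega
    have h7 : P Z.card := ⟨Z, h1.trans hYZ.1, hZ, h6, rfl⟩
    have h8 := Nat.le_findGreatest (hP2 _ h7) h7
    have h9 := Finset.card_lt_card hYZ
    omega
  refine ⟨Y, h1, hcl, ?_⟩
  intro Z hXZ hZS hZ
  by_contra hcon
  have h5 := dl_submod (G := G) Z Y
  have h6 := hd2 (Z ∩ Y) (Finset.subset_inter hXZ h1)
    (fun v hv => h2 (Finset.mem_coe.2 (Finset.mem_inter.1 (Finset.mem_coe.1 hv)).2))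
  have h7 : (((Z ∪ Y : Finset V)) : Set V) ⊆ S := by
    intro v hv
    rcases Finset.mem_union.1 (Finset.mem_coe.1 hv) with hv | hv
    · exact hZS (Finset.mem_coe.2 hv)
    · exact h2 (Finset.mem_coe.2 hv)
  have h8 : Y ⊂ Z ∪ Y := by
    refine Finset.ssubset_iff_subset_ne.2 ⟨Finset.subset_union_right, fun heq => ?_⟩
    apply hcon
    intro v hv
    rw [heq]
    exact Finset.mem_union_left _ hv
  have h9 := hcl.lt (Z ∪ Y) h7 h8
  omega

end CSA148

theorem clo_sub_acl {U : Type} [LA.Structure U] {r : Rl U} (h : Rep U r) (hax : Ax r Set.univ)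
    (X : Set U) : clo r X ⊆ acl LA X := by
  refine clo_min (sub_acl X) ⟨?_, ?_⟩
  · refine DC.of_fin (Set.subset_univ _) fun X0 hX0 => ?_
    obtain ⟨Y0, h1, h2, h3⟩ := CSA148.exists_top hax.gr (X := X0) (Set.subset_univ _)
    refine ⟨Y0, h1, ?_, h2⟩
    intro y hy
    apply acl_acl
    obtain ⟨φ, hφ⟩ := exists_gcF (κ := Fin X0.card) (dl r.G Y0)
    have hc : ∀ i, ((X0.equivFin.symm i : X0) : U) ∈ X0 := fun i => (X0.equivFin.symm i).2
    refine ⟨X0.card, fun i => ((X0.equivFin.symm i : X0) : U), φ, fun i => hX0 (hc i), ?_, ?_⟩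
    · rw [hφ U r h hax]
      exact ⟨Y0, fun i => h1 (hc i), hy, le_rfl⟩
    · refine (Y0.finite_toSet).subset ?_
      intro x hx
      have hx' := (hφ U r h hax _ x).1 hx
      obtain ⟨Y, k1, k2, k3⟩ := hx'
      have k4 : X0 ⊆ Y := by
        intro v hv
        have := k1 (X0.equivFin ⟨v, hv⟩)
        simpa using this
      exact Finset.mem_coe.2 (h3 Y k4 (Set.subset_univ _) k3 k2)
  · intro x hx z hz c _ hc
    apply acl_acl
    have key : ∀ y, (Relations.formula (L := LA) (n := 3) Sy.S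
        ![Term.var (Sum.inr 0), Term.var (Sum.inr 1), Term.var (Sum.inl 0)] :
          LA.Formula (Fin 1 ⊕ Fin 2)).Realize (Sum.elim (fun _ => y) ![x, z]) ↔ r.S x z y := by
      intro y
      rw [Formula.realize_rel]
      exact h.S _
    refine ⟨2, ![x, z], Relations.formula (L := LA) (n := 3) Sy.S
        ![Term.var (Sum.inr 0), Term.var (Sum.inr 1), Term.var (Sum.inl 0)], ?_, (key c).2 hc, ?_⟩
    · intro i
      fin_cases i
      · exact hx
      · exact hz
    · have e : {y | (Relations.formula (L := LA) (n := 3) Sy.S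
        ![Term.var (Sum.inr 0), Term.var (Sum.inr 1), Term.var (Sum.inl 0)] :
          LA.Formula (Fin 1 ⊕ Fin 2)).Realize (Sum.elim (fun _ => y) ![x, z])} = {y | r.S x z y} := by
        ext y
        exact key y
      rw [e]
      exact CSA148.fin_two fun a b c => hax.two x (Set.mem_univ _) z (Set.mem_univ _) a
        (Set.mem_univ _) b (Set.mem_univ _) c (Set.mem_univ _)

theorem FS.inter {L : FirstOrder.Language.{0, 0}} {U : Type} [L.Structure U]
    (M : L.ElementarySubstructure U) {X : Set U} {α : Type} {y : α → U}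
    (h : FS L (M : Set U) X y) :
    acl L ((M : Set U) ∪ X) ∩ acl L ((M : Set U) ∪ Set.range y) ⊆ M := by
  classical
  rintro x ⟨⟨p, c, θ, hc, hx, hfin⟩, ⟨q, d, θ', hd, hx', hfin'⟩⟩
  by_contra hxM
  let I1 := {i : Fin q // d i ∈ (M : Set U)}
  let I2 := {z : U // z ∈ {y | θ.Realize (Sum.elim (fun _ => y) c)} ∩ (M : Set U)}
  have : Finite I2 := (hfin.inter_of_left (M : Set U)).to_subtype
  let κ := Fin p ⊕ (I1 ⊕ I2)
  let P : κ → U := Sum.elim c (Sum.elim (fun i => d i.1) (fun z => z.1))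
  have hP : ∀ i, P i ∈ (M : Set U) ∪ X := by
    rintro (i | i | z)
    · exact hc i
    · exact Or.inl i.2
    · exact Or.inl z.2.2
  have hd' : ∀ i, d i ∉ (M : Set U) → ∃ a, y a = d i := by
    intro i hi
    rcases hd i with h1 | h1
    · exact absurd h1 hi
    · exact h1
  choose a ha using hd'
  let g : Fin q → α ⊕ κ := fun i =>
    if h : d i ∈ (M : Set U) then Sum.inr (Sum.inr (Sum.inl ⟨i, h⟩)) else Sum.inl (a i h)
  have g1 : ∀ i (hi : d i ∈ (M : Set U)), g i = Sum.inr (Sum.inr (Sum.inl ⟨i, hi⟩)) :=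
    fun i hi => dif_pos hi
  have g2 : ∀ i (hi : d i ∉ (M : Set U)), g i = Sum.inl (a i hi) := fun i hi => dif_neg hi
  have hg : Sum.elim y P ∘ g = d := by
    funext i
    show Sum.elim y P (g i) = d i
    by_cases hi : d i ∈ (M : Set U)
    · rw [g1 i hi]
      rfl
    · rw [g2 i hi]
      exact ha i hi
  have hg' : ∀ y' : α → U, (∀ i, y' i ∈ (M : Set U)) → ∀ i, (Sum.elim y' P ∘ g) i ∈ (M : Set U) := by
    intro y' hy' i
    by_cases hi : d i ∈ (M : Set U)
    · have e : (Sum.elim y' P ∘ g) i = d i := by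
        show Sum.elim y' P (g i) = d i
        rw [g1 i hi]
        rfl
      rw [e]
      exact hi
    · have e : (Sum.elim y' P ∘ g) i = y' (a i hi) := by
        show Sum.elim y' P (g i) = y' (a i hi)
        rw [g2 i hi]
        rfl
      rw [e]
      exact hy' _
  let θ1 : L.Formula (Fin 1 ⊕ (α ⊕ κ)) := θ'.relabel (Sum.map id g)
  let θ2 : L.Formula (Fin 1 ⊕ (α ⊕ κ)) := θ.relabel (Sum.map id (fun i => Sum.inr (Sum.inl i)))
  let θ3 : L.Formula (Fin 1 ⊕ (α ⊕ κ)) := Formula.iInf (fun z : I2 =>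
    (Term.equal (Term.var (Sum.inl 0)) (Term.var (Sum.inr (Sum.inr (Sum.inr (Sum.inr z)))))).not)
  have r1 : ∀ (y' : α → U) (z : U), θ1.Realize (Sum.elim (fun _ => z) (Sum.elim y' P)) ↔
      θ'.Realize (Sum.elim (fun _ => z) (Sum.elim y' P ∘ g)) := by
    intro y' z
    have e : Sum.elim (fun _ : Fin 1 => z) (Sum.elim y' P) ∘ Sum.map id g =
        Sum.elim (fun _ => z) (Sum.elim y' P ∘ g) := by
      funext i
      cases i <;> rfl
    rw [show θ1 = θ'.relabel (Sum.map id g) from rfl, Formula.realize_relabel, e]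
  have r2 : ∀ (y' : α → U) (z : U), θ2.Realize (Sum.elim (fun _ => z) (Sum.elim y' P)) ↔
      θ.Realize (Sum.elim (fun _ => z) c) := by
    intro y' z
    have e : Sum.elim (fun _ : Fin 1 => z) (Sum.elim y' P) ∘
        Sum.map id (fun i : Fin p => (Sum.inr (Sum.inl i) : α ⊕ κ)) =
        Sum.elim (fun _ => z) c := by
      funext i
      cases i <;> rfl
    rw [show θ2 = θ.relabel (Sum.map id (fun i => Sum.inr (Sum.inl i))) from rfl,
      Formula.realize_relabel, e]
  have r3 : ∀ (y' : α → U) (z : U), θ3.Realize (Sum.elim (fun _ => z) (Sum.elim y' P)) ↔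
      ∀ w : I2, z ≠ w.1 := by
    intro y' z
    rw [show θ3 = Formula.iInf (fun z : I2 =>
      (Term.equal (Term.var (Sum.inl 0))
        (Term.var (Sum.inr (Sum.inr (Sum.inr (Sum.inr z)))))).not) from rfl, Formula.realize_iInf]
    refine forall_congr' fun w => ?_
    rw [Formula.realize_not, Formula.realize_equal]
    rfl
  let K := {z | θ'.Realize (Sum.elim (fun _ => z) d)}.ncard
  let ψ : L.Formula (α ⊕ κ) := CSA148.amF θ1 K ⊓
    Formula.iExs (Fin 1) (Formula.relabel Sum.swap (θ1 ⊓ θ2 ⊓ θ3))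
  have r4 : ∀ y' : α → U, ψ.Realize (Sum.elim y' P) ↔
      (∀ z : Fin (K + 1) → U, (∀ i, θ'.Realize (Sum.elim (fun _ => z i) (Sum.elim y' P ∘ g))) →
        ∃ i j, i ≠ j ∧ z i = z j) ∧
      ∃ z : U, θ'.Realize (Sum.elim (fun _ => z) (Sum.elim y' P ∘ g)) ∧
        θ.Realize (Sum.elim (fun _ => z) c) ∧ ∀ w : I2, z ≠ w.1 := by
    intro y'
    rw [show ψ = CSA148.amF θ1 K ⊓
      Formula.iExs (Fin 1) (Formula.relabel Sum.swap (θ1 ⊓ θ2 ⊓ θ3)) from rfl, Formula.realize_inf,
      CSA148.amF_iff, Formula.realize_iExs]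
    refine and_congr ?_ ?_
    · refine forall_congr' fun z => ?_
      refine imp_congr ?_ Iff.rfl
      exact forall_congr' fun i => r1 y' (z i)
    · have e : ∀ i : Fin 1 → U, Sum.elim (Sum.elim y' P) i ∘ Sum.swap =
          Sum.elim (fun _ => i 0) (Sum.elim y' P) := by
        intro i
        funext j
        rcases j with j | j
        · have : j = 0 := Subsingleton.elim _ _
          rw [this]
          rfl
        · rfl
      constructor
      · rintro ⟨i, hi⟩
        rw [Formula.realize_relabel, e, Formula.realize_inf, Formula.realize_inf, r1, r2, r3] at hi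
        exact ⟨i 0, hi.1.1, hi.1.2, hi.2⟩
      · rintro ⟨z, h1, h2, h3⟩
        refine ⟨fun _ => z, ?_⟩
        rw [Formula.realize_relabel, e, Formula.realize_inf, Formula.realize_inf, r1, r2, r3]
        exact ⟨⟨h1, h2⟩, h3⟩
  obtain ⟨y', hy', hψ⟩ := CSA148.fs_fin h P hP ψ (by
    rw [r4, hg]
    refine ⟨fun z hz => CSA148.fin_am hfin' z hz, x, hx', hx, ?_⟩
    intro w hw
    apply hxM
    rw [hw]
    exact w.2.2)
  rw [r4] at hψ
  obtain ⟨h1, z, h2, h3, h4⟩ := hψ
  have hz : z ∈ acl L (M : Set U) := by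
    refine ⟨q, Sum.elim y' P ∘ g, θ', hg' y' hy', h2, ?_⟩
    exact CSA148.am_fin h1
  have hzM : z ∈ (M : Set U) := acl_model M hz
  exact h4 ⟨z, h3, hzM⟩ rfl

end H968G
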