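import Pool.Agent.helper968_onebased.Base

/-!
Basic lemmas on closed sets (by helper300).
-/

namespace H968G

open Classical Finset H968F

variable {V : Type} {G : SimpleGraph V}

theorem J5981.filt {Y Z : Finset V} {p : V → Prop} {i : DecidablePred p}
    (h : ∀ x, (x ∈ Y ∧ p x) ↔ x ∈ Z) : @Finset.filter V p i Y = Z := by
  ext x
  rw [Finset.mem_filter]
  exact h x

theorem dc_iff {A : Finset V} {U : Set V} : DC G (A : Set V) U ↔ Cl G A U := by
  constructor
  · intro h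
    refine ⟨h.sub, ?_⟩
    intro X hX hA
    have h1 := h.lt X hX (by
      intro hc
      have hc' : X ⊆ A := by exact_mod_cast hc
      exact absurd (hA.trans_subset hc') (lt_irrefl A))
    have h2 : ∀ x, (x ∈ X ∧ x ∈ (A : Set V)) ↔ x ∈ A := by
      intro x
      constructor
      · rintro ⟨_, h3⟩
        exact_mod_cast h3
      · intro h3
        exact ⟨hA.1 h3, by exact_mod_cast h3⟩
    rw [J5981.filt h2] at h1
    exact h1
  · intro h
    refine ⟨h.sub, ?_⟩
    intro Y hY hYA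
    have h1 : A ⊂ Y ∪ A := by
      refine Finset.ssubset_iff_subset_ne.2 ⟨Finset.subset_union_right, fun heq => hYA ?_⟩
      intro y hy
      have h2 : y ∈ Y ∪ A := Finset.mem_union_left _ (by exact_mod_cast hy)
      rw [← heq] at h2
      exact_mod_cast h2
    have h2 := h.lt (Y ∪ A) (by
      rw [Finset.coe_union]
      exact Set.union_subset hY h.sub) h1
    have h3 := dl_submod (G := G) Y A
    have h4 : ∀ x, (x ∈ Y ∧ x ∈ (A : Set V)) ↔ x ∈ Y ∩ A := by
      intro x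
      rw [Finset.mem_inter]
      constructor
      · rintro ⟨h5, h6⟩
        exact ⟨h5, by exact_mod_cast h6⟩
      · rintro ⟨h5, h6⟩
        exact ⟨h5, by exact_mod_cast h6⟩
    rw [J5981.filt h4]
    omega

theorem DC.le {A U : Set V} (h : DC G A U) {Y : Finset V} (hY : (Y : Set V) ⊆ U) :
    dl G (Y.filter (· ∈ A)) ≤ dl G Y := by
  by_cases hYA : (Y : Set V) ⊆ A
  · have h1 : Y.filter (· ∈ A) = Y := by
      ext x
      rw [Finset.mem_filter]
      exact ⟨fun h2 => h2.1, fun h2 => ⟨h2, hYA (by exact_mod_cast h2)⟩⟩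
    rw [h1]
  · exact (h.lt Y hY hYA).le

theorem DC.refl (A : Set V) : DC G A A :=
  ⟨subset_rfl, fun _ hY hn => absurd hY hn⟩

theorem DC.mono {A S T : Set V} (h : DC G A T) (hA : A ⊆ S) (hS : S ⊆ T) : DC G A S :=
  ⟨hA, fun Y hY hn => h.lt Y (hY.trans hS) hn⟩

theorem DC.trans {A B U : Set V} (h1 : DC G A B) (h2 : DC G B U) : DC G A U := by
  refine ⟨h1.sub.trans h2.sub, ?_⟩
  intro Y hY hYA
  by_cases hYB : (Y : Set V) ⊆ B
  · exact h1.lt Y hYB hYA
  · have h3 := h2.lt Y hY hYB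
    have h4 := h1.le (Y := Y.filter (· ∈ B)) (by
      intro y hy
      exact (Finset.mem_filter.1 (Finset.mem_coe.1 hy)).2)
    have h5 : (Y.filter (· ∈ B)).filter (· ∈ A) = Y.filter (· ∈ A) := by
      ext x
      rw [Finset.mem_filter, Finset.mem_filter, Finset.mem_filter]
      constructor
      · rintro ⟨⟨h6, _⟩, h7⟩
        exact ⟨h6, h7⟩
      · rintro ⟨h6, h7⟩
        exact ⟨⟨h6, h1.sub h7⟩, h7⟩
    rw [h5] at h4
    omega

theorem DC.restrict {A U T : Set V} (h : DC G A U) (hT : T ⊆ U) : DC G (A ∩ T) T := by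
  refine ⟨Set.inter_subset_right, ?_⟩
  intro Y hY hn
  have h1 := h.lt Y (hY.trans hT) (fun hc => hn (Set.subset_inter hc hY))
  have h2 : ∀ x, (x ∈ Y ∧ x ∈ A ∩ T) ↔ x ∈ Y.filter (· ∈ A) := by
    intro x
    rw [Finset.mem_filter]
    constructor
    · rintro ⟨h3, h4⟩
      exact ⟨h3, h4.1⟩
    · rintro ⟨h3, h4⟩
      exact ⟨h3, h4, hY (by exact_mod_cast h3)⟩
  rw [J5981.filt h2]
  exact h1

theorem DC.inter {A B U : Set V} (h1 : DC G A U) (h2 : DC G B U) : DC G (A ∩ B) U :=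
  (h1.restrict h2.sub).trans h2

theorem DC.sInter {U : Set V} {F : Set (Set V)} (hne : F.Nonempty) (h : ∀ A ∈ F, DC G A U) :
    DC G (⋂₀ F) U := by
  obtain ⟨A0, hA0⟩ := hne
  have hfin : ∀ t : Finset (Set V), (∀ A ∈ t, A ∈ F) → DC G (A0 ∩ ⋂₀ (t : Set (Set V))) U := by
    intro t
    induction t using Finset.induction_on with
    | empty =>
      intro _
      rw [Finset.coe_empty, Set.sInter_empty, Set.inter_univ]
      exact h A0 hA0
    | insert a t ha ih =>
      intro ht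
      have h1 := ih (fun A hA => ht A (Finset.mem_insert_of_mem hA))
      have h2 := (h a (ht a (Finset.mem_insert_self a t))).inter h1
      have h3 : A0 ∩ ⋂₀ ((insert a t : Finset (Set V)) : Set (Set V))
          = a ∩ (A0 ∩ ⋂₀ (t : Set (Set V))) := by
        rw [Finset.coe_insert, Set.sInter_insert]
        ext x
        simp only [Set.mem_inter_iff]
        tauto
      rw [h3]
      exact h2
  refine ⟨fun x hx => (h A0 hA0).sub (hx A0 hA0), ?_⟩
  intro Y hY hYn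
  have hg : ∀ y : V, ∃ A ∈ F, y ∉ ⋂₀ F → y ∉ A := by
    intro y
    by_cases hy : y ∈ ⋂₀ F
    · exact ⟨A0, hA0, fun hc => absurd hy hc⟩
    · rw [Set.mem_sInter] at hy
      push Not at hy
      obtain ⟨A, hA, hyA⟩ := hy
      exact ⟨A, hA, fun _ => hyA⟩
  choose g hg1 hg2 using hg
  have h1 := hfin (Y.image g) (by
    intro A hA
    obtain ⟨y, _, rfl⟩ := Finset.mem_image.1 hA
    exact hg1 y)
  have hkey : ∀ y ∈ Y, (y ∈ A0 ∩ ⋂₀ ((Y.image g : Finset (Set V)) : Set (Set V)) ↔ y ∈ ⋂₀ F) := by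
    intro y hy
    constructor
    · rintro ⟨_, h3⟩
      by_contra hc
      exact hg2 y hc (h3 (g y) (Finset.mem_coe.2 (Finset.mem_image_of_mem g hy)))
    · intro h3
      refine ⟨h3 A0 hA0, ?_⟩
      intro A hA
      obtain ⟨z, _, rfl⟩ := Finset.mem_image.1 (Finset.mem_coe.1 hA)
      exact h3 _ (hg1 z)
  have h2 := h1.lt Y hY (fun hc => hYn (fun y hy => (hkey y (by exact_mod_cast hy)).1 (hc hy)))
  have h3 : ∀ x, (x ∈ Y ∧ x ∈ A0 ∩ ⋂₀ ((Y.image g : Finset (Set V)) : Set (Set V)))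
      ↔ x ∈ Y.filter (· ∈ ⋂₀ F) := by
    intro x
    rw [Finset.mem_filter]
    exact and_congr_right (fun hx => hkey x hx)
  rw [J5981.filt h3] at h2
  have h4 : ∀ x, (x ∈ Y ∧ x ∈ ⋂₀ F) ↔ x ∈ Y.filter (· ∈ ⋂₀ F) := by
    intro x
    rw [Finset.mem_filter]
  rw [J5981.filt h4]
  exact h2

theorem DC.empty {U : Set V} (hG : Gr G U) : DC G ∅ U := by
  refine ⟨Set.empty_subset U, ?_⟩
  intro Y hY hn
  have hne : Y.Nonempty := by
    rw [Finset.nonempty_iff_ne_empty]
    rintro rfl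
    exact hn (by simp)
  have h1 := hG.two_le hY hne
  have h2 : ∀ x, (x ∈ Y ∧ x ∈ (∅ : Set V)) ↔ x ∈ (∅ : Finset V) := by
    intro x
    constructor
    · rintro ⟨_, h3⟩
      exact absurd h3 (Set.notMem_empty x)
    · intro h3
      exact absurd h3 (Finset.notMem_empty x)
  rw [J5981.filt h2, dl_empty]
  omega

theorem DC.exists_fin {A U : Set V} (hG : Gr G U) (h : DC G A U) {X : Finset V}
    (hX : (X : Set V) ⊆ A) : ∃ Y : Finset V, X ⊆ Y ∧ (Y : Set V) ⊆ A ∧ Cl G Y U := by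
  obtain ⟨Z, hXZ, hZ, _⟩ := hG.exists_closed (hX.trans h.sub)
  refine ⟨Z.filter (· ∈ A), ?_, ?_, ?_⟩
  · intro x hx
    exact Finset.mem_filter.2 ⟨hXZ hx, hX (by exact_mod_cast hx)⟩
  · intro x hx
    exact (Finset.mem_filter.1 (Finset.mem_coe.1 hx)).2
  · have h1 := (dc_iff.2 hZ).inter h
    have h2 : ((Z.filter (· ∈ A) : Finset V) : Set V) = (Z : Set V) ∩ A := by
      ext x
      rw [Finset.mem_coe, Finset.mem_filter, Set.mem_inter_iff, Finset.mem_coe]
    rw [← h2] at h1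
    exact dc_iff.1 h1

theorem DC.of_fin {A U : Set V} (hA : A ⊆ U) (h : ∀ X : Finset V, (X : Set V) ⊆ A →
    ∃ Y : Finset V, X ⊆ Y ∧ (Y : Set V) ⊆ A ∧ Cl G Y U) : DC G A U := by
  refine ⟨hA, ?_⟩
  intro Y hY hYA
  obtain ⟨Z, h1, h2, h3⟩ := h (Y.filter (· ∈ A)) (by
    intro x hx
    exact (Finset.mem_filter.1 (Finset.mem_coe.1 hx)).2)
  have h4 := (dc_iff.2 h3).lt Y hY (fun hc => hYA (hc.trans h2))
  have h5 : ∀ x, (x ∈ Y ∧ x ∈ (Z : Set V)) ↔ x ∈ Y.filter (· ∈ A) := by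
    intro x
    rw [Finset.mem_filter]
    constructor
    · rintro ⟨h6, h7⟩
      exact ⟨h6, h2 h7⟩
    · rintro ⟨h6, h7⟩
      exact ⟨h6, Finset.mem_coe.2 (h1 (Finset.mem_filter.2 ⟨h6, h7⟩))⟩
  rw [J5981.filt h5] at h4
  exact h4

variable {r : Rl V}

theorem Ax.sub {A U : Set V} (h : Ax r U) (hA : A ⊆ U) : Ax r A where
  gr := h.gr.mono hA
  iso u hu v hv := h.iso u (hA hu) v (hA hv)
  SP x hx z hz w hw := h.SP x (hA hx) z (hA hz) w (hA hw)
  two x hx z hz a ha b hb c hc :=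
    h.two x (hA hx) z (hA hz) a (hA ha) b (hA hb) c (hA hc)
  cov x hx hP z hz w hw := h.cov x (hA hx) hP z (hA hz) w (hA hw)

theorem Full.sub {A U : Set V} (h : Full r U) (hA : CS r A U) : Full r A := by
  intro x hx hP z hz hz'
  obtain ⟨a, ha, b, hb, hab, h1, h2⟩ := h x (hA.dc.sub hx) hP z (hA.dc.sub hz) hz'
  exact ⟨a, hA.S x hx z hz a ha h1, b, hA.S x hx z hz b hb h2, hab, h1, h2⟩

theorem CS.refl (r : Rl V) (A : Set V) : CS r A A :=
  ⟨DC.refl A, fun _ _ _ _ _ hc _ => hc⟩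

theorem CS.mono {A S T : Set V} (h : CS r A T) (hA : A ⊆ S) (hS : S ⊆ T) : CS r A S :=
  ⟨h.dc.mono hA hS, fun x hx z hz c hc hs => h.S x hx z hz c (hS hc) hs⟩

theorem CS.trans {A B U : Set V} (h1 : CS r A B) (h2 : CS r B U) : CS r A U :=
  ⟨h1.dc.trans h2.dc, fun x hx z hz c hc hs =>
    h1.S x hx z hz c (h2.S x (h1.dc.sub hx) z (h1.dc.sub hz) c hc hs) hs⟩

theorem CS.restrict {A U T : Set V} (h : CS r A U) (hT : T ⊆ U) : CS r (A ∩ T) T :=
  ⟨h.dc.restrict hT, fun x hx z hz c hc hs => ⟨h.S x hx.1 z hz.1 c (hT hc) hs, hc⟩⟩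

theorem CS.inter {A B U : Set V} (h1 : CS r A U) (h2 : CS r B U) : CS r (A ∩ B) U :=
  ⟨h1.dc.inter h2.dc, fun x hx z hz c hc hs =>
    ⟨h1.S x hx.1 z hz.1 c hc hs, h2.S x hx.2 z hz.2 c hc hs⟩⟩

theorem CS.empty {U : Set V} (hG : Ax r U) : CS r ∅ U :=
  ⟨DC.empty hG.gr, fun x hx => absurd hx (Set.notMem_empty x)⟩

theorem sub_clo (r : Rl V) (X : Set V) : X ⊆ clo r X :=
  Set.subset_sInter (fun _ hA => hA.1)

theorem clo_cs (r : Rl V) (X : Set V) : CS r (clo r X) Set.univ := by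
  refine ⟨DC.sInter ⟨Set.univ, Set.subset_univ X, CS.refl r Set.univ⟩ (fun A hA => hA.2.dc), ?_⟩
  intro x hx z hz c hc hs A hA
  exact hA.2.S x (hx A hA) z (hz A hA) c hc hs

theorem clo_min {X A : Set V} (hX : X ⊆ A) (hA : CS r A Set.univ) : clo r X ⊆ A :=
  Set.sInter_subset_of_mem ⟨hX, hA⟩

theorem clo_mono {X Y : Set V} (h : X ⊆ Y) : clo r X ⊆ clo r Y :=
  clo_min (h.trans (sub_clo r Y)) (clo_cs r Y)

theorem clo_eq {A : Set V} (h : CS r A Set.univ) : clo r A = A :=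
  Set.Subset.antisymm (clo_min subset_rfl h) (sub_clo r A)

namespace J5981

theorem finite_of_three {T : Set V}
    (h : ∀ a ∈ T, ∀ b ∈ T, ∀ c ∈ T, a = b ∨ a = c ∨ b = c) : T.Finite := by
  by_cases h0 : T = ∅
  · rw [h0]
    exact Set.finite_empty
  · obtain ⟨a, ha⟩ := Set.nonempty_iff_ne_empty.2 h0
    by_cases h1 : T ⊆ {a}
    · exact (Set.finite_singleton a).subset h1
    · rw [Set.not_subset] at h1
      obtain ⟨b, hb, hba⟩ := h1
      have hba' : b ≠ a := hba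
      have h2 : T ⊆ {a, b} := by
        intro c hc
        rcases h a ha b hb c hc with h3 | h3 | h3
        · exact absurd h3.symm hba'
        · left
          exact h3.symm
        · right
          exact h3.symm
      exact (Set.toFinite ({a, b} : Set V)).subset h2

theorem fin_sub_iUnion {N : ℕ → Set V} (hN : Monotone N) (X : Finset V)
    (hX : (X : Set V) ⊆ ⋃ n, N n) : ∃ n, (X : Set V) ⊆ N n := by
  induction X using Finset.induction_on with
  | empty => exact ⟨0, by simp⟩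
  | insert a t ha ih =>
    rw [Finset.coe_insert, Set.insert_subset_iff] at hX
    obtain ⟨n, hn⟩ := ih hX.2
    obtain ⟨m, hm⟩ := Set.mem_iUnion.1 hX.1
    refine ⟨max n m, ?_⟩
    rw [Finset.coe_insert, Set.insert_subset_iff]
    exact ⟨hN (le_max_right n m) hm, hn.trans (hN (le_max_left n m))⟩

/-- one step of the closure -/
def nx (r : Rl V) (cl : Finset V → Finset V) (X : Set V) : Set V :=
  (X ∪ ⋃ s : Finset X, (cl (s.map (Function.Embedding.subtype _)) : Set V)) ∪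
    ⋃ x : X, ⋃ z : X, {c | r.S x z c}

theorem nx_countable (hax : Ax r Set.univ) (cl : Finset V → Finset V) {X : Set V}
    (hX : X.Countable) : (nx r cl X).Countable := by
  haveI : Countable X := hX.to_subtype
  refine (hX.union (Set.countable_iUnion (fun s => Finset.countable_toSet _))).union ?_
  refine Set.countable_iUnion (fun x => Set.countable_iUnion (fun z => ?_))
  apply Set.Finite.countable
  apply finite_of_three
  intro a ha b hb c hc
  exact hax.two x (Set.mem_univ _) z (Set.mem_univ _) a (Set.mem_univ _) b (Set.mem_univ _) c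
    (Set.mem_univ _) ha hb hc

/-- iterates -/
def nxs (r : Rl V) (cl : Finset V → Finset V) (X : Set V) : ℕ → Set V
  | 0 => X
  | n + 1 => nx r cl (nxs r cl X n)

theorem nxs_mono (cl : Finset V → Finset V) (X : Set V) : Monotone (nxs r cl X) := by
  apply monotone_nat_of_le_succ
  intro n x hx
  exact Or.inl (Or.inl hx)

theorem nxs_countable (hax : Ax r Set.univ) (cl : Finset V → Finset V) {X : Set V}
    (hX : X.Countable) (n : ℕ) : (nxs r cl X n).Countable := by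
  induction n with
  | zero => exact hX
  | succ n ih => exact nx_countable hax cl ih

theorem nxs_cl (cl : Finset V → Finset V) (X : Set V) (n : ℕ) (Y : Finset V)
    (hY : (Y : Set V) ⊆ nxs r cl X n) : ((cl Y : Finset V) : Set V) ⊆ nxs r cl X (n + 1) := by
  intro c hc
  left
  right
  rw [Set.mem_iUnion]
  refine ⟨Y.subtype (· ∈ nxs r cl X n), ?_⟩
  rw [Finset.subtype_map_of_mem (fun x hx => hY (Finset.mem_coe.2 hx))]
  exact hc

theorem nxs_S (cl : Finset V → Finset V) (X : Set V) (n : ℕ) {x z c : V}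
    (hx : x ∈ nxs r cl X n) (hz : z ∈ nxs r cl X n) (h : r.S x z c) :
    c ∈ nxs r cl X (n + 1) := by
  right
  rw [Set.mem_iUnion]
  refine ⟨⟨x, hx⟩, ?_⟩
  rw [Set.mem_iUnion]
  exact ⟨⟨z, hz⟩, h⟩

end J5981

theorem clo_countable (hax : Ax r Set.univ) {X : Set V} (hX : X.Countable) :
    (clo r X).Countable := by
  have hcl : ∀ s : Finset V, ∃ t : Finset V, s ⊆ t ∧ Cl r.G t Set.univ := by
    intro s
    obtain ⟨t, h1, h2, _⟩ := hax.gr.exists_closed (Set.subset_univ (s : Set V))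
    exact ⟨t, h1, h2⟩
  choose cl hcl1 hcl2 using hcl
  have hmono := J5981.nxs_mono (r := r) cl X
  have hC : CS r (⋃ n, J5981.nxs r cl X n) Set.univ := by
    refine ⟨DC.of_fin (Set.subset_univ _) ?_, ?_⟩
    · intro Y hY
      obtain ⟨n, hn⟩ := J5981.fin_sub_iUnion hmono Y hY
      exact ⟨cl Y, hcl1 Y, (J5981.nxs_cl cl X n Y hn).trans (Set.subset_iUnion _ (n + 1)), hcl2 Y⟩
    · intro x hx z hz c _ hs
      obtain ⟨n, hn⟩ := Set.mem_iUnion.1 hx
      obtain ⟨m, hm⟩ := Set.mem_iUnion.1 hz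
      exact Set.mem_iUnion.2 ⟨max n m + 1, J5981.nxs_S cl X (max n m)
        (hmono (le_max_left n m) hn) (hmono (le_max_right n m) hm) hs⟩
  refine Set.Countable.mono (clo_min (A := ⋃ n, J5981.nxs r cl X n)
    (Set.subset_iUnion (J5981.nxs r cl X) 0) hC) ?_
  exact Set.countable_iUnion (fun n => J5981.nxs_countable hax cl hX n)

theorem clo_fin (hax : Ax r Set.univ) {X : Set V} {y : V} (hy : y ∈ clo r X) :
    ∃ X0 : Set V, X0 ⊆ X ∧ X0.Finite ∧ y ∈ clo r X0 := by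
  have hdir : ∀ Y : Finset V, (Y : Set V) ⊆ {v | ∃ X0 : Set V, X0 ⊆ X ∧ X0.Finite ∧ v ∈ clo r X0} →
      ∃ X0 : Set V, X0 ⊆ X ∧ X0.Finite ∧ (Y : Set V) ⊆ clo r X0 := by
    intro Y
    induction Y using Finset.induction_on with
    | empty =>
      intro _
      exact ⟨∅, Set.empty_subset X, Set.finite_empty, by simp⟩
    | insert a t ha ih =>
      intro hY
      rw [Finset.coe_insert, Set.insert_subset_iff] at hY
      obtain ⟨X1, h1, h2, h3⟩ := ih hY.2
      obtain ⟨X2, h4, h5, h6⟩ := hY.1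
      refine ⟨X1 ∪ X2, Set.union_subset h1 h4, h2.union h5, ?_⟩
      rw [Finset.coe_insert, Set.insert_subset_iff]
      exact ⟨clo_mono Set.subset_union_right h6, h3.trans (clo_mono Set.subset_union_left)⟩
  have hC : CS r {v | ∃ X0 : Set V, X0 ⊆ X ∧ X0.Finite ∧ v ∈ clo r X0} Set.univ := by
    refine ⟨DC.of_fin (Set.subset_univ _) ?_, ?_⟩
    · intro Y hY
      obtain ⟨X0, h1, h2, h3⟩ := hdir Y hY
      obtain ⟨Z, h4, h5, h6⟩ := DC.exists_fin hax.gr (clo_cs r X0).dc h3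
      exact ⟨Z, h4, fun v hv => ⟨X0, h1, h2, h5 hv⟩, h6⟩
    · rintro x ⟨X1, h1, h2, h3⟩ z ⟨X2, h4, h5, h6⟩ c _ hs
      refine ⟨X1 ∪ X2, Set.union_subset h1 h4, h2.union h5, ?_⟩
      exact (clo_cs r (X1 ∪ X2)).S x (clo_mono Set.subset_union_left h3) z
        (clo_mono Set.subset_union_right h6) c (Set.mem_univ c) hs
  have hX : X ⊆ {v | ∃ X0 : Set V, X0 ⊆ X ∧ X0.Finite ∧ v ∈ clo r X0} := by
    intro x hx
    exact ⟨{x}, Set.singleton_subset_iff.2 hx, Set.finite_singleton x, sub_clo r _ rfl⟩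
  exact clo_min hX hC hy

end H968G
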