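import Pool.Agent.helper968_onebased.Lang

/-!
Codes of finite tuples and formulas (by helper929).
-/

/-!
Codes of finite tuples and formulas.
-/

namespace H968G

open FirstOrder FirstOrder.Language H968F

/-- Codes. -/
abbrev CodeT (κ : Type) : Type :=
  (κ → κ → Prop) × (κ → Prop) × (κ → κ → Prop) × (κ → κ → κ → Prop)

/-- The code of a tuple. -/
def code {M : Type} (r : Rl M) {κ : Type} (c : κ → M) : CodeT κ :=
  (fun u v => c u = c v, fun u => r.P (c u), fun u v => r.G.Adj (c u) (c v),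
    fun u v w => r.S (c u) (c v) (c w))

theorem of_code {M N : Type} {r : Rl M} {s : Rl N} [Nonempty N] {κ : Type} {c : κ → M}
    {c' : κ → N} (h : code r c = code s c') :
    ∃ f : M → N, RefOn r s (Set.range c) f ∧ ∀ u, f (c u) = c' u := by
  classical
  simp only [code, Prod.mk.injEq] at h
  obtain ⟨h1, h2, h3, h4⟩ := h
  have e1 : ∀ u v, c u = c v ↔ c' u = c' v := fun u v => Iff.of_eq (congrFun (congrFun h1 u) v)
  have e2 : ∀ u, r.P (c u) ↔ s.P (c' u) := fun u => Iff.of_eq (congrFun h2 u)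
  have e3 : ∀ u v, r.G.Adj (c u) (c v) ↔ s.G.Adj (c' u) (c' v) :=
    fun u v => Iff.of_eq (congrFun (congrFun h3 u) v)
  have e4 : ∀ u v w, r.S (c u) (c v) (c w) ↔ s.S (c' u) (c' v) (c' w) :=
    fun u v w => Iff.of_eq (congrFun (congrFun (congrFun h4 u) v) w)
  let f : M → N := fun x => if hx : ∃ u, c u = x then c' hx.choose else Classical.arbitrary N
  have hf : ∀ u, f (c u) = c' u := by
    intro u
    have hx : ∃ v, c v = c u := ⟨u, rfl⟩
    have : f (c u) = c' hx.choose := dif_pos hx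
    rw [this]
    exact (e1 _ _).1 hx.choose_spec
  refine ⟨f, ⟨?_, ?_, ?_, ?_⟩, hf⟩
  · rintro _ ⟨u, rfl⟩ _ ⟨v, rfl⟩ h
    rw [hf, hf] at h
    exact (e1 _ _).2 h
  · rintro _ ⟨u, rfl⟩
    rw [hf]
    exact (e2 _).symm
  · rintro _ ⟨u, rfl⟩ _ ⟨v, rfl⟩
    rw [hf, hf]
    exact (e3 _ _).symm
  · rintro _ ⟨u, rfl⟩ _ ⟨v, rfl⟩ _ ⟨w, rfl⟩
    rw [hf, hf, hf]
    exact (e4 _ _ _).symm

/-- A map preserving the codes is an embedding; here `κ` is the structure itself. -/
theorem refOn_iff_code {F M : Type} {Q : Rl F} {r : Rl M} {g : F → M} :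
    RefOn Q r Set.univ g ↔ code r g = code Q (id : F → F) := by
  constructor
  · intro h
    simp only [code, Prod.mk.injEq, id]
    refine ⟨?_, ?_, ?_, ?_⟩
    · funext u v
      exact propext ⟨fun e => h.inj (Set.mem_univ _) (Set.mem_univ _) e, fun e => by rw [e]⟩
    · funext u
      exact propext (h.P u (Set.mem_univ _))
    · funext u v
      exact propext (h.G u (Set.mem_univ _) v (Set.mem_univ _))
    · funext u v w
      exact propext (h.S u (Set.mem_univ _) v (Set.mem_univ _) w (Set.mem_univ _))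
  · intro h
    simp only [code, Prod.mk.injEq, id] at h
    obtain ⟨h1, h2, h3, h4⟩ := h
    exact ⟨fun u _ v _ e => (Iff.of_eq (congrFun (congrFun h1 u) v)).1 e,
      fun u _ => Iff.of_eq (congrFun h2 u),
      fun u _ v _ => Iff.of_eq (congrFun (congrFun h3 u) v),
      fun u _ v _ w _ => Iff.of_eq (congrFun (congrFun (congrFun h4 u) v) w)⟩

namespace CodeAux

variable {α : Type}

/-- The symbols, with their official types. -/
def sP : LA.Relations 1 := Sy.P
def sE : LA.Relations 2 := Sy.E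
def sS : LA.Relations 3 := Sy.S

/-- The atomic formulas. -/
def fP (t : LA.Term α) : LA.Formula α := sP.formula ![t]
def fE (t s : LA.Term α) : LA.Formula α := sE.formula ![t, s]
def fS (t s u : LA.Term α) : LA.Formula α := sS.formula ![t, s, u]

theorem realize_fP {M : Type} [LA.Structure M] {r : Rl M} (h : Rep M r) (t : LA.Term α)
    (v : α → M) : (fP t).Realize v ↔ r.P (t.realize v) := by
  rw [fP, Formula.realize_rel]
  exact h.P _

theorem realize_fE {M : Type} [LA.Structure M] {r : Rl M} (h : Rep M r) (t s : LA.Term α)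
    (v : α → M) : (fE t s).Realize v ↔ r.G.Adj (t.realize v) (s.realize v) := by
  rw [fE, Formula.realize_rel]
  exact h.E _

theorem realize_fS {M : Type} [LA.Structure M] {r : Rl M} (h : Rep M r) (t s u : LA.Term α)
    (v : α → M) : (fS t s u).Realize v ↔ r.S (t.realize v) (s.realize v) (u.realize v) := by
  rw [fS, Formula.realize_rel]
  exact h.S _

open Classical in
/-- The formula `φ` or its negation. -/
noncomputable def litF (t : Prop) (φ : LA.Formula α) : LA.Formula α := if t then φ else φ.not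

theorem realize_litF {M : Type} [LA.Structure M] (t : Prop) (φ : LA.Formula α) (v : α → M) :
    (litF t φ).Realize v ↔ (φ.Realize v ↔ t) := by
  by_cases h : t <;> simp [litF, h]

/-- The formula saying that the code is `k`. -/
noncomputable def codeIs {κ : Type} [Finite κ] (k : CodeT κ) : LA.Formula κ :=
  (Formula.iInf fun p : κ × κ => litF (k.1 p.1 p.2) ((Term.var p.1).equal (Term.var p.2))) ⊓
  ((Formula.iInf fun u : κ => litF (k.2.1 u) (fP (Term.var u))) ⊓
  ((Formula.iInf fun p : κ × κ => litF (k.2.2.1 p.1 p.2) (fE (Term.var p.1) (Term.var p.2))) ⊓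
  (Formula.iInf fun p : κ × κ × κ => litF (k.2.2.2 p.1 p.2.1 p.2.2)
    (fS (Term.var p.1) (Term.var p.2.1) (Term.var p.2.2)))))

theorem realize_codeIs {κ : Type} [Finite κ] (k : CodeT κ) {M : Type} [LA.Structure M]
    {r : Rl M} (h : Rep M r) (c : κ → M) : (codeIs k).Realize c ↔ code r c = k := by
  obtain ⟨k1, k2, k3, k4⟩ := k
  simp only [codeIs, Formula.realize_inf, Formula.realize_iInf, realize_litF,
    Formula.realize_equal, realize_fP h, realize_fE h, realize_fS h, Term.realize_var]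
  simp only [code, Prod.mk.injEq]
  constructor
  · rintro ⟨h1, h2, h3, h4⟩
    refine ⟨?_, ?_, ?_, ?_⟩
    · funext u v
      exact propext (h1 (u, v))
    · funext u
      exact propext (h2 u)
    · funext u v
      exact propext (h3 (u, v))
    · funext u v w
      exact propext (h4 (u, v, w))
  · rintro ⟨rfl, rfl, rfl, rfl⟩
    exact ⟨fun _ => Iff.rfl, fun _ => Iff.rfl, fun _ => Iff.rfl, fun _ => Iff.rfl⟩

end CodeAux

open CodeAux

theorem exists_codeF {κ : Type} [Finite κ] (K : Set (CodeT κ)) :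
    ∃ φ : LA.Formula κ, ∀ (M : Type) [LA.Structure M] (r : Rl M), Rep M r → ∀ c : κ → M,
      (φ.Realize c ↔ code r c ∈ K) := by
  have : Finite (CodeT κ) := inferInstance
  refine ⟨Formula.iSup fun k : K => codeIs (k : CodeT κ), ?_⟩
  intro M _ r hr c
  rw [Formula.realize_iSup]
  constructor
  · rintro ⟨k, hk⟩
    rw [(realize_codeIs _ hr c).1 hk]
    exact k.2
  · intro h
    exact ⟨⟨_, h⟩, (realize_codeIs _ hr c).2 rfl⟩

theorem exists_codeEx {κ : Type} [Finite κ] (N : ℕ) (K : Set (CodeT (κ ⊕ Fin N))) :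
    ∃ φ : LA.Formula κ, ∀ (M : Type) [LA.Structure M] (r : Rl M), Rep M r → ∀ c : κ → M,
      (φ.Realize c ↔ ∃ y : Fin N → M, code r (Sum.elim c y) ∈ K) := by
  obtain ⟨φ, hφ⟩ := exists_codeF K
  refine ⟨Formula.iExs (Fin N) φ, ?_⟩
  intro M _ r hr c
  rw [Formula.realize_iExs]
  exact exists_congr fun y => hφ M r hr _

namespace CodeAux

open Classical in
/-- The predimension of a part of a tuple is determined by the code. -/
theorem dl_code {M N : Type} {r : Rl M} {s : Rl N} {κ : Type} {c : κ → M} {c' : κ → N}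
    (h : code r c = code s c') (I : Finset κ) : dl r.G (I.image c) = dl s.G (I.image c') := by
  rcases isEmpty_or_nonempty κ with hκ | ⟨⟨u⟩⟩
  · have hI : I = ∅ := Finset.eq_empty_of_isEmpty I
    rw [hI, Finset.image_empty, Finset.image_empty, dl_empty, dl_empty]
  · have : Nonempty N := ⟨c' u⟩
    obtain ⟨f, hf, hfc⟩ := of_code h
    have e2 : (I.image c).image f = I.image c' := by
      rw [Finset.image_image]
      exact Finset.image_congr fun u _ => hfc u
    rw [← e2]
    have hsub : ∀ x ∈ I.image c, x ∈ Set.range c := by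
      intro x hx
      obtain ⟨u, -, rfl⟩ := Finset.mem_image.1 hx
      exact ⟨u, rfl⟩
    exact (dl_image (hf.inj.mono fun x hx => hsub x hx)
      fun x hx y hy => hf.G x (hsub x hx) y (hsub y hy)).symm

open Classical in
theorem filter_mem_eq {V : Type} (Y : Finset V) (A : Set V) (B : Finset V)
    (h : ∀ x, x ∈ A ↔ x ∈ B) : Y.filter (· ∈ A) = Y ∩ B := by
  ext x
  rw [Finset.mem_filter, Finset.mem_inter, h x]

open Classical in
theorem exists_enumG {M : Type} {Y : Finset M} (hne : Y.Nonempty) {N : ℕ} (h : Y.card ≤ N) :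
    ∃ c : Fin N → M, Finset.univ.image c = Y := by
  obtain ⟨m, hm⟩ := hne
  refine ⟨fun i => if hi : (i : ℕ) < Y.card then (Y.equivFin.symm ⟨i, hi⟩ : M) else m, ?_⟩
  ext x
  simp only [Finset.mem_image, Finset.mem_univ, true_and]
  constructor
  · rintro ⟨i, rfl⟩
    split_ifs with hi
    · exact Finset.coe_mem _
    · exact hm
  · intro hx
    refine ⟨⟨Y.equivFin ⟨x, hx⟩, lt_of_lt_of_le (Fin.is_lt _) h⟩, ?_⟩
    simp

/-- A property invariant under equality of codes is determined by the code. -/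
theorem exists_inv {κ : Type} (P : ∀ M : Type, Rl M → (κ → M) → Prop)
    (hP : ∀ (M N : Type) (r : Rl M) (s : Rl N) (c : κ → M) (c' : κ → N),
      code r c = code s c' → P M r c → P N s c') :
    ∃ K : Set (CodeT κ), ∀ (M : Type) (r : Rl M) (c : κ → M), code r c ∈ K ↔ P M r c := by
  refine ⟨{k | ∃ (M : Type) (r : Rl M) (c : κ → M), code r c = k ∧ P M r c}, ?_⟩
  intro M r c
  constructor
  · rintro ⟨N, s, c', h1, h2⟩
    exact hP N M s r c' c h1 h2
  · intro h
    exact ⟨M, r, c, rfl, h⟩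

end CodeAux

open Classical in
theorem exists_dcF {κ : Type} [Finite κ] :
    ∃ φ : LA.Formula κ, ∀ (M : Type) [LA.Structure M] (r : Rl M), Rep M r → Ax r Set.univ →
      ∀ c : κ → M, (φ.Realize c ↔ DC r.G (Set.range c) Set.univ) := by
  have := Fintype.ofFinite κ
  set N : ℕ := 3 ^ (2 * Fintype.card κ) with hN
  obtain ⟨K, hK⟩ := exists_inv (κ := κ ⊕ Fin N)
    (fun M r w => (∃ j : Fin N, ∀ i : κ, w (Sum.inl i) ≠ w (Sum.inr j)) ∧
      dl r.G (Finset.univ.image w) ≤ dl r.G ((Finset.univ.image Sum.inl).image w)) (by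
    intro M N r s c c' h
    rintro ⟨⟨j, hj⟩, h2⟩
    refine ⟨⟨j, fun i e => hj i ?_⟩, ?_⟩
    · simp only [code, Prod.mk.injEq] at h
      have := congrFun (congrFun h.1 (Sum.inl i)) (Sum.inr j)
      exact (Iff.of_eq this).2 e
    · rw [← dl_code h, ← dl_code h]
      exact h2)
  obtain ⟨φ, hφ⟩ := exists_codeEx N K
  refine ⟨φ.not, ?_⟩
  intro M _ r hr hax c
  rw [Formula.realize_not, hφ M r hr c]
  have himc : ∀ y : Fin N → M, (Finset.univ.image (Sum.inl : κ → κ ⊕ Fin N)).image (Sum.elim c y) =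
      Finset.univ.image c := by
    intro y
    rw [Finset.image_image]
    rfl
  constructor
  · intro h
    refine ⟨Set.subset_univ _, ?_⟩
    intro Y _ hY
    by_contra hcon
    apply h
    set A := Finset.univ.image c with hA
    rw [filter_mem_eq Y (Set.range c) A (by
      intro x
      simp only [hA, Finset.mem_image, Finset.mem_univ, true_and, Set.mem_range])] at hcon
    have h1 := dl_submod (G := r.G) Y A
    have h2 : dl r.G (Y ∪ A) ≤ dl r.G A := by omega
    obtain ⟨x, hxY, hxc⟩ := Set.not_subset.1 hY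
    have h3 : (Y ∪ A).Nonempty := ⟨x, Finset.mem_union_left _ hxY⟩
    have h4 : A.card ≤ Fintype.card κ := by
      rw [hA]
      exact Finset.card_image_le.trans (by simp)
    have h5 : dl r.G A ≤ ((2 * Fintype.card κ : ℕ) : ℤ) := by
      simp only [dl]
      omega
    have h6 : (Y ∪ A).card ≤ N := hax.gr.card_le (Set.subset_univ _) (h2.trans h5)
    obtain ⟨y, hy⟩ := exists_enumG h3 h6
    have h7 : Finset.univ.image (Sum.elim c y) = Y ∪ A := by
      ext z
      simp only [Finset.mem_image, Finset.mem_univ, true_and, Sum.exists, Sum.elim_inl,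
        Sum.elim_inr]
      constructor
      · rintro (⟨i, rfl⟩ | ⟨j, rfl⟩)
        · exact Finset.mem_union_right _ (Finset.mem_image_of_mem c (Finset.mem_univ i))
        · rw [← hy]
          exact Finset.mem_image_of_mem y (Finset.mem_univ j)
      · intro hz
        rw [← hy] at hz
        obtain ⟨j, -, hj⟩ := Finset.mem_image.1 hz
        exact Or.inr ⟨j, hj⟩
    refine ⟨y, (hK M r _).2 ⟨?_, ?_⟩⟩
    · have : x ∈ Finset.univ.image y := by
        rw [hy]
        exact Finset.mem_union_left _ hxY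
      obtain ⟨j, -, hj⟩ := Finset.mem_image.1 this
      refine ⟨j, fun i e => hxc ⟨i, ?_⟩⟩
      simp only [Sum.elim_inl, Sum.elim_inr] at e
      rw [e, hj]
    · rw [h7, himc]
      exact h2
  · rintro h ⟨y, hy⟩
    obtain ⟨⟨j, hj⟩, h2⟩ := (hK M r _).1 hy
    rw [himc] at h2
    have h3 := h.lt (Finset.univ.image (Sum.elim c y)) (Set.subset_univ _) (by
      intro hsub
      obtain ⟨i, hi⟩ := hsub (show y j ∈ _ from by
        rw [Finset.mem_coe]
        exact Finset.mem_image.2 ⟨Sum.inr j, Finset.mem_univ _, rfl⟩)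
      exact hj i hi)
    rw [filter_mem_eq _ (Set.range c) (Finset.univ.image c) (by
      intro x
      simp only [Finset.mem_image, Finset.mem_univ, true_and, Set.mem_range])] at h3
    have h4 : Finset.univ.image (Sum.elim c y) ∩ Finset.univ.image c = Finset.univ.image c := by
      apply Finset.inter_eq_right.2
      intro z hz
      obtain ⟨i, -, rfl⟩ := Finset.mem_image.1 hz
      exact Finset.mem_image.2 ⟨Sum.inl i, Finset.mem_univ _, rfl⟩
    rw [h4] at h3
    omega

open Classical in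
theorem exists_gcF {κ : Type} [Finite κ] (m : ℤ) :
    ∃ φ : LA.Formula (Fin 1 ⊕ κ), ∀ (M : Type) [LA.Structure M] (r : Rl M), Rep M r →
      Ax r Set.univ → ∀ (c : κ → M) (x : M), (φ.Realize (Sum.elim (fun _ => x) c) ↔
        ∃ Y : Finset M, (∀ i, c i ∈ Y) ∧ x ∈ Y ∧ dl r.G Y ≤ m) := by
  have := Fintype.ofFinite κ
  set N : ℕ := 3 ^ m.toNat with hN
  obtain ⟨K, hK⟩ := exists_inv (κ := (Fin 1 ⊕ κ) ⊕ Fin N)
    (fun M r w => (∀ i : Fin 1 ⊕ κ, ∃ j : Fin N, w (Sum.inl i) = w (Sum.inr j)) ∧
      dl r.G ((Finset.univ.image Sum.inr).image w) ≤ m) (by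
    intro M N r s c c' h
    rintro ⟨hj, h2⟩
    refine ⟨fun i => ?_, ?_⟩
    · obtain ⟨j, hj⟩ := hj i
      refine ⟨j, ?_⟩
      simp only [code, Prod.mk.injEq] at h
      have := congrFun (congrFun h.1 (Sum.inl i)) (Sum.inr j)
      exact (Iff.of_eq this).1 hj
    · rw [← dl_code h]
      exact h2)
  obtain ⟨φ, hφ⟩ := exists_codeEx N K
  refine ⟨φ, ?_⟩
  intro M _ r hr hax c x
  rw [hφ M r hr _]
  have himy : ∀ y : Fin N → M, (Finset.univ.image (Sum.inr : Fin N → (Fin 1 ⊕ κ) ⊕ Fin N)).image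
      (Sum.elim (Sum.elim (fun _ => x) c) y) = Finset.univ.image y := by
    intro y
    rw [Finset.image_image]
    rfl
  constructor
  · rintro ⟨y, hy⟩
    obtain ⟨h1, h2⟩ := (hK M r _).1 hy
    rw [himy] at h2
    refine ⟨Finset.univ.image y, fun i => ?_, ?_, h2⟩
    · obtain ⟨j, hj⟩ := h1 (Sum.inr i)
      exact Finset.mem_image.2 ⟨j, Finset.mem_univ _, hj.symm⟩
    · obtain ⟨j, hj⟩ := h1 (Sum.inl 0)
      exact Finset.mem_image.2 ⟨j, Finset.mem_univ _, hj.symm⟩
  · rintro ⟨Y, h1, h2, h3⟩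
    have h4 : Y.card ≤ N := hax.gr.card_le (Set.subset_univ _) (h3.trans (by omega))
    obtain ⟨y, hy⟩ := exists_enumG ⟨x, h2⟩ h4
    refine ⟨y, (hK M r _).2 ⟨?_, ?_⟩⟩
    · have key : ∀ z ∈ Y, ∃ j, z = y j := by
        intro z hz
        rw [← hy] at hz
        obtain ⟨j, -, hj⟩ := Finset.mem_image.1 hz
        exact ⟨j, hj.symm⟩
      rintro (i | i)
      · exact key x h2
      · exact key (c i) (h1 i)
    · rw [himy, hy]
      exact h3

end H968G
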