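import Pool.Agent.helper968_onebased.Csat
import Pool.Agent.helper968_nsop1.Arr
import Pool.Agent.helper968_kim.Sat

/-!
A criterion for SOP₁ (by helper197).
-/

namespace H968G

open FirstOrder FirstOrder.Language SKF Cardinal

namespace Sop1Crit

open Filter H968

section Ultra

variable {L : FirstOrder.Language.{0, 0}} {M : Type} [L.Structure M] [Nonempty M]

theorem los {α : Type} (φ : L.Formula α) (x : α → ℕ → M) :
    (φ.Realize fun a => cls (x a)) ↔ ∀ᶠ i in (hyp : Filter ℕ), φ.Realize fun a => x a i :=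
  FirstOrder.Language.Ultraproduct.realize_formula_cast (M := fun _ : ℕ => M) (u := hyp) φ x

omit [L.Structure M] [Nonempty M] in
/-- the diagonal map -/
noncomputable def dgf (M : Type) (x : M) : Ult M := cls fun _ => x

theorem ev_const {p : Prop} : (∀ᶠ _ in (hyp : Filter ℕ), p) ↔ p := by
  simp

theorem los_dg {α : Type} (φ : L.Formula α) (x : α → M) :
    (φ.Realize fun a => dgf M (x a)) ↔ φ.Realize x := by
  unfold dgf
  rw [los φ (fun a _ => x a)]
  exact ev_const

/-- the diagonal elementary embedding -/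
noncomputable def dg (L : FirstOrder.Language.{0, 0}) (M : Type) [L.Structure M] [Nonempty M] :
    M ↪ₑ[L] Ult M where
  toFun := dgf M
  map_formula' := by
    intro n φ x
    exact los_dg φ x

theorem dg_apply (x : M) : dg L M x = cls fun _ => x := rfl

end Ultra

/-- mixed version: some coordinates are classes of sequences, the others are diagonal -/
theorem los2 {L : FirstOrder.Language.{0, 0}} {M : Type} [L.Structure M] [Nonempty M]
    {α β : Type} (φ : L.Formula (α ⊕ β)) (y : ℕ → α → M) (z : β → M) :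
    φ.Realize (Sum.elim (fun s => cls fun i => y i s) (fun t => dg L M (z t))) ↔
      ∀ᶠ i in (hyp : Filter ℕ), φ.Realize (Sum.elim (y i) z) := by
  have h := los φ (Sum.elim (fun s i => y i s) (fun t _ => z t))
  have e1 : (fun a => cls ((Sum.elim (fun s i => y i s) (fun t _ => z t) : α ⊕ β → ℕ → M) a)) =
      Sum.elim (fun s => cls fun i => y i s) (fun t => dg L M (z t)) := by
    funext a
    rcases a with a | a <;> rfl
  have e2 : ∀ i : ℕ, (fun a => (Sum.elim (fun s i => y i s) (fun t _ => z t) : α ⊕ β → ℕ → M) a i) =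
      Sum.elim (y i) z := by
    intro i
    funext a
    rcases a with a | a <;> rfl
  rw [e1] at h
  simp only [e2] at h
  exact h

theorem los2' {L : FirstOrder.Language.{0, 0}} {M : Type} [L.Structure M] [Nonempty M]
    {α β : Type} (φ : L.Formula (β ⊕ α)) (y : ℕ → α → M) (z : β → M) :
    φ.Realize (Sum.elim (fun t => dg L M (z t)) (fun s => cls fun i => y i s)) ↔
      ∀ᶠ i in (hyp : Filter ℕ), φ.Realize (Sum.elim z (y i)) := by
  have h := los φ (Sum.elim (fun t _ => z t) (fun s i => y i s))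
  have e1 : (fun a => cls ((Sum.elim (fun t _ => z t) (fun s i => y i s) : β ⊕ α → ℕ → M) a)) =
      Sum.elim (fun t => dg L M (z t)) (fun s => cls fun i => y i s) := by
    funext a
    rcases a with a | a <;> rfl
  have e2 : ∀ i : ℕ, (fun a => (Sum.elim (fun t _ => z t) (fun s i => y i s) : β ⊕ α → ℕ → M) a i) =
      Sum.elim z (y i) := by
    intro i
    funext a
    rcases a with a | a <;> rfl
  rw [e1] at h
  simp only [e2] at h
  exact h

theorem emb_sum {L : FirstOrder.Language.{0, 0}} {M N : Type} [L.Structure M] [L.Structure N]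
    (f : M ↪ₑ[L] N) {α β : Type} (φ : L.Formula (α ⊕ β)) (y : α → M) (z : β → M) :
    φ.Realize (Sum.elim (fun s => f (y s)) (fun t => f (z t))) ↔
      φ.Realize (Sum.elim y z) := by
  have h := f.map_formula φ (Sum.elim y z)
  have e1 : (f ∘ Sum.elim y z) = Sum.elim (fun s => f (y s)) (fun t => f (z t)) := by
    funext a
    rcases a with a | a <;> rfl
  rw [e1] at h
  exact h

/-- the image of an elementary embedding -/
noncomputable def img {L : FirstOrder.Language.{0, 0}} {M N : Type} [L.Structure M] [L.Structure N]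
    (f : M ↪ₑ[L] N) : L.ElementarySubstructure N where
  toSubstructure := f.toEmbedding.toHom.range
  isElementary' := by
    intro n φ x
    have h1 : ∃ x' : Fin n → M, x = fun i => f.toEmbedding.equivRange (x' i) := by
      refine ⟨fun i => f.toEmbedding.equivRange.symm (x i), ?_⟩
      funext i
      exact (f.toEmbedding.equivRange.apply_symm_apply (x i)).symm
    obtain ⟨x', rfl⟩ := h1
    have h2 : (((↑) : f.toEmbedding.toHom.range → N) ∘ fun i => f.toEmbedding.equivRange (x' i)) =
        f ∘ x' := by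
      funext i
      exact Embedding.equivRange_apply f.toEmbedding (x' i)
    rw [h2, f.map_formula φ x']
    exact (StrongHomClass.realize_formula f.toEmbedding.equivRange φ).symm

theorem mem_img {L : FirstOrder.Language.{0, 0}} {M N : Type} [L.Structure M] [L.Structure N]
    (f : M ↪ₑ[L] N) (y : N) : y ∈ (img f : Set N) ↔ ∃ x, f x = y := by
  show y ∈ f.toEmbedding.toHom.range ↔ _
  rw [Hom.mem_range]
  rfl

theorem img_countable {L : FirstOrder.Language.{0, 0}} {M N : Type} [L.Structure M] [L.Structure N]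
    [Countable M] (f : M ↪ₑ[L] N) : (img f : Set N).Countable := by
  have : (img f : Set N) = Set.range f := by
    ext y
    rw [mem_img]
    rfl
  rw [this]
  exact Set.countable_range _

/-- downward Loewenheim-Skolem -/
theorem exists_ctble {L : FirstOrder.Language.{0, 0}} [Countable (Σ n, L.Functions n)]
    [Countable (Σ n, L.Relations n)] {N : Type} [L.Structure N] (s : Set N) (hs : s.Countable) :
    ∃ S : L.ElementarySubstructure N, s ⊆ S ∧ Countable S := by
  rcases finite_or_infinite N with hN | hN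
  · refine ⟨⊤, ?_, ?_⟩
    · intro x _
      exact ElementarySubstructure.mem_top x
    · have : Countable N := Finite.to_countable
      exact Subtype.countable
  · have hcard : L.card ≤ ℵ₀ := by
      have : Countable L.Symbols :=
        inferInstanceAs (Countable ((Σ l, L.Functions l) ⊕ (Σ l, L.Relations l)))
      exact mk_le_aleph0
    obtain ⟨S, hS1, hS2⟩ := exists_elementarySubstructure_card_eq L s (ℵ₀ : Cardinal.{0}) le_rfl
      (by simpa using hs) (by simpa using hcard) (by simp)
    have hS3 : #S = ℵ₀ := by simpa using hS2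
    refine ⟨S, hS1, ?_⟩
    rw [← mk_le_aleph0_iff, hS3]

/-- `∃ x, φ(x, y) ∧ φ(x, z)` -/
noncomputable def chi {L : FirstOrder.Language.{0, 0}} {k l : ℕ} (φ : L.Formula (Fin k ⊕ Fin l)) :
    L.Formula (Fin l ⊕ Fin l) :=
  Formula.iExs (Fin k)
    ((φ.relabel (Sum.elim Sum.inr fun t => Sum.inl (Sum.inl t)) :
        L.Formula ((Fin l ⊕ Fin l) ⊕ Fin k)) ⊓
      (φ.relabel (Sum.elim Sum.inr fun t => Sum.inl (Sum.inr t)) :
        L.Formula ((Fin l ⊕ Fin l) ⊕ Fin k)))

theorem realize_chi {L : FirstOrder.Language.{0, 0}} {M : Type} [L.Structure M] {k l : ℕ}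
    (φ : L.Formula (Fin k ⊕ Fin l)) (y z : Fin l → M) :
    (chi φ).Realize (Sum.elim y z) ↔
      ∃ a : Fin k → M, φ.Realize (Sum.elim a y) ∧ φ.Realize (Sum.elim a z) := by
  simp only [chi, Formula.realize_iExs, Formula.realize_inf, Formula.realize_relabel]
  refine exists_congr fun a => ?_
  have e1 : (Sum.elim (Sum.elim y z) a ∘ (Sum.elim Sum.inr fun t => Sum.inl (Sum.inl t)) :
      Fin k ⊕ Fin l → M) = Sum.elim a y := by
    funext q
    rcases q with q | q <;> rfl
  have e2 : (Sum.elim (Sum.elim y z) a ∘ (Sum.elim Sum.inr fun t => Sum.inl (Sum.inr t)) :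
      Fin k ⊕ Fin l → M) = Sum.elim a z := by
    funext q
    rcases q with q | q <;> rfl
  rw [e1, e2]

/-- the formula `∃ x, φ(x, y_0) ∧ … ∧ φ(x, y_{m-1})` -/
noncomputable def exm {L : FirstOrder.Language.{0, 0}} {k l : ℕ} (φ : L.Formula (Fin k ⊕ Fin l))
    (m : ℕ) : L.Formula (Fin m × Fin l) :=
  Formula.iExs (Fin k) (Formula.iInf fun i : Fin m =>
    (φ.relabel (Sum.elim Sum.inr fun t => Sum.inl (i, t)) :
      L.Formula ((Fin m × Fin l) ⊕ Fin k)))

theorem realize_exm {L : FirstOrder.Language.{0, 0}} {M : Type} [L.Structure M] {k l : ℕ}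
    (φ : L.Formula (Fin k ⊕ Fin l)) (m : ℕ)
    (y : Fin m × Fin l → M) : (exm φ m).Realize y ↔
      ∃ a : Fin k → M, ∀ i : Fin m, φ.Realize (Sum.elim a fun t => y (i, t)) := by
  simp only [exm, Formula.realize_iExs, Formula.realize_iInf, Formula.realize_relabel]
  refine exists_congr fun a => forall_congr' fun i => ?_
  have e1 : (Sum.elim y a ∘ (Sum.elim Sum.inr fun t => Sum.inl (i, t)) :
      Fin k ⊕ Fin l → M) = Sum.elim a fun t => y (i, t) := by
    funext q
    rcases q with q | q <;> rfl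
  rw [e1]

/-- a countable nonempty model with an SOP₁ tree -/
theorem countable_tree {L : FirstOrder.Language.{0, 0}} [Countable (Σ n, L.Functions n)]
    [Countable (Σ n, L.Relations n)] {T : L.Theory} (h : HasSOP1 T) :
    ∃ (N : Type) (_ : L.Structure N) (_ : Nonempty N) (_ : Countable N), N ⊨ T ∧
      ∃ (k l : ℕ) (φ : L.Formula (Fin k ⊕ Fin l)) (b : List Bool → Fin l → N),
      (∀ (σ : ℕ → Bool) (m : ℕ), ∃ a : Fin k → N, ∀ i < m,
        φ.Realize (Sum.elim a (b (List.ofFn fun t : Fin i => σ t)))) ∧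
      (∀ η ν : List Bool, (η ++ [false]) <+: ν →
        ¬ ∃ a : Fin k → N, φ.Realize (Sum.elim a (b (η ++ [true]))) ∧
          φ.Realize (Sum.elim a (b ν))) := by
  obtain ⟨N, _, hNT, k, l, φ, b, hσ, hinc⟩ := h
  obtain ⟨S, hS, hSc⟩ := exists_ctble (L := L) (Set.range fun p : List Bool × Fin l => b p.1 p.2)
    (Set.countable_range _)
  have hbS : ∀ η t, b η t ∈ S := fun η t => hS ⟨(η, t), rfl⟩
  have hne : Nonempty S := by
    by_contra hemp
    have hbb : ∀ η ν, b η = b ν := by
      intro η ν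
      funext t
      exact (hemp ⟨⟨b η t, hbS η t⟩⟩).elim
    obtain ⟨a, ha⟩ := hσ (fun _ => true) 1
    have h0 := ha 0 one_pos
    apply hinc [] [false] (List.prefix_rfl)
    refine ⟨a, ?_, ?_⟩
    · rw [hbb _ (List.ofFn fun t : Fin 0 => true)]
      exact h0
    · rw [hbb _ (List.ofFn fun t : Fin 0 => true)]
      exact h0
  refine ⟨S, inferInstance, hne, hSc, ?_, k, l, φ, fun η t => ⟨b η t, hbS η t⟩, ?_, ?_⟩
  · have := hNT
    infer_instance
  · intro σ m
    have h1 : (exm φ m).Realize (fun p : Fin m × Fin l =>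
        ((⟨b (List.ofFn fun t : Fin (p.1 : ℕ) => σ t) p.2, hbS _ _⟩ : S) : S)) := by
      rw [← S.subtype.map_formula, realize_exm]
      obtain ⟨a, ha⟩ := hσ σ m
      exact ⟨a, fun i => ha i i.2⟩
    rw [realize_exm] at h1
    obtain ⟨a, ha⟩ := h1
    exact ⟨a, fun i hi => ha ⟨i, hi⟩⟩
  · rintro η ν hην ⟨a, ha1, ha2⟩
    apply hinc η ν hην
    refine ⟨fun t => (a t : N), ?_, ?_⟩
    · exact (emb_sum S.subtype φ a _).2 ha1
    · exact (emb_sum S.subtype φ a _).2 ha2

/-- the array -/
theorem array {L : FirstOrder.Language.{0, 0}} [Countable (Σ n, L.Functions n)]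
    [Countable (Σ n, L.Relations n)] {N : Type} [L.Structure N] [Nonempty N] [Countable N]
    {k l : ℕ} (φ : L.Formula (Fin k ⊕ Fin l)) (b : List Bool → Fin l → N)
    (hσ : ∀ (σ : ℕ → Bool) (m : ℕ), ∃ a : Fin k → N, ∀ i < m,
        φ.Realize (Sum.elim a (b (List.ofFn fun t : Fin i => σ t))))
    (hinc : ∀ η ν : List Bool, (η ++ [false]) <+: ν →
        ¬ ∃ a : Fin k → N, φ.Realize (Sum.elim a (b (η ++ [true]))) ∧
          φ.Realize (Sum.elim a (b ν))) :
    ∃ c : ℕ → Bool → Fin l → N,
      (∀ m, ∃ a : Fin k → N, ∀ i < m, φ.Realize (Sum.elim a (c i false))) ∧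
      (∀ i j, i ≤ j → ¬ ∃ a : Fin k → N, φ.Realize (Sum.elim a (c i true)) ∧
        φ.Realize (Sum.elim a (c j false))) ∧
      (∀ ψ : L.Formula (N ⊕ Fin l), ∃ t, ∀ i, t < i →
        (ψ.Realize (Sum.elim id (c i true)) ↔ ψ.Realize (Sum.elim id (c i false)))) := by
  have hSym : Countable L.Symbols :=
    inferInstanceAs (Countable ((Σ l, L.Functions l) ⊕ (Σ l, L.Relations l)))
  have : Nonempty (L.Formula (N ⊕ Fin l)) := ⟨⊥⟩
  have : Countable (L.Formula (N ⊕ Fin l)) := inferInstance
  obtain ⟨ψ, hψ⟩ := exists_surjective_nat (L.Formula (N ⊕ Fin l))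
  obtain ⟨c, η, h1, h2, h3, h4⟩ := H968F.exists_array' (C := fun i => Fin i → Prop) b
    (fun i _ x => fun t => (ψ t).Realize (Sum.elim id x)) (fun i c c' x _ => rfl)
  refine ⟨c, ?_, ?_, ?_⟩
  · intro m
    obtain ⟨a, ha⟩ := hσ (fun t => (η m).getD t false) ((η m).length + 1)
    refine ⟨a, fun i hi => ?_⟩
    have h5 := h2 (i + 1) m (by omega)
    have h6 := ha (η (i + 1)).length (Nat.lt_succ_of_le h5.length_le)
    have h7 : (List.ofFn fun t : Fin (η (i + 1)).length => (η m).getD t false) = η (i + 1) := by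
      apply List.ext_getElem
      · simp
      · intro n hn1 hn2
        simp only [List.getElem_ofFn]
        have hn3 : n < (η m).length := lt_of_lt_of_le hn2 h5.length_le
        rw [List.getD_eq_getElem _ _ hn3]
        exact (h5.getElem hn2).symm
    rw [h7] at h6
    rw [h1]
    exact h6
  · rintro i j hij ⟨a, ha1, ha2⟩
    obtain ⟨μ, hμ1, hμ2⟩ := h3 i
    apply hinc μ (η (j + 1)) (hμ2.trans (h2 (i + 1) (j + 1) (by omega)))
    refine ⟨a, ?_, ?_⟩
    · rw [← hμ1]
      exact ha1
    · rw [← h1 j]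
      exact ha2
  · intro θ
    obtain ⟨t, rfl⟩ := hψ θ
    refine ⟨t, fun i hi => ?_⟩
    have h5 := congrFun (h4 i) ⟨t, hi⟩
    exact iff_of_eq h5

end Sop1Crit

open Sop1Crit in
theorem sop1_crit {L : FirstOrder.Language.{0, 0}} [Countable (Σ n, L.Functions n)]
    [Countable (Σ n, L.Relations n)] {T : L.Theory} (h : HasSOP1 T) :
    ∃ (U : Type) (_ : L.Structure U) (M : L.ElementarySubstructure U) (k l : ℕ)
      (φ : L.Formula (Fin k ⊕ Fin l)) (a : Fin k → U) (c0 c1 d : Fin l → U), U ⊨ T ∧ CSat L U ∧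
      (M : Set U).Countable ∧ φ.Realize (Sum.elim a c0) ∧ φ.Realize (Sum.elim a d) ∧
      (¬ ∃ x : Fin k → U, φ.Realize (Sum.elim x c1) ∧ φ.Realize (Sum.elim x d)) ∧
      ST L (M : Set U) c0 c1 ∧ FS L (M : Set U) (Set.range a) c0 ∧
      FS L (M : Set U) (Set.range a) d ∧ FS L (M : Set U) (Set.range d) c1 := by
  classical
  obtain ⟨N, _, hNne, hNc, hNT, k, l, φ, b, hσ, hinc⟩ := countable_tree h
  obtain ⟨c, hc1, hc2, hc3⟩ := Sop1Crit.array φ b hσ hinc
  choose a' ha' using hc1
  have : Nonempty (H968.Ult N) := inferInstance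
  have : Nonempty (H968.Ult (H968.Ult N)) := inferInstance
  have : Nonempty (H968.Ult (H968.Ult (H968.Ult N))) := inferInstance
  let f0 : N ↪ₑ[L] H968.Ult N := dg L N
  let f1 : H968.Ult N ↪ₑ[L] H968.Ult (H968.Ult N) := dg L (H968.Ult N)
  let f2 : H968.Ult (H968.Ult N) ↪ₑ[L] H968.Ult (H968.Ult (H968.Ult N)) :=
    dg L (H968.Ult (H968.Ult N))
  let F : N ↪ₑ[L] H968.Ult (H968.Ult (H968.Ult N)) := f2.comp (f1.comp f0)
  have hF : ∀ x, F x = f2 (f1 (f0 x)) := fun x => rfl
  let a0 : Fin k → H968.Ult N := fun t => H968.cls fun m => a' m t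
  let d1 : Fin l → H968.Ult (H968.Ult N) := fun s => H968.cls fun j => f0 (c j false s)
  let cc : Bool → Fin l → H968.Ult (H968.Ult (H968.Ult N)) := fun β s =>
    H968.cls fun i => f1 (f0 (c i β s))
  have hev : ∀ i : ℕ, ∀ᶠ j in (H968.hyp : Filter ℕ), i < j := fun i =>
    (Filter.eventually_gt_atTop i).filter_mono Nat.hyperfilter_le_atTop
  -- the tuple `a0` satisfies all the formulas
  have hA : ∀ j, φ.Realize (Sum.elim a0 fun s => f0 (c j false s)) := by
    intro j
    rw [los2 φ (fun m t => a' m t) (fun s => c j false s)]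
    filter_upwards [hev j] with m hm
    exact ha' m j hm
  -- finite satisfiability
  have fs : ∀ (β : Bool) (X : Set (H968.Ult (H968.Ult (H968.Ult N)))),
      (∀ x ∈ X, ∃ y, f2 y = x) → FS L (img F : Set (H968.Ult (H968.Ult (H968.Ult N)))) X (cc β) := by
    intro β X hX p e he θ hθ
    have h1 : ∀ i, ∃ y, f2 y = e i := by
      intro i
      rcases he i with h2 | h2
      · obtain ⟨x, hx⟩ := (mem_img F _).1 h2
        exact ⟨f1 (f0 x), hx⟩
      · exact hX _ h2
    choose e' he' using h1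
    have h3 : e = fun i => f2 (e' i) := funext fun i => (he' i).symm
    rw [h3] at hθ ⊢
    have h4 := (los2 θ (fun i s => f1 (f0 (c i β s))) e').1 hθ
    obtain ⟨i, hi⟩ := h4.exists
    refine ⟨fun s => F (c i β s), fun s => (mem_img F _).2 ⟨_, rfl⟩, ?_⟩
    exact (emb_sum f2 θ (fun s => f1 (f0 (c i β s))) e').2 hi
  refine ⟨H968.Ult (H968.Ult (H968.Ult N)), inferInstance, img F, k, l, φ,
    fun t => f2 (f1 (a0 t)), cc false, cc true, fun s => f2 (d1 s), ?_, ?_, img_countable F, ?_, ?_,
    ?_, ?_, fs false _ ?_, ?_, fs true _ ?_⟩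
  · rw [Theory.model_iff]
    intro ψ hψ
    have h1 : N ⊨ ψ := hNT.realize_of_mem ψ hψ
    exact (F.elementarilyEquivalent.realize_sentence ψ).1 h1
  · exact csat_of_sat (H968.ult_saturated L (H968.Ult (H968.Ult N))) Cardinal.aleph0_lt_aleph_one
  · rw [los2' φ (fun i s => f1 (f0 (c i false s))) (fun t => f1 (a0 t))]
    refine Filter.Eventually.of_forall fun i => ?_
    exact (emb_sum f1 φ a0 (fun s => f0 (c i false s))).2 (hA i)
  · rw [emb_sum f2 φ (fun t => f1 (a0 t)) d1, los2' φ (fun j s => f0 (c j false s)) a0]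
    exact Filter.Eventually.of_forall fun j => hA j
  · rw [← realize_chi, los2 (chi φ) (fun i s => f1 (f0 (c i true s))) d1]
    intro h1
    obtain ⟨i, hi⟩ := h1.exists
    have h2 := (los2' (chi φ) (fun j s => f0 (c j false s)) (fun s => f0 (c i true s))).1 hi
    obtain ⟨j, hj, hij⟩ := (h2.and (hev i)).exists
    have h3 := (emb_sum f0 (chi φ) (c i true) (c j false)).1 hj
    rw [realize_chi] at h3
    exact hc2 i j hij.le h3
  · intro p m hm ψ
    have h1 : ∀ i, ∃ x, F x = m i := fun i => (mem_img F _).1 (hm i)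
    choose n hn using h1
    have h2 : m = fun i => f2 (f1 (f0 (n i))) := funext fun i => (hn i).symm
    rw [h2]
    have key : ∀ β : Bool, ψ.Realize (Sum.elim (cc β) fun i => f2 (f1 (f0 (n i)))) ↔
        ∀ᶠ i in (H968.hyp : Filter ℕ), ψ.Realize (Sum.elim (c i β) n) := by
      intro β
      rw [los2 ψ (fun i s => f1 (f0 (c i β s))) (fun i => f1 (f0 (n i)))]
      refine Filter.eventually_congr (Filter.Eventually.of_forall fun i => ?_)
      rw [emb_sum f1 ψ (fun s => f0 (c i β s)) (fun i => f0 (n i)), emb_sum f0 ψ (c i β) n]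
    rw [key false, key true]
    obtain ⟨t, ht⟩ := hc3 (ψ.relabel (Sum.elim Sum.inr fun i => Sum.inl (n i)))
    refine Filter.eventually_congr ?_
    filter_upwards [hev t] with i hi
    have h3 := ht i hi
    rw [Formula.realize_relabel, Formula.realize_relabel] at h3
    have h4 : ∀ β : Bool, (Sum.elim id (c i β) ∘ (Sum.elim Sum.inr fun i => Sum.inl (n i)) :
        Fin l ⊕ Fin p → N) = Sum.elim (c i β) n := by
      intro β
      funext q
      rcases q with q | q <;> rfl
    rw [h4, h4] at h3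
    exact h3.symm
  · rintro _ ⟨t, rfl⟩
    exact ⟨_, rfl⟩
  · intro p e he θ hθ
    have h1 : ∀ i, ∃ y, f2 (f1 y) = e i := by
      intro i
      rcases he i with h2 | ⟨t, ht⟩
      · obtain ⟨x, hx⟩ := (mem_img F _).1 h2
        exact ⟨f0 x, hx⟩
      · exact ⟨a0 t, ht⟩
    choose e' he' using h1
    have h3 : e = fun i => f2 (f1 (e' i)) := funext fun i => (he' i).symm
    rw [h3] at hθ ⊢
    rw [emb_sum f2 θ d1 (fun i => f1 (e' i)), los2 θ (fun j s => f0 (c j false s)) e'] at hθ
    obtain ⟨j, hj⟩ := hθ.exists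
    refine ⟨fun s => F (c j false s), fun s => (mem_img F _).2 ⟨_, rfl⟩, ?_⟩
    have h5 := (emb_sum f1 θ (fun s => f0 (c j false s)) e').2 hj
    exact (emb_sum f2 θ (fun s => f1 (f0 (c j false s))) (fun i => f1 (e' i))).2 h5
  · rintro _ ⟨s, rfl⟩
    exact ⟨_, rfl⟩

end H968G

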