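import Pool.Agent.helper968_onebased.Gen

/-!
Countable saturation for countably many variables (by helper89).
-/

/-!
Countable saturation for countably many variables.
-/

namespace H968G

open FirstOrder FirstOrder.Language SKF Cardinal

variable {L : FirstOrder.Language.{0, 0}} {U : Type} [L.Structure U]

namespace CSatAux

theorem realize_congr {α : Type} (φ : L.Formula α) [DecidableEq α] (v v' : α → U)
    (h : ∀ a ∈ φ.freeVarFinset, v a = v' a) : φ.Realize v ↔ φ.Realize v' := by
  have h1 : (BoundedFormula.restrictFreeVar φ (fun a => a.1)).Realize v default ↔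
      BoundedFormula.Realize φ v default :=
    BoundedFormula.realize_restrictFreeVar v (by intro a; rfl)
  have h2 : (BoundedFormula.restrictFreeVar φ (fun a => a.1)).Realize v default ↔
      BoundedFormula.Realize φ v' default :=
    BoundedFormula.realize_restrictFreeVar v' (by intro a; exact h a.1 a.2)
  exact h1.symm.trans h2

theorem ex_def {F P : Type} [Nonempty U] (θ : L.Formula (F ⊕ P)) (c' : P → U) (f0 : F) :
    ∃ ψ : Fml L 1 U, ψ.Over (Set.range c') ∧ ∀ a : Fin 1 → U, ψ.Holds a ↔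
      ∃ g : F → U, θ.Realize (Sum.elim g c') ∧ g f0 = a 0 := by
  classical
  let SF : Set F := {x | Sum.inl x ∈ θ.freeVarFinset ∨ x = f0}
  let SP : Set P := {x | Sum.inr x ∈ θ.freeVarFinset}
  have hSF : SF.Finite := by
    have h1 : SF ⊆ (Sum.inl ⁻¹' (θ.freeVarFinset : Set (F ⊕ P))) ∪ {f0} := by
      intro x hx
      rcases hx with hx | hx
      · exact Or.inl hx
      · exact Or.inr hx
    refine Set.Finite.subset (Set.Finite.union ?_ (Set.finite_singleton _)) h1
    exact Set.Finite.preimage Sum.inl_injective.injOn (Finset.finite_toSet _)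
  have hSP : SP.Finite :=
    Set.Finite.preimage Sum.inr_injective.injOn (Finset.finite_toSet θ.freeVarFinset)
  have : Finite SF := hSF
  have : Finite SP := hSP
  obtain ⟨k, ⟨eq⟩⟩ := Finite.exists_equiv_fin SP
  let f : θ.freeVarFinset → (Fin 1 ⊕ Fin k) ⊕ SF := fun a =>
    match a with
    | ⟨Sum.inl x, hx⟩ => Sum.inr ⟨x, Or.inl hx⟩
    | ⟨Sum.inr p, hp⟩ => Sum.inl (Sum.inr (eq ⟨p, hp⟩))
  let θ' : L.Formula ((Fin 1 ⊕ Fin k) ⊕ SF) := θ.restrictFreeVar f
  let θ'' : L.Formula ((Fin 1 ⊕ Fin k) ⊕ SF) := θ' ⊓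
    (Term.var (Sum.inr ⟨f0, Or.inr rfl⟩)).equal (Term.var (Sum.inl (Sum.inl 0)))
  refine ⟨⟨k, θ''.iExs SF, fun i => c' (eq.symm i).1⟩, ?_, ?_⟩
  · intro i
    exact ⟨_, rfl⟩
  · intro a
    unfold Fml.Holds
    rw [Formula.realize_iExs]
    constructor
    · rintro ⟨i, hi⟩
      have hi' : θ'.Realize (Sum.elim (Sum.elim a fun i => c' (eq.symm i).1) i) ∧
          i ⟨f0, Or.inr rfl⟩ = a 0 := by
        have := Formula.realize_inf.1 hi
        refine ⟨this.1, ?_⟩
        have h2 := this.2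
        rw [Formula.realize_equal] at h2
        exact h2
      let g : F → U := fun x => if hx : x ∈ SF then i ⟨x, hx⟩ else Classical.arbitrary U
      refine ⟨g, ?_, ?_⟩
      · have h1 : (θ.restrictFreeVar f).Realize
            (Sum.elim (Sum.elim a fun i => c' (eq.symm i).1) i) default ↔
            BoundedFormula.Realize θ (Sum.elim g c') default := by
          apply BoundedFormula.realize_restrictFreeVar
          rintro ⟨x | p, hx⟩
          · have hx' : x ∈ SF := Or.inl hx
            simp only [f, Sum.elim_inr, Sum.elim_inl, g, dif_pos hx']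
          · simp only [f, Sum.elim_inr, Sum.elim_inl, Equiv.symm_apply_apply]
        exact h1.1 hi'.1
      · have hx' : f0 ∈ SF := Or.inr rfl
        simp only [g, dif_pos hx']
        exact hi'.2
    · rintro ⟨g, hg, hg0⟩
      refine ⟨fun x => g x.1, ?_⟩
      refine Formula.realize_inf.2 ⟨?_, ?_⟩
      · have h1 : (θ.restrictFreeVar f).Realize
            (Sum.elim (Sum.elim a fun i => c' (eq.symm i).1) (fun x : SF => g x.1)) default ↔
            BoundedFormula.Realize θ (Sum.elim g c') default := by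
          apply BoundedFormula.realize_restrictFreeVar
          rintro ⟨x | p, hx⟩
          · simp only [f, Sum.elim_inr, Sum.elim_inl]
          · simp only [f, Sum.elim_inr, Sum.elim_inl, Equiv.symm_apply_apply]
        exact h1.2 hg
      · rw [Formula.realize_equal]
        exact hg0

/-- a good partial assignment -/
def Good {F K : Type} (c : K → U) (Γ : Set (L.Formula (F ⊕ K))) (e : ℕ → F) (n : ℕ)
    (h : ℕ → U) : Prop :=
  ∀ s : Set (L.Formula (F ⊕ K)), s.Finite → s ⊆ Γ →
    ∃ g : F → U, (∀ φ ∈ s, φ.Realize (Sum.elim g c)) ∧ ∀ i < n, g (e i) = h i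

theorem step_def {F K : Type} [Nonempty U] (c : K → U) (e : ℕ → F) (n : ℕ)
    (h : ℕ → U) (s : Set (L.Formula (F ⊕ K))) (hs : s.Finite) :
    ∃ ψ : Fml L 1 U, ψ.Over (Set.range (Sum.elim c h)) ∧ ∀ a : Fin 1 → U, ψ.Holds a ↔
      ∃ g : F → U, (∀ φ ∈ s, φ.Realize (Sum.elim g c)) ∧ (∀ i < n, g (e i) = h i) ∧
        g (e n) = a 0 := by
  have : Finite s := hs
  let θ1 : L.Formula (F ⊕ K) := Formula.iInf fun φ : s => φ.1
  let θ2 : L.Formula (F ⊕ (K ⊕ ℕ)) := Formula.iInf fun i : Fin n =>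
    (Term.var (Sum.inl (e i))).equal (Term.var (Sum.inr (Sum.inr (i : ℕ))))
  let θ : L.Formula (F ⊕ (K ⊕ ℕ)) := (θ1.relabel (Sum.map id Sum.inl)) ⊓ θ2
  obtain ⟨ψ, h1, h2⟩ := ex_def θ (Sum.elim c h) (e n)
  refine ⟨ψ, h1, ?_⟩
  intro a
  rw [h2]
  refine exists_congr ?_
  intro g
  rw [← and_assoc]
  refine and_congr ?_ Iff.rfl
  rw [Formula.realize_inf]
  refine and_congr ?_ ?_
  · rw [Formula.realize_relabel, Formula.realize_iInf]
    have : (Sum.elim g (Sum.elim c h)) ∘ (Sum.map id Sum.inl) = Sum.elim g c := by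
      ext x
      rcases x with x | x <;> rfl
    rw [this]
    constructor
    · intro H φ hφ
      exact H ⟨φ, hφ⟩
    · intro H φ
      exact H φ.1 φ.2
  · rw [Formula.realize_iInf]
    constructor
    · intro H i hi
      have := H ⟨i, hi⟩
      rw [Formula.realize_equal] at this
      exact this
    · intro H i
      rw [Formula.realize_equal]
      exact H i.1 i.2

theorem step {κ : Cardinal.{0}} (hsat : IsSaturated L κ U) (hκ : ℵ₀ < κ) {F K : Type} [Nonempty U]
    [Countable K] (c : K → U) (Γ : Set (L.Formula (F ⊕ K))) (e : ℕ → F) (n : ℕ)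
    (h : ℕ → U) (hg : Good c Γ e n h) :
    ∃ u : U, Good c Γ e (n + 1) (Function.update h n u) := by
  classical
  let T : Type := {s : Set (L.Formula (F ⊕ K)) // s.Finite ∧ s ⊆ Γ}
  have hch : ∀ s : T, ∃ ψ : Fml L 1 U, ψ.Over (Set.range (Sum.elim c h)) ∧
      ∀ a : Fin 1 → U, ψ.Holds a ↔
      ∃ g : F → U, (∀ φ ∈ s.1, φ.Realize (Sum.elim g c)) ∧ (∀ i < n, g (e i) = h i) ∧
        g (e n) = a 0 := fun s => step_def c e n h s.1 s.2.1
  choose ψ hψ1 hψ2 using hch
  have hcard : #(Set.range (Sum.elim c h)) < κ := by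
    refine lt_of_le_of_lt ?_ hκ
    rw [Cardinal.mk_le_aleph0_iff]
    exact Set.countable_range _
  obtain ⟨a, ha⟩ := hsat (Set.range (Sum.elim c h)) hcard 1 (Set.range ψ)
    (by rintro _ ⟨s, rfl⟩; exact hψ1 s)
    (by
      intro t ht htp
      have hch2 : ∀ x : t, ∃ s : T, ψ s = x.1 := fun x => htp x.2
      choose S hS using hch2
      have : Finite t := ht
      have hfin : (⋃ x : t, (S x).1).Finite := Set.finite_iUnion fun x => (S x).2.1
      have hsub : (⋃ x : t, (S x).1) ⊆ Γ := Set.iUnion_subset fun x => (S x).2.2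
      obtain ⟨g, hg1, hg2⟩ := hg _ hfin hsub
      refine ⟨fun _ => g (e n), ?_⟩
      intro x hx
      have hSx : ψ (S ⟨x, hx⟩) = x := hS ⟨x, hx⟩
      rw [← hSx, hψ2]
      refine ⟨g, ?_, hg2, rfl⟩
      intro φ hφ
      exact hg1 φ (Set.mem_iUnion.2 ⟨⟨x, hx⟩, hφ⟩))
  refine ⟨a 0, ?_⟩
  intro s hs hsΓ
  have := ha (ψ ⟨s, hs, hsΓ⟩) ⟨_, rfl⟩
  rw [hψ2] at this
  obtain ⟨g, hg1, hg2, hg3⟩ := this
  refine ⟨g, hg1, ?_⟩
  intro i hi
  rcases Nat.lt_succ_iff_lt_or_eq.1 hi with hi | rfl
  · rw [hg2 i hi, Function.update_of_ne (Nat.ne_of_lt hi)]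
  · rw [hg3, Function.update_self]

theorem good_congr {F K : Type} (c : K → U) (Γ : Set (L.Formula (F ⊕ K))) (e : ℕ → F) (n : ℕ)
    (h h' : ℕ → U) (hh : ∀ i < n, h i = h' i) (hg : Good c Γ e n h) : Good c Γ e n h' := by
  intro s hs hsΓ
  obtain ⟨g, h1, h2⟩ := hg s hs hsΓ
  exact ⟨g, h1, fun i hi => (h2 i hi).trans (hh i hi)⟩

end CSatAux

open CSatAux

theorem csat_of_sat {κ : Cardinal.{0}} (h : IsSaturated L κ U) (hκ : ℵ₀ < κ) : CSat L U := by
  classical
  intro F K _ _ c Γ hΓ
  rcases isEmpty_or_nonempty F with hF | hF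
  · refine ⟨fun x => (IsEmpty.false x).elim, ?_⟩
    intro φ hφ
    obtain ⟨g, hg⟩ := hΓ {φ} (Set.finite_singleton _) (by
      intro x hx
      rw [Set.mem_singleton_iff] at hx
      rw [hx]
      exact hφ)
    have h1 := hg φ rfl
    have h2 : g = fun x => (IsEmpty.false x).elim := Subsingleton.elim _ _
    rw [h2] at h1
    exact h1
  · obtain ⟨g0, -⟩ := hΓ ∅ Set.finite_empty (Set.empty_subset _)
    have : Nonempty U := ⟨g0 (Classical.arbitrary F)⟩
    obtain ⟨e, he⟩ := exists_surjective_nat F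
    -- the sequence of partial assignments
    have h0 : Good c Γ e 0 (fun _ => Classical.arbitrary U) := by
      intro s hs hsΓ
      obtain ⟨g, hg⟩ := hΓ s hs hsΓ
      exact ⟨g, hg, fun i hi => absurd hi (Nat.not_lt_zero i)⟩
    let H : (n : ℕ) → {h : ℕ → U // Good c Γ e n h} := fun n =>
      Nat.rec ⟨_, h0⟩ (fun n p => ⟨Function.update p.1 n (step h hκ c Γ e n p.1 p.2).choose,
        (step h hκ c Γ e n p.1 p.2).choose_spec⟩) n
    have Hs : ∀ n, ∃ u, (H (n + 1)).1 = Function.update (H n).1 n u := fun n => ⟨_, rfl⟩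
    let hi : ℕ → U := fun i => (H (i + 1)).1 i
    have Hst : ∀ m i, i < m → (H m).1 i = hi i := by
      intro m
      induction m with
      | zero =>
        intro i hi
        exact absurd hi (Nat.not_lt_zero i)
      | succ m ih =>
        intro i him
        rcases Nat.lt_succ_iff_lt_or_eq.1 him with him | rfl
        · obtain ⟨u, hu⟩ := Hs m
          rw [hu, Function.update_of_ne (Nat.ne_of_lt him)]
          exact ih i him
        · rfl
    have Hg : ∀ m, Good c Γ e m hi := fun m => good_congr c Γ e m _ _ (Hst m) (H m).2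
    choose j hj using he
    refine ⟨fun x => hi (j x), ?_⟩
    intro φ hφ
    -- a bound for the indices of the free variables
    obtain ⟨N, hN⟩ : ∃ N : ℕ, ∀ x : F, Sum.inl x ∈ φ.freeVarFinset → j x < N := by
      have hfin : (Sum.inl ⁻¹' (φ.freeVarFinset : Set (F ⊕ K))).Finite :=
        Set.Finite.preimage Sum.inl_injective.injOn (Finset.finite_toSet _)
      obtain ⟨N, hN⟩ := (hfin.image j).bddAbove
      refine ⟨N + 1, ?_⟩
      intro x hx
      exact Nat.lt_succ_of_le (hN ⟨x, hx, rfl⟩)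
    obtain ⟨g, hg1, hg2⟩ := Hg N {φ} (Set.finite_singleton _) (by
      intro x hx
      rw [Set.mem_singleton_iff] at hx
      rw [hx]
      exact hφ)
    refine (realize_congr φ _ _ ?_).1 (hg1 φ rfl)
    rintro (x | p) hx
    · rw [Sum.elim_inl, Sum.elim_inl]
      have := hg2 (j x) (hN x hx)
      rw [hj] at this
      exact this
    · rfl

end H968G
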