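import Pool.Agent.helper968_exist.Defs

/-!
Imaginary elements and one-basedness.

`SKF.Fml`, `SKF.SameType`, `SKF.NSOP1`, `SKF.IsMonster`, `SKF.IsTypeOver` are defined in
`Pool.Agent.helper968_kim.Defs`; `EXA.Forks` is defined in `Pool.Agent.helper968_exist.Defs`.
-/

namespace OBF

open FirstOrder FirstOrder.Language SKF Cardinal

/-- A sort of `U^eq`: an equivalence relation on `n`-tuples of `U`, definable without
parameters. -/
structure Srt (L : FirstOrder.Language.{0, 0}) (U : Type) [L.Structure U] where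
  len : ℕ
  rel : L.Formula (Fin len ⊕ Fin len)
  equiv : Equivalence fun a b : Fin len → U => rel.Realize (Sum.elim a b)

variable {L : FirstOrder.Language.{0, 0}} {U : Type} [L.Structure U] {k : ℕ}

/-- The elements of a sort: the classes of its equivalence relation. -/
def Srt.El (S : Srt L U) : Type :=
  Quotient (⟨fun a b : Fin S.len → U => S.rel.Realize (Sum.elim a b), S.equiv⟩ :
    Setoid (Fin S.len → U))

/-- The class of a tuple. -/
def Srt.cls (S : Srt L U) (a : Fin S.len → U) : S.El := Quotient.mk _ a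

/-- The set `U^eq` of imaginary elements: pairs of a sort and an element of this sort. -/
def Imag (L : FirstOrder.Language.{0, 0}) (U : Type) [L.Structure U] : Type :=
  Σ S : Srt L U, S.El

/-- `M^eq`: the imaginary elements which are classes of tuples of `M`. -/
def eqOf (L : FirstOrder.Language.{0, 0}) {U : Type} [L.Structure U] (M : Set U) :
    Set (Imag L U) :=
  {e | ∃ a : Fin e.1.len → U, (∀ i, a i ∈ M) ∧ e.1.cls a = e.2}

/-- Tuples of elements of the sorts `s_0, …, s_{k-1}`. -/
def Tup (s : Fin k → Srt L U) : Type := ∀ i, (s i).El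

/-- The variables of a tuple of representatives. -/
abbrev Vars (s : Fin k → Srt L U) : Type := Σ i, Fin (s i).len

/-- The tuple of classes. -/
def clsT (s : Fin k → Srt L U) (x : Vars s → U) : Tup s := fun i => (s i).cls fun j => x ⟨i, j⟩

/-- The set `D` of tuples of imaginary elements is definable over the set `C` of imaginary
elements: `D` is the set of tuples `x` satisfying a formula `φ(x, c)` with a finite tuple `c` of
parameters from `C`, where `φ` is evaluated on arbitrary representatives of `x` and `c`. -/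
def Definable (C : Set (Imag L U)) (s : Fin k → Srt L U) (D : Set (Tup s)) : Prop :=
  ∃ (l : ℕ) (c : Fin l → Imag L U) (φ : L.Formula (Vars s ⊕ Vars fun j => (c j).1)),
    (∀ j, c j ∈ C) ∧ ∀ (x : Vars s → U) (y : (Vars fun j => (c j).1) → U),
      (clsT (fun j => (c j).1) y = fun j => (c j).2) →
      (φ.Realize (Sum.elim x y) ↔ clsT s x ∈ D)

/-- The relation `R` between tuples of imaginary elements is definable without parameters. -/
def DefRel {l : ℕ} (s : Fin k → Srt L U) (t : Fin l → Srt L U) (R : Tup s → Tup t → Prop) : Prop :=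
  ∃ φ : L.Formula (Vars s ⊕ Vars t), ∀ x y, φ.Realize (Sum.elim x y) ↔ R (clsT s x) (clsT t y)

/-- The algebraic closure of `C` in `U^eq`: the elements of the finite `C`-definable sets. -/
def aclEq (C : Set (Imag L U)) : Set (Imag L U) :=
  {e | ∃ D : Set (Tup fun _ : Fin 1 => e.1), Definable C (fun _ => e.1) D ∧ D.Finite ∧
    (fun _ => e.2) ∈ D}

/-- `q` is a complete type over `C` in variables of the sorts `s` (a type is identified with a set
of `C`-definable sets). -/
structure IsTypeEq (C : Set (Imag L U)) (s : Fin k → Srt L U) (q : Set (Set (Tup s))) : Prop where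
  defin : ∀ D ∈ q, Definable C s D
  finSat : ∀ F : Set (Set (Tup s)), F.Finite → F ⊆ q → (⋂₀ F).Nonempty
  complete : ∀ D : Set (Tup s), Definable C s D → D ∈ q ∨ Dᶜ ∈ q

/-- `q` is a global `M`-invariant type: if `c` and `c'` have the same type over `M`, then `φ(x, c)`
belongs to `q` if and only if `φ(x, c')` does. -/
structure IsInvEq (M : Set U) (s : Fin k → Srt L U) (q : Set (Set (Tup s))) : Prop where
  isType : IsTypeEq Set.univ s q
  invariant : ∀ (l : ℕ) (φ : L.Formula (Vars s ⊕ Fin l)) (c c' : Fin l → U) (D D' : Set (Tup s)),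
    SameType L M c c' → (∀ x, φ.Realize (Sum.elim x c) ↔ clsT s x ∈ D) →
    (∀ x, φ.Realize (Sum.elim x c') ↔ clsT s x ∈ D') → (D ∈ q ↔ D' ∈ q)

/-- `(b_i)_{i < ω}` is a Morley sequence in `q` over `M`: `b_i` realises the restriction of `q` to
`M b_{< i}`. -/
def IsMorleyEq (M : Set U) (s : Fin k → Srt L U) (q : Set (Set (Tup s))) (b : ℕ → Tup s) : Prop :=
  ∀ i, ∀ D ∈ q, Definable (eqOf L M ∪ {e | ∃ j < i, ∃ m, e = ⟨s m, b j m⟩}) s D → b i ∈ D

/-- The set `E` of tuples of imaginary elements is defined by a formula `φ(x, b)` which Kim-divides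
over `M`: for some global `M`-invariant type `q` extending `tp(b / M)` and some Morley sequence
`(b_i)` in `q` over `M` the set `{φ(x, b_i)}` is inconsistent. -/
def KimDividesEq (M : Set U) (s : Fin k → Srt L U) (E : Set (Tup s)) : Prop :=
  ∃ (l : ℕ) (t : Fin l → Srt L U) (R : Tup s → Tup t → Prop) (b : Tup t), DefRel s t R ∧
    E = {x | R x b} ∧ ∃ q : Set (Set (Tup t)), IsInvEq M t q ∧
      (∀ D, Definable (eqOf L M) t D → b ∈ D → D ∈ q) ∧
      ∃ c : ℕ → Tup t, IsMorleyEq M t q c ∧ ¬ ∀ n, ∃ x, ∀ i < n, R x (c i)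

/-- The set `E` is defined by a formula which Kim-forks over `M`: it is covered by finitely many
sets defined by formulas which Kim-divide over `M`. -/
def KimForksEq (M : Set U) (s : Fin k → Srt L U) (E : Set (Tup s)) : Prop :=
  ∃ F : Set (Set (Tup s)), F.Finite ∧ (∀ D ∈ F, KimDividesEq M s D) ∧ E ⊆ ⋃₀ F

/-- `tp(A / MB)` Kim-forks over `M`: some finite tuple of elements of `A` satisfies a formula over
`MB` which Kim-forks over `M`. -/
def KimDep (M : Set U) (A B : Set (Imag L U)) : Prop :=
  ∃ (k : ℕ) (a : Fin k → Imag L U), (∀ i, a i ∈ A) ∧ ∃ D : Set (Tup fun i => (a i).1),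
    Definable (eqOf L M ∪ B) (fun i => (a i).1) D ∧ (fun i => (a i).2) ∈ D ∧
    KimForksEq M (fun i => (a i).1) D

/-- One-basedness, evaluated in `U` (`small` means of cardinality less than `κ`): if `A` and `B` are
not Kim-independent over the model `M`, then `acl^eq(AM) ∩ acl^eq(BM)` is larger than `M^eq`. -/
def OneBasedIn (L : FirstOrder.Language.{0, 0}) (κ : Cardinal.{0}) (U : Type)
    [L.Structure U] : Prop :=
  ∀ M : L.ElementarySubstructure U, #M < κ → ∀ A B : Set (Imag L U), #A < κ → #B < κ →
    KimDep (M : Set U) A B → ∃ e : Imag L U, e ∈ aclEq (A ∪ eqOf L (M : Set U)) ∧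
      e ∈ aclEq (B ∪ eqOf L (M : Set U)) ∧ e ∉ eqOf L (M : Set U)

end OBF
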