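import Pool.Agent.helper968_onebased.Mor

/-!
Reduction of one-basedness to real tuples (by helper573).
-/

namespace H968G

open FirstOrder FirstOrder.Language SKF Cardinal OBF

variable {L : FirstOrder.Language.{0, 0}} {U : Type} [L.Structure U]


namespace J5949

/-- finite index types instead of `Fin p` in `ST` -/
theorem ST_fin {M : Set U} {α : Type} {u v : α → U} (h : ST L M u v) {ι : Type} [Finite ι]
    (m : ι → U) (hm : ∀ i, m i ∈ M) (φ : L.Formula (α ⊕ ι)) :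
    φ.Realize (Sum.elim u m) ↔ φ.Realize (Sum.elim v m) := by
  obtain ⟨p, ⟨e⟩⟩ := Finite.exists_equiv_fin ι
  have h1 := h p (m ∘ e.symm) (fun i => hm _) (φ.relabel (Sum.map id e))
  rw [Formula.realize_relabel, Formula.realize_relabel] at h1
  have e1 : ∀ w : α → U, Sum.elim w (m ∘ e.symm) ∘ Sum.map id e = Sum.elim w m := by
    intro w
    funext x
    rcases x with x | x
    · rfl
    · simp
  rw [e1, e1] at h1
  exact h1

/-- finite index types instead of `Fin p` in `acl` -/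
theorem acl_fin {X : Set U} {ι : Type} [Finite ι] (c : ι → U) (hc : ∀ i, c i ∈ X)
    (φ : L.Formula (Fin 1 ⊕ ι)) {x : U} (hx : φ.Realize (Sum.elim (fun _ => x) c))
    (hf : {y | φ.Realize (Sum.elim (fun _ => y) c)}.Finite) : x ∈ acl L X := by
  obtain ⟨p, ⟨e⟩⟩ := Finite.exists_equiv_fin ι
  have e1 : ∀ w : Fin 1 → U, Sum.elim w (c ∘ e.symm) ∘ Sum.map id e = Sum.elim w c := by
    intro w
    funext x
    rcases x with x | x
    · rfl
    · simp
  refine ⟨p, c ∘ e.symm, φ.relabel (Sum.map id e), fun i => hc _, ?_, ?_⟩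
  · rw [Formula.realize_relabel, e1]; exact hx
  · have : {y | (φ.relabel (Sum.map id e)).Realize (Sum.elim (fun _ => y) (c ∘ e.symm))} =
        {y | φ.Realize (Sum.elim (fun _ => y) c)} := by
      ext y
      rw [Set.mem_ofPred_eq, Set.mem_ofPred_eq, Formula.realize_relabel, e1]
    rw [this]; exact hf

/-- finite index types instead of `Fin l` in `Definable` -/
theorem def_fin {k : ℕ} {C : Set (Imag L U)} {s : Fin k → Srt L U} {D : Set (Tup s)} {ι : Type}
    [Finite ι] (c : ι → Imag L U) (hc : ∀ i, c i ∈ C)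
    (φ : L.Formula (Vars s ⊕ (Σ i : ι, Fin (c i).1.len)))
    (h : ∀ (x : Vars s → U) (y : (Σ i : ι, Fin (c i).1.len) → U),
      (∀ i, (c i).1.cls (fun t => y ⟨i, t⟩) = (c i).2) →
      (φ.Realize (Sum.elim x y) ↔ clsT s x ∈ D)) : Definable C s D := by
  obtain ⟨p, ⟨e⟩⟩ := Finite.exists_equiv_fin ι
  obtain ⟨f, rfl⟩ : ∃ f : ι ≃ Fin p, f = e := ⟨e, rfl⟩
  let c' : Fin p → Imag L U := fun i => c (f.symm i)
  have hlen : ∀ i : ι, (c i).1.len = (c' (f i)).1.len := fun i => by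
    show (c i).1.len = (c (f.symm (f i))).1.len
    rw [f.symm_apply_apply]
  let g : (Σ i : ι, Fin (c i).1.len) → Vars fun j => (c' j).1 :=
    fun w => ⟨f w.1, Fin.cast (hlen w.1) w.2⟩
  refine ⟨p, c', φ.relabel (Sum.map id g), fun i => hc _, ?_⟩
  intro x y hy
  rw [Formula.realize_relabel]
  have e1 : Sum.elim x y ∘ Sum.map id g = Sum.elim x (y ∘ g) := by
    funext w
    rcases w with w | w <;> rfl
  rw [e1]
  apply h
  intro i
  have key : ∀ j : Fin p, f.symm j = i → ∀ (hl : (c i).1.len = (c' j).1.len),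
      (c i).1.cls (fun t => y ⟨j, Fin.cast hl t⟩) = (c i).2 := by
    intro j hj hl
    subst hj
    exact congrFun hy j
  exact key (f i) (f.symm_apply_apply i) (hlen i)

/-- equality of classes, with equality of representatives at the indices in `J` -/
noncomputable def eqF {k : ℕ} (s : Fin k → Srt L U) (J : Set (Fin k)) : L.Formula (Vars s ⊕ Vars s) :=
  open Classical in
  Formula.iInf fun i : Fin k =>
    if i ∈ J then Formula.iInf fun t : Fin (s i).len =>
      (Term.var (Sum.inl ⟨i, t⟩) : L.Term (Vars s ⊕ Vars s)).equal (Term.var (Sum.inr ⟨i, t⟩))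
    else (s i).rel.relabel (Sum.map (fun t => (⟨i, t⟩ : Vars s)) (fun t => (⟨i, t⟩ : Vars s)))

theorem realize_eqF {k : ℕ} (s : Fin k → Srt L U) (J : Set (Fin k)) (u v : Vars s → U) :
    (eqF s J).Realize (Sum.elim u v) ↔
      (∀ i, i ∈ J → ∀ t, u ⟨i, t⟩ = v ⟨i, t⟩) ∧ clsT s u = clsT s v := by
  classical
  have hcl : ∀ i, (clsT s u i = clsT s v i ↔
      (s i).rel.Realize (Sum.elim (fun t => u ⟨i, t⟩) (fun t => v ⟨i, t⟩))) := by
    intro i
    exact Quotient.eq (r := (⟨fun a b : Fin (s i).len → U => (s i).rel.Realize (Sum.elim a b),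
      (s i).equiv⟩ : Setoid (Fin (s i).len → U)))
  have e1 : ∀ i, Sum.elim u v ∘ (Sum.map (fun t => (⟨i, t⟩ : Vars s)) (fun t => (⟨i, t⟩ : Vars s))) =
      Sum.elim (fun t => u ⟨i, t⟩) (fun t => v ⟨i, t⟩) := by
    intro i
    funext x
    rcases x with x | x <;> rfl
  unfold eqF
  rw [Formula.realize_iInf]
  constructor
  · intro h
    have hJ : ∀ i, i ∈ J → ∀ t, u ⟨i, t⟩ = v ⟨i, t⟩ := by
      intro i hi t
      have h1 := h i
      rw [if_pos hi, Formula.realize_iInf] at h1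
      have h2 := h1 t
      rw [Formula.realize_equal] at h2
      exact h2
    refine ⟨hJ, ?_⟩
    funext i
    by_cases hi : i ∈ J
    · have : (fun t => u ⟨i, t⟩) = (fun t => v ⟨i, t⟩) := funext (hJ i hi)
      show (s i).cls (fun t => u ⟨i, t⟩) = (s i).cls (fun t => v ⟨i, t⟩)
      rw [this]
    · have h1 := h i
      rw [if_neg hi, Formula.realize_relabel, e1] at h1
      exact (hcl i).2 h1
  · rintro ⟨hJ, hc⟩ i
    by_cases hi : i ∈ J
    · rw [if_pos hi, Formula.realize_iInf]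
      intro t
      rw [Formula.realize_equal]
      exact hJ i hi t
    · rw [if_neg hi, Formula.realize_relabel, e1]
      exact (hcl i).1 (congrFun hc i)

theorem equiv_eqF {k : ℕ} (s : Fin k → Srt L U) (J : Set (Fin k)) :
    Equivalence fun u v : Vars s → U => (eqF s J).Realize (Sum.elim u v) := by
  refine ⟨?_, ?_, ?_⟩
  · intro u; rw [realize_eqF]; exact ⟨fun _ _ _ => rfl, rfl⟩
  · intro u v h
    rw [realize_eqF] at h ⊢
    exact ⟨fun i hi t => (h.1 i hi t).symm, h.2.symm⟩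
  · intro u v w h1 h2
    rw [realize_eqF] at h1 h2 ⊢
    exact ⟨fun i hi t => (h1.1 i hi t).trans (h2.1 i hi t), h1.2.trans h2.2⟩

/-- the sort of real elements -/
noncomputable def realS (L : FirstOrder.Language.{0, 0}) (U : Type) [L.Structure U] : Srt L U where
  len := 1
  rel := (Term.var (Sum.inl 0) : L.Term (Fin 1 ⊕ Fin 1)).equal (Term.var (Sum.inr 0))
  equiv := by
    refine ⟨?_, ?_, ?_⟩
    · intro u; rw [Formula.realize_equal]; rfl
    · intro u v h; rw [Formula.realize_equal] at h ⊢; exact Eq.symm h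
    · intro u v w h1 h2; rw [Formula.realize_equal] at h1 h2 ⊢; exact Eq.trans h1 h2

/-- the imaginary element given by a real element -/
noncomputable def real (L : FirstOrder.Language.{0, 0}) {U : Type} [L.Structure U] (x : U) : Imag L U :=
  ⟨realS L U, (realS L U).cls fun _ => x⟩

theorem realS_cls_eq {a b : Fin (realS L U).len → U}
    (h : (realS L U).cls a = (realS L U).cls b) : a (0 : Fin 1) = b (0 : Fin 1) := by
  have h1 : (realS L U).rel.Realize (Sum.elim a b) := Quotient.exact h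
  unfold realS at h1
  rw [Formula.realize_equal] at h1
  exact h1

theorem mem_of_real {M : Set U} {x : U} (h : real L x ∈ eqOf L M) : x ∈ M := by
  obtain ⟨a, ha, hcl⟩ := h
  have h1 : a (0 : Fin 1) = x := realS_cls_eq hcl
  rw [← h1]
  exact ha _

theorem real_mem {M : Set U} {x : U} (h : x ∈ M) : real L x ∈ eqOf L M :=
  ⟨fun _ => x, fun _ => h, rfl⟩



theorem real_aclEq {M : Set U} {l : ℕ} (c : Fin l → Imag L U) (J : Set (Fin l))
    (c0 : (Vars fun j => (c j).1) → U) (hc0 : clsT (fun j => (c j).1) c0 = fun j => (c j).2)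
    (hJ : ∀ w : (Vars fun j => (c j).1), w.1 ∈ J → c0 w ∈ M) {C : Set (Imag L U)}
    (hC : ∀ j, j ∉ J → c j ∈ C) (hMC : eqOf L M ⊆ C) {x : U}
    (hx : AlgE L M (eqF (fun j => (c j).1) J) c0 x) : real L x ∈ aclEq C := by
  classical
  obtain ⟨p, m, θ, D, hm, hDf, hxD, hθ⟩ := hx
  let ι : Type := {j : Fin l // j ∉ J} ⊕ ({w : (Vars fun j => (c j).1) // w.1 ∈ J} ⊕ Fin p)
  let c' : ι → Imag L U :=
    Sum.elim (fun j => c j.1) (Sum.elim (fun w => real L (c0 w.1)) (fun i => real L (m i)))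
  let g : (Fin 1 ⊕ (Vars fun j => (c j).1)) ⊕ Fin p →
      (Vars fun _ : Fin 1 => (real L x).1) ⊕ (Σ i : ι, Fin (c' i).1.len) :=
    Sum.elim (Sum.elim (fun _ => Sum.inl ⟨0, (0 : Fin 1)⟩)
      (fun w => if h : w.1 ∈ J then Sum.inr ⟨Sum.inr (Sum.inl ⟨w, h⟩), (0 : Fin 1)⟩
        else Sum.inr ⟨Sum.inl ⟨w.1, h⟩, w.2⟩))
      (fun i => Sum.inr ⟨Sum.inr (Sum.inr i), (0 : Fin 1)⟩)
  refine ⟨(fun d => (fun _ : Fin 1 => (realS L U).cls (fun _ => d))) '' D, ?_, hDf.image _,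
    ⟨x, hxD, rfl⟩⟩
  refine def_fin (ι := ι) c' ?_ (θ.relabel g) ?_
  · rintro (j | w | i)
    · exact hC j.1 j.2
    · exact hMC (real_mem (hJ w.1 w.2))
    · exact hMC (real_mem (hm i))
  · intro x' y hy
    rw [Formula.realize_relabel]
    let v : (Vars fun j => (c j).1) → U := fun w =>
      if h : w.1 ∈ J then y ⟨Sum.inr (Sum.inl ⟨w, h⟩), (0 : Fin 1)⟩ else y ⟨Sum.inl ⟨w.1, h⟩, w.2⟩
    have hvJ : ∀ w : (Vars fun j => (c j).1), w.1 ∈ J → v w = c0 w := by
      intro w h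
      have h1 : v w = y ⟨Sum.inr (Sum.inl ⟨w, h⟩), (0 : Fin 1)⟩ := dif_pos h
      rw [h1]
      have h2 := hy (Sum.inr (Sum.inl ⟨w, h⟩))
      exact realS_cls_eq h2
    have hm' : ∀ i, y ⟨Sum.inr (Sum.inr i), (0 : Fin 1)⟩ = m i := by
      intro i
      have h2 := hy (Sum.inr (Sum.inr i))
      exact realS_cls_eq h2
    have e1 : Sum.elim x' y ∘ g =
        Sum.elim (Sum.elim (fun _ => x' ⟨0, (0 : Fin 1)⟩) v) m := by
      funext w
      rcases w with (w | w) | w
      · rfl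
      · show Sum.elim x' y (if h : w.1 ∈ J then Sum.inr ⟨Sum.inr (Sum.inl ⟨w, h⟩), (0 : Fin 1)⟩
          else Sum.inr ⟨Sum.inl ⟨w.1, h⟩, w.2⟩) = v w
        by_cases h : w.1 ∈ J
        · rw [dif_pos h]
          have h7 : v w = y ⟨Sum.inr (Sum.inl ⟨w, h⟩), (0 : Fin 1)⟩ := dif_pos h
          exact h7.symm
        · rw [dif_neg h]
          have h7 : v w = y ⟨Sum.inl ⟨w.1, h⟩, w.2⟩ := dif_neg h
          exact h7.symm
      · exact hm' w
    have hE : (eqF (fun j => (c j).1) J).Realize (Sum.elim c0 v) := by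
      rw [realize_eqF]
      refine ⟨fun i hi t => (hvJ ⟨i, t⟩ hi).symm, ?_⟩
      rw [hc0]
      funext j
      by_cases h : j ∈ J
      · have h3 : (fun t => v ⟨j, t⟩) = fun t => c0 ⟨j, t⟩ := funext fun t => hvJ ⟨j, t⟩ h
        show (c j).2 = (c j).1.cls (fun t => v ⟨j, t⟩)
        rw [h3]
        exact (congrFun hc0 j).symm
      · have h3 : (fun t => v ⟨j, t⟩) = fun t => y ⟨Sum.inl ⟨j, h⟩, t⟩ :=
          funext fun t => dif_neg h
        show (c j).2 = (c j).1.cls (fun t => v ⟨j, t⟩)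
        rw [h3]
        exact (hy (Sum.inl ⟨j, h⟩)).symm
    rw [e1, hθ v hE]
    constructor
    · intro hz
      refine ⟨_, hz, ?_⟩
      funext i
      have hi : i = 0 := Subsingleton.elim _ _
      subst hi
      show (realS L U).cls (fun _ => x' ⟨0, (0 : Fin 1)⟩) = (realS L U).cls fun t => x' ⟨0, t⟩
      have h4 : (fun t : Fin (realS L U).len => x' ⟨0, t⟩) = fun _ => x' ⟨0, (0 : Fin 1)⟩ := by
        funext t
        have ht : t = (0 : Fin 1) := Subsingleton.elim (α := Fin 1) _ _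
        rw [ht]
      rw [h4]
    · rintro ⟨d, hd, hdx⟩
      have h5 := congrFun hdx 0
      have h6 : d = x' ⟨0, (0 : Fin 1)⟩ := realS_cls_eq h5
      rw [← h6]
      exact hd

theorem AlgE.mem_acl {M : Set U} {α : Type} [Finite α] {E : L.Formula (α ⊕ α)} {u : α → U}
    (hE : E.Realize (Sum.elim u u)) {x : U} (hx : AlgE L M E u x) :
    x ∈ acl L (M ∪ Set.range u) := by
  obtain ⟨p, m, θ, D, hm, hDf, hxD, hθ⟩ := hx
  have e1 : ∀ z : U, Sum.elim (fun _ : Fin 1 => z) (Sum.elim u m) ∘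
      (Equiv.sumAssoc (Fin 1) α (Fin p)) = Sum.elim (Sum.elim (fun _ => z) u) m := by
    intro z
    funext w
    rcases w with (w | w) | w <;> rfl
  refine acl_fin (ι := α ⊕ Fin p) (Sum.elim u m) ?_
    (θ.relabel (Equiv.sumAssoc (Fin 1) α (Fin p))) ?_ ?_
  · rintro (i | i)
    · exact Or.inr ⟨i, rfl⟩
    · exact Or.inl (hm i)
  · rw [Formula.realize_relabel, e1]
    exact (hθ u hE x).2 hxD
  · refine hDf.subset ?_
    intro z hz
    rw [Set.mem_ofPred_eq, Formula.realize_relabel, e1] at hz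
    exact (hθ u hE z).1 hz

theorem AlgE.top_mem_acl {M : Set U} {α : Type} {u : α → U} {x : U}
    (hx : AlgE L M (⊤ : L.Formula (α ⊕ α)) u x) : x ∈ acl L M := by
  obtain ⟨p, m, θ, D, hm, hDf, hxD, hθ⟩ := hx
  have e1 : ∀ z : U, Sum.elim (fun _ : Fin 1 => z) m ∘
      (Sum.elim (Sum.elim Sum.inl (fun _ : α => Sum.inl 0)) Sum.inr :
        (Fin 1 ⊕ α) ⊕ Fin p → Fin 1 ⊕ Fin p) = Sum.elim (Sum.elim (fun _ => z) (fun _ => z)) m := by
    intro z
    funext w
    rcases w with (w | w) | w <;> rfl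
  refine ⟨p, m, θ.relabel (Sum.elim (Sum.elim Sum.inl (fun _ : α => Sum.inl 0)) Sum.inr :
        (Fin 1 ⊕ α) ⊕ Fin p → Fin 1 ⊕ Fin p), hm, ?_, ?_⟩
  · rw [Formula.realize_relabel, e1]
    exact (hθ (fun _ => x) (Formula.realize_top.2 trivial) x).2 hxD
  · refine hDf.subset ?_
    intro z hz
    rw [Set.mem_ofPred_eq, Formula.realize_relabel, e1] at hz
    exact (hθ (fun _ => z) (Formula.realize_top.2 trivial) z).1 hz

theorem exists_rep (e : Imag L U) (M : Set U) :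
    ∃ r : Fin e.1.len → U, e.1.cls r = e.2 ∧ (e ∈ eqOf L M → ∀ i, r i ∈ M) := by
  by_cases h : e ∈ eqOf L M
  · obtain ⟨a, ha, hcl⟩ := h
    exact ⟨a, hcl, fun _ => ha⟩
  · obtain ⟨a, ha⟩ := Quotient.exists_rep e.2
    exact ⟨a, ha, fun h' => absurd h' h⟩

theorem exists_repT {l : ℕ} (c : Fin l → Imag L U) (M : Set U) :
    ∃ c0 : (Vars fun j => (c j).1) → U, clsT (fun j => (c j).1) c0 = (fun j => (c j).2) ∧
      ∀ w : (Vars fun j => (c j).1), c w.1 ∈ eqOf L M → c0 w ∈ M := by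
  choose r hr1 hr2 using fun j => exists_rep (c j) M
  exact ⟨fun w => r w.1 w.2, funext hr1, fun w hw => hr2 w.1 hw w.2⟩

theorem small_union {κ : Cardinal.{0}} (hκ : ℵ₀ < κ) {X : Set U} (hX : #X < κ) {α : Type}
    [Finite α] (u : α → U) : #(X ∪ Set.range u : Set U) < κ := by
  refine lt_of_le_of_lt (Cardinal.mk_union_le _ _) (Cardinal.add_lt_of_lt hκ.le hX ?_)
  exact lt_trans (Cardinal.lt_aleph0_iff_finite.2 (Set.finite_range u)) hκ

end J5949

theorem oneBased_of_P2 [Countable (Σ n, L.Functions n)] [Countable (Σ n, L.Relations n)]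
    {κ : Cardinal.{0}} (hsat : IsSaturated L κ U) (hκ : ℵ₀ < κ) (h : P2 L κ U) :
    OneBasedIn L κ U := by
  intro M hM A B hA hB hdep
  by_contra hcon
  have H0 : ∀ e : Imag L U, e ∈ aclEq (A ∪ eqOf L (M : Set U)) →
      e ∈ aclEq (B ∪ eqOf L (M : Set U)) → e ∈ eqOf L (M : Set U) := by
    intro e h1 h2
    by_contra h3
    exact hcon ⟨e, h1, h2, h3⟩
  obtain ⟨k, a, ha, D, ⟨l, c, φ, hc, hφ⟩, haD, F, hFf, hF, hDF⟩ := hdep
  obtain ⟨a0, ha0, -⟩ := J5949.exists_repT a (∅ : Set U)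
  obtain ⟨c0, hc0, hc0M⟩ := J5949.exists_repT c (M : Set U)
  let J : Set (Fin l) := {j | c j ∈ eqOf L (M : Set U)}
  -- first step
  let X1 : Set U := {x | x ∈ acl L ((M : Set U) ∪ Set.range c0) ∧
    AlgE L (M : Set U) (J5949.eqF (fun j => (c j).1) J) c0 x}
  have hX1 : #X1 < κ := by
    refine lt_of_le_of_lt (Cardinal.mk_le_mk_of_subset fun x hx => hx.1)
      (card_acl hκ (J5949.small_union hκ hM c0))
  obtain ⟨a1, ha1E, ha1M, ha1⟩ := neumann hsat hκ hM (J5949.eqF (fun i => (a i).1) ∅)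
    (J5949.equiv_eqF _ _) a0 hX1
  obtain ⟨c1, hc1E, hc1M, hc1⟩ := neumann hsat hκ hM (J5949.eqF (fun j => (c j).1) J)
    (J5949.equiv_eqF _ _) c0 (X := acl L ((M : Set U) ∪ Set.range a1))
    (card_acl hκ (J5949.small_union hκ hM a1))
  have I1 : acl L ((M : Set U) ∪ Set.range a1) ∩ acl L ((M : Set U) ∪ Set.range c1) ⊆ M := by
    rintro x ⟨hx1, hx2⟩
    have h1 := hc1 x hx1 hx2
    have h2 : x ∈ acl L ((M : Set U) ∪ Set.range c0) :=
      J5949.AlgE.mem_acl ((J5949.equiv_eqF _ _).refl c0) h1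
    have h3 := ha1 x ⟨h2, h1⟩ hx1
    apply J5949.mem_of_real (L := L)
    apply H0
    · exact J5949.real_aclEq a ∅ a0 ha0 (fun w hw => hw.elim) (fun j _ => Or.inl (ha j))
        (fun e he => Or.inr he) h3
    · refine J5949.real_aclEq c J c0 hc0 (fun w hw => hc0M w hw) (fun j hj => ?_)
        (fun e he => Or.inr he) h1
      rcases hc j with h4 | h4
      · exact absurd h4 hj
      · exact Or.inl h4
  have ha1cl : clsT (fun i => (a i).1) a1 = fun i => (a i).2 := by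
    rw [← ha0]; exact ((J5949.realize_eqF _ _ _ _).1 ha1E).2.symm
  have hc1cl : clsT (fun j => (c j).1) c1 = fun j => (c j).2 := by
    rw [← hc0]; exact ((J5949.realize_eqF _ _ _ _).1 hc1E).2.symm
  have hφ1 : φ.Realize (Sum.elim a1 c1) := by
    rw [hφ a1 c1 hc1cl, ha1cl]; exact haD
  -- representatives of the parameters of the dividing formulas
  have hex : ∀ E : F, ∃ (n : ℕ) (t : Fin n → Srt L U) (b0 : Vars t → U)
      (R : Tup (fun i => (a i).1) → Tup t → Prop), DefRel (fun i => (a i).1) t R ∧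
      E.1 = {x | R x (clsT t b0)} ∧ ∃ q : Set (Set (Tup t)), IsInvEq (M : Set U) t q ∧
      (∀ D, Definable (eqOf L (M : Set U)) t D → clsT t b0 ∈ D → D ∈ q) ∧
      ∃ c : ℕ → Tup t, IsMorleyEq (M : Set U) t q c ∧ ¬ ∀ n, ∃ x, ∀ i < n, R x (c i) := by
    intro E
    obtain ⟨n, t, R, b, hR, hE, q, hq, hbq, c, hcM, hcn⟩ := hF E.1 E.2
    choose r hr using fun i => Quotient.exists_rep (b i)
    have hb : clsT t (fun w => r w.1 w.2) = b := funext hr
    refine ⟨n, t, fun w => r w.1 w.2, R, hR, ?_, q, hq, ?_, c, hcM, hcn⟩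
    · rw [hb]; exact hE
    · rw [hb]; exact hbq
  choose nE tE bE RE hRE hEE hqE using hex
  have : Finite F := hFf.to_subtype
  let w : (Σ E : F, Vars (tE E)) → U := fun z => bE z.1 z.2
  have hM' : #((M : Set U) ∪ Set.range c1 : Set U) < κ := J5949.small_union hκ hM c1
  obtain ⟨a2, -, ha2ST, ha2⟩ := neumann hsat hκ hM' (⊤ : L.Formula _)
    ⟨fun _ => Formula.realize_top.2 trivial, fun _ => Formula.realize_top.2 trivial,
      fun _ _ => Formula.realize_top.2 trivial⟩ a1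
    (X := acl L (((M : Set U) ∪ Set.range c1) ∪ Set.range w))
    (card_acl hκ (J5949.small_union hκ hM' w))
  -- the same type over `M` of the pairs
  have hpair : ST L (M : Set U) (Sum.elim a1 c1) (Sum.elim a2 c1) := by
    intro p m hm ψ
    have h1 := J5949.ST_fin ha2ST (Sum.elim c1 m) (by
      rintro (i | i)
      · exact Or.inr ⟨i, rfl⟩
      · exact Or.inl (hm i)) (ψ.relabel (Equiv.sumAssoc _ _ _))
    rw [Formula.realize_relabel, Formula.realize_relabel] at h1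
    have e1 : ∀ u : (Vars fun i => (a i).1) → U, Sum.elim u (Sum.elim c1 m) ∘
        (Equiv.sumAssoc (Vars fun i => (a i).1) (Vars fun j => (c j).1) (Fin p)) =
        Sum.elim (Sum.elim u c1) m := by
      intro u
      funext z
      rcases z with (z | z) | z <;> rfl
    rw [e1, e1] at h1
    exact h1.symm
  have I2 : acl L ((M : Set U) ∪ Set.range a2) ∩ acl L ((M : Set U) ∪ Set.range c1) ⊆ M := by
    have h1 := ST.inter hpair (S := Set.range Sum.inl) (T := Set.range Sum.inr)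
    rw [← Set.range_comp, ← Set.range_comp, ← Set.range_comp, ← Set.range_comp] at h1
    exact h1 I1
  have I3 : acl L ((M : Set U) ∪ Set.range a2) ∩
      acl L (((M : Set U) ∪ Set.range c1) ∪ Set.range w) ⊆ M := by
    rintro x ⟨hx1, hx2⟩
    have h1 : x ∈ acl L (((M : Set U) ∪ Set.range c1) ∪ Set.range a2) := by
      refine acl_mono ?_ hx1
      rintro y (hy | hy)
      · exact Or.inl (Or.inl hy)
      · exact Or.inr hy
    exact I2 ⟨hx1, J5949.AlgE.top_mem_acl (ha2 x hx2 h1)⟩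
  have hφ2 : φ.Realize (Sum.elim a2 c1) :=
    (J5949.ST_fin ha2ST c1 (fun i => Or.inr ⟨i, rfl⟩) φ).2 hφ1
  rw [hφ a2 c1 hc1cl] at hφ2
  obtain ⟨E, hEF, haE⟩ := hDF hφ2
  -- the last step
  obtain ⟨q, hq, hbq, r0, hr0, hn⟩ := hqE ⟨E, hEF⟩
  have hEE' := hEE ⟨E, hEF⟩
  obtain ⟨ρ, hρ⟩ := hRE ⟨E, hEF⟩
  apply hn
  intro n
  obtain ⟨r, hr1, hr2, hr3⟩ := exists_reps hsat hκ M hM hq (bE ⟨E, hEF⟩) hbq r0 hr0 n
  have hρa : ρ.Realize (Sum.elim a2 (bE ⟨E, hEF⟩)) := by
    rw [hρ]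
    have h1 : clsT (fun i => (a i).1) a2 ∈ (E : Set (Tup fun i => (a i).1)) := haE
    have h2 : E = {x | RE ⟨E, hEF⟩ x (clsT (tE ⟨E, hEF⟩) (bE ⟨E, hEF⟩))} := hEE'
    rw [h2] at h1
    exact h1
  have I4 : acl L ((M : Set U) ∪ Set.range a2) ∩
      acl L ((M : Set U) ∪ Set.range (bE ⟨E, hEF⟩)) ⊆ M := by
    rintro x ⟨hx1, hx2⟩
    refine I3 ⟨hx1, acl_mono ?_ hx2⟩
    rintro y (hy | ⟨z, rfl⟩)
    · exact Or.inl (Or.inl hy)
    · exact Or.inr ⟨⟨⟨E, hEF⟩, z⟩, rfl⟩
  obtain ⟨x, hx⟩ := h M hM _ _ a2 (bE ⟨E, hEF⟩) I4 n r hr2 hr3 ρ hρa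
  refine ⟨clsT (fun i => (a i).1) x, fun i hi => ?_⟩
  have h1 := hx ⟨i, hi⟩
  rw [hρ, hr1] at h1
  exact h1

end H968G
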