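import Pool.Agent.helper968_onebased.AmG
import Pool.Agent.helper968_onebased.Ref

/-!
The generic structure (by helper701).
-/

namespace H968G

open Classical Finset H968F


namespace Gen701

/-- Transfer of the axioms along the identity. -/
theorem ax_id {Q r : Rl NN} {A : Set NN} (h : RefOn Q r A id) (hA : Ax Q A) : Ax r A := by
  have := h.ax hA
  rwa [Set.image_id] at this

/-- Transfer of closedness along the identity. -/
theorem dc_id {Q r : Rl NN} {A B : Set NN} (h : RefOn Q r B id) (hA : DC Q.G A B) :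
    DC r.G A B := by
  have := h.dc hA
  rwa [Set.image_id, Set.image_id] at this

theorem id_symm {Q r : Rl NN} {A : Set NN} (h : RefOn Q r A id) : RefOn r Q A id where
  inj := Set.injOn_id _
  P x hx := (h.P x hx).symm
  G x hx y hy := (h.G x hx y hy).symm
  S x hx v hv w hw := (h.S x hx v hv w hw).symm

/-- Composition with an identity on the right hand side. -/
theorem comp_idG {F : Type} {Q : Rl F} {r s : Rl NN} {A : Set F} {g : F → NN}
    {T : Set NN} (h : RefOn Q r A g) (h' : RefOn r s T id) (hT : ∀ x ∈ A, g x ∈ T) :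
    RefOn Q s A g where
  inj := h.inj
  P x hx := (h'.P _ (hT x hx)).trans (h.P x hx)
  G x hx y hy := (h'.G _ (hT x hx) _ (hT y hy)).trans (h.G x hx y hy)
  S x hx v hv w hw := (h'.S _ (hT x hx) _ (hT v hv) _ (hT w hw)).trans (h.S x hx v hv w hw)

theorem rfl_id {Q : Rl NN} {A : Set NN} : RefOn Q Q A id where
  inj := Set.injOn_id _
  P _ _ := Iff.rfl
  G _ _ _ _ := Iff.rfl
  S _ _ _ _ _ _ := Iff.rfl

/-- The conditions. -/
structure Cond where
  S : Finset NN
  R : Rl NN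
  ax : Ax R (S : Set NN)

/-- The order of the conditions. -/
structure Cond.Le (p q : Cond) : Prop where
  sub : p.S ⊆ q.S
  ref : RefOn p.R q.R (p.S : Set NN) id
  cl : DC q.R.G (p.S : Set NN) (q.S : Set NN)

theorem Cond.Le.refl (p : Cond) : p.Le p := ⟨Finset.Subset.refl _, rfl_id, DC.refl _⟩

theorem Cond.Le.trans {p q r : Cond} (h : p.Le q) (h' : q.Le r) : p.Le r where
  sub := h.sub.trans h'.sub
  ref := comp_idG h.ref h'.ref fun _ hx => h.sub hx
  cl := (dc_id h'.ref h.cl).trans h'.cl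

/-- The trivial relations. -/
def triv : Rl NN where
  G := ⊥
  P _ := False
  S _ _ _ := False

/-- The empty condition. -/
def Cond.empty : Cond where
  S := ∅
  R := triv
  ax := by
    refine ⟨?_, ?_, ?_, ?_, ?_⟩
    · intro X hX hne
      obtain ⟨x, hx⟩ := hne
      exact absurd (hX hx) (by simp)
    all_goals simp

/-- Restriction of the relations to a finite set. -/
def restr (r : Rl NN) (S : Finset NN) : Rl NN where
  G := { Adj := fun x y => r.G.Adj x y ∧ x ∈ S ∧ y ∈ S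
         symm := ⟨fun _ _ h => ⟨h.1.symm, h.2.2, h.2.1⟩⟩
         loopless := ⟨fun _ h => h.1.ne rfl⟩ }
  P x := r.P x ∧ x ∈ S
  S x z c := r.S x z c ∧ x ∈ S ∧ z ∈ S ∧ c ∈ S

theorem restr_ref (r : Rl NN) (S : Finset NN) : RefOn r (restr r S) (S : Set NN) id where
  inj := Set.injOn_id _
  P x hx := ⟨fun h => h.1, fun h => ⟨h, hx⟩⟩
  G x hx y hy := ⟨fun h => h.1, fun h => ⟨h, hx, hy⟩⟩
  S x hx v hv w hw := ⟨fun h => h.1, fun h => ⟨h, hx, hv, hw⟩⟩

theorem Cond.add_one (p : Cond) (k : NN) : ∃ q : Cond, p.Le q ∧ k ∈ q.S := by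
  by_cases hk : k ∈ p.S
  · exact ⟨p, Cond.Le.refl p, hk⟩
  obtain ⟨r, hr⟩ : ∃ r, r = restr p.R p.S := ⟨_, rfl⟩
  have href : RefOn p.R r (p.S : Set NN) id := hr ▸ restr_ref p.R p.S
  have hS : Ax r (p.S : Set NN) := ax_id href p.ax
  have hP : ∀ x, r.P x → x ∈ p.S := fun x h => by rw [hr] at h; exact h.2
  have hG : ∀ x y, r.G.Adj x y → x ∈ p.S ∧ y ∈ p.S := fun x y h => by rw [hr] at h; exact h.2
  have hSS : ∀ x z c, r.S x z c → x ∈ p.S ∧ z ∈ p.S ∧ c ∈ p.S :=
    fun x z c h => by rw [hr] at h; exact h.2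
  have hTg : Gr r.G (({k} : Finset NN) : Set NN) := by
    intro X hX hne
    have hXk : X = {k} := by
      have h1 : X ⊆ {k} := by exact_mod_cast hX
      rcases Finset.subset_singleton_iff.1 h1 with h | h
      · exact absurd h hne.ne_empty
      · exact h
    subst hXk
    have hes : es r.G ({k} : Finset NN) = ∅ := by
      ext e
      simp only [Finset.notMem_empty, iff_false]
      intro he
      rw [mem_es] at he
      induction e using Sym2.inductionOn with
      | _ x y =>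
        have h1 := (hG x y he.2).1
        have h2 := he.1 x (by simp)
        rw [Finset.mem_singleton] at h2
        exact hk (h2 ▸ h1)
    have : dl r.G ({k} : Finset NN) = 2 := by
      simp only [dl, hes]
      simp
    rw [this]
    simp
  have hint : p.S ∩ {k} = ∅ := by
    ext x
    simp only [Finset.mem_inter, Finset.mem_singleton, Finset.notMem_empty, iff_false]
    rintro ⟨h1, rfl⟩
    exact hk h1
  have hfree : Free r.G p.S {k} := fun u _ v _ h => Or.inl (hG u v h)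
  have hcS : Cl r.G (p.S ∩ {k}) (p.S : Set NN) := by
    rw [hint]; exact hS.gr.cl_empty
  have hcT : Cl r.G (p.S ∩ {k}) (({k} : Finset NN) : Set NN) := by
    rw [hint]; exact hTg.cl_empty
  have hax : Ax r ((p.S ∪ {k} : Finset NN) : Set NN) := by
    refine ⟨hfree.gr hS.gr hTg hcS hcT, ?_, ?_, ?_, ?_⟩
    · intro u _ v _ h1
      exact hS.iso u (hG u v h1).1 v (hG u v h1).2 h1
    · intro x _ z _ c _ h1
      obtain ⟨a, b, d⟩ := hSS x z c h1
      exact hS.SP x a z b c d h1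
    · intro x _ z _ a _ b _ c _ h1 h2 h3
      exact hS.two x (hSS x z a h1).1 z (hSS x z a h1).2.1 a (hSS x z a h1).2.2 b
        (hSS x z b h2).2.2 c (hSS x z c h3).2.2 h1 h2 h3
    · intro x _ hp z _ w _ h1
      exact hS.cov x (hP x hp) hp z (hG z w h1).1 w (hG z w h1).2 h1
  exact ⟨⟨p.S ∪ {k}, r, hax⟩, ⟨Finset.subset_union_left, href, dc_iff.2 (hfree.closed hcT)⟩,
    Finset.mem_union_right _ (Finset.mem_singleton_self k)⟩

theorem Cond.add_finset (p : Cond) (t : Finset NN) : ∃ q : Cond, p.Le q ∧ t ⊆ q.S := by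
  induction t using Finset.induction_on with
  | empty => exact ⟨p, Cond.Le.refl p, Finset.empty_subset _⟩
  | insert a t _ ih =>
    obtain ⟨q, h1, h2⟩ := ih
    obtain ⟨r, h3, h4⟩ := q.add_one a
    refine ⟨r, h1.trans h3, ?_⟩
    intro x hx
    rcases Finset.mem_insert.1 hx with rfl | hx
    · exact h4
    · exact h3.sub (h2 hx)

/-- The pair `x`, `z` is treated in the condition `c`. -/
def Cond.Fills (c : Cond) (x z : NN) : Prop :=
  x ∈ c.S ∧ z ∈ c.S ∧ (c.R.P x → ¬ c.R.P z →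
    ∃ a ∈ c.S, ∃ b ∈ c.S, a ≠ b ∧ c.R.S x z a ∧ c.R.S x z b)

/-- Every pair can be treated. -/
theorem Cond.fill_one (p : Cond) (x z : NN) : ∃ q : Cond, p.Le q ∧ q.Fills x z := by
  obtain ⟨p1, hp1, hx1⟩ := p.add_one x
  obtain ⟨p2, hp2, hz⟩ := p1.add_one z
  have hx : x ∈ p2.S := hp2.sub hx1
  by_cases hP : p2.R.P x
  swap
  · exact ⟨p2, hp1.trans hp2, hx, hz, fun h => absurd h hP⟩
  by_cases hz' : p2.R.P z
  · exact ⟨p2, hp1.trans hp2, hx, hz, fun _ h => absurd hz' h⟩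
  obtain ⟨Q', D', k1, k2, k3, k4, k5⟩ := fill p2.R p2.S p2.ax hx hz hP hz'
  exact ⟨⟨D', Q', k2⟩, (hp1.trans hp2).trans ⟨k1, k3, k4⟩, k1 hx, k1 hz, fun _ _ => k5⟩

/-- The condition `c` solves the problem. -/
def Cond.Solves (c : Cond) {n : ℕ} (Q : Rl (Fin n)) (A : Finset (Fin n)) (g : Fin n → NN) :
    Prop :=
  (∀ x ∈ A, g x ∈ c.S) ∧ (RefOn Q c.R (A : Set (Fin n)) g →
    DC c.R.G (g '' (A : Set (Fin n))) (c.S : Set NN) →
    ∃ g' : Fin n → NN, (∀ x, g' x ∈ c.S) ∧ RefOn Q c.R Set.univ g' ∧ (∀ x ∈ A, g' x = g x) ∧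
      DC c.R.G (Set.range g') (c.S : Set NN))

/-- The problems can be solved. -/
theorem Cond.solve (p : Cond) {n : ℕ} (Q : Rl (Fin n)) (A : Finset (Fin n)) (g : Fin n → NN)
    (hQ : Ax Q Set.univ) (hA : CS Q (A : Set (Fin n)) Set.univ) :
    ∃ q : Cond, p.Le q ∧ q.Solves Q A g := by
  obtain ⟨p', hp', hgp⟩ := p.add_finset (A.image g)
  have hgS : ∀ x ∈ A, g x ∈ p'.S := fun x hx => hgp (Finset.mem_image_of_mem g hx)
  by_cases hR : RefOn Q p'.R (A : Set (Fin n)) g
  swap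
  · exact ⟨p', hp', hgS, fun h => absurd h hR⟩
  by_cases hC : DC p'.R.G (g '' (A : Set (Fin n))) (p'.S : Set NN)
  swap
  · exact ⟨p', hp', hgS, fun _ h => absurd h hC⟩
  have hQ' : Ax Q ((Finset.univ : Finset (Fin n)) : Set (Fin n)) := by
    rw [Finset.coe_univ]; exact hQ
  have hA' : CS Q (A : Set (Fin n)) ((Finset.univ : Finset (Fin n)) : Set (Fin n)) := by
    rw [Finset.coe_univ]; exact hA
  obtain ⟨Q', D', g', k1, k2, k3, k4, k5, k6, k7, k8⟩ :=
    amG p'.R p'.S p'.ax Q A Finset.univ hQ' hA' g hR hC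
  rw [Finset.coe_univ] at k5 k8
  rw [Set.image_univ] at k8
  exact ⟨⟨D', Q', k2⟩, hp'.trans ⟨k1, k3, k4.dc⟩, fun x hx => k1 (hgS x hx), fun _ _ =>
    ⟨g', fun x => k7 x (Finset.mem_univ x), k5, k6, k8⟩⟩

/-- A chain meeting countably many dense sets. -/
theorem exists_cond_chain (D : ℕ → Cond → Prop)
    (hD : ∀ (i : ℕ) (c : Cond), ∃ c' : Cond, c.Le c' ∧ D i c') :
    ∃ p : ℕ → Cond, (∀ n m, n ≤ m → (p n).Le (p m)) ∧ ∀ i, D i (p (i + 1)) := by
  choose f hf1 hf2 using hD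
  let p : ℕ → Cond := fun n => Nat.rec Cond.empty (fun n c => f n c) n
  have hp : ∀ n, p (n + 1) = f n (p n) := fun n => rfl
  refine ⟨p, fun n m h => ?_, fun i => ?_⟩
  · induction m, h using Nat.le_induction with
    | base => exact Cond.Le.refl _
    | succ m _ ih =>
      refine ih.trans ?_
      rw [hp]
      exact hf1 m (p m)
  · rw [hp]
    exact hf2 i (p i)

theorem finite_rl (n : ℕ) : Finite (Rl (Fin n)) := by
  let f : Rl (Fin n) → (Fin n → Fin n → Prop) × (Fin n → Prop) ×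
      (Fin n → Fin n → Fin n → Prop) := fun R => (R.G.Adj, R.P, R.S)
  have hf : Function.Injective f := by
    rintro ⟨G, P, S⟩ ⟨G', P', S'⟩ h
    simp only [f, Prod.mk.injEq] at h
    obtain ⟨h1, rfl, rfl⟩ := h
    have : G = G' := SimpleGraph.ext h1
    rw [this]
  exact Finite.of_injective f hf

/-- The problems. -/
abbrev Prob : Type := Σ n : ℕ, Rl (Fin n) × Finset (Fin n) × (Fin n → NN)

theorem countable_prob : Countable Prob := by
  have := finite_rl
  infer_instance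

end Gen701

open Gen701 in
theorem exists_generic : ∃ r : Rl NN, Ax r Set.univ ∧ Full r Set.univ ∧ EP r := by
  have : Nonempty (NN ⊕ ((NN × NN) ⊕ Prob)) := ⟨Sum.inl ⟨0⟩⟩
  have := countable_prob
  obtain ⟨enum, henum⟩ := exists_surjective_nat (NN ⊕ ((NN × NN) ⊕ Prob))
  let Dn : (NN ⊕ ((NN × NN) ⊕ Prob)) → Cond → Prop := fun i c =>
    match i with
    | Sum.inl k => k ∈ c.S
    | Sum.inr (Sum.inl q) => c.Fills q.1 q.2
    | Sum.inr (Sum.inr P) => Ax P.2.1 Set.univ → CS P.2.1 (P.2.2.1 : Set (Fin P.1)) Set.univ →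
        c.Solves P.2.1 P.2.2.1 P.2.2.2
  have hDn : ∀ (i : ℕ) (c : Cond), ∃ c' : Cond, c.Le c' ∧ Dn (enum i) c' := by
    intro i c
    rcases enum i with k | q | P
    · exact c.add_one k
    · exact c.fill_one q.1 q.2
    · by_cases h1 : Ax P.2.1 Set.univ
      · by_cases h2 : CS P.2.1 (P.2.2.1 : Set (Fin P.1)) Set.univ
        · obtain ⟨q, h3, h4⟩ := c.solve P.2.1 P.2.2.1 P.2.2.2 h1 h2
          exact ⟨q, h3, fun _ _ => h4⟩
        · exact ⟨c, Cond.Le.refl c, fun _ h => absurd h h2⟩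
      · exact ⟨c, Cond.Le.refl c, fun h => absurd h h1⟩
  obtain ⟨p, hmono, hmeet⟩ := exists_cond_chain (fun i => Dn (enum i)) hDn
  -- the limit
  let r : Rl NN :=
    { G := { Adj := fun x y => ∃ n, x ∈ (p n).S ∧ y ∈ (p n).S ∧ (p n).R.G.Adj x y
             symm := ⟨fun _ _ ⟨n, h1, h2, h3⟩ => ⟨n, h2, h1, h3.symm⟩⟩
             loopless := ⟨fun _ ⟨_, _, _, h3⟩ => h3.ne rfl⟩ }
      P := fun x => ∃ n, x ∈ (p n).S ∧ (p n).R.P x
      S := fun x v w => ∃ n, x ∈ (p n).S ∧ v ∈ (p n).S ∧ w ∈ (p n).S ∧ (p n).R.S x v w }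
  have href : ∀ n, RefOn (p n).R r ((p n).S : Set NN) id := by
    intro n
    constructor
    · exact Set.injOn_id _
    · intro x hx
      refine ⟨?_, fun h => ⟨n, hx, h⟩⟩
      rintro ⟨m, h1, hm⟩
      rcases le_total n m with h | h
      · exact ((hmono n m h).ref.P x hx).1 hm
      · exact ((hmono m n h).ref.P x h1).2 hm
    · intro x hx y hy
      refine ⟨?_, fun h => ⟨n, hx, hy, h⟩⟩
      rintro ⟨m, h1, h2, hm⟩
      rcases le_total n m with h | h
      · exact ((hmono n m h).ref.G x hx y hy).1 hm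
      · exact ((hmono m n h).ref.G x h1 y h2).2 hm
    · intro x hx v hv w hw
      refine ⟨?_, fun h => ⟨n, hx, hv, hw, h⟩⟩
      rintro ⟨m, h1, h2, h3, hm⟩
      rcases le_total n m with h | h
      · exact ((hmono n m h).ref.S x hx v hv w hw).1 hm
      · exact ((hmono m n h).ref.S x h1 v h2 w h3).2 hm
  have hcov : ∀ k, ∃ n, k ∈ (p n).S := by
    intro k
    obtain ⟨i, hi⟩ := henum (Sum.inl k)
    refine ⟨i + 1, ?_⟩
    have := hmeet i
    simp only [hi] at this
    exact this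
  have hmem : ∀ {n m : ℕ} {x : NN}, n ≤ m → x ∈ (p n).S → x ∈ (p m).S :=
    fun h hx => (hmono _ _ h).sub hx
  have hcovf : ∀ s : Finset NN, ∃ n, s ⊆ (p n).S := by
    intro s
    induction s using Finset.induction_on with
    | empty => exact ⟨0, Finset.empty_subset _⟩
    | insert a s _ ih =>
      obtain ⟨n, hn⟩ := ih
      obtain ⟨m, hm⟩ := hcov a
      refine ⟨max n m, fun x hx => ?_⟩
      rcases Finset.mem_insert.1 hx with rfl | hx
      · exact hmem (le_max_right _ _) hm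
      · exact hmem (le_max_left _ _) (hn hx)
  have hcov5 : ∀ a b c d e : NN, ∃ n, a ∈ ((p n).S : Set NN) ∧ b ∈ ((p n).S : Set NN) ∧
      c ∈ ((p n).S : Set NN) ∧ d ∈ ((p n).S : Set NN) ∧ e ∈ ((p n).S : Set NN) := by
    intro a b c d e
    obtain ⟨n, hn⟩ := hcovf {a, b, c, d, e}
    exact ⟨n, hn (by simp), hn (by simp), hn (by simp), hn (by simp), hn (by simp)⟩
  have u : ∀ x : NN, x ∈ (Set.univ : Set NN) := fun x => Set.mem_univ x
  have hax : ∀ n, Ax r ((p n).S : Set NN) := fun n => ax_id (href n) (p n).ax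
  have hAx : Ax r Set.univ := by
    refine ⟨?_, ?_, ?_, ?_, ?_⟩
    · intro X _ hne
      obtain ⟨n, hn⟩ := hcovf X
      exact (hax n).gr X (by exact_mod_cast hn) hne
    · intro x _ y _
      obtain ⟨n, h1, h2, -, -, -⟩ := hcov5 x y x x x
      exact (hax n).iso x h1 y h2
    · intro x _ z _ c _
      obtain ⟨n, h1, h2, h3, -, -⟩ := hcov5 x z c x x
      exact (hax n).SP x h1 z h2 c h3
    · intro x _ z _ a _ b _ c _
      obtain ⟨n, h1, h2, h3, h4, h5⟩ := hcov5 x z a b c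
      exact (hax n).two x h1 z h2 a h3 b h4 c h5
    · intro x _ hp z _ w _
      obtain ⟨n, h1, h2, h3, -, -⟩ := hcov5 x z w x x
      exact (hax n).cov x h1 hp z h2 w h3
  have hdc : ∀ n m, n ≤ m → DC r.G ((p n).S : Set NN) ((p m).S : Set NN) :=
    fun n m h => dc_id (href m) (hmono n m h).cl
  have hcl : ∀ n, DC r.G ((p n).S : Set NN) Set.univ := by
    intro n
    refine ⟨Set.subset_univ _, fun Y _ hY => ?_⟩
    obtain ⟨m, hm⟩ := hcovf Y
    refine (hdc n (max n m) (le_max_left _ _)).lt Y ?_ hY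
    intro x hx
    exact Finset.mem_coe.2 (hmem (le_max_right _ _) (hm (Finset.mem_coe.1 hx)))
  refine ⟨r, hAx, ?_, ?_⟩
  · intro x _ hP z _ hz
    obtain ⟨i, hi⟩ := henum (Sum.inr (Sum.inl (x, z)))
    have h1 := hmeet i
    simp only [hi] at h1
    have h2 : (p (i + 1)).Fills x z := h1
    obtain ⟨hx, hz2, h3⟩ := h2
    have hr := href (i + 1)
    obtain ⟨a, ha, b, hb, hab, k1, k2⟩ := h3 ((hr.P x hx).1 hP) fun h => hz ((hr.P z hz2).2 h)
    exact ⟨a, u a, b, u b, hab, (hr.S x hx z hz2 a ha).2 k1, (hr.S x hx z hz2 b hb).2 k2⟩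
  · intro n Q A' g hQ hA' hg' hgc'
    obtain ⟨A, rfl⟩ : ∃ A : Finset (Fin n), (A : Set (Fin n)) = A' :=
      ⟨A'.toFinite.toFinset, Set.Finite.coe_toFinset _⟩
    obtain ⟨i, hi⟩ := henum (Sum.inr (Sum.inr ⟨n, Q, A, g⟩))
    have h1 := hmeet i
    simp only [hi] at h1
    have h2 : (p (i + 1)).Solves Q A g := h1 hQ hA'
    have hag := href (i + 1)
    have hclc := hcl (i + 1)
    obtain ⟨h3, h4⟩ := h2
    have h5 : RefOn Q (p (i + 1)).R (A : Set (Fin n)) g :=
      comp_idG hg' (id_symm hag) fun x hx => h3 x hx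
    have h6 : DC (p (i + 1)).R.G (g '' (A : Set (Fin n))) ((p (i + 1)).S : Set NN) := by
      refine dc_id (id_symm hag) (hgc'.mono ?_ (Set.subset_univ _))
      rintro y ⟨x, hx, rfl⟩
      exact h3 x hx
    obtain ⟨g', k1, k2, k3, k4⟩ := h4 h5 h6
    exact ⟨g', comp_idG k2 hag fun x _ => k1 x, k3, (dc_id hag k4).trans hclc⟩

end H968G
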