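import Pool.Agent.helper968_onebased.Code
import Pool.Agent.helper968_onebased.Ref

/-!
Transfer of the axioms to all models of the theory (by helper227).
-/

namespace H968G

open FirstOrder FirstOrder.Language H968F


namespace T1

open Classical in
theorem transfer {L : FirstOrder.Language.{0, 0}} {M N : Type} [L.Structure M] [L.Structure N]
    [Nonempty M] (hN : N ⊨ L.completeTheory M) {α : Type} (φ : L.Formula α)
    (h : ∀ v : α → M, φ.Realize v) (v : α → N) : φ.Realize v := by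
  by_contra hv
  have h1 : (φ.not.exClosure).Realize N := by
    rw [Formula.realize_exClosure]
    refine ⟨fun a => v a, ?_⟩
    rw [Formula.Realize, BoundedFormula.realize_restrictFreeVar (v' := v) (by simp)]
    exact hv
  have h2 : M ⊨ φ.not.exClosure := (realize_iff_of_model_completeTheory M N _).1 h1
  rw [Sentence.Realize] at h2
  have h3 := (Formula.realize_exClosure (M := M) φ.not).1 h2
  obtain ⟨w, hw⟩ := h3
  let v' : α → M := fun a => if h : a ∈ φ.not.freeVarFinset then w ⟨a, h⟩ else Classical.arbitrary M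
  rw [Formula.Realize, BoundedFormula.realize_restrictFreeVar (v' := v')
    (by intro a; simp only [v', dif_pos a.2]; rfl)] at hw
  exact hw (h v')

/-- The relation symbol of the graph. -/
def sE : LA.Relations 2 := Sy.E

/-- The formula of the graph relation. -/
def fE {α : Type} (x y : α) : LA.Formula α := sE.formula₂ (Term.var x) (Term.var y)

theorem realize_fE {α M : Type} [LA.Structure M] (x y : α) (v : α → M) :
    (fE x y).Realize v ↔ Structure.RelMap (L := LA) Sy.E ![v x, v y] := by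
  rw [fE, Formula.realize_rel₂]
  exact Iff.rfl

theorem code_exists {r0 : Rl NN} [LA.Structure NN] (hr : Rep NN r0) {U : Type} [LA.Structure U]
    (hU : U ⊨ LA.completeTheory NN) {r : Rl U} (hrU : Rep U r) {κ : Type} [Finite κ]
    (c : κ → U) : ∃ c' : κ → NN, code r c = code r0 c' := by
  have : Nonempty NN := ⟨⟨0⟩⟩
  obtain ⟨φ, hφ⟩ := exists_codeF (κ := κ) {C | ∃ c' : κ → NN, C = code r0 c'}
  have h1 := transfer hU φ (fun v => (hφ NN r0 hr v).2 ⟨v, rfl⟩) c
  exact (hφ U r hrU c).1 h1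

theorem ref_exists {r0 : Rl NN} [LA.Structure NN] (hr : Rep NN r0) {U : Type} [LA.Structure U]
    (hU : U ⊨ LA.completeTheory NN) {r : Rl U} (hrU : Rep U r) (A : Set U) (hA : A.Finite) :
    ∃ f : U → NN, RefOn r r0 A f := by
  have : Nonempty NN := ⟨⟨0⟩⟩
  have : Finite A := hA
  obtain ⟨c', hc'⟩ := code_exists hr hU hrU (κ := A) Subtype.val
  obtain ⟨f, hf, -⟩ := of_code hc'
  rw [Subtype.range_coe] at hf
  exact ⟨f, hf⟩

theorem rep_exists {r0 : Rl NN} [LA.Structure NN] (hr : Rep NN r0) {U : Type} [LA.Structure U]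
    (hU : U ⊨ LA.completeTheory NN) : ∃ r : Rl U, Rep U r := by
  have : Nonempty NN := ⟨⟨0⟩⟩
  have hsym : ∀ a b : U, Structure.RelMap (L := LA) Sy.E ![a, b] →
      Structure.RelMap (L := LA) Sy.E ![b, a] := by
    intro a b hab
    have h1 := transfer hU ((fE (0 : Fin 2) 1).imp (fE 1 0)) (fun v => by
      rw [Formula.realize_imp, realize_fE, realize_fE, hr.E, hr.E]
      exact fun h => h.symm) ![a, b]
    rw [Formula.realize_imp, realize_fE, realize_fE] at h1
    exact h1 hab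
  have hirr : ∀ a : U, ¬ Structure.RelMap (L := LA) Sy.E ![a, a] := by
    intro a haa
    have h1 := transfer hU (fE (0 : Fin 1) 0).not (fun v => by
      rw [Formula.realize_not, realize_fE, hr.E]
      exact r0.G.loopless.irrefl _) ![a]
    rw [Formula.realize_not, realize_fE] at h1
    exact h1 haa
  refine ⟨⟨⟨fun a b => Structure.RelMap (L := LA) Sy.E ![a, b], ⟨fun a b h => hsym a b h⟩, ⟨hirr⟩⟩,
    fun a => Structure.RelMap (L := LA) Sy.P ![a],
    fun a b c => Structure.RelMap (L := LA) Sy.S ![a, b, c]⟩, ?_, ?_, ?_⟩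
  · intro v
    have h1 : v = ![v 0] := by
      funext i
      fin_cases i
      rfl
    constructor
    · intro h
      rw [h1] at h
      exact h
    · intro h
      rw [h1]
      exact h
  · intro v
    have h1 : v = ![v 0, v 1] := by
      funext i
      fin_cases i <;> rfl
    constructor
    · intro h
      rw [h1] at h
      exact h
    · intro h
      rw [h1]
      exact h
  · intro v
    have h1 : v = ![v 0, v 1, v 2] := by
      funext i
      fin_cases i <;> rfl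
    constructor
    · intro h
      rw [h1] at h
      exact h
    · intro h
      rw [h1]
      exact h

open Classical in
theorem ax_exists {r0 : Rl NN} [LA.Structure NN] (hr : Rep NN r0) (hax : Ax r0 Set.univ)
    {U : Type} [LA.Structure U]
    (hU : U ⊨ LA.completeTheory NN) {r : Rl U} (hrU : Rep U r) : Ax r Set.univ where
  gr := by
    intro X _ hne
    obtain ⟨f, hf⟩ := ref_exists hr hU hrU (X : Set U) X.finite_toSet
    have h1 := hax.gr (X.image f) (Set.subset_univ _) (hne.image f)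
    rw [hf.dl (subset_refl _)] at h1
    rw [Finset.card_image_of_injOn hf.inj] at h1
    exact h1
  iso := by
    intro u _ v _ huv hp
    obtain ⟨f, hf⟩ := ref_exists hr hU hrU {u, v} (Set.toFinite _)
    have hu : u ∈ ({u, v} : Set U) := by simp
    have hv : v ∈ ({u, v} : Set U) := by simp
    exact hax.iso (f u) trivial (f v) trivial ((hf.G u hu v hv).2 huv) ((hf.P u hu).2 hp)
  SP := by
    intro x _ z _ w _ h
    obtain ⟨f, hf⟩ := ref_exists hr hU hrU {x, z, w} (Set.toFinite _)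
    have hx : x ∈ ({x, z, w} : Set U) := by simp
    have hz : z ∈ ({x, z, w} : Set U) := by simp
    have hw : w ∈ ({x, z, w} : Set U) := by simp
    have h1 := hax.SP (f x) trivial (f z) trivial (f w) trivial ((hf.S x hx z hz w hw).2 h)
    exact ⟨(hf.P x hx).1 h1.1, (hf.G z hz w hw).1 h1.2⟩
  two := by
    intro x _ z _ a _ b _ c _ h1 h2 h3
    obtain ⟨f, hf⟩ := ref_exists hr hU hrU {x, z, a, b, c} (Set.toFinite _)
    have hx : x ∈ ({x, z, a, b, c} : Set U) := by simp
    have hz : z ∈ ({x, z, a, b, c} : Set U) := by simp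
    have ha : a ∈ ({x, z, a, b, c} : Set U) := by simp
    have hb : b ∈ ({x, z, a, b, c} : Set U) := by simp
    have hc : c ∈ ({x, z, a, b, c} : Set U) := by simp
    rcases hax.two (f x) trivial (f z) trivial (f a) trivial (f b) trivial (f c) trivial
      ((hf.S x hx z hz a ha).2 h1) ((hf.S x hx z hz b hb).2 h2) ((hf.S x hx z hz c hc).2 h3) with
      h | h | h
    · exact Or.inl (hf.inj ha hb h)
    · exact Or.inr (Or.inl (hf.inj ha hc h))
    · exact Or.inr (Or.inr (hf.inj hb hc h))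
  cov := by
    intro x _ hp z _ w _ h
    obtain ⟨f, hf⟩ := ref_exists hr hU hrU {x, z, w} (Set.toFinite _)
    have hx : x ∈ ({x, z, w} : Set U) := by simp
    have hz : z ∈ ({x, z, w} : Set U) := by simp
    have hw : w ∈ ({x, z, w} : Set U) := by simp
    rcases hax.cov (f x) trivial ((hf.P x hx).2 hp) (f z) trivial (f w) trivial
      ((hf.G z hz w hw).2 h) with h1 | h1
    · exact Or.inl ((hf.S x hx z hz w hw).1 h1)
    · exact Or.inr ((hf.S x hx w hw z hz).1 h1)

theorem full_exists {r0 : Rl NN} [LA.Structure NN] (hr : Rep NN r0) (hfull : Full r0 Set.univ)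
    {U : Type} [LA.Structure U]
    (hU : U ⊨ LA.completeTheory NN) {r : Rl U} (hrU : Rep U r) : Full r Set.univ := by
  have : Nonempty NN := ⟨⟨0⟩⟩
  obtain ⟨φ, hφ⟩ := exists_codeF (κ := Fin 2) {C | C.2.1 0 ∧ ¬ C.2.1 1}
  obtain ⟨ψ, hψ⟩ := exists_codeF (κ := Fin 2 ⊕ Fin 2)
    {C | ¬ C.1 (Sum.inr 0) (Sum.inr 1) ∧ C.2.2.2 (Sum.inl 0) (Sum.inl 1) (Sum.inr 0) ∧
      C.2.2.2 (Sum.inl 0) (Sum.inl 1) (Sum.inr 1)}
  have hN : ∀ v : Fin 2 → NN, (φ.imp (ψ.iExs (Fin 2))).Realize v := by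
    intro v
    rw [Formula.realize_imp, Formula.realize_iExs, hφ NN r0 hr]
    rintro ⟨h1, h2⟩
    obtain ⟨a, -, b, -, hab, h3, h4⟩ := hfull (v 0) trivial h1 (v 1) trivial h2
    refine ⟨![a, b], ?_⟩
    rw [hψ NN r0 hr]
    exact ⟨hab, h3, h4⟩
  intro x _ hx z _ hz
  have h1 := transfer hU _ hN ![x, z]
  rw [Formula.realize_imp, Formula.realize_iExs, hφ U r hrU] at h1
  obtain ⟨i, hi⟩ := h1 ⟨hx, hz⟩
  rw [hψ U r hrU] at hi
  exact ⟨i 0, trivial, i 1, trivial, hi.1, hi.2.1, hi.2.2⟩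

theorem ep_exists {r0 : Rl NN} [LA.Structure NN] (hr : Rep NN r0) (hax : Ax r0 Set.univ)
    (hep : EP r0) {U : Type} [LA.Structure U]
    (hU : U ⊨ LA.completeTheory NN) {r : Rl U} (hrU : Rep U r) (haxU : Ax r Set.univ) :
    EP r := by
  have : Nonempty NN := ⟨⟨0⟩⟩
  intro n Q A g hQ hCS hg hdc
  obtain ⟨φ1, hφ1⟩ := exists_codeF (κ := Fin n) {C | (∀ x ∈ A, ∀ y ∈ A, C.1 x y → x = y) ∧
    (∀ x ∈ A, (C.2.1 x ↔ Q.P x)) ∧ (∀ x ∈ A, ∀ y ∈ A, (C.2.2.1 x y ↔ Q.G.Adj x y)) ∧
    (∀ x ∈ A, ∀ v ∈ A, ∀ w ∈ A, (C.2.2.2 x v w ↔ Q.S x v w))}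
  obtain ⟨φ2, hφ2⟩ := exists_dcF (κ := A)
  obtain ⟨ψ1, hψ1⟩ := exists_codeF (κ := Fin n ⊕ Fin n)
    {C | (∀ x y, C.1 (Sum.inr x) (Sum.inr y) → x = y) ∧
    (∀ x, (C.2.1 (Sum.inr x) ↔ Q.P x)) ∧
    (∀ x y, (C.2.2.1 (Sum.inr x) (Sum.inr y) ↔ Q.G.Adj x y)) ∧
    (∀ x v w, (C.2.2.2 (Sum.inr x) (Sum.inr v) (Sum.inr w) ↔ Q.S x v w)) ∧
    ∀ x ∈ A, C.1 (Sum.inr x) (Sum.inl x)}
  obtain ⟨ψ2, hψ2⟩ := exists_dcF (κ := Fin n)
  have key : ∀ (M : Type) [LA.Structure M] (s : Rl M), Rep M s → Ax s Set.univ →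
      ∀ v : Fin n → M, ((φ1 ⊓ φ2.relabel Subtype.val).imp
        ((ψ1 ⊓ ψ2.relabel Sum.inr).iExs (Fin n))).Realize v ↔
      (RefOn Q s A v → DC s.G (v '' A) Set.univ →
        ∃ g' : Fin n → M, RefOn Q s Set.univ g' ∧ (∀ x ∈ A, g' x = v x) ∧
          DC s.G (Set.range g') Set.univ) := by
    intro M _ s hs has v
    rw [Formula.realize_imp, Formula.realize_iExs, Formula.realize_inf, Formula.realize_relabel,
      hφ1 M s hs, hφ2 M s hs has]
    have e1 : code s v ∈ {C : CodeT (Fin n) | (∀ x ∈ A, ∀ y ∈ A, C.1 x y → x = y) ∧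
        (∀ x ∈ A, (C.2.1 x ↔ Q.P x)) ∧ (∀ x ∈ A, ∀ y ∈ A, (C.2.2.1 x y ↔ Q.G.Adj x y)) ∧
        (∀ x ∈ A, ∀ v ∈ A, ∀ w ∈ A, (C.2.2.2 x v w ↔ Q.S x v w))} ↔ RefOn Q s A v := by
      constructor
      · rintro ⟨h1, h2, h3, h4⟩
        exact ⟨fun x hx y hy h => h1 x hx y hy h, h2, h3, h4⟩
      · rintro ⟨h1, h2, h3, h4⟩
        exact ⟨fun x hx y hy h => h1 hx hy h, h2, h3, h4⟩
    have e2 : Set.range (v ∘ (Subtype.val : A → Fin n)) = v '' A := by
      rw [Set.range_comp, Subtype.range_coe]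
    rw [e1, e2, and_imp]
    refine imp_congr_right fun _ => imp_congr_right fun _ => exists_congr fun g' => ?_
    rw [Formula.realize_inf, Formula.realize_relabel, hψ1 M s hs, hψ2 M s hs has]
    have e3 : Set.range (Sum.elim v g' ∘ (Sum.inr : Fin n → Fin n ⊕ Fin n)) = Set.range g' := by
      rw [Sum.elim_comp_inr]
    rw [e3, ← and_assoc]
    refine and_congr ?_ Iff.rfl
    constructor
    · rintro ⟨h1, h2, h3, h4, h5⟩
      exact ⟨⟨fun x _ y _ h => h1 x y h, fun x _ => h2 x, fun x _ y _ => h3 x y,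
        fun x _ v _ w _ => h4 x v w⟩, h5⟩
    · rintro ⟨⟨h1, h2, h3, h4⟩, h5⟩
      exact ⟨fun x y h => h1 trivial trivial h, fun x => h2 x trivial,
        fun x y => h3 x trivial y trivial, fun x v w => h4 x trivial v trivial w trivial, h5⟩
  have hN := transfer hU _ (fun v => (key NN r0 hr hax v).2 (fun h1 h2 =>
    hep n Q A v hQ hCS h1 h2)) g
  exact (key U r hrU haxU g).1 hN hg hdc

end T1

theorem exists_rep [LA.Structure NN] {r0 : Rl NN} (hr : Rep NN r0) (hax : Ax r0 Set.univ)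
    (hfull : Full r0 Set.univ) (hep : EP r0) {U : Type} [LA.Structure U]
    (hU : U ⊨ LA.completeTheory NN) :
    ∃ r : Rl U, Rep U r ∧ Ax r Set.univ ∧ Full r Set.univ ∧ EP r := by
  obtain ⟨r, hrU⟩ := T1.rep_exists hr hU
  have haxU := T1.ax_exists hr hax hU hrU
  exact ⟨r, hrU, haxU, T1.full_exists hr hfull hU hrU, T1.ep_exists hr hax hep hU hrU haxU⟩

end H968G
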