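import Pool.Agent.helper968_onebased.Seq
import Pool.Agent.helper968_onebased.Cla
import Pool.Agent.helper968_onebased.Eq1
import Pool.Agent.helper968_onebased.Trf
import Pool.Agent.helper968_onebased.GenG
import Pool.Agent.helper968_onebased.Csat
import Pool.Agent.helper968_onebased.Crit
import Pool.Agent.helper968_nsop1.Sub

/-!
Assembly.
-/

namespace H968G

open FirstOrder FirstOrder.Language H968F SKF EXA OBF Cardinal

theorem Big.model_base {U : Type} [LA.Structure U] {r : Rl U} (h : Big U r)
    (M : LA.ElementarySubstructure U) :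
    CS r (M : Set U) Set.univ ∧ ∃ x0 ∈ (M : Set U), r.P x0 := by
  constructor
  · have h1 : clo r (M : Set U) ⊆ M := (clo_sub_acl h.rep h.ax _).trans (acl_model M)
    have h2 : clo r (M : Set U) = M := Set.Subset.antisymm h1 (sub_clo r _)
    rw [← h2]
    exact clo_cs r _
  · let sP : LA.Relations 1 := Sy.P
    let φ : LA.Formula (Fin 1) := sP.formula ![Term.var 0]
    have hφ : ∀ x : Fin 1 → U, φ.Realize x ↔ r.P (x 0) := by
      intro x
      rw [Formula.realize_rel]
      exact h.rep.P _
    let ψ : LA.Formula Empty :=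
      Formula.iExs (Fin 1) (φ.relabel (Sum.inr : Fin 1 → Empty ⊕ Fin 1))
    have hψ : ∀ (K : Type) [LA.Structure K] (v : Empty → K), ψ.Realize v ↔
        ∃ x : Fin 1 → K, φ.Realize x := by
      intro K _ v
      simp only [ψ, Formula.realize_iExs, Formula.realize_relabel]
      rfl
    obtain ⟨x, hx⟩ := h.exists_point
    have h1 : ψ.Realize (M.subtype ∘ (default : Empty → M)) :=
      (hψ U _).2 ⟨fun _ => x, (hφ _).2 hx⟩
    rw [M.subtype.map_formula, hψ] at h1
    obtain ⟨y, hy⟩ := h1
    rw [← M.subtype.map_formula, hφ] at hy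
    exact ⟨_, (y 0).2, hy⟩

/-- Equality of types for formulas without parameters. -/
theorem ST.iff {L : FirstOrder.Language.{0, 0}} {U : Type} [L.Structure U] {M : Set U}
    {α : Type} {u v : α → U} (h : ST L M u v) (φ : L.Formula α) : φ.Realize u ↔ φ.Realize v := by
  have h1 := h 0 (fun i => i.elim0) (fun i => i.elim0) (φ.relabel Sum.inl)
  simp only [Formula.realize_relabel] at h1
  exact h1

theorem ST.symm' {L : FirstOrder.Language.{0, 0}} {U : Type} [L.Structure U] {M : Set U}
    {α : Type} {u v : α → U} (h : ST L M u v) : ST L M v u :=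
  fun p m hm φ => (h p m hm φ).symm

/-- The amalgamation property for real tuples. -/
theorem Big.p2 {U : Type} [LA.Structure U] {r : Rl U} (h : Big U r) (κ : Cardinal.{0}) :
    P2 LA κ U := by
  intro M _ α β _ _ a w hi n c hc hci φ hφ
  obtain ⟨cM, x0, hx0, hP⟩ := h.model_base M
  have hcl : ∀ X, clo r X ⊆ acl LA X := clo_sub_acl h.rep h.ax
  let X : Option (Fin n) → Set U := fun i => i.elim (Set.range a) fun i => Set.range (c i)
  let Y : Option (Fin n) → Set U := fun i => i.elim (Set.range w) fun i =>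
    ⋃ j : Fin n, ⋃ _ : j < i, Set.range (c j)
  obtain ⟨M0, hZ, hM0, hM0c, cM0, hi0⟩ := exists_base h.ax cM X Y
    (by
      rintro (_ | i)
      · exact Set.countable_range a
      · exact Set.countable_range (c i))
    (by
      rintro (_ | i)
      · exact Set.countable_range w
      · exact Set.countable_iUnion fun j => Set.countable_iUnion fun _ => Set.countable_range _)
    (by
      rintro (_ | i)
      · exact (Set.inter_subset_inter (hcl _) (hcl _)).trans hi
      · exact (Set.inter_subset_inter (hcl _) (hcl _)).trans (hci i))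
    (Set.countable_singleton x0) (Set.singleton_subset_iff.2 hx0)
  obtain ⟨x, hx⟩ := h.seq hM0c cM0 (hZ (Set.mem_singleton x0)) hP a w (hi0 none) n c
    (fun i p m hm => hc i p m fun t => hM0 (hm t)) (fun i => hi0 (some i))
  exact ⟨x, fun i => ((hx i).iff φ).2 hφ⟩

section

variable [LA.Structure NN] {r0 : Rl NN} (hr : Rep NN r0) (hax : Ax r0 Set.univ)
  (hfull : Full r0 Set.univ) (hep : EP r0)

include hr hax hfull hep

theorem exists_big {U : Type} [LA.Structure U] (hU : U ⊨ LA.completeTheory NN)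
    (hsat : CSat LA U) : ∃ r : Rl U, Big U r := by
  obtain ⟨r, h1, h2, h3, h4⟩ := exists_rep hr hax hfull hep hU
  haveI : Infinite U := (elemEq hU).infinite_iff.1 inferInstance
  exact ⟨r, h1, h2, h3, h4, hsat, inferInstance⟩

/-- The theory is NSOP₁. -/
theorem nsop1 : NSOP1 (LA.completeTheory NN) := by
  intro h
  obtain ⟨U, _, M, k, l, φ, a, c0, c1, d, hU, hsat, hM, ha0, had, hno, hst, f0, f1, f2⟩ :=
    sop1_crit h
  obtain ⟨r, hB⟩ := exists_big hr hax hfull hep hU hsat
  obtain ⟨cM, x0, hx0, hP⟩ := hB.model_base M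
  have hcl : ∀ X, clo r X ⊆ acl LA X := clo_sub_acl hB.rep hB.ax
  obtain ⟨a'', h1, h2, -⟩ := hB.indep hM cM hx0 hP (a := a) (a' := a) (b := d) (c := c1)
    (c' := c0) (fun _ _ _ _ => Iff.rfl) hst.symm'
    ((Set.inter_subset_inter (hcl _) (hcl _)).trans (FS.inter M f1))
    ((Set.inter_subset_inter (hcl _) (hcl _)).trans (FS.inter M f0))
    ((Set.inter_subset_inter (hcl _) (hcl _)).trans (FS.inter M f2))
  exact hno ⟨a'', (h2.iff φ).2 ha0, (h1.iff φ).2 had⟩

end

/-- The main theorem. -/
theorem main : ∃ (L : FirstOrder.Language.{0, 0}) (T : L.Theory), T.IsComplete ∧ NSOP1 T ∧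
    (∃ (κ : Cardinal.{0}) (U : Type) (_ : L.Structure U), IsMonster T κ U) ∧
    ∀ (κ : Cardinal.{0}) (U : Type) [L.Structure U], IsMonster T κ U →
      OneBasedIn L κ U ∧
      ∃ p : Set (Fml L 1 U), IsTypeOver (∅ : Set U) p ∧ ∃ ψ ∈ p, Forks (∅ : Set U) ψ := by
  obtain ⟨r, hax, hfull, hEP⟩ := exists_generic
  letI : LA.Structure NN := str r
  have hr : Rep NN r := rep_str r
  have hsym : Countable LA.Symbols :=
    inferInstanceAs (Countable ((Σ l, LA.Functions l) ⊕ (Σ l, LA.Relations l)))
  have hcard : LA.card < ℵ₁ := lt_of_le_of_lt mk_le_aleph0 aleph0_lt_aleph_one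
  refine ⟨LA, LA.completeTheory NN, completeTheory.isComplete LA NN, nsop1 hr hax hfull hEP,
    ?_, ?_⟩
  · refine ⟨ℵ₁, H968.Ult NN, inferInstance, ?_, aleph0_lt_aleph_one, hcard,
      H968.ult_saturated LA NN⟩
    rw [Theory.model_iff]
    intro φ hφ
    rw [Ultraproduct.sentence_realize]
    exact Filter.Eventually.of_forall fun _ => hφ
  · intro κ U _ hU
    obtain ⟨r', hB⟩ := exists_big hr hax hfull hEP hU.model
      (csat_of_sat hU.saturated hU.uncountable)
    exact ⟨oneBased_of_P2 hU.saturated hU.uncountable (hB.p2 κ), hB.forks⟩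

end H968G
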