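import Pool.Agent.helper968_onebased.Defs
import Mathlib

/-!
General notions: types over sets, algebraic closure, countable saturation.
-/

namespace H968G

open FirstOrder FirstOrder.Language SKF Cardinal

/-- The tuples `u` and `v` have the same type over `M`. -/
def ST (L : FirstOrder.Language.{0, 0}) {U : Type} [L.Structure U] (M : Set U) {α : Type}
    (u v : α → U) : Prop :=
  ∀ (p : ℕ) (m : Fin p → U), (∀ i, m i ∈ M) → ∀ φ : L.Formula (α ⊕ Fin p),
    (φ.Realize (Sum.elim u m) ↔ φ.Realize (Sum.elim v m))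

/-- The algebraic closure of `X` in `U`. -/
def acl (L : FirstOrder.Language.{0, 0}) {U : Type} [L.Structure U] (X : Set U) : Set U :=
  {x | ∃ (p : ℕ) (c : Fin p → U) (φ : L.Formula (Fin 1 ⊕ Fin p)), (∀ i, c i ∈ X) ∧
    φ.Realize (Sum.elim (fun _ => x) c) ∧ {y | φ.Realize (Sum.elim (fun _ => y) c)}.Finite}

/-- The type of `y` over `M ∪ X` is finitely satisfiable in `M`. -/
def FS (L : FirstOrder.Language.{0, 0}) {U : Type} [L.Structure U] (M X : Set U) {α : Type}
    (y : α → U) : Prop :=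
  ∀ (p : ℕ) (c : Fin p → U), (∀ i, c i ∈ M ∪ X) → ∀ φ : L.Formula (α ⊕ Fin p),
    φ.Realize (Sum.elim y c) → ∃ y' : α → U, (∀ i, y' i ∈ M) ∧ φ.Realize (Sum.elim y' c)

/-- Countable saturation, for countably many variables. -/
def CSat (L : FirstOrder.Language.{0, 0}) (U : Type) [L.Structure U] : Prop :=
  ∀ (F K : Type) [Countable F] [Countable K] (c : K → U) (Γ : Set (L.Formula (F ⊕ K))),
    (∀ s : Set (L.Formula (F ⊕ K)), s.Finite → s ⊆ Γ →
      ∃ g : F → U, ∀ φ ∈ s, φ.Realize (Sum.elim g c)) →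
    ∃ g : F → U, ∀ φ ∈ Γ, φ.Realize (Sum.elim g c)

/-- The element `x` is algebraic over `M` and the class of `u` with respect to the equivalence
relation `E`. -/
def AlgE (L : FirstOrder.Language.{0, 0}) {U : Type} [L.Structure U] (M : Set U) {α : Type}
    (E : L.Formula (α ⊕ α)) (u : α → U) (x : U) : Prop :=
  ∃ (p : ℕ) (m : Fin p → U) (θ : L.Formula ((Fin 1 ⊕ α) ⊕ Fin p)) (D : Set U), (∀ i, m i ∈ M) ∧
    D.Finite ∧ x ∈ D ∧ ∀ v : α → U, E.Realize (Sum.elim u v) → ∀ z : U,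
      (θ.Realize (Sum.elim (Sum.elim (fun _ => z) v) m) ↔ z ∈ D)

/-- The amalgamation property of real tuples which implies one-basedness. -/
def P2 (L : FirstOrder.Language.{0, 0}) (κ : Cardinal.{0}) (U : Type) [L.Structure U] : Prop :=
  ∀ M : L.ElementarySubstructure U, #M < κ → ∀ (α β : Type) [Finite α] [Finite β]
    (a : α → U) (w : β → U),
    acl L ((M : Set U) ∪ Set.range a) ∩ acl L ((M : Set U) ∪ Set.range w) ⊆ M →
    ∀ (n : ℕ) (c : Fin n → β → U), (∀ i, ST L (M : Set U) (c i) w) →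
    (∀ i, acl L ((M : Set U) ∪ Set.range (c i)) ∩
      acl L ((M : Set U) ∪ ⋃ j : Fin n, ⋃ _ : j < i, Set.range (c j)) ⊆ M) →
    ∀ φ : L.Formula (α ⊕ β), φ.Realize (Sum.elim a w) →
      ∃ x : α → U, ∀ i, φ.Realize (Sum.elim x (c i))

end H968G
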