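import Pool.Agent.helper968_onebased.Rich

/-!
Homogeneity, stars, forking. Written by helper238 (lemma job 6040).
-/

namespace H968G

open FirstOrder FirstOrder.Language H968F SKF EXA


namespace T238

/-- The star with centre `0`. -/
def starG : SimpleGraph ℕ where
  Adj a b := (a = 0 ∧ b ≠ 0) ∨ (b = 0 ∧ a ≠ 0)
  symm := ⟨fun _ _ h => h.symm⟩
  loopless := ⟨fun a h => by rcases h with ⟨h1, h2⟩ | ⟨h1, h2⟩ <;> exact h2 h1⟩

theorem starG_adj (a b : ℕ) : starG.Adj a b ↔ (a = 0 ∧ b ≠ 0) ∨ (b = 0 ∧ a ≠ 0) := Iff.rfl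

/-- The star without points. -/
def starQ : Rl ℕ where
  G := starG
  P := fun _ => False
  S := fun _ _ _ => False

open Classical in
theorem es_star_zero {X : Finset ℕ} (h0 : 0 ∈ X) :
    es starG X = (X.erase 0).image (fun a => s(0, a)) := by
  ext e
  induction e using Sym2.inductionOn with
  | _ u v =>
    rw [mem_es]
    simp only [Sym2.mem_iff, forall_eq_or_imp, forall_eq, SimpleGraph.mem_edgeSet, starG_adj,
      Finset.mem_image, Finset.mem_erase, Sym2.eq_iff]
    constructor
    · rintro ⟨⟨hu, hv⟩, ⟨h1, h2⟩ | ⟨h1, h2⟩⟩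
      · exact ⟨v, ⟨h2, hv⟩, Or.inl ⟨h1.symm, rfl⟩⟩
      · exact ⟨u, ⟨h2, hu⟩, Or.inr ⟨h1.symm, rfl⟩⟩
    · rintro ⟨a, ⟨h1, h2⟩, ⟨h3, h4⟩ | ⟨h3, h4⟩⟩
      · subst h3; subst h4
        exact ⟨⟨h0, h2⟩, Or.inl ⟨rfl, h1⟩⟩
      · subst h3; subst h4
        exact ⟨⟨h2, h0⟩, Or.inr ⟨rfl, h1⟩⟩

theorem es_star_nonzero {X : Finset ℕ} (h0 : 0 ∉ X) : es starG X = ∅ := by
  ext e
  induction e using Sym2.inductionOn with
  | _ u v =>
    rw [mem_es]
    simp only [Sym2.mem_iff, forall_eq_or_imp, forall_eq, SimpleGraph.mem_edgeSet, starG_adj,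
      Finset.notMem_empty, iff_false]
    rintro ⟨⟨hu, hv⟩, ⟨h1, h2⟩ | ⟨h1, h2⟩⟩
    · rw [h1] at hu; exact h0 hu
    · rw [h1] at hv; exact h0 hv

theorem dl_star_zero {X : Finset ℕ} (h0 : 0 ∈ X) : dl starG X = (X.card : ℤ) + 1 := by
  classical
  have h1 : (es starG X).card = X.card - 1 := by
    rw [es_star_zero h0, Finset.card_image_of_injective, Finset.card_erase_of_mem h0]
    intro a b hab
    simp only [Sym2.eq_iff] at hab
    rcases hab with ⟨-, h⟩ | ⟨h1, h2⟩
    · exact h
    · rw [h2, ← h1]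
  have h2 : 1 ≤ X.card := Finset.card_pos.2 ⟨0, h0⟩
  simp only [dl]
  omega

theorem dl_star_nonzero {X : Finset ℕ} (h0 : 0 ∉ X) : dl starG X = 2 * X.card := by
  simp [dl, es_star_nonzero h0]

theorem pow_bound (n : ℕ) : 4 * n ≤ 3 ^ (n + 1) := by
  induction n with
  | zero => norm_num
  | succ n ih =>
    have h1 : 3 ≤ 3 ^ (n + 1) := by
      calc 3 = 3 ^ 1 := by norm_num
        _ ≤ 3 ^ (n + 1) := Nat.pow_le_pow_right (by norm_num) (by omega)
    rw [pow_succ]
    omega

theorem gr_star : Gr starG Set.univ := by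
  intro X _ hne
  have hc : 1 ≤ X.card := Finset.card_pos.2 hne
  by_cases h0 : 0 ∈ X
  · rw [dl_star_zero h0]
    have : ((X.card : ℤ) + 1).toNat = X.card + 1 := by omega
    rw [this]
    exact pow_bound _
  · rw [dl_star_nonzero h0]
    have : (2 * (X.card : ℤ)).toNat = 2 * X.card := by omega
    rw [this]
    refine (pow_bound X.card).trans ?_
    exact Nat.pow_le_pow_right (by norm_num) (by omega)

theorem ax_star : Ax starQ Set.univ where
  gr := gr_star
  iso _ _ _ _ _ h := h
  SP _ _ _ _ _ _ h := h.elim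
  two _ _ _ _ _ _ _ _ _ _ h := h.elim
  cov _ _ h := h.elim

theorem full_star : Full starQ Set.univ := fun _ _ h => h.elim

open Classical in
theorem cs_star {A : Set ℕ} (h0 : 0 ∈ A) : CS starQ A Set.univ where
  dc :=
    { sub := Set.subset_univ _
      lt := by
        intro Y _ hYA
        have hlt : (Y.filter (· ∈ A)).card < Y.card := by
          apply Finset.card_lt_card
          refine Finset.ssubset_iff_subset_ne.2 ⟨Finset.filter_subset _ _, fun heq => hYA ?_⟩
          intro y hy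
          have : y ∈ Y.filter (· ∈ A) := by rw [heq]; exact hy
          exact (Finset.mem_filter.1 this).2
        change dl starG _ < dl starG _
        by_cases hY : 0 ∈ Y
        · have hf : 0 ∈ Y.filter (· ∈ A) := Finset.mem_filter.2 ⟨hY, h0⟩
          rw [dl_star_zero hY, dl_star_zero hf]
          omega
        · have hf : 0 ∉ Y.filter (· ∈ A) := fun h => hY (Finset.mem_filter.1 h).1
          rw [dl_star_nonzero hY, dl_star_nonzero hf]
          omega }
  S _ _ _ _ _ _ h := h.elim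

/-- A single point. -/
def ptQ : Rl Unit where
  G := ⊥
  P := fun _ => True
  S := fun _ _ _ => False

theorem ax_pt : Ax ptQ Set.univ where
  gr := by
    intro X _ hne
    have hc : X.card = 1 := by
      have h1 : X.card ≤ 1 := by
        have := Finset.card_le_univ X
        simpa using this
      have h2 : 1 ≤ X.card := Finset.card_pos.2 hne
      omega
    have he : es ptQ.G X = ∅ := by
      ext e
      rw [mem_es]
      simp only [Finset.notMem_empty, iff_false]
      rintro ⟨-, h⟩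
      induction e using Sym2.inductionOn with
      | _ u v => exact h
    have hd : dl ptQ.G X = 2 := by
      simp [dl, he, hc]
    rw [hd, hc]
    exact (by norm_num : 4 * 1 ≤ 3 ^ 2)
  iso _ _ _ _ h := (h : False).elim
  SP _ _ _ _ _ _ h := h.elim
  two _ _ _ _ _ _ _ _ _ _ h := h.elim
  cov _ _ _ _ _ _ _ h := (h : False).elim

theorem full_pt : Full ptQ Set.univ := fun _ _ _ _ _ h => (h trivial).elim

theorem term_var {β : Type} (t : LA.Term β) : ∃ b, t = Term.var b := by
  cases t with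
  | var b => exact ⟨b, rfl⟩
  | func f _ => exact Empty.elim f

section

variable {U : Type} [LA.Structure U] {r : Rl U}

/-- Extension of a partial isomorphism to a larger countable closed set. -/
theorem ext_step (h : Big U r) {A B : Set U} {f : U → U} (hAB : A ⊆ B) (hBc : B.Countable)
    (h1 : CS r A Set.univ) (hB : CS r B Set.univ) (h2 : CS r (f '' A) Set.univ)
    (hf : RefOn r r A f) :
    ∃ f' : U → U, RefOn r r B f' ∧ (∀ x ∈ A, f' x = f x) ∧ CS r (f' '' B) Set.univ := by
  classical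
  have hcB : Countable B := hBc.to_subtype
  have hres := res_refOn r B
  have himu : (Subtype.val : B → U) '' Set.univ = B := by
    rw [Set.image_univ, Subtype.range_coe]
  let A' : Set B := {b | (b : U) ∈ A}
  have himA : (Subtype.val : B → U) '' A' = A := by
    ext x
    constructor
    · rintro ⟨b, hb, rfl⟩
      exact hb
    · intro hx
      exact ⟨⟨x, hAB hx⟩, hx, rfl⟩
  have hQ : Ax (r.res B) Set.univ := hres.ax' (by rw [himu]; exact h.ax.sub (Set.subset_univ _))
  have hF : Full (r.res B) Set.univ := by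
    intro x _ hx z _ hz
    obtain ⟨a, ha, b, hb, hab, h3, h4⟩ := (h.full.sub hB) x x.2 hx z z.2 hz
    exact ⟨⟨a, ha⟩, trivial, ⟨b, hb⟩, trivial, fun he => hab (congrArg Subtype.val he), h3, h4⟩
  have hA : CS (r.res B) A' Set.univ := by
    refine hres.cs' (Set.subset_univ _) ?_
    rw [himu, himA]
    exact h1.mono hAB (Set.subset_univ _)
  have hg : RefOn (r.res B) r A' (f ∘ (Subtype.val : B → U)) := by
    refine (hres.mono (Set.subset_univ A')).comp ?_
    rw [himA]
    exact hf
  have hgim : (f ∘ (Subtype.val : B → U)) '' A' = f '' A := by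
    rw [Set.image_comp, himA]
  have hgc : DC r.G ((f ∘ (Subtype.val : B → U)) '' A') Set.univ := by
    rw [hgim]
    exact h2.dc
  obtain ⟨g', g1, g2, g3⟩ := h.rich (r.res B) hQ hF A' hA (f ∘ Subtype.val) hg hgc
  let f' : U → U := fun x => if hx : x ∈ B then g' ⟨x, hx⟩ else x
  have hf' : ∀ (x : U) (hx : x ∈ B), f' x = g' ⟨x, hx⟩ := fun x hx => dif_pos hx
  refine ⟨f', ?_, ?_, ?_⟩
  · refine ⟨?_, ?_, ?_, ?_⟩
    · intro x hx y hy hxy
      rw [hf' x hx, hf' y hy] at hxy
      exact congrArg Subtype.val (g1.inj (Set.mem_univ _) (Set.mem_univ _) hxy)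
    · intro x hx
      rw [hf' x hx]
      exact g1.P _ (Set.mem_univ _)
    · intro x hx y hy
      rw [hf' x hx, hf' y hy]
      exact g1.G _ (Set.mem_univ _) _ (Set.mem_univ _)
    · intro x hx y hy z hz
      rw [hf' x hx, hf' y hy, hf' z hz]
      exact g1.S _ (Set.mem_univ _) _ (Set.mem_univ _) _ (Set.mem_univ _)
  · intro x hx
    rw [hf' x (hAB hx)]
    exact g2 ⟨x, hAB hx⟩ hx
  · have : f' '' B = Set.range g' := by
      ext y
      constructor
      · rintro ⟨x, hx, rfl⟩
        exact ⟨⟨x, hx⟩, (hf' x hx).symm⟩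
      · rintro ⟨x, rfl⟩
        exact ⟨x, x.2, hf' x x.2⟩
    rw [this]
    exact g3

theorem homog_aux (h : Big U r) {α : Type} {n : ℕ} (φ : LA.BoundedFormula α n) :
    ∀ (A : Set U) (f : U → U), A.Countable → CS r A Set.univ → CS r (f '' A) Set.univ →
      RefOn r r A f → ∀ (v : α → U) (xs : Fin n → U), (∀ i, v i ∈ A) →
      (∀ i, xs i ∈ A) → (φ.Realize v xs ↔ φ.Realize (f ∘ v) (f ∘ xs)) := by
  have hterm : ∀ {n : ℕ} (t : LA.Term (α ⊕ Fin n)) (A : Set U) (f : U → U) (v : α → U)
      (xs : Fin n → U), (∀ i, v i ∈ A) → (∀ i, xs i ∈ A) →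
      t.realize (Sum.elim v xs) ∈ A ∧
        t.realize (Sum.elim (f ∘ v) (f ∘ xs)) = f (t.realize (Sum.elim v xs)) := by
    intro n t A f v xs hv hx
    obtain ⟨b, rfl⟩ := term_var t
    rcases b with b | b
    · exact ⟨hv b, rfl⟩
    · exact ⟨hx b, rfl⟩
  induction φ with
  | falsum => intros; rfl
  | equal t₁ t₂ =>
    intro A f _ _ _ hf v xs hv hx
    simp only [BoundedFormula.Realize]
    rw [(hterm t₁ A f v xs hv hx).2, (hterm t₂ A f v xs hv hx).2]
    constructor
    · intro h
      rw [h]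
    · intro h
      exact hf.inj (hterm t₁ A f v xs hv hx).1 (hterm t₂ A f v xs hv hx).1 h
  | @rel n k R ts =>
    intro A f _ _ _ hf v xs hv hx
    simp only [BoundedFormula.Realize]
    have e1 : (fun i => (ts i).realize (Sum.elim (f ∘ v) (f ∘ xs))) =
        fun i => f ((ts i).realize (Sum.elim v xs)) :=
      funext fun i => (hterm (ts i) A f v xs hv hx).2
    rw [e1]
    have hm : ∀ i, (ts i).realize (Sum.elim v xs) ∈ A :=
      fun i => (hterm (ts i) A f v xs hv hx).1
    match k, R with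
    | 1, Sy.P => rw [h.rep.P, h.rep.P]; exact (hf.P _ (hm 0)).symm
    | 2, Sy.E => rw [h.rep.E, h.rep.E]; exact (hf.G _ (hm 0) _ (hm 1)).symm
    | 3, Sy.S => rw [h.rep.S, h.rep.S]; exact (hf.S _ (hm 0) _ (hm 1) _ (hm 2)).symm
  | imp φ₁ φ₂ ih₁ ih₂ =>
    intro A f h0 h1 h2 hf v xs hv hx
    simp only [BoundedFormula.Realize, ih₁ A f h0 h1 h2 hf v xs hv hx,
      ih₂ A f h0 h1 h2 hf v xs hv hx]
  | @all n φ ih =>
    -- one direction
    have key : ∀ (A : Set U) (f : U → U), A.Countable → CS r A Set.univ →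
        CS r (f '' A) Set.univ →
        RefOn r r A f → ∀ (v : α → U) (xs : Fin n → U), (∀ i, v i ∈ A) →
        (∀ i, xs i ∈ A) → (φ.all).Realize (f ∘ v) (f ∘ xs) → (φ.all).Realize v xs := by
      intro A f h0 h1 h2 hf v xs hv hx hall
      simp only [BoundedFormula.Realize] at hall ⊢
      intro y
      have hB1 : insert y A ⊆ clo r (insert y A) := sub_clo r _
      have hAB : A ⊆ clo r (insert y A) := (Set.subset_insert y A).trans hB1
      have hBc : (clo r (insert y A)).Countable := clo_countable h.ax (h0.insert y)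
      have hy : y ∈ clo r (insert y A) := hB1 (Set.mem_insert y A)
      obtain ⟨f', hf', hff, hc⟩ := ext_step h hAB hBc h1 (clo_cs r _) h2 hf
      have h3 := (ih (clo r (insert y A)) f' hBc (clo_cs r _) hc hf' v (Fin.snoc xs y)
        (fun i => hAB (hv i)) (by
        intro i
        refine Fin.lastCases ?_ (fun j => ?_) i
        · simpa using hy
        · simpa using hAB (hx j)))
      rw [h3]
      have e2 : f' ∘ v = f ∘ v := funext fun i => hff _ (hv i)
      have e3 : f' ∘ (Fin.snoc xs y : Fin (n + 1) → U) = Fin.snoc (f ∘ xs) (f' y) := by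
        rw [Fin.comp_snoc]
        have e4 : f' ∘ xs = f ∘ xs := funext fun i => hff _ (hx i)
        rw [e4]
      rw [e2, e3]
      exact hall _
    intro A f h0 h1 h2 hf v xs hv hx
    refine ⟨?_, key A f h0 h1 h2 hf v xs hv hx⟩
    intro hr
    have hne : Nonempty U := h.ne
    obtain ⟨g, hg1, hg2, hg3⟩ := hf.inv
    refine key (f '' A) g (h0.image f) h2 (by rw [hg3]; exact h1) hg2 (f ∘ v) (f ∘ xs)
      (fun i => Set.mem_image_of_mem f (hv i)) (fun i => Set.mem_image_of_mem f (hx i)) ?_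
    have e2 : g ∘ f ∘ v = v := funext fun i => hg1 _ (hv i)
    have e3 : g ∘ f ∘ xs = xs := funext fun i => hg1 _ (hx i)
    rw [e2, e3]
    exact hr

/-- The symbol `P`. -/
def sP : LA.Relations 1 := Sy.P

/-- The symbol `S`. -/
def sS : LA.Relations 3 := Sy.S

/-- The formula `P(x)`. -/
def fP : LA.Formula (Fin 1 ⊕ Fin 0) :=
  sP.formula ![Term.var (Sum.inl 0)]

/-- The formula `S(x, z_0, z_1)`. -/
def fS : LA.Formula (Fin 1 ⊕ Fin 2) :=
  sS.formula ![Term.var (Sum.inl 0), Term.var (Sum.inr 0), Term.var (Sum.inr 1)]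

theorem realize_fS (hr : Rep U r) (x : Fin 1 → U) (y : Fin 2 → U) :
    fS.Realize (Sum.elim x y) ↔ r.S (x 0) (y 0) (y 1) := by
  rw [fS, Formula.realize_rel]
  exact hr.S _

theorem realize_fP (hr : Rep U r) (x : Fin 1 → U) (y : Fin 0 → U) :
    fP.Realize (Sum.elim x y) ↔ r.P (x 0) := by
  rw [fP, Formula.realize_rel]
  exact hr.P _

end

end T238

variable {U : Type} [LA.Structure U] {r : Rl U}

theorem Big.homog (h : Big U r) {α : Type} (φ : LA.Formula α) {A : Set U} {f : U → U}
    (hA : A.Countable) (h1 : CS r A Set.univ) (h2 : CS r (f '' A) Set.univ) (hf : RefOn r r A f)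
    {v : α → U} (hv : ∀ i, v i ∈ A) : φ.Realize v ↔ φ.Realize (f ∘ v) := by
  have h' := T238.homog_aux h φ A f hA h1 h2 hf v default hv (fun i => i.elim0)
  have e1 : (f ∘ (default : Fin 0 → U)) = (default : Fin 0 → U) := Subsingleton.elim _ _
  rw [e1] at h'
  exact h'

theorem Big.st (h : Big U r) {M : Set U} {α : Type} {A : Set U} {f : U → U}
    (hA : A.Countable) (h1 : CS r A Set.univ) (h2 : CS r (f '' A) Set.univ) (hf : RefOn r r A f)
    (hM : M ⊆ A) (hfM : ∀ m ∈ M, f m = m) {a : α → U} (ha : ∀ i, a i ∈ A) :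
    ST LA M a (f ∘ a) := by
  intro p m hm φ
  have h3 := h.homog φ hA h1 h2 hf (v := Sum.elim a m) (by
    rintro (i | i)
    · exact ha i
    · exact hM (hm i))
  have e1 : f ∘ Sum.elim a m = Sum.elim (f ∘ a) m := by
    funext i
    rcases i with i | i
    · rfl
    · exact hfM _ (hm i)
  rw [e1] at h3
  exact h3

theorem Big.exists_star (h : Big U r) {u v : U} (huv : r.G.Adj u v)
    (hc : CS r {u, v} Set.univ) : ∃ w : ℕ → U, w 0 = v ∧ Function.Injective w ∧
      (∀ i, r.G.Adj u (w i)) ∧ (∀ i j, ¬ r.G.Adj (w i) (w j)) ∧ (∀ i, ¬ r.P (w i)) ∧ ¬ r.P u ∧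
      ∀ I : Set ℕ, CS r (insert u (w '' I)) Set.univ := by
  have hPu : ¬ r.P u := h.ax.iso u trivial v trivial huv
  have hPv : ¬ r.P v := h.ax.iso v trivial u trivial huv.symm
  let g : ℕ → U := fun n => if n = 0 then u else v
  have g0 : g 0 = u := rfl
  have g1 : g 1 = v := rfl
  have hPg : ∀ x, ¬ r.P (g x) := by
    intro x
    show ¬ r.P (if x = 0 then u else v)
    split_ifs
    · exact hPu
    · exact hPv
  have hg : RefOn T238.starQ r ({0, 1} : Set ℕ) g := by
    refine ⟨?_, ?_, ?_, ?_⟩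
    · rintro x hx y hy hxy
      rcases hx with rfl | hx <;> rcases hy with rfl | hy
      · rfl
      · rw [Set.mem_singleton_iff] at hy
        subst hy
        exact absurd hxy huv.ne
      · rw [Set.mem_singleton_iff] at hx
        subst hx
        exact absurd hxy.symm huv.ne
      · rw [Set.mem_singleton_iff] at hx hy
        rw [hx, hy]
    · intro x _
      exact ⟨fun hp => (hPg x hp).elim, fun hp => hp.elim⟩
    · rintro x hx y hy
      show r.G.Adj (g x) (g y) ↔ T238.starG.Adj x y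
      rw [T238.starG_adj]
      rcases hx with rfl | hx <;> rcases hy with rfl | hy
      · rw [g0]
        constructor
        · intro hh; exact (r.G.loopless.irrefl _ hh).elim
        · rintro (⟨-, h2⟩ | ⟨-, h2⟩) <;> exact (h2 rfl).elim
      · rw [Set.mem_singleton_iff] at hy
        subst hy
        rw [g0, g1]
        exact ⟨fun _ => Or.inl ⟨rfl, one_ne_zero⟩, fun _ => huv⟩
      · rw [Set.mem_singleton_iff] at hx
        subst hx
        rw [g0, g1]
        exact ⟨fun _ => Or.inr ⟨rfl, one_ne_zero⟩, fun _ => huv.symm⟩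
      · rw [Set.mem_singleton_iff] at hx hy
        subst hx
        subst hy
        rw [g1]
        constructor
        · intro hh; exact (r.G.loopless.irrefl _ hh).elim
        · rintro (⟨h1, -⟩ | ⟨h1, -⟩) <;> exact (one_ne_zero h1).elim
    · intro x _ y _ z _
      exact ⟨fun hs => (hPg x (h.ax.SP _ trivial _ trivial _ trivial hs).1).elim,
        fun hs => hs.elim⟩
  have him : g '' ({0, 1} : Set ℕ) = {u, v} := by
    rw [Set.image_pair, g0, g1]
  obtain ⟨g', k1, k2, k3⟩ := h.rich T238.starQ T238.ax_star T238.full_star {0, 1}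
    (T238.cs_star (by simp)) g hg (by rw [him]; exact hc.dc)
  have e0 : g' 0 = u := k2 0 (by simp)
  have e1 : g' 1 = v := k2 1 (by simp)
  refine ⟨fun i => g' (i + 1), e1, ?_, ?_, ?_, ?_, hPu, ?_⟩
  · intro i j hij
    have := k1.inj (Set.mem_univ _) (Set.mem_univ _) hij
    omega
  · intro i
    have := (k1.G 0 trivial (i + 1) trivial).2 (Or.inl ⟨rfl, Nat.succ_ne_zero i⟩)
    rw [e0] at this
    exact this
  · intro i j hij
    have := (k1.G (i + 1) trivial (j + 1) trivial).1 hij
    rcases this with ⟨h1, -⟩ | ⟨h1, -⟩ <;> exact (Nat.succ_ne_zero _ h1).elim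
  · intro i hp
    exact (k1.P (i + 1) trivial).1 hp
  · intro I
    have h3 : insert u ((fun i => g' (i + 1)) '' I) =
        g' '' (insert 0 ((fun i => i + 1) '' I)) := by
      rw [Set.image_insert_eq, e0, Set.image_image]
    rw [h3]
    have h4 : CS r (g' '' (insert 0 ((fun i => i + 1) '' I))) (g' '' Set.univ) :=
      k1.cs (T238.cs_star (Set.mem_insert _ _))
    rw [Set.image_univ] at h4
    exact h4.trans k3

theorem Big.exists_edge (h : Big U r) : ∃ u v : U, r.G.Adj u v ∧ CS r {u, v} Set.univ := by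
  obtain ⟨o⟩ := h.ne
  have hg : RefOn T238.starQ r (∅ : Set ℕ) (fun _ => o) :=
    ⟨fun x hx => hx.elim, fun x hx => hx.elim, fun x hx => hx.elim, fun x hx => hx.elim⟩
  obtain ⟨g', k1, -, k3⟩ := h.rich T238.starQ T238.ax_star T238.full_star ∅
    (CS.empty T238.ax_star) (fun _ => o) hg (by rw [Set.image_empty]; exact DC.empty h.ax.gr)
  refine ⟨g' 0, g' 1, (k1.G 0 trivial 1 trivial).2 (Or.inl ⟨rfl, one_ne_zero⟩), ?_⟩
  have h4 : CS r (g' '' ({0, 1} : Set ℕ)) (g' '' Set.univ) :=
    k1.cs (T238.cs_star (by simp))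
  rw [Set.image_univ, Set.image_pair] at h4
  exact h4.trans k3

theorem Big.exists_point (h : Big U r) : ∃ x : U, r.P x := by
  obtain ⟨o⟩ := h.ne
  have hg : RefOn T238.ptQ r (∅ : Set Unit) (fun _ => o) :=
    ⟨fun x hx => hx.elim, fun x hx => hx.elim, fun x hx => hx.elim, fun x hx => hx.elim⟩
  obtain ⟨g', k1, -, -⟩ := h.rich T238.ptQ T238.ax_pt T238.full_pt ∅
    (CS.empty T238.ax_pt) (fun _ => o) hg (by rw [Set.image_empty]; exact DC.empty h.ax.gr)
  exact ⟨g' (), (k1.P () trivial).2 trivial⟩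

/-- `S(x, u, v)` divides over the empty set if `{u, v}` is a closed edge. -/
theorem T238.divides_S (h : Big U r) {u v : U} (huv : r.G.Adj u v) (hc : CS r {u, v} Set.univ) :
    Divides (∅ : Set U) (⟨2, T238.fS, ![u, v]⟩ : Fml LA 1 U) := by
  classical
  obtain ⟨w, hw0, hinj, hadj, hnadj, hPw, hPu, hcs⟩ := h.exists_star huv hc
  have huw : ∀ i, w i ≠ u := fun i he => (hadj i).ne he.symm
  refine ⟨fun i => ![u, w i], by simp [hw0], ?_, ?_⟩
  · intro m l φ a ha i i' hi hi'
    have hl : ∀ t : Fin l, False := fun t => ha t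
    let f : U → U := fun x => if hx : ∃ t : Fin m, w (i t) = x then w (i' hx.choose) else u
    have hfu : f u = u := by
      have : ¬ ∃ t : Fin m, w (i t) = u := fun ⟨t, ht⟩ => huw _ ht
      exact dif_neg this
    have hfw : ∀ t, f (w (i t)) = w (i' t) := by
      intro t
      have hx : ∃ s : Fin m, w (i s) = w (i t) := ⟨t, rfl⟩
      have h1 : f (w (i t)) = w (i' hx.choose) := dif_pos hx
      have h2 : hx.choose = t := hi.injective (hinj hx.choose_spec)
      rw [h1, h2]
    let A : Set U := insert u (w '' Set.range i)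
    have hAc : A.Countable := (((Set.finite_range i).image w).insert u).countable
    have hmem : ∀ x ∈ A, x = u ∨ ∃ t, x = w (i t) := by
      intro x hx
      rcases hx with rfl | ⟨-, ⟨t, rfl⟩, rfl⟩
      · exact Or.inl rfl
      · exact Or.inr ⟨t, rfl⟩
    have hPA : ∀ x ∈ A, ¬ r.P x := by
      intro x hx
      rcases hmem x hx with rfl | ⟨t, rfl⟩
      · exact hPu
      · exact hPw _
    have hPfA : ∀ x ∈ A, ¬ r.P (f x) := by
      intro x hx
      rcases hmem x hx with rfl | ⟨t, rfl⟩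
      · rw [hfu]; exact hPu
      · rw [hfw]; exact hPw _
    have hf : RefOn r r A f := by
      refine ⟨?_, ?_, ?_, ?_⟩
      · intro x hx y hy hxy
        rcases hmem x hx with rfl | ⟨t, rfl⟩ <;> rcases hmem y hy with rfl | ⟨s, rfl⟩
        · rfl
        · rw [hfu, hfw] at hxy
          exact (huw _ hxy.symm).elim
        · rw [hfu, hfw] at hxy
          exact (huw _ hxy).elim
        · rw [hfw, hfw] at hxy
          have := hi'.injective (hinj hxy)
          rw [this]
      · intro x hx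
        exact ⟨fun hp => (hPfA x hx hp).elim, fun hp => (hPA x hx hp).elim⟩
      · intro x hx y hy
        rcases hmem x hx with rfl | ⟨t, rfl⟩ <;> rcases hmem y hy with rfl | ⟨s, rfl⟩
        · rw [hfu]
        · rw [hfu, hfw]
          exact ⟨fun _ => hadj _, fun _ => hadj _⟩
        · rw [hfu, hfw]
          exact ⟨fun _ => (hadj _).symm, fun _ => (hadj _).symm⟩
        · rw [hfw, hfw]
          exact ⟨fun hh => (hnadj _ _ hh).elim, fun hh => (hnadj _ _ hh).elim⟩
      · intro x hx y _ z _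
        exact ⟨fun hs => (hPfA x hx (h.ax.SP _ trivial _ trivial _ trivial hs).1).elim,
          fun hs => (hPA x hx (h.ax.SP _ trivial _ trivial _ trivial hs).1).elim⟩
    have him : f '' A = insert u (w '' Set.range i') := by
      rw [Set.image_insert_eq, hfu, Set.image_image]
      congr 1
      ext x
      constructor
      · rintro ⟨-, ⟨t, rfl⟩, rfl⟩
        exact ⟨i' t, ⟨t, rfl⟩, (hfw t).symm⟩
      · rintro ⟨-, ⟨t, rfl⟩, rfl⟩
        exact ⟨i t, ⟨t, rfl⟩, hfw t⟩
    let v1 : (Fin m × Fin 2) ⊕ Fin l → U :=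
      Sum.elim (fun t => (![u, w (i t.1)] : Fin 2 → U) t.2) a
    let v2 : (Fin m × Fin 2) ⊕ Fin l → U :=
      Sum.elim (fun t => (![u, w (i' t.1)] : Fin 2 → U) t.2) a
    have e3 : f ∘ v1 = v2 := by
      funext t
      rcases t with ⟨t, s⟩ | t
      · fin_cases s
        · exact hfu
        · exact hfw t
      · exact (hl t).elim
    show φ.Realize v1 ↔ φ.Realize v2
    rw [← e3]
    refine h.homog φ hAc (hcs _) (by rw [him]; exact hcs _) hf ?_
    rintro (⟨t, s⟩ | t)
    · fin_cases s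
      · exact Set.mem_insert _ _
      · exact Set.mem_insert_of_mem _ ⟨i t, ⟨t, rfl⟩, rfl⟩
    · exact (hl t).elim
  · intro hsat
    let ψ : ℕ → Fml LA 1 U := fun i => ⟨2, T238.fS, ![u, w i]⟩
    obtain ⟨a, ha⟩ := hsat {ψ 0, ψ 1, ψ 2} (by simp) (by
      rintro _ (rfl | rfl | rfl)
      · exact ⟨0, rfl⟩
      · exact ⟨1, rfl⟩
      · exact ⟨2, rfl⟩)
    have h0 := (T238.realize_fS h.rep _ _).1 (ha (ψ 0) (by simp))
    have h1 := (T238.realize_fS h.rep _ _).1 (ha (ψ 1) (by simp))
    have h2 := (T238.realize_fS h.rep _ _).1 (ha (ψ 2) (by simp))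
    rcases h.ax.two _ trivial _ trivial _ trivial _ trivial _ trivial h0 h1 h2 with h3 | h3 | h3
    · exact absurd (hinj h3) (by norm_num)
    · exact absurd (hinj h3) (by norm_num)
    · exact absurd (hinj h3) (by norm_num)

theorem Big.forks (h : Big U r) : ∃ p : Set (Fml LA 1 U), IsTypeOver (∅ : Set U) p ∧
    ∃ ψ ∈ p, Forks (∅ : Set U) ψ := by
  obtain ⟨u, v, huv, hc⟩ := h.exists_edge
  obtain ⟨x, hx⟩ := h.exists_point
  have hc' : CS r {v, u} Set.univ := by
    rw [Set.pair_comm]
    exact hc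
  refine ⟨{ψ | ψ.Over (∅ : Set U) ∧ ψ.Holds fun _ => x}, ?_, ⟨0, T238.fP, fun t => t.elim0⟩,
    ⟨fun t => t.elim0, ?_⟩, {⟨2, T238.fS, ![u, v]⟩, ⟨2, T238.fS, ![v, u]⟩}, by simp, ?_, ?_⟩
  · exact {
      par_mem := fun ψ hψ => hψ.1
      finSat := fun s _ hsub => ⟨fun _ => x, fun ψ hψ => (hsub hψ).2⟩
      complete := by
        intro ψ hψ
        by_cases h : ψ.Holds fun _ => x
        · exact Or.inl ⟨hψ, h⟩
        · exact Or.inr ⟨hψ, by simpa [Fml.Holds, Fml.neg] using h⟩ }
  · exact (T238.realize_fP h.rep _ _).2 hx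
  · rintro _ (rfl | rfl)
    · exact T238.divides_S h huv hc
    · exact T238.divides_S h huv.symm hc'
  · intro a ha
    have hP : r.P (a 0) := (T238.realize_fP h.rep _ _).1 ha
    rcases h.ax.cov _ trivial hP _ trivial _ trivial huv with h4 | h4
    · exact ⟨_, Or.inl rfl, (T238.realize_fS h.rep _ _).2 h4⟩
    · exact ⟨_, Or.inr rfl, (T238.realize_fS h.rep _ _).2 h4⟩

end H968G
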