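import Pool.Agent.helper968_onebased.Code
import Pool.Agent.helper968_onebased.Ref

/-!
Richness of countably saturated models; isomorphisms from equality of types. Written by helper300 (lemma job 6039).
-/

namespace H968G

open FirstOrder FirstOrder.Language H968F


namespace J6039

theorem filt {V : Type} {Y Z : Finset V} {p : V → Prop} {i : DecidablePred p}
    (h : ∀ x, x ∈ Z ↔ (x ∈ Y ∧ p x)) : @Finset.filter V p i Y = Z := by
  ext x
  rw [Finset.mem_filter]
  exact (h x).symm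

theorem dc_restrict {V : Type} {G : SimpleGraph V} {A U T : Set V} (h : DC G A U) (hT : T ⊆ U) :
    DC G (A ∩ T) T := by
  refine ⟨Set.inter_subset_right, ?_⟩
  intro Y hY hn
  have h1 := h.lt Y (hY.trans hT) (fun hc => hn (Set.subset_inter hc hY))
  have hZ : ∃ Z : Finset V, ∀ x, x ∈ Z ↔ (x ∈ Y ∧ x ∈ A) := by
    classical
    exact ⟨Y.filter (· ∈ A), fun x => Finset.mem_filter⟩
  obtain ⟨Z, hZ⟩ := hZ
  rw [filt hZ] at h1
  have hZ2 : ∀ x, x ∈ Z ↔ (x ∈ Y ∧ x ∈ A ∩ T) := by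
    intro x
    rw [hZ]
    constructor
    · rintro ⟨h3, h4⟩
      exact ⟨h3, h4, hY (Finset.mem_coe.2 h3)⟩
    · rintro ⟨h3, h4⟩
      exact ⟨h3, h4.1⟩
  rw [filt hZ2]
  exact h1

theorem cs_restrict {V : Type} {r : Rl V} {A U T : Set V} (h : CS r A U) (hT : T ⊆ U) :
    CS r (A ∩ T) T :=
  ⟨dc_restrict h.dc hT, fun x hx z hz c hc hs => ⟨h.S x hx.1 z hz.1 c (hT hc) hs, hc⟩⟩

theorem refOn_of_triples {F V : Type} {Q : Rl F} {r : Rl V} {x : F → V}
    (h : ∀ t : Fin 3 → F, code r (x ∘ t) = code Q t) : RefOn Q r Set.univ x where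
  inj := by
    intro u _ v _ e
    have h2 : (x u = x v) = (u = v) :=
      congrFun (congrFun (congrArg Prod.fst (h ![u, v, v])) 0) 1
    exact Eq.mp h2 e
  P := by
    intro u _
    have h2 : (r.P (x u)) = (Q.P u) :=
      congrFun (congrArg (fun c => c.2.1) (h ![u, u, u])) 0
    exact iff_of_eq h2
  G := by
    intro u _ v _
    have h2 : (r.G.Adj (x u) (x v)) = (Q.G.Adj u v) :=
      congrFun (congrFun (congrArg (fun c => c.2.2.1) (h ![u, v, v])) 0) 1
    exact iff_of_eq h2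
  S := by
    intro u _ v _ w _
    have h2 : (r.S (x u) (x v) (x w)) = (Q.S u v w) :=
      congrFun (congrFun (congrFun (congrArg (fun c => c.2.2.2) (h ![u, v, w])) 0) 1) 2
    exact iff_of_eq h2

theorem code_eq_of_refOn {F V κ : Type} {Q : Rl F} {r : Rl V} {A : Set F} {x : F → V}
    (h : RefOn Q r A x) {t : κ → F} (ht : ∀ i, t i ∈ A) : code r (x ∘ t) = code Q t := by
  unfold code
  refine Prod.ext ?_ (Prod.ext ?_ (Prod.ext ?_ ?_))
  · funext u v
    exact propext ⟨fun e => h.inj (ht u) (ht v) e, fun e => congrArg x e⟩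
  · funext u
    exact propext (h.P _ (ht u))
  · funext u v
    exact propext (h.G _ (ht u) _ (ht v))
  · funext u v w
    exact propext (h.S _ (ht u) _ (ht v) _ (ht w))

theorem exists_good {U : Type} {r : Rl U} (hep : EP r) {F : Type}
    (Q : Rl F) (hQ : Ax Q Set.univ) (A : Set F) (hA : CS Q A Set.univ)
    (g : F → U) (hg : RefOn Q r A g) (hgc : DC r.G (g '' A) Set.univ)
    (Y : Finset F) (hY : Cl Q.G Y Set.univ) :
    ∃ x : F → U, RefOn Q r (Y : Set F) x ∧ (∀ a ∈ Y, a ∈ A → x a = g a) ∧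
      DC r.G (x '' (Y : Set F)) Set.univ := by
  classical
  let e : Fin Y.card ≃ Y := Y.equivFin.symm
  let f : Fin Y.card → F := fun i => (e i : F)
  let Q' : Rl (Fin Y.card) :=
    ⟨Q.G.comap f, fun i => Q.P (f i), fun i j k => Q.S (f i) (f j) (f k)⟩
  have hfinj : Function.Injective f := fun i j hij => e.injective (Subtype.ext hij)
  have hf : RefOn Q' Q Set.univ f :=
    ⟨hfinj.injOn, fun _ _ => Iff.rfl, fun _ _ _ _ => Iff.rfl, fun _ _ _ _ _ _ => Iff.rfl⟩
  have hfe : ∀ (v : F) (hv : v ∈ Y), f (e.symm ⟨v, hv⟩) = v := by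
    intro v hv
    exact congrArg Subtype.val (e.apply_symm_apply ⟨v, hv⟩)
  have hQ' : Ax Q' Set.univ := hf.ax' (hQ.sub (Set.subset_univ _))
  let A0 : Set (Fin Y.card) := {i | f i ∈ A}
  have himg : f '' Set.univ = (Y : Set F) := by
    ext v
    constructor
    · rintro ⟨i, _, rfl⟩
      exact Finset.mem_coe.2 (e i).2
    · intro hv
      exact ⟨e.symm ⟨v, Finset.mem_coe.1 hv⟩, trivial, hfe v _⟩
  have himg0 : f '' A0 = A ∩ (Y : Set F) := by
    ext v
    constructor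
    · rintro ⟨i, hi, rfl⟩
      exact ⟨hi, Finset.mem_coe.2 (e i).2⟩
    · rintro ⟨hv1, hv2⟩
      refine ⟨e.symm ⟨v, Finset.mem_coe.1 hv2⟩, ?_, hfe v _⟩
      change f _ ∈ A
      rw [hfe]
      exact hv1
  have hcs : CS Q' A0 Set.univ := hf.cs' (Set.subset_univ _) (by
    rw [himg, himg0]
    exact cs_restrict hA (Set.subset_univ _))
  have href : RefOn Q' r A0 (g ∘ f) := (hf.mono (Set.subset_univ A0)).comp (hg.mono (by
    rintro _ ⟨i, hi, rfl⟩
    exact hi))
  have hdc : DC r.G ((g ∘ f) '' A0) Set.univ := by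
    rw [Set.image_comp, himg0]
    have h1 : DC Q.G ((Y : Set F) ∩ A) A := dc_restrict (dc_iff.2 hY) (Set.subset_univ A)
    rw [Set.inter_comm] at h1
    exact (hg.dc h1).trans hgc
  obtain ⟨g', h1, h2, h3⟩ := hep _ Q' A0 (g ∘ f) hQ' hcs href hdc
  have hx : ∃ x : F → U, ∀ (v : F) (hv : v ∈ Y), x v = g' (e.symm ⟨v, hv⟩) :=
    ⟨fun v => if hv : v ∈ Y then g' (e.symm ⟨v, hv⟩) else g v, fun v hv => dif_pos hv⟩
  obtain ⟨x, hx⟩ := hx
  refine ⟨x, ⟨?_, ?_, ?_, ?_⟩, ?_, ?_⟩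
  · intro u hu v hv huv
    rw [hx u (Finset.mem_coe.1 hu), hx v (Finset.mem_coe.1 hv)] at huv
    have h4 := h1.inj (Set.mem_univ _) (Set.mem_univ _) huv
    exact congrArg Subtype.val (e.symm.injective h4)
  · intro u hu
    have h4 := h1.P (e.symm ⟨u, Finset.mem_coe.1 hu⟩) (Set.mem_univ _)
    change r.P _ ↔ Q.P (f _) at h4
    rw [hfe] at h4
    rw [hx u (Finset.mem_coe.1 hu)]
    exact h4
  · intro u hu v hv
    have h4 := h1.G (e.symm ⟨u, Finset.mem_coe.1 hu⟩) (Set.mem_univ _)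
      (e.symm ⟨v, Finset.mem_coe.1 hv⟩) (Set.mem_univ _)
    change r.G.Adj _ _ ↔ Q.G.Adj (f _) (f _) at h4
    rw [hfe, hfe] at h4
    rw [hx u (Finset.mem_coe.1 hu), hx v (Finset.mem_coe.1 hv)]
    exact h4
  · intro u hu v hv w hw
    have h4 := h1.S (e.symm ⟨u, Finset.mem_coe.1 hu⟩) (Set.mem_univ _)
      (e.symm ⟨v, Finset.mem_coe.1 hv⟩) (Set.mem_univ _)
      (e.symm ⟨w, Finset.mem_coe.1 hw⟩) (Set.mem_univ _)
    change r.S _ _ _ ↔ Q.S (f _) (f _) (f _) at h4
    rw [hfe, hfe, hfe] at h4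
    rw [hx u (Finset.mem_coe.1 hu), hx v (Finset.mem_coe.1 hv), hx w (Finset.mem_coe.1 hw)]
    exact h4
  · intro a ha haA
    have h4 : e.symm ⟨a, ha⟩ ∈ A0 := by
      change f _ ∈ A
      rw [hfe]
      exact haA
    rw [hx a ha, h2 _ h4]
    exact congrArg g (hfe a ha)
  · have h4 : x '' (Y : Set F) = Set.range g' := by
      ext u
      constructor
      · rintro ⟨v, hv, rfl⟩
        exact ⟨_, (hx v (Finset.mem_coe.1 hv)).symm⟩
      · rintro ⟨i, rfl⟩
        refine ⟨f i, Finset.mem_coe.2 (e i).2, ?_⟩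
        rw [hx (f i) (e i).2]
        exact congrArg g' (e.symm_apply_apply i)
    rw [h4]
    exact h3

theorem st_all {U : Type} [LA.Structure U] {M : Set U} {α : Type} {a a' : α → U}
    (ht : ST LA M a a') (φ : LA.Formula (M ⊕ α)) :
    φ.Realize (Sum.elim Subtype.val a) ↔ φ.Realize (Sum.elim Subtype.val a') := by
  classical
  let T := BoundedFormula.freeVarFinset φ
  let e : T.toLeft ≃ Fin T.toLeft.card := T.toLeft.equivFin
  let ρ : T → α ⊕ Fin T.toLeft.card := fun t => match t with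
    | ⟨Sum.inl b, hb⟩ => Sum.inr (e ⟨b, Finset.mem_toLeft.2 hb⟩)
    | ⟨Sum.inr i, _⟩ => Sum.inl i
  let m : Fin T.toLeft.card → U := fun j => ((e.symm j).1 : M).1
  let θ : LA.Formula (α ⊕ Fin T.toLeft.card) := BoundedFormula.restrictFreeVar φ ρ
  have key : ∀ b : α → U, θ.Realize (Sum.elim b m) ↔ φ.Realize (Sum.elim Subtype.val b) := by
    intro b
    refine BoundedFormula.realize_restrictFreeVar _ ?_
    rintro ⟨c | i, hb⟩
    · simp [ρ, m]
    · simp [ρ]
  exact (key a).symm.trans ((ht _ m (fun j => ((e.symm j).1 : M).2) θ).trans (key a'))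

theorem fin_real {U : Type} [LA.Structure U] {M : Set U} {α : Type} {a a' : α → U}
    (ht : ST LA M a a') {F : Type} (ι : F → U) (pos : M ⊕ α → F)
    (hpos : ∀ k, ι (pos k) = Sum.elim Subtype.val a k) (Ψ : LA.Formula F) (hΨ : Ψ.Realize ι)
    (K0 : Finset (M ⊕ α)) :
    ∃ g : F → U, Ψ.Realize g ∧ ∀ k ∈ K0, g (pos k) = Sum.elim Subtype.val a' k := by
  classical
  let T := BoundedFormula.freeVarFinset Ψ
  let V2 : Finset F := T ∪ K0.image pos
  have hT : ∀ t ∈ T, t ∈ V2 := fun t ht => Finset.mem_union_left _ ht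
  have hK : ∀ k ∈ K0, pos k ∈ V2 :=
    fun k hk => Finset.mem_union_right _ (Finset.mem_image_of_mem pos hk)
  let ρ : T → (M ⊕ α) ⊕ V2 := fun t => Sum.inr ⟨t.1, hT t.1 t.2⟩
  let Ψ1 : LA.Formula ((M ⊕ α) ⊕ V2) := BoundedFormula.restrictFreeVar Ψ ρ
  let E : LA.Formula ((M ⊕ α) ⊕ V2) := Formula.iInf fun k : K0 =>
    (Term.var (Sum.inl k.1)).equal (Term.var (Sum.inr ⟨pos k.1, hK k.1 k.2⟩))
  let ψ : LA.Formula (M ⊕ α) := Formula.iExs V2 (Ψ1 ⊓ E)
  have h1 : ψ.Realize (Sum.elim Subtype.val a) := by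
    rw [Formula.realize_iExs]
    refine ⟨fun x => ι x.1, ?_⟩
    rw [Formula.realize_inf]
    constructor
    · exact (BoundedFormula.realize_restrictFreeVar (f := ρ) ι (fun _ => rfl)).2 hΨ
    · rw [Formula.realize_iInf]
      intro k
      rw [Formula.realize_equal]
      exact (hpos k.1).symm
  have h2 := (st_all ht ψ).1 h1
  rw [Formula.realize_iExs] at h2
  obtain ⟨i, h2⟩ := h2
  rw [Formula.realize_inf] at h2
  obtain ⟨h3, h4⟩ := h2
  rw [Formula.realize_iInf] at h4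
  refine ⟨fun x => if hx : x ∈ V2 then i ⟨x, hx⟩ else ι x, ?_, ?_⟩
  · refine (BoundedFormula.realize_restrictFreeVar _ ?_).1 h3
    intro t
    rw [dif_pos (hT t.1 t.2)]
    rfl
  · intro k hk
    have h5 := h4 ⟨k, hk⟩
    rw [Formula.realize_equal] at h5
    exact (dif_pos (hK k hk)).trans h5.symm

end J6039

theorem Big.rich {U : Type} [LA.Structure U] {r : Rl U} (h : Big U r) {F : Type} [Countable F]
    (Q : Rl F) (hQ : Ax Q Set.univ) (hF : Full Q Set.univ) (A : Set F) (hA : CS Q A Set.univ)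
    (g : F → U) (hg : RefOn Q r A g) (hgc : DC r.G (g '' A) Set.univ) :
    ∃ g' : F → U, RefOn Q r Set.univ g' ∧ (∀ x ∈ A, g' x = g x) ∧
      CS r (Set.range g') Set.univ := by
  classical
  choose φc hφc using fun (n : ℕ) (K : Set (CodeT (Fin n))) => exists_codeF (κ := Fin n) K
  choose φd hφd using fun (n : ℕ) => exists_dcF (κ := Fin n)
  let c : A → U := fun a => g a
  let cF : (n : ℕ) → (Fin n → F) → LA.Formula (F ⊕ A) := fun n t =>
    (φc n {code Q t}).relabel (fun i => Sum.inl (t i))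
  let dF : (n : ℕ) → (Fin n → F) → LA.Formula (F ⊕ A) := fun n t =>
    (φd n).relabel (fun i => Sum.inl (t i))
  let eF : A → LA.Formula (F ⊕ A) := fun a =>
    (Term.var (Sum.inl (a : F))).equal (Term.var (Sum.inr a))
  let Γ : Set (LA.Formula (F ⊕ A)) := {φ | (∃ a, φ = eF a) ∨ (∃ n t, φ = cF n t) ∨
    ∃ (n : ℕ) (t : Fin n → F), DC Q.G (Set.range t) Set.univ ∧ φ = dF n t}
  have rc : ∀ (x : F → U) n (t : Fin n → F), (cF n t).Realize (Sum.elim x c) ↔
      code r (x ∘ t) = code Q t := by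
    intro x n t
    rw [Formula.realize_relabel]
    exact (hφc n {code Q t} U r h.rep (x ∘ t)).trans Set.mem_singleton_iff
  have rd : ∀ (x : F → U) n (t : Fin n → F), (dF n t).Realize (Sum.elim x c) ↔
      DC r.G (Set.range (x ∘ t)) Set.univ := by
    intro x n t
    rw [Formula.realize_relabel]
    exact hφd n U r h.rep h.ax (x ∘ t)
  have re : ∀ (x : F → U) (a : A), (eF a).Realize (Sum.elim x c) ↔ x a = g a := by
    intro x a
    rw [Formula.realize_equal]
    exact Iff.rfl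
  have claim1 : ∀ φ ∈ Γ, ∃ X : Finset F, ∀ Y : Finset F, X ⊆ Y → ∀ x : F → U,
      RefOn Q r (Y : Set F) x → (∀ a ∈ Y, a ∈ A → x a = g a) →
      DC r.G (x '' (Y : Set F)) Set.univ → φ.Realize (Sum.elim x c) := by
    rintro φ (⟨a, rfl⟩ | ⟨n, t, rfl⟩ | ⟨n, t, ht, rfl⟩)
    · refine ⟨{(a : F)}, fun Y hY x _ hx2 _ => ?_⟩
      rw [re]
      exact hx2 a (hY (Finset.mem_singleton_self _)) a.2
    · refine ⟨Finset.univ.image t, fun Y hY x hx1 _ _ => ?_⟩
      rw [rc]
      exact J6039.code_eq_of_refOn hx1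
        (fun i => Finset.mem_coe.2 (hY (Finset.mem_image_of_mem t (Finset.mem_univ i))))
    · refine ⟨Finset.univ.image t, fun Y hY x hx1 _ hx3 => ?_⟩
      rw [rd]
      have h1 : Set.range t ⊆ (Y : Set F) := by
        rintro _ ⟨i, rfl⟩
        exact Finset.mem_coe.2 (hY (Finset.mem_image_of_mem t (Finset.mem_univ i)))
      have h2 := hx1.dc (ht.mono h1 (Set.subset_univ _))
      have h3 := h2.trans hx3
      rw [Set.range_comp]
      exact h3
  choose! X hX using claim1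
  obtain ⟨g', hg'⟩ := h.sat F A c Γ (by
    intro s hs hsΓ
    obtain ⟨Y, hXY, _, hYcl⟩ := DC.exists_fin hQ.gr (DC.refl Set.univ)
      (X := hs.toFinset.biUnion X) (Set.subset_univ _)
    obtain ⟨x, hx1, hx2, hx3⟩ := J6039.exists_good h.ep Q hQ A hA g hg hgc Y hYcl
    refine ⟨x, fun φ hφ => hX φ (hsΓ hφ) Y ?_ x hx1 hx2 hx3⟩
    exact (Finset.subset_biUnion_of_mem X (hs.mem_toFinset.2 hφ)).trans hXY)
  have hR : RefOn Q r Set.univ g' := by
    apply J6039.refOn_of_triples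
    intro t
    exact (rc g' 3 t).1 (hg' _ (Or.inr (Or.inl ⟨3, t, rfl⟩)))
  refine ⟨g', hR, ?_, hR.cs_range hF h.ax ?_⟩
  · intro x hx
    exact (re g' ⟨x, hx⟩).1 (hg' _ (Or.inl ⟨⟨x, hx⟩, rfl⟩))
  · refine DC.of_fin (Set.subset_univ _) ?_
    intro X' hX'
    obtain ⟨s', _, rfl⟩ := Finset.subset_set_image_iff.1
      (show (X' : Set U) ⊆ g' '' Set.univ by
        rw [Set.image_univ]
        exact hX')
    obtain ⟨Y, hXY, _, hYcl⟩ := DC.exists_fin hQ.gr (DC.refl Set.univ)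
      (X := s') (Set.subset_univ _)
    let t : Fin Y.card → F := fun i => (Y.equivFin.symm i : F)
    have hrange : Set.range t = (Y : Set F) := by
      ext v
      constructor
      · rintro ⟨i, rfl⟩
        exact Finset.mem_coe.2 (Y.equivFin.symm i).2
      · intro hv
        refine ⟨Y.equivFin ⟨v, Finset.mem_coe.1 hv⟩, ?_⟩
        exact congrArg Subtype.val (Y.equivFin.symm_apply_apply ⟨v, Finset.mem_coe.1 hv⟩)
    have h1 : DC Q.G (Set.range t) Set.univ := by
      rw [hrange]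
      exact dc_iff.2 hYcl
    have h2 := (rd g' _ t).1 (hg' _ (Or.inr (Or.inr ⟨Y.card, t, h1, rfl⟩)))
    have h3 : Set.range (g' ∘ t) = ((Y.image g' : Finset U) : Set U) := by
      rw [Set.range_comp, hrange, Finset.coe_image]
    rw [h3] at h2
    refine ⟨Y.image g', Finset.image_subset_image hXY, ?_, dc_iff.1 h2⟩
    intro u hu
    obtain ⟨v, _, rfl⟩ := Finset.mem_image.1 (Finset.mem_coe.1 hu)
    exact ⟨v, rfl⟩

theorem Big.iso {U : Type} [LA.Structure U] {r : Rl U} (h : Big U r) {M : Set U}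
    (hM : M.Countable) {α : Type} [Countable α] {a a' : α → U} (ht : ST LA M a a') :
    ∃ f : U → U, RefOn r r (clo r (M ∪ Set.range a)) f ∧
      f '' clo r (M ∪ Set.range a) = clo r (M ∪ Set.range a') ∧ (∀ m ∈ M, f m = m) ∧
      ∀ i, f (a i) = a' i := by
  classical
  let C : Set U := clo r (M ∪ Set.range a)
  have hCsub : M ∪ Set.range a ⊆ C := sub_clo r _
  have hCcs : CS r C Set.univ := clo_cs r _
  have : Countable M := hM.to_subtype
  have : Countable C := (clo_countable h.ax (hM.union (Set.countable_range a))).to_subtype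
  let c' : M ⊕ α → U := Sum.elim Subtype.val a'
  let pos : M ⊕ α → C := Sum.elim (fun m => ⟨m.1, hCsub (Or.inl m.2)⟩)
    (fun i => ⟨a i, hCsub (Or.inr ⟨i, rfl⟩)⟩)
  have hpos : ∀ k, ((pos k : C) : U) = Sum.elim Subtype.val a k := by
    rintro (m | i)
    · rfl
    · rfl
  let Γ : Set (LA.Formula (C ⊕ (M ⊕ α))) := {φ |
    (∃ k, φ = (Term.var (Sum.inl (pos k))).equal (Term.var (Sum.inr k))) ∨
    ∃ φ0 : LA.Formula C, φ0.Realize (Subtype.val : C → U) ∧ φ = φ0.relabel Sum.inl}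
  have claim : ∀ φ ∈ Γ, ∃ (K0 : Finset (M ⊕ α)) (φ0 : LA.Formula C),
      φ0.Realize (Subtype.val : C → U) ∧ ∀ g : C → U, φ0.Realize g →
        (∀ k ∈ K0, g (pos k) = c' k) → φ.Realize (Sum.elim g c') := by
    rintro φ (⟨k, rfl⟩ | ⟨φ0, h0, rfl⟩)
    · refine ⟨{k}, ⊤, Formula.realize_top.2 trivial, fun g _ hg => ?_⟩
      rw [Formula.realize_equal]
      exact hg k (Finset.mem_singleton_self k)
    · refine ⟨∅, φ0, h0, fun g hg _ => ?_⟩
      rw [Formula.realize_relabel]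
      exact hg
  choose! K0 φ0 hc1 hc2 using claim
  obtain ⟨g, hg⟩ := h.sat C (M ⊕ α) c' Γ (by
    intro s hs hsΓ
    have : Finite s := hs.to_subtype
    obtain ⟨g, hg1, hg2⟩ := J6039.fin_real ht (Subtype.val : C → U) pos hpos
      (Formula.iInf fun φ : s => φ0 φ.1) (by
        rw [Formula.realize_iInf]
        intro φ
        exact hc1 φ.1 (hsΓ φ.2)) (hs.toFinset.biUnion K0)
    rw [Formula.realize_iInf] at hg1
    refine ⟨g, fun φ hφ => hc2 φ (hsΓ hφ) g (hg1 ⟨φ, hφ⟩) (fun k hk => hg2 k ?_)⟩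
    exact Finset.mem_biUnion.2 ⟨φ, hs.mem_toFinset.2 hφ, hk⟩)
  have gk : ∀ k, g (pos k) = c' k := by
    intro k
    have h1 := hg _ (Or.inl ⟨k, rfl⟩)
    rw [Formula.realize_equal] at h1
    exact h1
  have gφ : ∀ φ : LA.Formula C, φ.Realize (Subtype.val : C → U) → φ.Realize g := by
    intro φ hφ
    have h1 := hg _ (Or.inr ⟨φ, hφ, rfl⟩)
    rw [Formula.realize_relabel] at h1
    exact h1
  have hR : RefOn (r.res C) r Set.univ g := by
    apply J6039.refOn_of_triples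
    intro t
    obtain ⟨φ, hφ⟩ := exists_codeF (κ := Fin 3) {code (r.res C) t}
    have h1 : (φ.relabel t).Realize (Subtype.val : C → U) := by
      rw [Formula.realize_relabel]
      exact (hφ U r h.rep _).2 (J6039.code_eq_of_refOn (res_refOn r C) (fun _ => Set.mem_univ _))
    have h2 := gφ _ h1
    rw [Formula.realize_relabel] at h2
    exact (hφ U r h.rep _).1 h2
  have hFull : Full (r.res C) Set.univ := by
    intro x _ hPx z _ hPz
    obtain ⟨p, _, q, _, hpq, h1, h2⟩ := h.full x.1 (Set.mem_univ _) hPx z.1 (Set.mem_univ _) hPz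
    have hp : p ∈ C := hCcs.S x.1 x.2 z.1 z.2 p (Set.mem_univ _) h1
    have hq : q ∈ C := hCcs.S x.1 x.2 z.1 z.2 q (Set.mem_univ _) h2
    exact ⟨⟨p, hp⟩, Set.mem_univ _, ⟨q, hq⟩, Set.mem_univ _,
      fun hc => hpq (congrArg Subtype.val hc), h1, h2⟩
  have hdc : DC r.G (Set.range g) Set.univ := by
    refine DC.of_fin (Set.subset_univ _) ?_
    intro X' hX'
    obtain ⟨s', _, rfl⟩ := Finset.subset_set_image_iff.1
      (show (X' : Set U) ⊆ g '' Set.univ by
        rw [Set.image_univ]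
        exact hX')
    obtain ⟨Y, hXY, hYC, hYcl⟩ := DC.exists_fin h.ax.gr hCcs.dc
      (X := s'.image Subtype.val) (by
        intro u hu
        obtain ⟨v, _, rfl⟩ := Finset.mem_image.1 (Finset.mem_coe.1 hu)
        exact v.2)
    let t : Fin Y.card → C := fun i =>
      ⟨(Y.equivFin.symm i : U), hYC (Finset.mem_coe.2 (Y.equivFin.symm i).2)⟩
    have ht1 : ∀ (v : U) (hv : v ∈ Y), ∃ i, (t i : U) = v := by
      intro v hv
      refine ⟨Y.equivFin ⟨v, hv⟩, ?_⟩
      exact congrArg Subtype.val (Y.equivFin.symm_apply_apply ⟨v, hv⟩)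
    have hrange : Set.range (Subtype.val ∘ t) = (Y : Set U) := by
      ext v
      constructor
      · rintro ⟨i, rfl⟩
        exact Finset.mem_coe.2 (Y.equivFin.symm i).2
      · intro hv
        exact ht1 v (Finset.mem_coe.1 hv)
    obtain ⟨φ, hφ⟩ := exists_dcF (κ := Fin Y.card)
    have h1 : (φ.relabel t).Realize (Subtype.val : C → U) := by
      rw [Formula.realize_relabel]
      refine (hφ U r h.rep h.ax _).2 ?_
      rw [hrange]
      exact dc_iff.2 hYcl
    have h2 := gφ _ h1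
    rw [Formula.realize_relabel] at h2
    have h3 := (hφ U r h.rep h.ax _).1 h2
    have h4 : Set.range (g ∘ t) = ((Finset.univ.image (g ∘ t) : Finset U) : Set U) := by
      rw [Finset.coe_image, Finset.coe_univ, Set.image_univ]
    rw [h4] at h3
    refine ⟨Finset.univ.image (g ∘ t), ?_, ?_, dc_iff.1 h3⟩
    · intro u hu
      obtain ⟨v, hv, rfl⟩ := Finset.mem_image.1 hu
      obtain ⟨i, hi⟩ := ht1 v.1 (hXY (Finset.mem_image_of_mem Subtype.val hv))
      have hi' : t i = v := Subtype.ext hi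
      exact Finset.mem_image.2 ⟨i, Finset.mem_univ i, congrArg g hi'⟩
    · intro u hu
      obtain ⟨i, _, rfl⟩ := Finset.mem_image.1 (Finset.mem_coe.1 hu)
      exact ⟨t i, rfl⟩
  have hcs : CS r (Set.range g) Set.univ := hR.cs_range hFull h.ax hdc
  have hf : ∃ f : U → U, ∀ (u : U) (hu : u ∈ C), f u = g ⟨u, hu⟩ :=
    ⟨fun u => if hu : u ∈ C then g ⟨u, hu⟩ else u, fun u hu => dif_pos hu⟩
  obtain ⟨f, hf⟩ := hf
  have hfR : RefOn r r C f := by
    refine ⟨?_, ?_, ?_, ?_⟩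
    · intro u hu v hv huv
      rw [hf u hu, hf v hv] at huv
      exact congrArg Subtype.val (hR.inj (Set.mem_univ _) (Set.mem_univ _) huv)
    · intro u hu
      rw [hf u hu]
      exact hR.P ⟨u, hu⟩ (Set.mem_univ _)
    · intro u hu v hv
      rw [hf u hu, hf v hv]
      exact hR.G ⟨u, hu⟩ (Set.mem_univ _) ⟨v, hv⟩ (Set.mem_univ _)
    · intro u hu v hv w hw
      rw [hf u hu, hf v hv, hf w hw]
      exact hR.S ⟨u, hu⟩ (Set.mem_univ _) ⟨v, hv⟩ (Set.mem_univ _) ⟨w, hw⟩ (Set.mem_univ _)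
  have hfimg : f '' C = Set.range g := by
    ext v
    constructor
    · rintro ⟨u, hu, rfl⟩
      exact ⟨⟨u, hu⟩, (hf u hu).symm⟩
    · rintro ⟨u, rfl⟩
      exact ⟨u.1, u.2, hf u.1 u.2⟩
  have hfm : ∀ m ∈ M, f m = m := by
    intro m hm
    rw [hf m (hCsub (Or.inl hm))]
    exact gk (Sum.inl ⟨m, hm⟩)
  have hfa : ∀ i, f (a i) = a' i := by
    intro i
    rw [hf (a i) (hCsub (Or.inr ⟨i, rfl⟩))]
    exact gk (Sum.inr i)
  refine ⟨f, hfR, ?_, hfm, hfa⟩
  have h5 : f '' clo r (M ∪ Set.range a) = clo r (f '' (M ∪ Set.range a)) := by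
    refine image_clo hfR ?_
    rw [← hfimg] at hcs
    exact hcs
  rw [h5]
  have h6 : f '' (M ∪ Set.range a) = M ∪ Set.range a' := by
    rw [Set.image_union]
    congr 1
    · ext v
      constructor
      · rintro ⟨m, hm, rfl⟩
        rw [hfm m hm]
        exact hm
      · intro hv
        exact ⟨v, hv, hfm v hv⟩
    · rw [← Set.range_comp]
      congr 1
      funext i
      exact hfa i
  rw [h6]

end H968G
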