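import Pool.Agent.helper968_onebased.Am3
import Pool.Agent.helper968_onebased.Rich

/-!
Independent amalgamation in countably saturated models (by helper95).
-/

namespace H968G

open FirstOrder FirstOrder.Language H968F



namespace H95it

/-- three copies of a type (without computable equality) -/
structure FF (M : Type) : Type where
  i : Fin 3
  x : M

section Glue

variable {M F : Type} (r : Rl M) (D : Fin 3 → Set M) (e : Fin 3 → M → F)

/-- compatibility of the three pieces -/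
structure Comp : Prop where
  inj : ∀ i, Set.InjOn (e i) (D i)
  P : ∀ i j, ∀ x ∈ D i, ∀ y ∈ D j, e i x = e j y → (r.P x ↔ r.P y)
  G : ∀ i j, ∀ x ∈ D i, ∀ y ∈ D j, ∀ x' ∈ D i, ∀ y' ∈ D j, e i x = e j y → e i x' = e j y' →
    (r.G.Adj x x' ↔ r.G.Adj y y')
  S : ∀ i j, ∀ x ∈ D i, ∀ y ∈ D j, ∀ x' ∈ D i, ∀ y' ∈ D j, ∀ x'' ∈ D i, ∀ y'' ∈ D j,
    e i x = e j y → e i x' = e j y' → e i x'' = e j y'' → (r.S x x' x'' ↔ r.S y y' y'')

/-- the glued structure -/
def glue (h : Comp r D e) : Rl F where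
  G :=
    { Adj := fun u v => ∃ i, ∃ x ∈ D i, ∃ y ∈ D i, e i x = u ∧ e i y = v ∧ r.G.Adj x y
      symm := ⟨by
        rintro u v ⟨i, x, hx, y, hy, h1, h2, h3⟩
        exact ⟨i, y, hy, x, hx, h2, h1, h3.symm⟩⟩
      loopless := ⟨by
        rintro u ⟨i, x, hx, y, hy, h1, h2, h3⟩
        have := h.inj i hx hy (h1.trans h2.symm)
        rw [this] at h3
        exact r.G.loopless.irrefl _ h3⟩ }
  P := fun u => ∃ i, ∃ x ∈ D i, e i x = u ∧ r.P x
  S := fun u v w => ∃ i, ∃ x ∈ D i, ∃ y ∈ D i, ∃ z ∈ D i, e i x = u ∧ e i y = v ∧ e i z = w ∧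
    r.S x y z

theorem ref_glue (h : Comp r D e) (i : Fin 3) : RefOn r (glue r D e h) (D i) (e i) where
  inj := h.inj i
  P x hx := ⟨by
    rintro ⟨j, y, hy, h1, h2⟩
    exact (h.P i j x hx y hy h1.symm).2 h2, fun h1 => ⟨i, x, hx, rfl, h1⟩⟩
  G x hx x' hx' := ⟨by
    rintro ⟨j, y, hy, y', hy', h1, h2, h3⟩
    exact (h.G i j x hx y hy x' hx' y' hy' h1.symm h2.symm).2 h3,
    fun h1 => ⟨i, x, hx, x', hx', rfl, rfl, h1⟩⟩
  S x hx x' hx' x'' hx'' := ⟨by
    rintro ⟨j, y, hy, y', hy', y'', hy'', h1, h2, h3, h4⟩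
    exact (h.S i j x hx y hy x' hx' y' hy' x'' hx'' y'' hy'' h1.symm h2.symm h3.symm).2 h4,
    fun h1 => ⟨i, x, hx, x', hx', x'', hx'', rfl, rfl, rfl, h1⟩⟩

/-- compatibility from maps between the pieces -/
theorem comp_of (inj : ∀ i, Set.InjOn (e i) (D i))
    (h : ∀ i j, i < j → ∃ (E : Set M) (f : M → M), RefOn r r E f ∧
      ∀ x ∈ D i, ∀ y ∈ D j, e i x = e j y → x ∈ E ∧ y = f x) : Comp r D e := by
  have key : ∀ i j, (∃ (E : Set M) (f : M → M), RefOn r r E f ∧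
      ∀ x ∈ D i, ∀ y ∈ D j, e i x = e j y → x ∈ E ∧ y = f x) ∨
      ∃ (E : Set M) (f : M → M), RefOn r r E f ∧
      ∀ x ∈ D i, ∀ y ∈ D j, e i x = e j y → y ∈ E ∧ x = f y := by
    intro i j
    rcases lt_trichotomy i j with h1 | h1 | h1
    · exact Or.inl (h i j h1)
    · subst h1
      refine Or.inl ⟨D i, id, ⟨Set.injOn_id _, fun _ _ => Iff.rfl,
        fun _ _ _ _ => Iff.rfl, fun _ _ _ _ _ _ => Iff.rfl⟩, ?_⟩
      intro x hx y hy hxy
      exact ⟨hx, (inj i hx hy hxy).symm⟩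
    · obtain ⟨E, f, h2, h3⟩ := h j i h1
      exact Or.inr ⟨E, f, h2, fun x hx y hy hxy => h3 y hy x hx hxy.symm⟩
  constructor
  · exact inj
  · intro i j x hx y hy hxy
    rcases key i j with ⟨E, f, h1, h2⟩ | ⟨E, f, h1, h2⟩
    · obtain ⟨h3, rfl⟩ := h2 x hx y hy hxy
      exact (h1.P x h3).symm
    · obtain ⟨h3, rfl⟩ := h2 x hx y hy hxy
      exact h1.P y h3
  · intro i j x hx y hy x' hx' y' hy' hxy hxy'
    rcases key i j with ⟨E, f, h1, h2⟩ | ⟨E, f, h1, h2⟩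
    · obtain ⟨h3, rfl⟩ := h2 x hx y hy hxy
      obtain ⟨h3', rfl⟩ := h2 x' hx' y' hy' hxy'
      exact (h1.G x h3 x' h3').symm
    · obtain ⟨h3, rfl⟩ := h2 x hx y hy hxy
      obtain ⟨h3', rfl⟩ := h2 x' hx' y' hy' hxy'
      exact h1.G y h3 y' h3'
  · intro i j x hx y hy x' hx' y' hy' x'' hx'' y'' hy'' hxy hxy' hxy''
    rcases key i j with ⟨E, f, h1, h2⟩ | ⟨E, f, h1, h2⟩
    · obtain ⟨h3, rfl⟩ := h2 x hx y hy hxy
      obtain ⟨h3', rfl⟩ := h2 x' hx' y' hy' hxy'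
      obtain ⟨h3'', rfl⟩ := h2 x'' hx'' y'' hy'' hxy''
      exact (h1.S x h3 x' h3' x'' h3'').symm
    · obtain ⟨h3, rfl⟩ := h2 x hx y hy hxy
      obtain ⟨h3', rfl⟩ := h2 x' hx' y' hy' hxy'
      obtain ⟨h3'', rfl⟩ := h2 x'' hx'' y'' hy'' hxy''
      exact h1.S y h3 y' h3' y'' h3''

/-- replacing the choices preserves the embeddings of pieces on which they agree -/
theorem ref_setS {Q : Rl M} {R : Rl F} {A : Set M} {g : M → F}
    (h : RefOn Q R A g) (o : F → F → F → Prop)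
    (ho : ∀ x ∈ g '' A, ∀ z ∈ g '' A, ∀ c ∈ g '' A, (o x z c ↔ R.S x z c)) :
    RefOn Q (R.setS o) A g where
  inj := h.inj
  P := h.P
  G := h.G
  S x hx y hy z hz := (ho _ (Set.mem_image_of_mem g hx) _ (Set.mem_image_of_mem g hy) _
    (Set.mem_image_of_mem g hz)).trans (h.S x hx y hy z hz)

end Glue

end H95it

theorem Big.it {U : Type} [LA.Structure U] {r : Rl U} (h : Big U r)
    {M A A' B C C' D1 D2 D3 : Set U} (cA : CS r A Set.univ) (cA' : CS r A' Set.univ)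
    (cB : CS r B Set.univ) (cC : CS r C Set.univ) (cC' : CS r C' Set.univ)
    (c1 : CS r D1 Set.univ) (c2 : CS r D2 Set.univ) (c3 : CS r D3 Set.univ)
    (n1 : D1.Countable) (n2 : D2.Countable) (n3 : D3.Countable) {x0 : U} (hx0 : x0 ∈ M)
    (hP : r.P x0) (s1 : A ∪ B ⊆ D1) (s2 : A' ∪ C' ⊆ D2) (s3 : B ∪ C ⊆ D3)
    (i1 : A ∩ B = M) (i2 : A' ∩ C' = M) (i3 : B ∩ C = M) (f g : U → U) (hf : RefOn r r A f)
    (hfA : f '' A = A') (hfM : ∀ x ∈ M, f x = x) (hg : RefOn r r C' g) (hgC : g '' C' = C)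
    (hgM : ∀ x ∈ M, g x = x) :
    ∃ k1 k2 : U → U, RefOn r r D1 k1 ∧ CS r (k1 '' D1) Set.univ ∧ RefOn r r D2 k2 ∧
      CS r (k2 '' D2) Set.univ ∧ (∀ x ∈ B, k1 x = x) ∧ (∀ x ∈ C', k2 x = g x) ∧
      (∀ x ∈ A, k1 x = k2 (f x)) ∧ (k1 '' A) ∩ D3 ⊆ M := by
  classical
  have hne : Nonempty U := h.ne
  have zA : M ⊆ A := i1 ▸ Set.inter_subset_left
  have zB : M ⊆ B := i1 ▸ Set.inter_subset_right
  have zA' : M ⊆ A' := i2 ▸ Set.inter_subset_left
  have zC' : M ⊆ C' := i2 ▸ Set.inter_subset_right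
  have zC : M ⊆ C := i3 ▸ Set.inter_subset_right
  have sA : A ⊆ D1 := Set.subset_union_left.trans s1
  have sB : B ⊆ D1 := Set.subset_union_right.trans s1
  have sA' : A' ⊆ D2 := Set.subset_union_left.trans s2
  have sC' : C' ⊆ D2 := Set.subset_union_right.trans s2
  have tB : B ⊆ D3 := Set.subset_union_left.trans s3
  have tC : C ⊆ D3 := Set.subset_union_right.trans s3
  have mAB : ∀ x, x ∈ A → x ∈ B → x ∈ M := fun x a b => i1 ▸ Set.mem_inter a b
  have mAC : ∀ x, x ∈ A' → x ∈ C' → x ∈ M := fun x a b => i2 ▸ Set.mem_inter a b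
  have mBC : ∀ x, x ∈ B → x ∈ C → x ∈ M := fun x a b => i3 ▸ Set.mem_inter a b
  have mf : ∀ x ∈ A, f x ∈ A' := fun x hx => hfA ▸ Set.mem_image_of_mem f hx
  have mg : ∀ x ∈ C', g x ∈ C := fun x hx => hgC ▸ Set.mem_image_of_mem g hx
  have ff : ∀ x ∈ A, f x ∈ M → f x = x := fun x hx h0 => hf.inj (zA h0) hx (hfM _ h0)
  have gg : ∀ x ∈ C', g x ∈ M → g x = x := fun x hx h0 => hg.inj (zC' h0) hx (hgM _ h0)
  obtain ⟨fi, hfi, _, _⟩ := hf.inv
  have hfi' : ∀ u ∈ A', fi u ∈ A ∧ f (fi u) = u := by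
    intro u hu
    rw [← hfA] at hu
    obtain ⟨x, hx, rfl⟩ := hu
    rw [hfi x hx]
    exact ⟨hx, rfl⟩
  let F := H95it.FF U
  let e0 : U → F := fun z => if z ∈ B then ⟨2, z⟩ else ⟨0, z⟩
  let e1 : U → F := fun z => if z ∈ C' then ⟨2, g z⟩ else if z ∈ A' then ⟨0, fi z⟩ else ⟨1, z⟩
  let e2 : U → F := fun z => ⟨2, z⟩
  have e0a : ∀ z ∈ B, e0 z = ⟨2, z⟩ := fun z hz => if_pos hz
  have e0b : ∀ z, z ∉ B → e0 z = ⟨0, z⟩ := fun z hz => if_neg hz
  have e1a : ∀ z ∈ C', e1 z = ⟨2, g z⟩ := fun z hz => if_pos hz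
  have e1b : ∀ z, z ∉ C' → z ∈ A' → e1 z = ⟨0, fi z⟩ := fun z hz hz' => by
    simp only [e1, if_neg hz, if_pos hz']
  have e1c : ∀ z, z ∉ C' → z ∉ A' → e1 z = ⟨1, z⟩ := fun z hz hz' => by
    simp only [e1, if_neg hz, if_neg hz']
  have inj2 : Set.InjOn e2 D3 := fun x _ y _ h => congrArg H95it.FF.x h
  have inj0 : Set.InjOn e0 D1 := by
    intro x _ y _ h
    by_cases hx : x ∈ B <;> by_cases hy : y ∈ B
    · rw [e0a x hx, e0a y hy] at h
      exact congrArg H95it.FF.x h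
    · rw [e0a x hx, e0b y hy] at h
      exact congrArg H95it.FF.x h
    · rw [e0b x hx, e0a y hy] at h
      exact congrArg H95it.FF.x h
    · rw [e0b x hx, e0b y hy] at h
      exact congrArg H95it.FF.x h
  have inj1 : Set.InjOn e1 D2 := by
    intro x _ y _ h
    by_cases hx : x ∈ C'
    · by_cases hy : y ∈ C'
      · rw [e1a x hx, e1a y hy] at h
        exact hg.inj hx hy (congrArg H95it.FF.x h)
      · by_cases hy' : y ∈ A'
        · rw [e1a x hx, e1b y hy hy'] at h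
          exact absurd (congrArg H95it.FF.i h) (by simp)
        · rw [e1a x hx, e1c y hy hy'] at h
          exact absurd (congrArg H95it.FF.i h) (by simp)
    · by_cases hx' : x ∈ A'
      · by_cases hy : y ∈ C'
        · rw [e1b x hx hx', e1a y hy] at h
          exact absurd (congrArg H95it.FF.i h) (by simp)
        · by_cases hy' : y ∈ A'
          · rw [e1b x hx hx', e1b y hy hy'] at h
            have h1 : fi x = fi y := congrArg H95it.FF.x h
            rw [← (hfi' x hx').2, ← (hfi' y hy').2, h1]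
          · rw [e1b x hx hx', e1c y hy hy'] at h
            exact absurd (congrArg H95it.FF.i h) (by simp)
      · by_cases hy : y ∈ C'
        · rw [e1c x hx hx', e1a y hy] at h
          exact absurd (congrArg H95it.FF.i h) (by simp)
        · by_cases hy' : y ∈ A'
          · rw [e1c x hx hx', e1b y hy hy'] at h
            exact absurd (congrArg H95it.FF.i h) (by simp)
          · rw [e1c x hx hx', e1c y hy hy'] at h
            exact congrArg H95it.FF.x h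
  -- the overlaps
  have o02 : ∀ y x, e0 y = e2 x → y ∈ B ∧ x = y := by
    intro y x h
    by_cases hy : y ∈ B
    · rw [e0a y hy] at h
      exact ⟨hy, (congrArg H95it.FF.x h).symm⟩
    · rw [e0b y hy] at h
      exact absurd (congrArg H95it.FF.i h) (by simp [e2])
  have o12 : ∀ y x, e1 y = e2 x → y ∈ C' ∧ x = g y := by
    intro y x h
    by_cases hy : y ∈ C'
    · rw [e1a y hy] at h
      exact ⟨hy, (congrArg H95it.FF.x h).symm⟩
    · by_cases hy' : y ∈ A'
      · rw [e1b y hy hy'] at h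
        exact absurd (congrArg H95it.FF.i h) (by simp [e2])
      · rw [e1c y hy hy'] at h
        exact absurd (congrArg H95it.FF.i h) (by simp [e2])
  have o01 : ∀ x y, e0 x = e1 y → x ∈ A ∧ y = f x := by
    intro x y h
    by_cases hx : x ∈ B
    · rw [e0a x hx] at h
      by_cases hy : y ∈ C'
      · rw [e1a y hy] at h
        have h1 : x = g y := congrArg H95it.FF.x h
        have h2 : g y ∈ M := mBC _ (h1 ▸ hx) (mg y hy)
        have h3 := gg y hy h2
        have h4 : x ∈ M := h1 ▸ h2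
        refine ⟨zA h4, ?_⟩
        rw [hfM x h4, h1, h3]
      · by_cases hy' : y ∈ A'
        · rw [e1b y hy hy'] at h
          exact absurd (congrArg H95it.FF.i h) (by simp)
        · rw [e1c y hy hy'] at h
          exact absurd (congrArg H95it.FF.i h) (by simp)
    · rw [e0b x hx] at h
      by_cases hy : y ∈ C'
      · rw [e1a y hy] at h
        exact absurd (congrArg H95it.FF.i h) (by simp)
      · by_cases hy' : y ∈ A'
        · rw [e1b y hy hy'] at h
          have h1 : x = fi y := congrArg H95it.FF.x h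
          rw [h1]
          exact ⟨(hfi' y hy').1, (hfi' y hy').2.symm⟩
        · rw [e1c y hy hy'] at h
          exact absurd (congrArg H95it.FF.i h) (by simp)
  have a0 : ∀ x ∈ B, e0 x = e2 x := fun x hx => e0a x hx
  have a1 : ∀ x ∈ C', e1 x = e2 (g x) := fun x hx => e1a x hx
  have a01 : ∀ x ∈ A, e0 x = e1 (f x) := by
    intro x hx
    by_cases h2 : x ∈ B
    · have h0 := mAB x hx h2
      rw [hfM x h0, a1 x (zC' h0), hgM x h0, a0 x h2]
    · have h3 : f x ∉ C' := by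
        intro h3
        have h4 := mAC _ (mf x hx) h3
        have h5 := ff x hx h4
        exact h2 (zB (h5 ▸ h4))
      rw [e1b (f x) h3 (mf x hx), hfi x hx, e0b x h2]
  have rid : ∀ E : Set U, RefOn r r E id := fun E => RefOn.id' r E
  let D : Fin 3 → Set U := fun i => if i = 0 then D1 else if i = 1 then D2 else D3
  let e : Fin 3 → U → F := fun i => if i = 0 then e0 else if i = 1 then e1 else e2
  have hcomp : H95it.Comp r D e := by
    refine H95it.comp_of r D e ?_ ?_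
    · intro i
      fin_cases i
      · exact inj0
      · exact inj1
      · exact inj2
    · intro i j hij
      have : (i = 0 ∧ j = 1) ∨ (i = 0 ∧ j = 2) ∨ (i = 1 ∧ j = 2) := by omega
      rcases this with ⟨rfl, rfl⟩ | ⟨rfl, rfl⟩ | ⟨rfl, rfl⟩
      · exact ⟨A, f, hf, fun x _ y _ h => o01 x y h⟩
      · exact ⟨B, id, rid _, fun x _ y _ h => o02 x y h⟩
      · exact ⟨C', g, hg, fun x _ y _ h => o12 x y h⟩
  set R := H95it.glue r D e hcomp with hR
  have R0 : RefOn r R D1 e0 := H95it.ref_glue r D e hcomp 0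
  have R1 : RefOn r R D2 e1 := H95it.ref_glue r D e hcomp 1
  have R2 : RefOn r R D3 e2 := H95it.ref_glue r D e hcomp 2
  set E0 := e0 '' D1 with hE0
  set E1 := e1 '' D2 with hE1
  set E2 := e2 '' D3 with hE2
  have i01 : E0 ∩ E1 = e0 '' A := by
    ext u
    constructor
    · rintro ⟨⟨x, hx, rfl⟩, ⟨y, hy, hxy⟩⟩
      exact ⟨x, (o01 x y hxy.symm).1, rfl⟩
    · rintro ⟨x, hx, rfl⟩
      exact ⟨⟨x, sA hx, rfl⟩, ⟨f x, sA' (mf x hx), (a01 x hx).symm⟩⟩
  have i02 : E0 ∩ E2 = e0 '' B := by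
    ext u
    constructor
    · rintro ⟨⟨x, hx, rfl⟩, ⟨y, hy, hxy⟩⟩
      exact ⟨x, (o02 x y hxy.symm).1, rfl⟩
    · rintro ⟨x, hx, rfl⟩
      exact ⟨⟨x, sB hx, rfl⟩, ⟨x, tB hx, (a0 x hx).symm⟩⟩
  have i12 : E1 ∩ E2 = e1 '' C' := by
    ext u
    constructor
    · rintro ⟨⟨x, hx, rfl⟩, ⟨y, hy, hxy⟩⟩
      exact ⟨x, (o12 x y hxy.symm).1, rfl⟩
    · rintro ⟨x, hx, rfl⟩
      exact ⟨⟨x, sC' hx, rfl⟩, ⟨g x, tC (mg x hx), (a1 x hx).symm⟩⟩
  have i01' : e0 '' A = e1 '' A' := by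
    rw [← hfA, Set.image_image]
    exact Set.image_congr fun x hx => a01 x hx
  have i02' : e0 '' B = e2 '' B := Set.image_congr fun x hx => a0 x hx
  have i12' : e1 '' C' = e2 '' C := by
    rw [← hgC, Set.image_image]
    exact Set.image_congr fun x hx => a1 x hx
  have memE : ∀ i, ∀ x ∈ D i, e i x ∈ (if i = 0 then E0 else if i = 1 then E1 else E2) := by
    intro i x hx
    fin_cases i
    · exact Set.mem_image_of_mem e0 hx
    · exact Set.mem_image_of_mem e1 hx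
    · exact Set.mem_image_of_mem e2 hx
  have hP0 : R.P (e2 x0) := (R2.P x0 (tB (zB hx0))).2 hP
  obtain ⟨o, ho, oA, oB, oC, clA, clB, clC, hfull⟩ := am3 R E0 E1 E2
    (R0.ax (h.ax.sub (Set.subset_univ _))) (R1.ax (h.ax.sub (Set.subset_univ _)))
    (R2.ax (h.ax.sub (Set.subset_univ _)))
    (by rw [i01]; exact R0.cs (cA.mono sA (Set.subset_univ _)))
    (by rw [i01, i01']; exact R1.cs (cA'.mono sA' (Set.subset_univ _)))
    (by rw [i02]; exact R0.cs (cB.mono sB (Set.subset_univ _)))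
    (by rw [i02, i02']; exact R2.cs (cB.mono tB (Set.subset_univ _)))
    (by rw [i12]; exact R1.cs (cC'.mono sC' (Set.subset_univ _)))
    (by rw [i12, i12']; exact R2.cs (cC.mono tC (Set.subset_univ _)))
    (by
      rintro u v ⟨i, x, hx, y, hy, rfl, rfl, _⟩
      have p1 := memE i x hx
      have p2 := memE i y hy
      fin_cases i
      · exact Or.inl ⟨p1, p2⟩
      · exact Or.inr (Or.inl ⟨p1, p2⟩)
      · exact Or.inr (Or.inr ⟨p1, p2⟩))
    (by
      rintro u v w ⟨i, x, hx, y, hy, z, hz, rfl, rfl, rfl, _⟩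
      have p1 := memE i x hx
      have p2 := memE i y hy
      have p3 := memE i z hz
      fin_cases i
      · exact Or.inl ⟨p1, p2, p3⟩
      · exact Or.inr (Or.inl ⟨p1, p2, p3⟩)
      · exact Or.inr (Or.inr ⟨p1, p2, p3⟩))
    (e2 x0) hP0
    ⟨x0, sB (zB hx0), a0 x0 (zB hx0)⟩
    ⟨x0, sC' (zC' hx0), by rw [a1 x0 (zC' hx0), hgM x0 hx0]⟩
    ⟨x0, tB (zB hx0), rfl⟩
  have hfull' := hfull (R0.full (h.full.sub c1)) (R1.full (h.full.sub c2)) (R2.full (h.full.sub c3))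
  have Q0 : RefOn r (R.setS o) D1 e0 := H95it.ref_setS R0 o oA
  have Q1 : RefOn r (R.setS o) D2 e1 := H95it.ref_setS R1 o oB
  have Q2 : RefOn r (R.setS o) D3 e2 := H95it.ref_setS R2 o oC
  set W := E0 ∪ E1 ∪ E2 with hW
  have subE0 : E0 ⊆ W := Set.subset_union_left.trans Set.subset_union_left
  have subE1 : E1 ⊆ W := Set.subset_union_right.trans Set.subset_union_left
  have subE2 : E2 ⊆ W := Set.subset_union_right
  have hWc : W.Countable := ((n1.image e0).union (n2.image e1)).union (n3.image e2)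
  have hWcount : Countable W := hWc.to_subtype
  have hWne : Nonempty W := ⟨⟨e2 x0, subE2 ⟨x0, tB (zB hx0), rfl⟩⟩⟩
  set Q := (R.setS o).res W with hQdef
  have Rv : RefOn Q (R.setS o) Set.univ (Subtype.val : W → F) := res_refOn (R.setS o) W
  have himv : (Subtype.val : W → F) '' Set.univ = W := by
    rw [Set.image_univ, Subtype.range_coe]
  have hQax : Ax Q Set.univ := Rv.ax' (by rw [himv]; exact ho)
  have hQfull : Full Q Set.univ := by
    intro x _ hx z _ hz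
    obtain ⟨a, ha, b, hb, hab, h1, h2⟩ := hfull' x.1 x.2 hx z.1 z.2 hz
    exact ⟨⟨a, ha⟩, trivial, ⟨b, hb⟩, trivial, fun h => hab (congrArg Subtype.val h), h1, h2⟩
  have himv2 : (Subtype.val : W → F) '' (Subtype.val ⁻¹' E2) = E2 := by
    rw [Subtype.image_preimage_coe]
    exact Set.inter_eq_right.2 subE2
  have hcs : CS Q ((Subtype.val : W → F) ⁻¹' E2) Set.univ := Rv.cs' (Set.subset_univ _) (by
    rw [himv, himv2]
    exact clC)
  have hx2 : RefOn (R.setS o) r E2 H95it.FF.x := by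
    obtain ⟨g', hg1, hg2, _⟩ := Q2.inv
    refine hg2.congr ?_
    rintro u ⟨x, hx, rfl⟩
    rw [hg1 x hx]
  have hgref : RefOn Q r ((Subtype.val : W → F) ⁻¹' E2) (H95it.FF.x ∘ (Subtype.val : W → F)) :=
    (Rv.mono (Set.subset_univ _)).comp (by rw [himv2]; exact hx2)
  have himx : (H95it.FF.x ∘ (Subtype.val : W → F)) '' ((Subtype.val : W → F) ⁻¹' E2) = D3 := by
    rw [Set.image_comp, himv2, hE2, Set.image_image]
    exact Set.image_id' D3
  obtain ⟨g', hg1, hg2, hg3⟩ := h.rich Q hQax hQfull _ hcs _ hgref (by rw [himx]; exact c3.dc)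
  obtain ⟨ι, hι1, hι2, hι3⟩ := Rv.inv
  rw [himv] at hι2 hι3
  have hGref : RefOn (R.setS o) r W (g' ∘ ι) := hι2.comp (by rw [hι3]; exact hg1)
  have hGW : (g' ∘ ι) '' W = Set.range g' := by
    rw [Set.image_comp, hι3, Set.image_univ]
  have hG2 : ∀ x ∈ D3, (g' ∘ ι) (e2 x) = x := by
    intro x hx
    have h1 : e2 x ∈ E2 := ⟨x, hx, rfl⟩
    have h2 : ι (e2 x) = ⟨e2 x, subE2 h1⟩ := hι1 ⟨e2 x, subE2 h1⟩ trivial
    rw [Function.comp_apply, h2, hg2 ⟨e2 x, subE2 h1⟩ h1]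
    rfl
  refine ⟨(g' ∘ ι) ∘ e0, (g' ∘ ι) ∘ e1, ?_, ?_, ?_, ?_, ?_, ?_, ?_, ?_⟩
  · exact Q0.comp (hGref.mono subE0)
  · have h1 := (hGref.cs clA)
    rw [hGW] at h1
    have h2 := h1.trans hg3
    rw [Set.image_comp]
    exact h2
  · exact Q1.comp (hGref.mono subE1)
  · have h1 := (hGref.cs clB)
    rw [hGW] at h1
    have h2 := h1.trans hg3
    rw [Set.image_comp]
    exact h2
  · intro x hx
    rw [Function.comp_apply, a0 x hx]
    exact hG2 x (tB hx)
  · intro x hx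
    rw [Function.comp_apply, a1 x hx]
    exact hG2 (g x) (tC (mg x hx))
  · intro x hx
    show (g' ∘ ι) (e0 x) = (g' ∘ ι) (e1 (f x))
    rw [a01 x hx]
  · rintro u ⟨⟨x, hx, rfl⟩, hu⟩
    have h1 := hG2 _ hu
    have h2 := hGref.inj (subE2 ⟨_, hu, rfl⟩) (subE0 ⟨x, sA hx, rfl⟩) h1
    obtain ⟨h3, h4⟩ := o02 x _ h2.symm
    rw [h4]
    exact mAB x hx h3

end H968G
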