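import Pool.Agent.helper968_onebased.Base
import Pool.Agent.helper968_onebased.Gen

/-!
The language.
-/

namespace H968G

open FirstOrder FirstOrder.Language

/-- The relation symbols. -/
inductive Sy : ℕ → Type
  | P : Sy 1
  | E : Sy 2
  | S : Sy 3

/-- The language. -/
def LA : FirstOrder.Language.{0, 0} := ⟨fun _ => Empty, Sy⟩

instance : Countable (Σ n, LA.Functions n) := by
  haveI : IsEmpty (Σ n, LA.Functions n) := ⟨fun x => Empty.elim x.2⟩
  infer_instance

instance : Countable (Σ n, LA.Relations n) := by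
  refine Function.Surjective.countable (α := Fin 3)
    (f := ![⟨1, Sy.P⟩, ⟨2, Sy.E⟩, ⟨3, Sy.S⟩]) ?_
  rintro ⟨n, f⟩
  have : ∀ n (f : Sy n), ∃ i : Fin 3,
      (![⟨1, Sy.P⟩, ⟨2, Sy.E⟩, ⟨3, Sy.S⟩] : Fin 3 → Σ n, Sy n) i = ⟨n, f⟩ := by
    intro n f
    cases f
    · exact ⟨0, rfl⟩
    · exact ⟨1, rfl⟩
    · exact ⟨2, rfl⟩
  exact this n f

/-- The structure attached to relations. -/
@[reducible] def str {V : Type} (r : Rl V) : LA.Structure V where
  funMap := fun {_} f => Empty.elim f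
  RelMap := fun {n} (s : Sy n) =>
    match n, s with
    | 1, Sy.P => fun v => r.P (v 0)
    | 2, Sy.E => fun v => r.G.Adj (v 0) (v 1)
    | 3, Sy.S => fun v => r.S (v 0) (v 1) (v 2)

/-- The structure on `M` is the one given by `r`. -/
structure Rep (M : Type) [LA.Structure M] (r : Rl M) : Prop where
  P : ∀ v : Fin 1 → M, Structure.RelMap (L := LA) Sy.P v ↔ r.P (v 0)
  E : ∀ v : Fin 2 → M, Structure.RelMap (L := LA) Sy.E v ↔ r.G.Adj (v 0) (v 1)
  S : ∀ v : Fin 3 → M, Structure.RelMap (L := LA) Sy.S v ↔ r.S (v 0) (v 1) (v 2)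

theorem rep_str {V : Type} (r : Rl V) : @Rep V (str r) r :=
  @Rep.mk V (str r) r (fun _ => Iff.rfl) (fun _ => Iff.rfl) (fun _ => Iff.rfl)

/-- A countably saturated model of the theory. -/
structure Big (U : Type) [LA.Structure U] (r : Rl U) : Prop where
  rep : Rep U r
  ax : Ax r Set.univ
  full : Full r Set.univ
  ep : EP r
  sat : CSat LA U
  ne : Nonempty U

end H968G
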