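import Pool.Agent.helper968_onebased.Gen

/-!
A version of P. M. Neumann's lemma (by helper35).
-/

namespace H968G

open FirstOrder FirstOrder.Language SKF Cardinal

namespace J_neumann

variable {L : FirstOrder.Language.{0, 0}} {U : Type} [L.Structure U]

section Def

variable {A B : Set U} {α β γ : Type}

lemma def_congr {P Q : (β → U) → Prop} (h : ∀ v, P v ↔ Q v) (hP : A.Definable L {v | P v}) :
    A.Definable L {v | Q v} := by
  have e : {v | Q v} = {v | P v} := by
    ext v
    exact (h v).symm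
  rw [e]
  exact hP

lemma def_and {P Q : (β → U) → Prop} (hP : A.Definable L {v | P v})
    (hQ : A.Definable L {v | Q v}) : A.Definable L {v | P v ∧ Q v} := hP.inter hQ

lemma def_or {P Q : (β → U) → Prop} (hP : A.Definable L {v | P v})
    (hQ : A.Definable L {v | Q v}) : A.Definable L {v | P v ∨ Q v} := hP.union hQ

lemma def_not {P : (β → U) → Prop} (hP : A.Definable L {v | P v}) :
    A.Definable L {v | ¬ P v} := hP.compl

lemma def_imp {P Q : (β → U) → Prop} (hP : A.Definable L {v | P v})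
    (hQ : A.Definable L {v | Q v}) : A.Definable L {v | P v → Q v} :=
  def_congr (fun v => (imp_iff_not_or (a := P v) (b := Q v)).symm) (def_or (def_not hP) hQ)

lemma def_all [Finite γ] {P : (β ⊕ γ → U) → Prop} (hP : A.Definable L {v | P v}) :
    A.Definable L {v : β → U | ∀ w : γ → U, P (Sum.elim v w)} := hP.forall_of_finite

lemma def_ex [Finite γ] {P : (β ⊕ γ → U) → Prop} (hP : A.Definable L {v | P v}) :
    A.Definable L {v : β → U | ∃ w : γ → U, P (Sum.elim v w)} := hP.exists_of_finite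

lemma def_iall {ι : Type} [Finite ι] {P : ι → (β → U) → Prop}
    (hP : ∀ i, A.Definable L {v | P i v}) : A.Definable L {v : β → U | ∀ i, P i v} := by
  have h := Set.definable_iInter_of_finite hP
  have e : {v : β → U | ∀ i, P i v} = ⋂ i, {v | P i v} := by
    ext v
    simp only [Set.mem_iInter]
    rfl
  rw [e]
  exact h

lemma def_iex {ι : Type} [Finite ι] {P : ι → (β → U) → Prop}
    (hP : ∀ i, A.Definable L {v | P i v}) : A.Definable L {v : β → U | ∃ i, P i v} := by
  have h := Set.definable_iUnion_of_finite hP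
  have e : {v : β → U | ∃ i, P i v} = ⋃ i, {v | P i v} := by
    ext v
    simp only [Set.mem_iUnion]
    rfl
  rw [e]
  exact h

lemma def_eq (a b : β) : A.Definable L {v : β → U | v a = v b} := by
  refine ⟨(var a).equal (var b), ?_⟩
  ext v
  simp

lemma def_re (f : α → β) {P : (α → U) → Prop} (h : A.Definable L {v | P v}) :
    A.Definable L {v : β → U | P (fun a => v (f a))} := h.preimage_comp f

lemma def_prop (p : Prop) : A.Definable L {_v : β → U | p} := by
  by_cases hp : p
  · have e : {_v : β → U | p} = Set.univ := by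
      ext v
      exact ⟨fun _ => trivial, fun _ => hp⟩
    rw [e]
    exact Set.definable_univ
  · have e : {_v : β → U | p} = ∅ := by
      ext v
      exact ⟨fun h => hp h, fun h => absurd h (Set.notMem_empty v)⟩
    rw [e]
    exact Set.definable_empty

lemma def_fiber (hAB : A ⊆ B) (g : γ → U) (hg : ∀ i, g i ∈ B) {P : (γ ⊕ β → U) → Prop}
    (h : A.Definable L {v | P v}) : B.Definable L {v : β → U | P (Sum.elim g v)} := by
  rw [Set.definable_iff_exists_formula_sum] at h ⊢
  obtain ⟨φ, hφ⟩ := h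
  refine ⟨φ.relabel (Sum.elim (fun a => Sum.inl ⟨a.1, hAB a.2⟩)
    (Sum.elim (fun i => Sum.inl ⟨g i, hg i⟩) Sum.inr)), ?_⟩
  ext v
  have h1 : Sum.elim g v ∈ {v | P v} ↔ φ.Realize (Sum.elim (↑) (Sum.elim g v)) := by
    rw [hφ]
    rfl
  have h2 : (Sum.elim (fun a : B => (a : U)) v ∘ (Sum.elim (fun a => Sum.inl ⟨a.1, hAB a.2⟩)
      (Sum.elim (fun i => Sum.inl ⟨g i, hg i⟩) Sum.inr)) : A ⊕ (γ ⊕ β) → U) =
      Sum.elim (↑) (Sum.elim g v) := by
    funext x
    rcases x with a | i | b <;> rfl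
  change P (Sum.elim g v) ↔ (φ.relabel _).Realize _
  rw [Formula.realize_relabel, h2]
  exact h1

lemma def_form {P : (β → U) → Prop} (h : A.Definable L {v | P v}) :
    ∃ (p : ℕ) (m : Fin p → U) (φ : L.Formula (β ⊕ Fin p)), (∀ i, m i ∈ A) ∧
      ∀ v, φ.Realize (Sum.elim v m) ↔ P v := by
  rw [Set.definable_iff_finitely_definable] at h
  obtain ⟨A0, hA0, h⟩ := h
  rw [Set.definable_iff_exists_formula_sum] at h
  obtain ⟨φ, hφ⟩ := h
  refine ⟨A0.card, fun i => ((A0.equivFin.symm i : A0) : U),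
    φ.relabel (Sum.elim (fun a => Sum.inr (A0.equivFin ⟨a.1, a.2⟩)) Sum.inl), fun i => hA0 (A0.equivFin.symm i).2, ?_⟩
  intro v
  have h2 : (Sum.elim v (fun i => ((A0.equivFin.symm i : A0) : U)) ∘
      (Sum.elim (fun a => Sum.inr (A0.equivFin ⟨a.1, a.2⟩)) Sum.inl) :
        ((A0 : Set U) ⊕ β) → U) = Sum.elim (↑) v := by
    funext x
    rcases x with a | b
    · simp
    · rfl
  rw [Formula.realize_relabel, h2]
  have h1 : v ∈ {v | P v} ↔ φ.Realize (Sum.elim (↑) v) := by
    rw [hφ]
    rfl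
  exact h1.symm

lemma form_def {p : ℕ} (m : Fin p → U) (hm : ∀ i, m i ∈ A) (φ : L.Formula (β ⊕ Fin p)) :
    A.Definable L {v : β → U | φ.Realize (Sum.elim v m)} := by
  rw [Set.definable_iff_exists_formula_sum]
  refine ⟨φ.relabel (Sum.elim Sum.inr (fun i => Sum.inl ⟨m i, hm i⟩)), ?_⟩
  ext v
  have h2 : (Sum.elim (fun a : A => (a : U)) v ∘ (Sum.elim Sum.inr (fun i => Sum.inl ⟨m i, hm i⟩)) :
      β ⊕ Fin p → U) = Sum.elim v m := by
    funext x
    rcases x with b | i <;> rfl
  change φ.Realize (Sum.elim v m) ↔ (φ.relabel _).Realize _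
  rw [Formula.realize_relabel, h2]

lemma form0_def (φ : L.Formula β) : A.Definable L {v : β → U | φ.Realize v} := by
  have h : (∅ : Set U).Definable L {v : β → U | φ.Realize v} := by
    rw [Set.empty_definable_iff]
    exact ⟨φ, rfl⟩
  exact h.mono (Set.empty_subset A)

end Def

/-- saturation in terms of definable sets -/
lemma sat_def {κ : Cardinal.{0}} (hsat : IsSaturated L κ U) {A : Set U} (hA : #A < κ) {β : Type}
    [Finite β] (S : Set (Set (β → U))) (hdef : ∀ s ∈ S, A.Definable L s)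
    (hfip : ∀ t : Set (Set (β → U)), t.Finite → t ⊆ S → ∃ u, ∀ s ∈ t, u ∈ s) :
    ∃ u, ∀ s ∈ S, u ∈ s := by
  obtain ⟨n, ⟨e⟩⟩ := Finite.exists_equiv_fin β
  have h1 : ∀ s, ∃ ψ : Fml L n U, s ∈ S →
      (ψ.Over A ∧ ∀ a : Fin n → U, ψ.Holds a ↔ (fun b => a (e b)) ∈ s) := by
    intro s
    by_cases hs : s ∈ S
    · obtain ⟨p, m, φ, hm, hφ⟩ := def_form (P := fun a : Fin n → U => (fun b => a (e b)) ∈ s)
        (def_re (P := fun v => v ∈ s) e (hdef s hs))
      exact ⟨⟨p, φ, m⟩, fun _ => ⟨hm, hφ⟩⟩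
    · exact ⟨⟨0, ⊥, Fin.elim0⟩, fun h => absurd h hs⟩
  choose ψ hψ using h1
  obtain ⟨a, ha⟩ := hsat A hA n (ψ '' S) (by
    rintro _ ⟨s, hs, rfl⟩
    exact (hψ s hs).1) (by
    intro t ht hts
    obtain ⟨t', ht', htf, rfl⟩ : ∃ t', t' ⊆ S ∧ t'.Finite ∧ ψ '' t' = t :=
      (Set.exists_subset_image_finite_and (p := fun x => x = t)).1 ⟨t, hts, ht, rfl⟩
    obtain ⟨u, hu⟩ := hfip t' htf ht'
    refine ⟨fun i => u (e.symm i), ?_⟩
    rintro _ ⟨s, hs, rfl⟩
    rw [(hψ s (ht' hs)).2]
    have e1 : (fun b => u (e.symm (e b))) = u := by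
      funext b
      rw [Equiv.symm_apply_apply]
    rw [e1]
    exact hu s hs)
  refine ⟨fun b => a (e b), fun s hs => ?_⟩
  rw [← (hψ s hs).2]
  exact ha _ ⟨s, hs, rfl⟩

/-- a set without `K + 1` different elements -/
def Small (K : ℕ) (S : U → Prop) : Prop :=
  ∀ f : Fin (K + 1) → U, (∀ i, S (f i)) → ∃ i j, i ≠ j ∧ f i = f j

lemma small_of_finite {S : U → Prop} (hS : {z | S z}.Finite) : ∃ K, Small K S := by
  classical
  refine ⟨hS.toFinset.card, fun f hf => ?_⟩
  by_contra hcon
  push Not at hcon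
  have hinj : Function.Injective f := fun i j hij => by_contra fun h => hcon i j h hij
  have h1 : (Finset.univ.image f).card = hS.toFinset.card + 1 := by
    rw [Finset.card_image_of_injective _ hinj, Finset.card_univ, Fintype.card_fin]
  have h2 : Finset.univ.image f ⊆ hS.toFinset := by
    intro z hz
    rw [Finset.mem_image] at hz
    obtain ⟨i, _, rfl⟩ := hz
    rw [Set.Finite.mem_toFinset]
    exact hf i
  have h3 := Finset.card_le_card h2
  omega

lemma finite_of_small {K : ℕ} {S : U → Prop} (h : Small K S) : {z | S z}.Finite := by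
  by_contra hinf
  obtain ⟨t, ht, hc⟩ := Set.Infinite.exists_subset_card_eq hinf (K + 1)
  obtain ⟨i, j, hij, hf⟩ := h (fun i => ((t.equivFinOfCardEq hc).symm i : U)) (fun i => ht (Subtype.mem _))
  apply hij
  have := Subtype.ext hf
  exact (t.equivFinOfCardEq hc).symm.injective this

/-- definability of a relation between an element and a tuple -/
def DR (M : Set U) {α : Type} (R : U → (α → U) → Prop) : Prop :=
  M.Definable L {w : Fin 1 ⊕ α → U | R (w (Sum.inl 0)) (fun a => w (Sum.inr a))}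

lemma algE_of {M : Set U} {α : Type} (E : L.Formula (α ⊕ α)) (u0 : α → U)
    {R : U → (α → U) → Prop} (hR : DR (L := L) M R) {D : Set U} (hD : D.Finite) {x : U}
    (hx : x ∈ D) (h : ∀ v : α → U, E.Realize (Sum.elim u0 v) → ∀ z, R z v ↔ z ∈ D) :
    AlgE L M E u0 x := by
  obtain ⟨p, m, φ, hm, hφ⟩ := def_form hR
  refine ⟨p, m, φ, D, hm, hD, hx, fun v hv z => ?_⟩
  rw [hφ]
  exact h v hv z

lemma rel_of_acl {M : Set U} {α : Type} {u : α → U} {x : U} (hx : x ∈ acl L (M ∪ Set.range u)) :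
    ∃ R : U → (α → U) → Prop, DR (L := L) M R ∧ R x u ∧ {z | R z u}.Finite := by
  classical
  obtain ⟨p, c, φ, hc, h1, h2⟩ := hx
  have hch : ∀ i, c i ∉ M → ∃ a, u a = c i := by
    intro i hi
    rcases hc i with h | h
    · exact absurd h hi
    · exact h
  choose a ha using hch
  have hcu : (fun i => if h : c i ∈ M then c i else u (a i h)) = c := by
    funext i
    split_ifs with h
    · rfl
    · exact ha i h
  refine ⟨fun z v => φ.Realize (Sum.elim (fun _ => z) (fun i => if h : c i ∈ M then c i else v (a i h))),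
    ?_, ?_, ?_⟩
  · unfold DR
    rw [Set.definable_iff_exists_formula_sum]
    refine ⟨φ.relabel (Sum.elim (fun j => Sum.inr (Sum.inl j))
      (fun i => if h : c i ∈ M then Sum.inl ⟨c i, h⟩ else Sum.inr (Sum.inr (a i h)))), ?_⟩
    ext w
    have h3 : (Sum.elim (fun a : M => (a : U)) w ∘ (Sum.elim (fun j => Sum.inr (Sum.inl j))
      (fun i => if h : c i ∈ M then Sum.inl ⟨c i, h⟩ else Sum.inr (Sum.inr (a i h)))) :
        Fin 1 ⊕ Fin p → U) = Sum.elim (fun _ => w (Sum.inl 0))
          (fun i => if h : c i ∈ M then c i else w (Sum.inr (a i h))) := by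
      funext y
      rcases y with j | i
      · have : j = 0 := Subsingleton.elim _ _
        subst this
        rfl
      · simp only [Function.comp_apply, Sum.elim_inr]
        split_ifs <;> rfl
    change φ.Realize _ ↔ (φ.relabel _).Realize _
    rw [Formula.realize_relabel, h3]
  · change φ.Realize (Sum.elim (fun _ => x) (fun i => if h : c i ∈ M then c i else u (a i h)))
    rw [hcu]
    exact h1
  · change {z | φ.Realize (Sum.elim (fun _ => z) (fun i => if h : c i ∈ M then c i else u (a i h)))}.Finite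
    rw [hcu]
    exact h2

/-- `R z u`, where `R _ u` has at most `K` elements -/
def Y {α : Type} (R : U → (α → U) → Prop) (K : ℕ) (z : U) (u : α → U) : Prop :=
  R z u ∧ Small K (fun z' => R z' u)

lemma def_Y {M : Set U} {α : Type} {R : U → (α → U) → Prop} (hR : DR (L := L) M R) (K : ℕ) :
    DR (L := L) M (Y R K) := by
  refine def_and hR ?_
  refine def_all (β := Fin 1 ⊕ α) (γ := Fin (K + 1)) (P := fun w =>
    (∀ i, R (w (Sum.inr i)) (fun a => w (Sum.inl (Sum.inr a)))) →
      ∃ i j, i ≠ j ∧ w (Sum.inr i) = w (Sum.inr j)) ?_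
  refine def_imp (def_iall fun i => ?_) (def_iex fun i => def_iex fun j => def_and (def_prop _) (def_eq _ _))
  exact def_re (P := fun w : Fin 1 ⊕ α → U => R (w (Sum.inl 0)) (fun a => w (Sum.inr a)))
    (Sum.elim (fun _ => Sum.inr i) (fun a => Sum.inl (Sum.inr a))) hR

section Cover

variable {J V : Type}

/-- a finite set of conditions `z j = f` of which every `z ∈ Z` satisfies one -/
def IsCover (Z : Set (J → V)) (H : Finset (J × V)) : Prop := ∀ z ∈ Z, ∃ p ∈ H, z p.1 = p.2

lemma finite_covers [Finite J] : ∀ (n : ℕ) (Z : Set (J → V)),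
    (∀ H, IsCover Z H → n ≤ H.card) → {H | IsCover Z H ∧ H.card = n}.Finite := by
  classical
  intro n
  induction n with
  | zero =>
    intro Z _
    refine (Set.finite_singleton (∅ : Finset (J × V))).subset ?_
    rintro H ⟨_, hH⟩
    exact Finset.card_eq_zero.1 hH
  | succ n ih =>
    intro Z hmin
    have hne : ∃ z, z ∈ Z := by
      by_contra hcon
      push Not at hcon
      have := hmin ∅ (fun z hz => absurd hz (hcon z))
      simp at this
    obtain ⟨z, hz⟩ := hne
    have h1 : ∀ j : J, {H | IsCover {z' | z' ∈ Z ∧ z' j ≠ z j} H ∧ H.card = n}.Finite := by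
      intro j
      apply ih
      intro H hH
      have h2 : IsCover Z (insert (j, z j) H) := by
        intro z' hz'
        by_cases h : z' j = z j
        · exact ⟨(j, z j), Finset.mem_insert_self _ _, h⟩
        · obtain ⟨p, hp, hzp⟩ := hH z' ⟨hz', h⟩
          exact ⟨p, Finset.mem_insert_of_mem hp, hzp⟩
      have h3 := hmin _ h2
      have h4 := Finset.card_insert_le (j, z j) H
      omega
    have h2 : (⋃ j : J, (fun H => insert (j, z j) H) ''
        {H | IsCover {z' | z' ∈ Z ∧ z' j ≠ z j} H ∧ H.card = n}).Finite :=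
      Set.finite_iUnion fun j => (h1 j).image _
    refine h2.subset ?_
    rintro H ⟨hH, hc⟩
    obtain ⟨⟨j, f⟩, hp, hzp⟩ := hH z hz
    dsimp only at hzp
    subst hzp
    rw [Set.mem_iUnion]
    refine ⟨j, H.erase (j, z j), ⟨?_, ?_⟩, Finset.insert_erase hp⟩
    · rintro z' ⟨hz', hne⟩
      obtain ⟨p, hp', hzp⟩ := hH z' hz'
      refine ⟨p, Finset.mem_erase.2 ⟨?_, hp'⟩, hzp⟩
      rintro rfl
      exact hne hzp
    · rw [Finset.card_erase_of_mem hp, hc]
      rfl

end Cover

section Min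

variable {J V : Type}

/-- the second components of the conditions with index `j` in the covers with `n` elements -/
def Dj (Z : Set (J → V)) (n : ℕ) (j : J) : Set V := {f | ∃ H, (IsCover Z H ∧ H.card = n) ∧ (j, f) ∈ H}

/-- the same with tuples -/
def Dt (Z : Set (J → V)) (n : ℕ) (j : J) (f : V) : Prop :=
  ∃ (a : Fin n → J) (y : Fin n → V), (∀ z, z ∈ Z → ∃ i, z (a i) = y i) ∧ ∃ i, a i = j ∧ y i = f

lemma dj_finite [Finite J] {Z : Set (J → V)} {n : ℕ} (hmin : ∀ H, IsCover Z H → n ≤ H.card) (j : J) :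
    (Dj Z n j).Finite := by
  classical
  have h1 := finite_covers n Z hmin
  refine (Set.Finite.biUnion h1 (t := fun H => ((H.image Prod.snd : Finset V) : Set V))
    (fun H _ => Finset.finite_toSet _)).subset ?_
  rintro f ⟨H, hH, hf⟩
  rw [Set.mem_iUnion₂]
  exact ⟨H, hH, Finset.mem_coe.2 (Finset.mem_image.2 ⟨(j, f), hf, rfl⟩)⟩

lemma dt_iff {Z : Set (J → V)} {n : ℕ} (hmin : ∀ H, IsCover Z H → n ≤ H.card) (j : J) (f : V) :
    Dt Z n j f ↔ f ∈ Dj Z n j := by
  classical
  constructor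
  · rintro ⟨a, y, h1, i, hi, hf⟩
    have hcov : IsCover Z (Finset.univ.image fun i => (a i, y i)) := by
      intro z hz
      obtain ⟨i, hi⟩ := h1 z hz
      exact ⟨(a i, y i), Finset.mem_image_of_mem _ (Finset.mem_univ i), hi⟩
    refine ⟨_, ⟨hcov, le_antisymm ?_ (hmin _ hcov)⟩, ?_⟩
    · calc _ ≤ (Finset.univ : Finset (Fin n)).card := Finset.card_image_le
        _ = n := by rw [Finset.card_univ, Fintype.card_fin]
    · rw [Finset.mem_image]
      exact ⟨i, Finset.mem_univ i, by rw [hi, hf]⟩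
  · rintro ⟨H, ⟨hH, hc⟩, hf⟩
    refine ⟨fun i => ((H.equivFinOfCardEq hc).symm i).1.1, fun i => ((H.equivFinOfCardEq hc).symm i).1.2, ?_, ?_⟩
    · intro z hz
      obtain ⟨p, hp, hzp⟩ := hH z hz
      refine ⟨H.equivFinOfCardEq hc ⟨p, hp⟩, ?_⟩
      dsimp only
      rw [Equiv.symm_apply_apply]
      exact hzp
    · refine ⟨H.equivFinOfCardEq hc ⟨(j, f), hf⟩, ?_⟩
      dsimp only
      rw [Equiv.symm_apply_apply]
      exact ⟨rfl, rfl⟩

end Min

theorem main {κ : Cardinal.{0}} (hsat : IsSaturated L κ U) (hκ : ℵ₀ < κ) {M : Set U} (hM : #M < κ)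
    {α : Type} [Finite α] (E : L.Formula (α ⊕ α))
    (hE : Equivalence fun u v : α → U => E.Realize (Sum.elim u v)) (u0 : α → U) {X : Set U}
    (hX : #X < κ) : ∃ u1 : α → U, E.Realize (Sum.elim u0 u1) ∧ ST L M u1 u0 ∧
      ∀ x ∈ X, x ∈ acl L (M ∪ Set.range u1) → AlgE L M E u0 x := by
  classical
  obtain ⟨A, hA⟩ : ∃ A : Set U, A = M ∪ (Set.range u0 ∪ X) := ⟨_, rfl⟩
  have hAκ : #A < κ := by
    rw [hA]
    refine lt_of_le_of_lt (mk_union_le _ _) (add_lt_of_lt hκ.le hM ?_)
    refine lt_of_le_of_lt (mk_union_le _ _) (add_lt_of_lt hκ.le ?_ hX)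
    exact lt_of_lt_of_le (lt_aleph0_of_finite _) hκ.le
  have hMA : M ⊆ A := by
    rw [hA]
    exact Set.subset_union_left
  have huA : ∀ i, u0 i ∈ A := by
    intro i
    rw [hA]
    exact Or.inr (Or.inl ⟨i, rfl⟩)
  have hXA : X ⊆ A := by
    rw [hA]
    intro x hx
    exact Or.inr (Or.inr hx)
  obtain ⟨Third, hThird⟩ : ∃ Third : Set (α → U) → Prop, ∀ s, Third s ↔
      ∃ (c : U) (R : U → (α → U) → Prop) (K : ℕ), c ∈ X ∧ ¬ AlgE L M E u0 c ∧ DR (L := L) M R ∧
        s = {u | ¬ Y R K c u} := ⟨_, fun _ => Iff.rfl⟩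
  obtain ⟨u1, hu1⟩ : ∃ u1, ∀ s ∈ {s : Set (α → U) | s = {u | E.Realize (Sum.elim u0 u)} ∨
      (M.Definable L s ∧ u0 ∈ s) ∨ Third s}, u1 ∈ s := by
    refine sat_def hsat hAκ _ ?_ ?_
    · rintro s (rfl | ⟨hs, _⟩ | hs)
      · exact def_fiber (A := A) (B := A) subset_rfl u0 huA (form0_def E)
      · exact hs.mono hMA
      · rw [hThird] at hs
        obtain ⟨c, R, K, hc, _, hR, rfl⟩ := hs
        refine def_not ?_
        exact def_fiber (A := M) (B := A) hMA (fun _ : Fin 1 => c) (fun _ => hXA hc) (def_Y hR K)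
    · intro T hT hTS
      by_contra hno
      push Not at hno
      -- the third kind
      have hJfin : Finite {s // s ∈ T ∧ Third s} :=
        (hT.subset (fun s hs => hs.1 : {s | s ∈ T ∧ Third s} ⊆ T)).to_subtype
      have hJfin' : Finite {s // s ∈ T ∧ M.Definable L s ∧ u0 ∈ s} :=
        (hT.subset (fun s hs => hs.1 : {s | s ∈ T ∧ M.Definable L s ∧ u0 ∈ s} ⊆ T)).to_subtype
      have hch : ∀ j : {s // s ∈ T ∧ Third s}, ∃ (c : U) (R : U → (α → U) → Prop) (K : ℕ), c ∈ X ∧
          ¬ AlgE L M E u0 c ∧ DR (L := L) M R ∧ j.1 = {u | ¬ Y R K c u} := by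
        intro j
        exact (hThird _).1 j.2.2
      choose c R K hc hnot hR hs using hch
      obtain ⟨S0, hS0⟩ : ∃ S0 : (α → U) → Prop, S0 = fun u =>
        ∀ j : {s // s ∈ T ∧ M.Definable L s ∧ u0 ∈ s}, u ∈ j.1 := ⟨_, rfl⟩
      have hS0d : M.Definable L {u | S0 u} := by
        rw [hS0]
        exact def_iall fun j => j.2.2.1
      have hS00 : S0 u0 := by
        rw [hS0]
        exact fun j => j.2.2.2
      have hcover : ∀ u, E.Realize (Sum.elim u0 u) → S0 u → ∃ j, Y (R j) (K j) (c j) u := by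
        intro u hu hu2
        by_contra hcon
        push Not at hcon
        obtain ⟨s, hsT, hus⟩ := hno u
        apply hus
        rcases hTS hsT with h | h | h
        · rw [h]
          exact hu
        · rw [hS0] at hu2
          exact hu2 ⟨s, hsT, h⟩
        · have h2 := hs ⟨s, hsT, h⟩
          dsimp only at h2
          rw [h2]
          exact hcon ⟨s, hsT, h⟩
      obtain ⟨Zr, hZr⟩ : ∃ Zr : ({s // s ∈ T ∧ Third s} → U) → (α → U) → Prop, Zr = fun z v =>
        ∀ u, E.Realize (Sum.elim v u) → S0 u → ∃ j, Y (R j) (K j) (z j) u := ⟨_, rfl⟩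
      have hZrd : M.Definable L {w : {s // s ∈ T ∧ Third s} ⊕ α → U |
          Zr (fun j => w (Sum.inl j)) (fun a => w (Sum.inr a))} := by
        rw [hZr]
        refine def_all (β := {s // s ∈ T ∧ Third s} ⊕ α) (γ := α) (P := fun w =>
          E.Realize (Sum.elim (fun a => w (Sum.inl (Sum.inr a))) (fun a => w (Sum.inr a))) →
          S0 (fun a => w (Sum.inr a)) → ∃ j, Y (R j) (K j) (w (Sum.inl (Sum.inl j))) (fun a => w (Sum.inr a))) ?_
        refine def_imp ?_ (def_imp ?_ (def_iex fun j => ?_))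
        · refine def_congr (P := fun w => E.Realize (fun i => w (Sum.elim (fun a => Sum.inl (Sum.inr a)) Sum.inr i))) ?_
            (def_re (P := fun v => E.Realize v) _ (form0_def E))
          intro w
          have e1 : (fun i => w (Sum.elim (fun a => Sum.inl (Sum.inr a)) Sum.inr i)) =
              Sum.elim (fun a => w (Sum.inl (Sum.inr a))) (fun a => w (Sum.inr a)) := by
            funext i
            rcases i with i | i <;> rfl
          rw [e1]
        · exact def_re (P := S0) _ hS0d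
        · exact def_re (P := fun w : Fin 1 ⊕ α → U => Y (R j) (K j) (w (Sum.inl 0)) (fun a => w (Sum.inr a)))
            (Sum.elim (fun _ => Sum.inl (Sum.inl j)) Sum.inr) (def_Y (hR j) (K j))
      have hZinv : ∀ v, E.Realize (Sum.elim u0 v) → ∀ z, Zr z v ↔ Zr z u0 := by
        intro v hv z
        rw [hZr]
        constructor
        · intro h u hu
          exact h u (hE.trans (hE.symm hv) hu)
        · intro h u hu
          exact h u (hE.trans hv hu)
      obtain ⟨Z, hZ⟩ : ∃ Z : Set ({s // s ∈ T ∧ Third s} → U), Z = {z | Zr z u0} := ⟨_, rfl⟩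
      have hcZ : c ∈ Z := by
        rw [hZ, hZr]
        exact hcover
      have hcov0 : ∃ H, IsCover Z H := by
        have hfin : {p : {s // s ∈ T ∧ Third s} × U | Y (R p.1) (K p.1) p.2 u0}.Finite := by
          have h1 : ∀ j : {s // s ∈ T ∧ Third s}, {z | Y (R j) (K j) z u0}.Finite := by
            intro j
            by_cases h : Small (K j) (fun z' => R j z' u0)
            · exact (finite_of_small h).subset fun z hz => hz.1
            · have : {z | Y (R j) (K j) z u0} = ∅ := by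
                ext z
                exact ⟨fun hz => absurd hz.2 h, fun hz => absurd hz (Set.notMem_empty z)⟩
              rw [this]
              exact Set.finite_empty
          refine (Set.finite_iUnion fun j => (h1 j).image fun z => (j, z)).subset ?_
          rintro ⟨j, z⟩ hz
          rw [Set.mem_iUnion]
          exact ⟨j, z, hz, rfl⟩
        refine ⟨hfin.toFinset, fun z hz => ?_⟩
        rw [hZ, hZr] at hz
        obtain ⟨j, hj⟩ := hz u0 (hE.refl u0) hS00
        exact ⟨(j, z j), hfin.mem_toFinset.2 hj, rfl⟩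
      obtain ⟨n, ⟨H, hH, hHn⟩, hmin⟩ : ∃ n, (∃ H, IsCover Z H ∧ H.card = n) ∧
          ∀ H, IsCover Z H → n ≤ H.card := by
        have hex : ∃ n, ∃ H, IsCover Z H ∧ H.card = n := by
          obtain ⟨H, hH⟩ := hcov0
          exact ⟨_, H, hH, rfl⟩
        exact ⟨Nat.find hex, Nat.find_spec hex, fun H hH => Nat.find_min' hex ⟨H, hH, rfl⟩⟩
      obtain ⟨⟨j, f⟩, hp, hcf⟩ := hH c hcZ
      dsimp only at hcf
      apply hnot j
      have hDR : DR (L := L) M (fun f v => Dt {z | Zr z v} n j f) := by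
        refine def_iex (β := Fin 1 ⊕ α) (ι := Fin n → {s // s ∈ T ∧ Third s}) (P := fun a w =>
          ∃ y : Fin n → U, (∀ z, Zr z (fun a => w (Sum.inr a)) → ∃ i, z (a i) = y i) ∧
            ∃ i, a i = j ∧ y i = w (Sum.inl 0)) fun a => ?_
        refine def_ex (β := Fin 1 ⊕ α) (γ := Fin n) (P := fun w =>
          (∀ z, Zr z (fun a => w (Sum.inl (Sum.inr a))) → ∃ i, z (a i) = w (Sum.inr i)) ∧
            ∃ i, a i = j ∧ w (Sum.inr i) = w (Sum.inl (Sum.inl 0))) ?_
        refine def_and ?_ (def_iex fun i => def_and (def_prop _) (def_eq _ _))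
        refine def_all (β := (Fin 1 ⊕ α) ⊕ Fin n) (γ := {s // s ∈ T ∧ Third s}) (P := fun w =>
          Zr (fun j => w (Sum.inr j)) (fun a => w (Sum.inl (Sum.inl (Sum.inr a)))) →
            ∃ i, w (Sum.inr (a i)) = w (Sum.inl (Sum.inr i))) ?_
        refine def_imp ?_ (def_iex fun i => def_eq _ _)
        exact def_re (P := fun w : {s // s ∈ T ∧ Third s} ⊕ α → U =>
          Zr (fun j => w (Sum.inl j)) (fun a => w (Sum.inr a)))
          (Sum.elim Sum.inr (fun a => Sum.inl (Sum.inl (Sum.inr a)))) hZrd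
      refine algE_of E u0 hDR (D := Dj Z n j) (dj_finite hmin j) ⟨H, ⟨hH, hHn⟩, ?_⟩ ?_
      · rw [hcf]
        exact hp
      · intro v hv z
        have e1 : {z | Zr z v} = Z := by
          rw [hZ]
          ext z
          exact hZinv v hv z
        rw [e1]
        exact dt_iff hmin j z
  refine ⟨u1, hu1 _ (Or.inl rfl), ?_, ?_⟩
  · intro p m hm φ
    constructor
    · intro h
      by_contra h0
      have h1 : u1 ∈ {v : α → U | ¬ φ.Realize (Sum.elim v m)} :=
        hu1 _ (Or.inr (Or.inl ⟨def_not (form_def m hm φ), h0⟩))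
      exact h1 h
    · intro h
      have h1 : u1 ∈ {v : α → U | φ.Realize (Sum.elim v m)} :=
        hu1 _ (Or.inr (Or.inl ⟨form_def m hm φ, h⟩))
      exact h1
  · intro x hx hacl
    by_contra hnot
    obtain ⟨R, hR, hRx, hfin⟩ := rel_of_acl hacl
    obtain ⟨K, hK⟩ := small_of_finite (S := fun z => R z u1) hfin
    have h1 : u1 ∈ {u | ¬ Y R K x u} := hu1 _ (Or.inr (Or.inr (by
      rw [hThird]
      exact ⟨x, R, K, hx, hnot, hR, rfl⟩)))
    exact h1 ⟨hRx, hK⟩

end J_neumann

variable {L : FirstOrder.Language.{0, 0}} {U : Type} [L.Structure U]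

theorem neumann [Countable (Σ n, L.Functions n)] [Countable (Σ n, L.Relations n)]
    {κ : Cardinal.{0}} (hsat : IsSaturated L κ U) (hκ : ℵ₀ < κ) {M : Set U} (hM : #M < κ)
    {α : Type} [Finite α] (E : L.Formula (α ⊕ α))
    (hE : Equivalence fun u v : α → U => E.Realize (Sum.elim u v)) (u0 : α → U) {X : Set U}
    (hX : #X < κ) : ∃ u1 : α → U, E.Realize (Sum.elim u0 u1) ∧ ST L M u1 u0 ∧
      ∀ x ∈ X, x ∈ acl L (M ∪ Set.range u1) → AlgE L M E u0 x :=
  J_neumann.main hsat hκ hM E hE u0 hX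

end H968G
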