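import Pool.Agent.helper968_onebased.Acl
import Pool.Agent.helper968_onebased.Neumann

/-!
Real representatives of imaginary Morley sequences (by helper398).
-/

namespace H968G

open FirstOrder FirstOrder.Language SKF Cardinal OBF

variable {L : FirstOrder.Language.{0, 0}} {U : Type} [L.Structure U]


/-! ### auxiliary lemmas (helper398) -/

namespace R398

open Set

/-- definability in Mathlib's sense, with a finite tuple of parameters -/
theorem def_iff {A : Set U} {α : Type} {s : Set (α → U)} :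
    A.Definable L s ↔ ∃ (p : ℕ) (m : Fin p → U) (φ : L.Formula (α ⊕ Fin p)), (∀ i, m i ∈ A) ∧
      ∀ u, (φ.Realize (Sum.elim u m) ↔ u ∈ s) := by
  classical
  constructor
  · intro h
    obtain ⟨A0, hA0, h2⟩ := Set.definable_iff_finitely_definable.mp h
    obtain ⟨φ, hφ⟩ := Set.definable_iff_exists_formula_sum.mp h2
    refine ⟨A0.card, fun i => (A0.equivFin.symm i : U),
      φ.relabel (Sum.elim (fun a : ((A0 : Set U) : Type) =>
        Sum.inr (A0.equivFin ⟨a.1, Finset.mem_coe.mp a.2⟩)) Sum.inl),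
      fun i => hA0 (A0.equivFin.symm i).2, fun u => ?_⟩
    rw [Formula.realize_relabel, hφ]
    have e : (Sum.elim u fun i => (A0.equivFin.symm i : U)) ∘
        (Sum.elim (fun a : ((A0 : Set U) : Type) =>
          Sum.inr (A0.equivFin ⟨a.1, Finset.mem_coe.mp a.2⟩)) Sum.inl :
          ((A0 : Set U) : Type) ⊕ α → α ⊕ Fin A0.card) =
        Sum.elim (fun a : ((A0 : Set U) : Type) => (a : U)) u := by
      funext a
      rcases a with a | a
      · simp
      · rfl
    rw [e]
    exact Iff.rfl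
  · rintro ⟨p, m, φ, hm, h⟩
    rw [Set.definable_iff_exists_formula_sum]
    refine ⟨φ.relabel (Sum.elim Sum.inr fun i => Sum.inl ⟨m i, hm i⟩), ?_⟩
    ext u
    rw [← h, Set.mem_ofPred_eq, Formula.realize_relabel]
    have e : (Sum.elim (fun a : A => (a : U)) u) ∘
        (Sum.elim Sum.inr fun i => Sum.inl ⟨m i, hm i⟩ : α ⊕ Fin p → A ⊕ α) = Sum.elim u m := by
      funext a
      rcases a with a | a <;> rfl
    rw [e]

theorem def_of {A : Set U} {α : Type} {p : ℕ} (m : Fin p → U) (hm : ∀ i, m i ∈ A)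
    (φ : L.Formula (α ⊕ Fin p)) : A.Definable L {u : α → U | φ.Realize (Sum.elim u m)} :=
  def_iff.mpr ⟨p, m, φ, hm, fun _ => Iff.rfl⟩

theorem def_of' {A : Set U} {α : Type} (φ : L.Formula α) :
    A.Definable L {u : α → U | φ.Realize u} := by
  rw [Set.definable_iff_exists_formula_sum]
  refine ⟨φ.relabel Sum.inr, ?_⟩
  ext u
  rw [Set.mem_ofPred_eq, Set.mem_ofPred_eq, Formula.realize_relabel, Sum.elim_comp_inr]

/-- substituting parameters -/
theorem def_inst {A X : Set U} (hAX : A ⊆ X) {α β : Type} {s : Set (α ⊕ β → U)}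
    (h : A.Definable L s) (ρ : β → U) (hρ : ∀ b, ρ b ∈ X) :
    X.Definable L {u : α → U | Sum.elim u ρ ∈ s} := by
  obtain ⟨φ, hφ⟩ := Set.definable_iff_exists_formula_sum.mp h
  rw [Set.definable_iff_exists_formula_sum]
  refine ⟨φ.relabel (Sum.elim (fun a : A => Sum.inl (⟨a.1, hAX a.2⟩ : X))
    (Sum.elim Sum.inr fun b => Sum.inl (⟨ρ b, hρ b⟩ : X))), ?_⟩
  ext u
  rw [Set.mem_ofPred_eq, Set.mem_ofPred_eq, Formula.realize_relabel, hφ, Set.mem_ofPred_eq]
  have e : (Sum.elim (fun a : X => (a : U)) u) ∘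
    (Sum.elim (fun a : A => Sum.inl (⟨a.1, hAX a.2⟩ : X))
    (Sum.elim Sum.inr fun b => Sum.inl (⟨ρ b, hρ b⟩ : X)) : A ⊕ (α ⊕ β) → X ⊕ α) =
      Sum.elim (fun a : A => (a : U)) (Sum.elim u ρ) := by
    funext a
    rcases a with a | a | a <;> rfl
  rw [e]

theorem mem_acl_iff {X : Set U} {x : U} : x ∈ acl L X ↔
    ∃ D : Set U, D.Finite ∧ x ∈ D ∧ X.Definable L {w : Fin 1 → U | w 0 ∈ D} := by
  constructor
  · rintro ⟨p, c, φ, hc, hx, hfin⟩
    refine ⟨_, hfin, hx, ?_⟩
    have h := def_of c hc φ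
    have e : {w : Fin 1 → U | w 0 ∈ {y | φ.Realize (Sum.elim (fun _ => y) c)}} =
        {w : Fin 1 → U | φ.Realize (Sum.elim w c)} := by
      ext w
      have hw : (fun _ : Fin 1 => w 0) = w := by
        funext a
        rw [Subsingleton.elim a 0]
      change φ.Realize (Sum.elim (fun _ : Fin 1 => w 0) c) ↔ φ.Realize (Sum.elim w c)
      rw [hw]
    rw [e]
    exact h
  · rintro ⟨D, hfin, hx, hD⟩
    obtain ⟨p, m, φ, hm, h⟩ := def_iff.mp hD
    refine ⟨p, m, φ, hm, (h _).mpr hx, ?_⟩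
    refine hfin.subset ?_
    intro y hy
    exact (h _).mp hy

/-! #### the sorts -/

/-- the formula expressing that two tuples of representatives have the same classes -/
noncomputable def Erel {l : ℕ} (t : Fin l → Srt L U) : L.Formula (Vars t ⊕ Vars t) :=
  Formula.iInf fun i : Fin l =>
    (t i).rel.relabel (Sum.map (fun j => (⟨i, j⟩ : Vars t)) (fun j => (⟨i, j⟩ : Vars t)))

theorem cls_eq_iff (S : Srt L U) (a b : Fin S.len → U) :
    S.cls a = S.cls b ↔ S.rel.Realize (Sum.elim a b) :=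
  Quotient.eq (r := (⟨fun a b : Fin S.len → U => S.rel.Realize (Sum.elim a b), S.equiv⟩ :
    Setoid (Fin S.len → U)))

theorem exists_cls (S : Srt L U) (e : S.El) : ∃ a, S.cls a = e := by
  obtain ⟨a, ha⟩ := Quotient.exists_rep e
  exact ⟨a, ha⟩

theorem realize_Erel {l : ℕ} (t : Fin l → Srt L U) (u v : Vars t → U) :
    (Erel t).Realize (Sum.elim u v) ↔ clsT t u = clsT t v := by
  unfold Erel
  rw [Formula.realize_iInf]
  have h0 : clsT t u = clsT t v ↔ ∀ i, clsT t u i = clsT t v i :=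
    ⟨fun h i => congrFun h i, fun h => funext h⟩
  rw [h0]
  apply forall_congr'
  intro i
  rw [Formula.realize_relabel]
  unfold clsT
  rw [cls_eq_iff]
  have e : Sum.elim u v ∘ Sum.map (fun j => (⟨i, j⟩ : Vars t)) (fun j => (⟨i, j⟩ : Vars t)) =
      Sum.elim (fun j => u ⟨i, j⟩) fun j => v ⟨i, j⟩ := by
    funext a
    rcases a with a | a <;> rfl
  rw [e]

theorem exists_clsT {l : ℕ} (t : Fin l → Srt L U) (e : Tup t) : ∃ u, clsT t u = e := by
  choose a ha using fun i => exists_cls (t i) (e i)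
  exact ⟨fun v => a v.1 v.2, funext fun i => ha i⟩

theorem def_Erel {l : ℕ} (t : Fin l → Srt L U) (A : Set U) :
    A.Definable L {w : Vars t ⊕ Vars t → U | clsT t (w ∘ Sum.inl) = clsT t (w ∘ Sum.inr)} := by
  have h := def_of' (A := A) (Erel t)
  have e : {w : Vars t ⊕ Vars t → U | clsT t (w ∘ Sum.inl) = clsT t (w ∘ Sum.inr)} =
      {w | (Erel t).Realize w} := by
    ext w
    rw [Set.mem_ofPred_eq, Set.mem_ofPred_eq, ← realize_Erel, Sum.elim_comp_inl_inr]
  rw [e]
  exact h

/-- the real sort -/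
def R1 (L : FirstOrder.Language.{0, 0}) (U : Type) [L.Structure U] : Srt L U where
  len := 1
  rel := Term.equal (Term.var (Sum.inl 0)) (Term.var (Sum.inr 0))
  equiv := by
    constructor
    · intro a
      rw [Formula.realize_equal]
      rfl
    · intro a b h
      rw [Formula.realize_equal] at h ⊢
      exact h.symm
    · intro a b c h h'
      rw [Formula.realize_equal] at h h' ⊢
      exact h.trans h'

theorem R1_inj {a b : Fin 1 → U} (h : (R1 L U).cls a = (R1 L U).cls b) : a 0 = b 0 := by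
  have h2 := (cls_eq_iff (R1 L U) a b).mp h
  change Formula.Realize (Term.equal (Term.var (Sum.inl 0)) (Term.var (Sum.inr 0))) _ at h2
  rw [Formula.realize_equal] at h2
  exact h2

theorem Definable.mono' {k : ℕ} {s : Fin k → Srt L U} {D : Set (Tup s)} {C C' : Set (Imag L U)}
    (h : Definable C s D) (hC : C ⊆ C') : Definable C' s D := by
  obtain ⟨l, c, φ, hc, h⟩ := h
  exact ⟨l, c, φ, fun j => hC (hc j), h⟩

theorem definable_of_index {k : ℕ} {s : Fin k → Srt L U} {D : Set (Tup s)} {C : Set (Imag L U)}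
    {J : Type} [Finite J] (c : J → Imag L U) (hc : ∀ j, c j ∈ C)
    (φ : L.Formula (Vars s ⊕ (Σ j, Fin (c j).1.len)))
    (h : ∀ (x : Vars s → U) (y : (Σ j, Fin (c j).1.len) → U),
      (∀ j, (c j).1.cls (fun v => y ⟨j, v⟩) = (c j).2) →
      (φ.Realize (Sum.elim x y) ↔ clsT s x ∈ D)) : Definable C s D := by
  obtain ⟨n, ⟨e⟩⟩ := Finite.exists_equiv_fin J
  let σ : (Σ i : Fin n, Fin (c (e.symm i)).1.len) ≃ Σ j : J, Fin (c j).1.len :=
    Equiv.sigmaCongrLeft (β := fun j => Fin (c j).1.len) e.symm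
  refine ⟨n, fun i => c (e.symm i), φ.relabel (Sum.map id σ.symm), fun j => hc _, ?_⟩
  intro x y hy
  rw [Formula.realize_relabel]
  have e1 : Sum.elim x y ∘ Sum.map id σ.symm = Sum.elim x (y ∘ σ.symm) := by
    funext a
    rcases a with a | a <;> rfl
  rw [e1]
  apply h
  intro j
  obtain ⟨i, rfl⟩ := e.symm.surjective j
  have hi := congrFun hy i
  change (c (e.symm i)).1.cls (fun v => y ⟨i, v⟩) = (c (e.symm i)).2 at hi
  rw [← hi]
  congr 1
  funext v
  have : σ.symm ⟨e.symm i, v⟩ = ⟨i, v⟩ := by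
    rw [Equiv.symm_apply_eq]
    rfl
  change y (σ.symm ⟨e.symm i, v⟩) = _
  rw [this]

theorem definable_of_def {A : Set U} {l : ℕ} {t : Fin l → Srt L U} (c : ℕ → Tup t) (i : ℕ)
    {P : Set (Tup t)} {S : Set ((Vars t ⊕ (Fin i × Vars t)) → U)} (hS : A.Definable L S)
    (h : ∀ (x : Vars t → U) (y : Fin i → Vars t → U), (∀ j : Fin i, clsT t (y j) = c j) →
      (Sum.elim x (fun q => y q.1 q.2) ∈ S ↔ clsT t x ∈ P)) :
    Definable (eqOf L A ∪ {e | ∃ j < i, ∃ m, e = ⟨t m, c j m⟩}) t P := by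
  obtain ⟨p, m, φ, hm, hφ⟩ := def_iff.mp hS
  let c' : (Fin i × Fin l) ⊕ Fin p → Imag L U :=
    Sum.elim (fun q => ⟨t q.2, c q.1 q.2⟩) fun b => ⟨R1 L U, (R1 L U).cls fun _ => m b⟩
  let ρ : (Vars t ⊕ (Fin i × Vars t)) ⊕ Fin p → Vars t ⊕ (Σ j, Fin (c' j).1.len) :=
    Sum.elim (Sum.elim Sum.inl fun q => Sum.inr ⟨Sum.inl (q.1, q.2.1), q.2.2⟩)
      fun b => Sum.inr ⟨Sum.inr b, (0 : Fin 1)⟩
  refine definable_of_index c' ?_ (φ.relabel ρ) ?_
  · rintro (⟨j, a⟩ | b)
    · right
      exact ⟨j, j.2, a, rfl⟩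
    · left
      exact ⟨fun _ => m b, fun _ => hm b, rfl⟩
  · intro x y hy
    rw [Formula.realize_relabel]
    have e1 : Sum.elim x y ∘ ρ =
        Sum.elim (Sum.elim x fun q : Fin i × Vars t =>
          (fun (j : Fin i) (v : Vars t) => y ⟨Sum.inl (j, v.1), v.2⟩) q.1 q.2) m := by
      funext a
      rcases a with (a | a) | b
      · rfl
      · rfl
      · have h1 := hy (Sum.inr b)
        exact R1_inj h1
    rw [e1, hφ]
    refine h x (fun j v => y ⟨Sum.inl (j, v.1), v.2⟩) ?_
    intro j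
    funext a
    exact hy (Sum.inl (j, a))

theorem definable_of_def0 {A : Set U} {l : ℕ} {t : Fin l → Srt L U}
    {P : Set (Tup t)} {S : Set (Vars t → U)} (hS : A.Definable L S)
    (h : ∀ x : Vars t → U, (x ∈ S ↔ clsT t x ∈ P)) : Definable (eqOf L A) t P := by
  classical
  obtain ⟨p, m, φ, hm, hφ⟩ := def_iff.mp hS
  let c' : Fin p → Imag L U := fun b => ⟨R1 L U, (R1 L U).cls fun _ => m b⟩
  let ρ : Vars t ⊕ Fin p → Vars t ⊕ (Σ j, Fin (c' j).1.len) :=
    Sum.elim Sum.inl fun b => Sum.inr ⟨b, (0 : Fin 1)⟩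
  refine definable_of_index c' ?_ (φ.relabel ρ) ?_
  · intro b
    exact ⟨fun _ => m b, fun _ => hm b, rfl⟩
  · intro x y hy
    rw [Formula.realize_relabel]
    have e1 : Sum.elim x y ∘ ρ = Sum.elim x m := by
      funext a
      rcases a with a | b
      · rfl
      · have h1 := hy b
        exact R1_inj h1
    rw [e1, hφ]
    exact h x

/-! #### complete types as ultrafilters -/

theorem q_mono {l : ℕ} {t : Fin l → Srt L U} {C : Set (Imag L U)} {q : Set (Set (Tup t))}
    (hq : IsTypeEq C t q) {D D' : Set (Tup t)} (hD : D ∈ q) (hDD : D ⊆ D')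
    (hD' : Definable C t D') : D' ∈ q := by
  rcases hq.complete D' hD' with h | h
  · exact h
  · exfalso
    obtain ⟨x, hx⟩ := hq.finSat {D, D'ᶜ} (Set.toFinite _) (by
      rintro X (rfl | rfl)
      · exact hD
      · exact h)
    have h1 := hx D (Or.inl rfl)
    have h2 := hx D'ᶜ (Or.inr rfl)
    exact h2 (hDD h1)

theorem q_union {l : ℕ} {t : Fin l → Srt L U} {C : Set (Imag L U)} {q : Set (Set (Tup t))}
    (hq : IsTypeEq C t q) {D : Set (Tup t)} (hD : D ∈ q) {ι : Type} {H : Set ι} (hH : H.Finite)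
    (P : ι → Set (Tup t)) (hP : ∀ h, Definable C t (P h)) (hDP : D ⊆ ⋃ h ∈ H, P h) :
    ∃ h ∈ H, P h ∈ q := by
  by_contra hcon
  push Not at hcon
  obtain ⟨x, hx⟩ := hq.finSat (insert D ((fun h => (P h)ᶜ) '' H)) ((hH.image _).insert _) (by
    rintro X (rfl | ⟨h, hh, rfl⟩)
    · exact hD
    · exact (hq.complete _ (hP h)).resolve_left (hcon h hh))
  have h1 := hDP (hx D (Or.inl rfl))
  rw [Set.mem_iUnion₂] at h1
  obtain ⟨h, hh, h2⟩ := h1
  exact hx ((P h)ᶜ) (Or.inr ⟨h, hh, rfl⟩) h2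

/-! #### saturation -/

theorem def_holds {M : Set U} {n : ℕ} (ψ : Fml L n U) (hψ : ψ.Over M) :
    M.Definable L {a : Fin n → U | ψ.Holds a} := def_of ψ.par hψ ψ.form

theorem def_forall_holds {M : Set U} {n : ℕ} {ι : Type} {s : Set ι} (hs : s.Finite)
    (χ : ι → Fml L n U) (hχ : ∀ i ∈ s, (χ i).Over M) :
    M.Definable L {a : Fin n → U | ∀ i ∈ s, (χ i).Holds a} := by
  have : Finite s := hs.to_subtype
  have e : {a : Fin n → U | ∀ i ∈ s, (χ i).Holds a} =
      ⋂ i : s, {a : Fin n → U | (χ i).Holds a} := by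
    ext a
    rw [Set.mem_iInter]
    exact ⟨fun h i => h i i.2, fun h i hi => h ⟨i, hi⟩⟩
  rw [e]
  exact Set.definable_iInter_of_finite fun i => def_holds (χ i) (hχ i i.2)

/-- the trivial formula -/
def topF (L : FirstOrder.Language.{0, 0}) (n : ℕ) (U : Type) : Fml L n U :=
  ⟨0, ⊤, fun i => i.elim0⟩

theorem exists_conj {κ : Cardinal.{0}} (hsat : IsSaturated L κ U) {M : Set U} (hM : #M < κ)
    (h : U) (hh : h ∉ acl L M) (K : ℕ) :
    ∃ z : Fin K → U, Function.Injective z ∧ ∀ a, ST L M (fun _ : Fin 1 => z a) (fun _ => h) := by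
  classical
  obtain ⟨a, ha⟩ := hsat M hM K {ψ | ψ.Over M ∧ ∃ χ : Fml L 1 U, χ.Over M ∧ χ.Holds (fun _ => h) ∧
    ∀ a : Fin K → U, Function.Injective a → (∀ i, χ.Holds fun _ => a i) → ψ.Holds a}
    (fun ψ hψ => hψ.1) (by
      intro s hs hsp
      have hex : ∀ ψ : Fml L K U, ∃ χ : Fml L 1 U, ψ ∈ s → χ.Over M ∧ χ.Holds (fun _ => h) ∧
          ∀ a : Fin K → U, Function.Injective a → (∀ i, χ.Holds fun _ => a i) → ψ.Holds a := by
        intro ψ
        by_cases hψ : ψ ∈ s
        · obtain ⟨-, χ, h1⟩ := hsp hψ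
          exact ⟨χ, fun _ => h1⟩
        · exact ⟨topF L 1 U, fun h => absurd h hψ⟩
      choose χ hχ using hex
      have hV := def_forall_holds hs χ fun ψ hψ => (hχ ψ hψ).1
      have hinf : {x : U | ∀ ψ ∈ s, (χ ψ).Holds fun _ => x}.Infinite := by
        intro hfin
        apply hh
        rw [mem_acl_iff]
        refine ⟨_, hfin, fun ψ hψ => (hχ ψ hψ).2.1, ?_⟩
        have e : {w : Fin 1 → U | w 0 ∈ {x : U | ∀ ψ ∈ s, (χ ψ).Holds fun _ => x}} =
            {a : Fin 1 → U | ∀ ψ ∈ s, (χ ψ).Holds a} := by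
          ext w
          have hw : (fun _ : Fin 1 => w 0) = w := by
            funext a
            rw [Subsingleton.elim a 0]
          change (∀ ψ ∈ s, (χ ψ).Holds fun _ : Fin 1 => w 0) ↔ ∀ ψ ∈ s, (χ ψ).Holds w
          rw [hw]
        rw [e]
        exact hV
      let f := hinf.natEmbedding
      refine ⟨fun i => (f i.val).1, fun ψ hψ => ?_⟩
      refine (hχ ψ hψ).2.2 _ ?_ fun i => (f i.val).2 ψ hψ
      intro i j hij
      exact Fin.ext (f.injective (Subtype.ext hij)))
  refine ⟨a, ?_, ?_⟩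
  · intro i j hij
    by_contra hne
    have h1 := ha ⟨0, (Term.equal (Term.var (Sum.inl i)) (Term.var (Sum.inl j))).not,
      fun i => i.elim0⟩ ⟨fun i => i.elim0, topF L 1 U, fun i => i.elim0, by
        unfold topF Fml.Holds
        exact Formula.realize_top.mpr trivial, by
        intro a ha _
        unfold Fml.Holds
        rw [Formula.realize_not, Formula.realize_equal]
        exact fun h => hne (ha h)⟩
    unfold Fml.Holds at h1
    rw [Formula.realize_not, Formula.realize_equal] at h1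
    exact h1 hij
  · intro i p m hm
    have key : ∀ φ : L.Formula (Fin 1 ⊕ Fin p), φ.Realize (Sum.elim (fun _ => h) m) →
        φ.Realize (Sum.elim (fun _ => a i) m) := by
      intro φ hφ
      have hre : ∀ b : Fin K → U, (φ.relabel (Sum.map (fun _ : Fin 1 => i) id)).Realize
          (Sum.elim b m) ↔ φ.Realize (Sum.elim (fun _ => b i) m) := by
        intro b
        rw [Formula.realize_relabel]
        have e : Sum.elim b m ∘ Sum.map (fun _ : Fin 1 => i) id = Sum.elim (fun _ => b i) m := by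
          funext x
          rcases x with x | x <;> rfl
        rw [e]
      have h1 := ha ⟨p, φ.relabel (Sum.map (fun _ : Fin 1 => i) id), m⟩
        ⟨hm, ⟨p, φ, m⟩, hm, hφ, fun b _ hb => (hre b).mpr (hb i)⟩
      exact (hre a).mp h1
    intro φ
    constructor
    · intro h1
      by_contra h2
      have h3 := key φ.not (by rw [Formula.realize_not]; exact h2)
      rw [Formula.realize_not] at h3
      exact h3 h1
    · exact key φ

/-! #### the invariance argument -/

section inv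

variable {l : ℕ} {t : Fin l → Srt L U}

/-- the set of elements satisfying `θ` for all representatives -/
def G (t : Fin l → Srt L U) {p : ℕ} (m : Fin p → U) (θ : L.Formula ((Fin 1 ⊕ Vars t) ⊕ Fin p))
    (e : Tup t) : Set U :=
  {z | ∀ v : Vars t → U, clsT t v = e → θ.Realize (Sum.elim (Sum.elim (fun _ => z) v) m)}

theorem def_G {A : Set U} {p : ℕ} (m : Fin p → U) (hm : ∀ i, m i ∈ A)
    (θ : L.Formula ((Fin 1 ⊕ Vars t) ⊕ Fin p)) :
    A.Definable L {w : Fin 1 ⊕ Vars t → U |
      w (Sum.inl 0) ∈ G t m θ (clsT t (w ∘ Sum.inr))} := by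
  let f : Vars t ⊕ Vars t → (Fin 1 ⊕ Vars t) ⊕ Vars t := Sum.elim Sum.inr (Sum.inl ∘ Sum.inr)
  let g : Fin 1 ⊕ Vars t → (Fin 1 ⊕ Vars t) ⊕ Vars t :=
    Sum.elim (fun _ => Sum.inl (Sum.inl 0)) Sum.inr
  have h1 := (def_Erel t A).preimage_comp f
  have h2 := (def_of m hm θ).preimage_comp g
  have h3 := (h1.compl.union h2).forall_of_finite
  have e : {w : Fin 1 ⊕ Vars t → U | w (Sum.inl 0) ∈ G t m θ (clsT t (w ∘ Sum.inr))} =
      {v | ∀ u : Vars t → U, Sum.elim v u ∈
        ((fun g : (Fin 1 ⊕ Vars t) ⊕ Vars t → U => g ∘ f) ⁻¹'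
          {w : Vars t ⊕ Vars t → U | clsT t (w ∘ Sum.inl) = clsT t (w ∘ Sum.inr)})ᶜ ∪
        (fun k : (Fin 1 ⊕ Vars t) ⊕ Vars t → U => k ∘ g) ⁻¹'
          {u | θ.Realize (Sum.elim u m)}} := by
    ext w
    change (∀ v : Vars t → U, clsT t v = clsT t (w ∘ Sum.inr) →
      θ.Realize (Sum.elim (Sum.elim (fun _ => w (Sum.inl 0)) v) m)) ↔
      ∀ u : Vars t → U, (¬ clsT t ((Sum.elim w u ∘ f) ∘ Sum.inl) =
        clsT t ((Sum.elim w u ∘ f) ∘ Sum.inr)) ∨ θ.Realize (Sum.elim (Sum.elim w u ∘ g) m)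
    apply forall_congr'
    intro v
    have e1 : (Sum.elim w v ∘ f) ∘ Sum.inl = v := by
      funext x
      rfl
    have e2 : (Sum.elim w v ∘ f) ∘ Sum.inr = w ∘ Sum.inr := by
      funext x
      rfl
    have e3 : Sum.elim w v ∘ g = Sum.elim (fun _ => w (Sum.inl 0)) v := by
      funext x
      rcases x with x | x <;> rfl
    rw [e1, e2, e3, imp_iff_not_or]
  rw [e]
  exact h3

/-- a set with at most `K` elements -/
def Small (K : ℕ) (X : Set U) : Prop :=
  ¬ ∃ z : Fin (K + 1) → U, Function.Injective z ∧ ∀ a, z a ∈ X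

theorem def_ne {A : Set U} {α : Type} (a b : α) : A.Definable L {w : α → U | w a ≠ w b} := by
  have h := def_of' (L := L) (A := A) (Term.equal (Term.var a) (Term.var b)).not
  have e : {w : α → U | w a ≠ w b} =
      {u | (Term.equal (Term.var a) (Term.var b) : L.Formula α).not.Realize u} := by
    ext w
    change ¬ (w a = w b) ↔ _
    rw [Set.mem_ofPred_eq, Formula.realize_not, Formula.realize_equal]
    exact Iff.rfl
  rw [e]
  exact h

theorem def_inj {A : Set U} {α β : Type} [Finite β] (f : β → α) :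
    A.Definable L {w : α → U | Function.Injective (w ∘ f)} := by
  have h := Set.definable_iInter_of_finite (L := L) (A := A)
    (ι := {ab : β × β // ab.1 ≠ ab.2}) (f := fun ab => {w : α → U | w (f ab.1.1) ≠ w (f ab.1.2)})
    fun ab => def_ne _ _
  have e : {w : α → U | Function.Injective (w ∘ f)} =
      ⋂ ab : {ab : β × β // ab.1 ≠ ab.2}, {w : α → U | w (f ab.1.1) ≠ w (f ab.1.2)} := by
    ext w
    rw [Set.mem_iInter]
    constructor
    · intro hw ab hab
      exact ab.2 (hw hab)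
    · intro hw a b hab
      by_contra hne
      exact hw ⟨(a, b), hne⟩ hab
  rw [e]
  exact h

theorem def_Small {A : Set U} {p : ℕ} (m : Fin p → U) (hm : ∀ i, m i ∈ A)
    (θ : L.Formula ((Fin 1 ⊕ Vars t) ⊕ Fin p)) (K : ℕ) :
    A.Definable L {w : Vars t → U | Small K (G t m θ (clsT t w))} := by
  let g : Fin (K + 1) → Fin 1 ⊕ Vars t → Vars t ⊕ Fin (K + 1) := fun a =>
    Sum.elim (fun _ => Sum.inr a) Sum.inl
  have h1 := def_inj (L := L) (A := A) (Sum.inr : Fin (K + 1) → Vars t ⊕ Fin (K + 1))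
  have h2 := Set.definable_iInter_of_finite fun a : Fin (K + 1) =>
    (def_G m hm θ).preimage_comp (g a)
  have h3 := (h1.inter h2).exists_of_finite.compl
  have e : {w : Vars t → U | Small K (G t m θ (clsT t w))} =
      {v | ∃ u : Fin (K + 1) → U, Sum.elim v u ∈
        {w : Vars t ⊕ Fin (K + 1) → U | Function.Injective (w ∘ Sum.inr)} ∩
        ⋂ a : Fin (K + 1), (fun k : Vars t ⊕ Fin (K + 1) → U => k ∘ g a) ⁻¹'
          {w : Fin 1 ⊕ Vars t → U | w (Sum.inl 0) ∈ G t m θ (clsT t (w ∘ Sum.inr))}}ᶜ := by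
    ext w
    change (¬ ∃ z : Fin (K + 1) → U, Function.Injective z ∧ ∀ a, z a ∈ G t m θ (clsT t w)) ↔
      ¬ ∃ u : Fin (K + 1) → U, Sum.elim w u ∈ _
    apply not_congr
    apply exists_congr
    intro z
    rw [Set.mem_inter_iff, Set.mem_iInter]
    apply and_congr
    · change _ ↔ Function.Injective (Sum.elim w z ∘ Sum.inr)
      rw [Sum.elim_comp_inr]
    · apply forall_congr'
      intro a
      exact Iff.rfl
  rw [e]
  exact h3

theorem ST_append {M : Set U} {h h' : U} (hST : ST L M (fun _ : Fin 1 => h) (fun _ => h'))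
    {p : ℕ} {m : Fin p → U} (hm : ∀ i, m i ∈ M) :
    SameType L M (Fin.append (fun _ : Fin 1 => h) m) (Fin.append (fun _ : Fin 1 => h') m) := by
  rintro ⟨len, form, par⟩ hψ
  change form.Realize _ ↔ form.Realize _
  let σ : Fin (1 + p) ⊕ Fin len → Fin 1 ⊕ Fin (p + len) :=
    Sum.elim (Fin.addCases (fun a => Sum.inl a) fun b => Sum.inr (Fin.castAdd len b))
      fun b => Sum.inr (Fin.natAdd p b)
  have h1 := hST (p + len) (Fin.append m par) (by
    intro i
    refine Fin.addCases (fun a => ?_) (fun b => ?_) i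
    · rw [Fin.append_left]
      exact hm a
    · rw [Fin.append_right]
      exact hψ b) (form.relabel σ)
  rw [Formula.realize_relabel, Formula.realize_relabel] at h1
  have e : ∀ x : U, Sum.elim (fun _ : Fin 1 => x) (Fin.append m par) ∘ σ =
      Sum.elim (Fin.append (fun _ : Fin 1 => x) m) par := by
    intro x
    funext i
    rcases i with i | i
    · refine Fin.addCases (fun a => ?_) (fun b => ?_) i
      · simp [σ]
      · simp [σ]
    · simp [σ]
  rw [e, e] at h1
  exact h1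

theorem invariance {κ : Cardinal.{0}} (hsat : IsSaturated L κ U) {M : Set U} (hM : #M < κ)
    (hacl : acl L M ⊆ M) {q : Set (Set (Tup t))} (hq : IsInvEq M t q) (c : ℕ → Tup t)
    (hc : IsMorleyEq M t q c) (i : ℕ) (x : U) (ρ : Vars t → U) (hρ : clsT t ρ = c i)
    (h1 : AlgE L M (Erel t) ρ x) (H : Set U) (hH : H.Finite) (hxH : x ∈ H)
    (S : Set ((Fin 1 ⊕ (Fin i × Vars t)) → U)) (hS : M.Definable L S)
    (h2 : ∀ z (y : Fin i → Vars t → U), (∀ j : Fin i, clsT t (y j) = c j) →
      ((Sum.elim (fun _ => z) (fun q => y q.1 q.2) : Fin 1 ⊕ (Fin i × Vars t) → U) ∈ S ↔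
        z ∈ H)) : x ∈ M := by
  classical
  by_contra hx
  obtain ⟨p, m, θ, D, hm, hD, hxD, hθ⟩ := h1
  have hG : G t m θ (c i) = D := by
    ext z
    constructor
    · intro hz
      exact (hθ ρ ((realize_Erel t ρ ρ).mpr rfl) z).mp (hz ρ hρ)
    · intro hz v hv
      exact (hθ v ((realize_Erel t ρ v).mpr (hρ.trans hv.symm)) z).mpr hz
  have hsmall : Small D.ncard (G t m θ (c i)) := by
    rw [hG]
    rintro ⟨z, hz, hzD⟩
    have h3 : (z '' Set.univ).ncard ≤ D.ncard := Set.ncard_le_ncard (by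
      rintro _ ⟨a, _, rfl⟩
      exact hzD a) hD
    rw [Set.ncard_image_of_injective _ hz, Set.ncard_univ, Nat.card_eq_fintype_card,
      Fintype.card_fin] at h3
    omega
  generalize D.ncard = K at hsmall
  let P : Set (Tup t) := {e | Small K (G t m θ e) ∧ ∃ z ∈ H \ M, z ∈ G t m θ e}
  let PH : U → Set (Tup t) := fun h => {e | Small K (G t m θ e) ∧ h ∈ G t m θ e}
  -- definability of `P`
  let S1 : Set ((Vars t ⊕ (Fin i × Vars t)) ⊕ Fin 1 → U) :=
    {w | w (Sum.inr 0) ∈ G t m θ (clsT t (w ∘ Sum.inl ∘ Sum.inl)) ∧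
      (Sum.elim (w ∘ Sum.inr) (w ∘ Sum.inl ∘ Sum.inr) : Fin 1 ⊕ (Fin i × Vars t) → U) ∈ S ∧
      w (Sum.inr 0) ∉ H ∩ M}
  have hS1 : M.Definable L S1 := by
    have a1 := (def_G m hm θ).preimage_comp (Sum.elim Sum.inr (Sum.inl ∘ Sum.inl) :
      Fin 1 ⊕ Vars t → (Vars t ⊕ (Fin i × Vars t)) ⊕ Fin 1)
    have a2 := hS.preimage_comp (Sum.elim Sum.inr (Sum.inl ∘ Sum.inr) :
      Fin 1 ⊕ (Fin i × Vars t) → (Vars t ⊕ (Fin i × Vars t)) ⊕ Fin 1)
    have a3 : M.Definable L {w : Fin 1 → U | w 0 ∈ H ∩ M} := by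
      have hfin : Finite (H ∩ M : Set U) := (hH.inter_of_left M).to_subtype
      have b1 := Set.definable_iUnion_of_finite fun h : (H ∩ M : Set U) =>
        (Set.Definable.singleton_of_mem L h.2.2 : M.Definable L {x : Fin 1 → U | x 0 ∈ {h.1}})
      have e : {w : Fin 1 → U | w 0 ∈ H ∩ M} =
          ⋃ h : (H ∩ M : Set U), {x : Fin 1 → U | x 0 ∈ ({h.1} : Set U)} := by
        ext w
        rw [Set.mem_iUnion]
        constructor
        · intro hw
          exact ⟨⟨w 0, hw⟩, rfl⟩
        · rintro ⟨h, hw⟩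
          have : w 0 = h.1 := hw
          change w 0 ∈ H ∩ M
          rw [this]
          exact h.2
      rw [e]
      exact b1
    have a4 := a3.compl.preimage_comp
      (Sum.inr : Fin 1 → (Vars t ⊕ (Fin i × Vars t)) ⊕ Fin 1)
    have a5 := a1.inter (a2.inter a4)
    refine (congr rfl (Set.ext fun w => ?_)).mp a5
    have e1 : w ∘ (Sum.elim Sum.inr (Sum.inl ∘ Sum.inr) :
        Fin 1 ⊕ (Fin i × Vars t) → (Vars t ⊕ (Fin i × Vars t)) ⊕ Fin 1) =
        Sum.elim (w ∘ Sum.inr) (w ∘ Sum.inl ∘ Sum.inr) := by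
      funext x
      rcases x with x | x <;> rfl
    change (w (Sum.inr 0) ∈ G t m θ (clsT t (w ∘ Sum.inl ∘ Sum.inl)) ∧
      (w ∘ (Sum.elim Sum.inr (Sum.inl ∘ Sum.inr) :
        Fin 1 ⊕ (Fin i × Vars t) → (Vars t ⊕ (Fin i × Vars t)) ⊕ Fin 1)) ∈ S ∧
      w (Sum.inr 0) ∉ H ∩ M) ↔ _
    rw [e1]
    exact Iff.rfl
  have hS2 := ((def_Small m hm θ K).preimage_comp
    (Sum.inl : Vars t → Vars t ⊕ (Fin i × Vars t))).inter hS1.exists_of_finite
  have hPS : ∀ (x : Vars t → U) (y : Fin i → Vars t → U), (∀ j : Fin i, clsT t (y j) = c j) →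
      ((Sum.elim x (fun q => y q.1 q.2) : Vars t ⊕ (Fin i × Vars t) → U) ∈
        (fun g : Vars t ⊕ (Fin i × Vars t) → U => g ∘ Sum.inl) ⁻¹'
          {w : Vars t → U | Small K (G t m θ (clsT t w))} ∩
        {v | ∃ u : Fin 1 → U, Sum.elim v u ∈ S1} ↔ clsT t x ∈ P) := by
    intro x y hy
    rw [Set.mem_inter_iff]
    apply and_congr
    · change Small K (G t m θ (clsT t (Sum.elim x (fun q : Fin i × Vars t => y q.1 q.2) ∘
        Sum.inl))) ↔ _
      rw [Sum.elim_comp_inl]
    · constructor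
      · rintro ⟨u, h3, h4, h5⟩
        have hu : (Sum.elim (Sum.elim x (fun q : Fin i × Vars t => y q.1 q.2)) u ∘ Sum.inr) =
            fun _ : Fin 1 => u 0 := by
          funext a
          rw [Subsingleton.elim a 0]
          rfl
        have h6 : u 0 ∈ H := (h2 (u 0) y hy).mp (by
          rw [hu] at h4
          exact h4)
        exact ⟨u 0, ⟨h6, fun hM' => h5 ⟨h6, hM'⟩⟩, h3⟩
      · rintro ⟨z, ⟨h3, h4⟩, h5⟩
        refine ⟨fun _ => z, h5, ?_, fun h6 => h4 h6.2⟩
        exact (h2 z y hy).mpr h3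
  have hPdef := definable_of_def c i hS2 hPS
  have hPcdef := definable_of_def (P := Pᶜ) c i hS2.compl fun x y hy => not_congr (hPS x y hy)
  have hPq : P ∈ q := by
    rcases hq.isType.complete P (Definable.mono' hPdef (Set.subset_univ _)) with h3 | h3
    · exact h3
    · exact absurd (show c i ∈ P from ⟨hsmall, x, ⟨hxH, hx⟩, by rw [hG]; exact hxD⟩)
        (hc i _ h3 hPcdef)
  -- definability of `PH h`
  let SG : Set (Vars t ⊕ Fin 1 → U) :=
    {w | Small K (G t m θ (clsT t (w ∘ Sum.inl))) ∧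
      w (Sum.inr 0) ∈ G t m θ (clsT t (w ∘ Sum.inl))}
  have hSG : M.Definable L SG := by
    have a1 := (def_Small m hm θ K).preimage_comp (Sum.inl : Vars t → Vars t ⊕ Fin 1)
    have a2 := (def_G m hm θ).preimage_comp (Sum.elim Sum.inr Sum.inl :
      Fin 1 ⊕ Vars t → Vars t ⊕ Fin 1)
    exact a1.inter a2
  have hPHdef : ∀ h, Definable Set.univ t (PH h) := by
    intro h
    have a1 := def_inst (Set.subset_univ M) hSG (fun _ : Fin 1 => h) fun _ => Set.mem_univ _
    refine Definable.mono' (definable_of_def0 a1 ?_) (Set.subset_univ _)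
    intro x
    change (Small K (G t m θ (clsT t (Sum.elim x (fun _ : Fin 1 => h) ∘ Sum.inl))) ∧
      h ∈ G t m θ (clsT t (Sum.elim x (fun _ : Fin 1 => h) ∘ Sum.inl))) ↔ _
    rw [Sum.elim_comp_inl]
    exact Iff.rfl
  obtain ⟨h, hh, hhq⟩ := q_union hq.isType hPq (hH.subset (Set.sdiff_subset (t := M))) PH hPHdef (by
    rintro e ⟨h3, z, hz, h4⟩
    rw [Set.mem_iUnion₂]
    exact ⟨z, hz, h3, h4⟩)
  obtain ⟨z, hz, hzST⟩ := exists_conj hsat hM h (fun h3 => hh.2 (hacl h3)) (K + 1)
  have hall : ∀ a, PH (z a) ∈ q := by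
    intro a
    obtain ⟨p', m', φ', hm', hφ'⟩ := def_iff.mp hSG
    let σ : (Vars t ⊕ Fin 1) ⊕ Fin p' → Vars t ⊕ Fin (1 + p') :=
      Sum.elim (Sum.elim Sum.inl fun a => Sum.inr (Fin.castAdd p' a))
        fun b => Sum.inr (Fin.natAdd 1 b)
    have hre : ∀ (x : Vars t → U) (h : U), (φ'.relabel σ).Realize
        (Sum.elim x (Fin.append (fun _ : Fin 1 => h) m')) ↔ clsT t x ∈ PH h := by
      intro x h
      rw [Formula.realize_relabel]
      have e : Sum.elim x (Fin.append (fun _ : Fin 1 => h) m') ∘ σ =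
          Sum.elim (Sum.elim x fun _ => h) m' := by
        funext b
        rcases b with (b | b) | b
        · rfl
        · simp [σ]
        · simp [σ]
      rw [e, hφ']
      change (Small K (G t m θ (clsT t (Sum.elim x (fun _ : Fin 1 => h) ∘ Sum.inl))) ∧
        h ∈ G t m θ (clsT t (Sum.elim x (fun _ : Fin 1 => h) ∘ Sum.inl))) ↔ _
      rw [Sum.elim_comp_inl]
      exact Iff.rfl
    exact (hq.invariant (1 + p') (φ'.relabel σ) _ _ (PH (z a)) (PH h)
      (ST_append (hzST a) hm') (fun x => hre x _) (fun x => hre x _)).mpr hhq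
  obtain ⟨e, he⟩ := hq.isType.finSat (Set.range fun a => PH (z a)) (Set.finite_range _) (by
    rintro _ ⟨a, rfl⟩
    exact hall a)
  have he' : ∀ a, e ∈ PH (z a) := fun a => he _ ⟨a, rfl⟩
  exact (he' 0).1 ⟨z, hz, fun a => (he' a).2⟩

/-! #### representatives -/

theorem exists_rep {κ : Cardinal.{0}} (hsat : IsSaturated L κ U) (hκ : ℵ₀ < κ) {M : Set U}
    (hM : #M < κ) {q : Set (Set (Tup t))} (b0 : Vars t → U)
    (hb : ∀ D, Definable (eqOf L M) t D → clsT t b0 ∈ D → D ∈ q) (c : ℕ → Tup t)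
    (hc : IsMorleyEq M t q c) (n : ℕ) :
    ∃ ρ : Vars t → U, clsT t ρ = c n ∧ ST L M ρ b0 := by
  classical
  obtain ⟨ρ, hρ⟩ := exists_clsT t (c n)
  obtain ⟨N, ⟨e⟩⟩ := Finite.exists_equiv_fin (Vars t)
  have hA : #(M ∪ Set.range ρ : Set U) < κ := by
    refine lt_of_le_of_lt (Cardinal.mk_union_le _ _) ?_
    refine Cardinal.add_lt_of_lt hκ.le hM ?_
    refine lt_of_lt_of_le ?_ hκ.le
    rw [Cardinal.lt_aleph0_iff_set_finite]
    exact Set.finite_range ρ
  obtain ⟨a, ha⟩ := hsat (M ∪ Set.range ρ) hA N {ψ | ψ.Over (M ∪ Set.range ρ) ∧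
    ∃ χ : Fml L N U, χ.Over M ∧ χ.Holds (b0 ∘ e.symm) ∧
      ∀ a : Fin N → U, χ.Holds a → clsT t (a ∘ e) = c n → ψ.Holds a}
    (fun ψ hψ => hψ.1) (by
      intro s hs hsp
      have hex : ∀ ψ : Fml L N U, ∃ χ : Fml L N U, ψ ∈ s → χ.Over M ∧ χ.Holds (b0 ∘ e.symm) ∧
          ∀ a : Fin N → U, χ.Holds a → clsT t (a ∘ e) = c n → ψ.Holds a := by
        intro ψ
        by_cases hψ : ψ ∈ s
        · obtain ⟨-, χ, h1⟩ := hsp hψ
          exact ⟨χ, fun _ => h1⟩
        · exact ⟨topF L N U, fun h => absurd h hψ⟩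
      choose χ hχ using hex
      have hV := def_forall_holds hs χ fun ψ hψ => (hχ ψ hψ).1
      let D : Set (Tup t) := {f | ∃ v : Vars t → U, clsT t v = f ∧
        ∀ ψ ∈ s, (χ ψ).Holds (v ∘ e.symm)}
      have hD : Definable (eqOf L M) t D := by
        have a1 := (def_Erel t M).inter ((hV.preimage_comp e.symm).preimage_comp
          (Sum.inr : Vars t → Vars t ⊕ Vars t))
        refine definable_of_def0 a1.exists_of_finite ?_
        intro x
        constructor
        · rintro ⟨u, h1, h2⟩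
          refine ⟨u, ?_, h2⟩
          have h3 : clsT t (Sum.elim x u ∘ Sum.inl) = clsT t (Sum.elim x u ∘ Sum.inr) := h1
          rw [Sum.elim_comp_inl, Sum.elim_comp_inr] at h3
          exact h3.symm
        · rintro ⟨u, h1, h2⟩
          refine ⟨u, ?_, h2⟩
          change clsT t (Sum.elim x u ∘ Sum.inl) = clsT t (Sum.elim x u ∘ Sum.inr)
          rw [Sum.elim_comp_inl, Sum.elim_comp_inr]
          exact h1.symm
      have hDq : D ∈ q := hb D hD ⟨b0, rfl, fun ψ hψ => (hχ ψ hψ).2.1⟩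
      obtain ⟨v, hv, hv2⟩ := hc n D hDq (Definable.mono' hD Set.subset_union_left)
      refine ⟨v ∘ e.symm, fun ψ hψ => (hχ ψ hψ).2.2 _ (hv2 ψ hψ) ?_⟩
      have : (v ∘ e.symm) ∘ e = v := by
        funext x
        simp
      rw [this]
      exact hv)
  refine ⟨a ∘ e, ?_, ?_⟩
  · -- the class
    have h1 : (M ∪ Set.range ρ).Definable L {u : Fin N → U | clsT t (u ∘ e) = c n} := by
      have a1 := def_inst (Set.subset_union_left : M ⊆ M ∪ Set.range ρ) (def_Erel t M) ρ
        fun b => Or.inr ⟨b, rfl⟩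
      have a2 := a1.preimage_comp e
      refine (congr rfl (Set.ext fun w => ?_)).mp a2
      change clsT t (Sum.elim (w ∘ e) ρ ∘ Sum.inl) = clsT t (Sum.elim (w ∘ e) ρ ∘ Sum.inr) ↔ _
      rw [Sum.elim_comp_inl, Sum.elim_comp_inr, hρ]
      exact Iff.rfl
    obtain ⟨p, m, φ, hm, hφ⟩ := def_iff.mp h1
    have h2 := ha ⟨p, φ, m⟩ ⟨hm, topF L N U, fun i => i.elim0, by
      unfold topF Fml.Holds
      exact Formula.realize_top.mpr trivial, fun a _ h => (hφ a).mpr h⟩
    exact (hφ a).mp h2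
  · intro p m hm
    have key : ∀ φ : L.Formula (Vars t ⊕ Fin p), φ.Realize (Sum.elim b0 m) →
        φ.Realize (Sum.elim (a ∘ e) m) := by
      intro φ hφ
      have hre : ∀ b : Fin N → U, (φ.relabel (Sum.map e id)).Realize
          (Sum.elim b m) ↔ φ.Realize (Sum.elim (b ∘ e) m) := by
        intro b
        rw [Formula.realize_relabel]
        have e : Sum.elim b m ∘ Sum.map e id = Sum.elim (b ∘ e) m := by
          funext x
          rcases x with x | x <;> rfl
        rw [e]
      have hb0 : (b0 ∘ e.symm) ∘ e = b0 := by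
        funext x
        simp
      have h1 := ha ⟨p, φ.relabel (Sum.map e id), m⟩
        ⟨fun i => Or.inl (hm i), ⟨p, φ.relabel (Sum.map e id), m⟩, hm, (hre _).mpr (by
          rw [hb0]
          exact hφ), fun b hb _ => hb⟩
      exact (hre a).mp h1
    intro φ
    constructor
    · intro h1
      by_contra h2
      have h3 := key φ.not (by rw [Formula.realize_not]; exact h2)
      rw [Formula.realize_not] at h3
      exact h3 h1
    · exact key φ

end inv

theorem AlgE_acl {l : ℕ} {t : Fin l → Srt L U} {M : Set U} {ρ : Vars t → U} {x : U}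
    (h : AlgE L M (Erel t) ρ x) : x ∈ acl L (M ∪ Set.range ρ) := by
  obtain ⟨p, m, θ, D, hm, hD, hxD, hθ⟩ := h
  rw [mem_acl_iff]
  refine ⟨D, hD, hxD, ?_⟩
  have a1 := def_inst (Set.subset_union_left : M ⊆ M ∪ Set.range ρ) (def_of m hm θ) ρ
    fun b => Or.inr ⟨b, rfl⟩
  refine (congr rfl (Set.ext fun w => ?_)).mp a1
  have hw : (fun _ : Fin 1 => w 0) = w := by
    funext a
    rw [Subsingleton.elim a 0]
  have h1 := hθ ρ ((realize_Erel t ρ ρ).mpr rfl) (w 0)
  rw [hw] at h1
  exact h1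

theorem card_union_range {κ : Cardinal.{0}} (hκ : ℵ₀ < κ) {M : Set U} (hM : #M < κ) {α : Type}
    [Finite α] (ρ : α → U) : #(M ∪ Set.range ρ : Set U) < κ := by
  refine lt_of_le_of_lt (Cardinal.mk_union_le _ _) ?_
  refine Cardinal.add_lt_of_lt hκ.le hM ?_
  refine lt_of_lt_of_le ?_ hκ.le
  rw [Cardinal.lt_aleph0_iff_set_finite]
  exact Set.finite_range ρ

/-- the formula expressing that two `n`-tuples of tuples of representatives have the same
classes -/
noncomputable def ErelN {l : ℕ} (t : Fin l → Srt L U) (n : ℕ) :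
    L.Formula ((Fin n × Vars t) ⊕ (Fin n × Vars t)) :=
  Formula.iInf fun j : Fin n => (Erel t).relabel (Sum.map (fun v => (j, v)) fun v => (j, v))

theorem realize_ErelN {l : ℕ} (t : Fin l → Srt L U) (n : ℕ) (u v : Fin n × Vars t → U) :
    (ErelN t n).Realize (Sum.elim u v) ↔
      ∀ j, clsT t (fun a => u (j, a)) = clsT t fun a => v (j, a) := by
  unfold ErelN
  rw [Formula.realize_iInf]
  apply forall_congr'
  intro j
  rw [Formula.realize_relabel, ← realize_Erel]
  have e : Sum.elim u v ∘ Sum.map (fun a : Vars t => (j, a)) (fun a => (j, a)) =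
      Sum.elim (fun a => u (j, a)) fun a => v (j, a) := by
    funext x
    rcases x with x | x <;> rfl
  rw [e]

theorem ST_comp {M : Set U} {α β : Type} {u v : α → U} (h : ST L M u v) (f : β → α) :
    ST L M (u ∘ f) (v ∘ f) := by
  intro p m hm φ
  have h1 := h p m hm (φ.relabel (Sum.map f id))
  rw [Formula.realize_relabel, Formula.realize_relabel] at h1
  have e : ∀ u : α → U, Sum.elim u m ∘ Sum.map f id = Sum.elim (u ∘ f) m := by
    intro u
    funext x
    rcases x with x | x <;> rfl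
  rw [e, e] at h1
  exact h1

theorem ST_symm {M : Set U} {α : Type} {u v : α → U} (h : ST L M u v) : ST L M v u :=
  fun p m hm φ => (h p m hm φ).symm

theorem ST_trans {M : Set U} {α : Type} {u v w : α → U} (h : ST L M u v) (h' : ST L M v w) :
    ST L M u w :=
  fun p m hm φ => (h p m hm φ).trans (h' p m hm φ)

end R398

theorem exists_reps [Countable (Σ n, L.Functions n)] [Countable (Σ n, L.Relations n)]
    {κ : Cardinal.{0}} (hsat : IsSaturated L κ U) (hκ : ℵ₀ < κ) (M : L.ElementarySubstructure U)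
    (hM : #M < κ) {l : ℕ} {t : Fin l → Srt L U} {q : Set (Set (Tup t))}
    (hq : IsInvEq (M : Set U) t q) (b0 : Vars t → U)
    (hb : ∀ D, Definable (eqOf L (M : Set U)) t D → clsT t b0 ∈ D → D ∈ q) (c : ℕ → Tup t)
    (hc : IsMorleyEq (M : Set U) t q c) (n : ℕ) :
    ∃ r : Fin n → Vars t → U, (∀ i : Fin n, clsT t (r i) = c i) ∧
      (∀ i, ST L (M : Set U) (r i) b0) ∧
      ∀ i, acl L ((M : Set U) ∪ Set.range (r i)) ∩
        acl L ((M : Set U) ∪ ⋃ j : Fin n, ⋃ _ : j < i, Set.range (r j)) ⊆ M := by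
  classical
  induction n with
  | zero => exact ⟨fun i => i.elim0, fun i => i.elim0, fun i => i.elim0, fun i => i.elim0⟩
  | succ n ih =>
    obtain ⟨r, hr1, hr2, hr3⟩ := ih
    obtain ⟨ρ, hρ, hρST⟩ := R398.exists_rep hsat hκ hM b0 hb c hc n
    have hX : #{x | AlgE L (M : Set U) (R398.Erel t) ρ x} < κ :=
      lt_of_le_of_lt (Cardinal.mk_le_mk_of_subset fun x hx => R398.AlgE_acl hx)
        (card_acl hκ (R398.card_union_range hκ hM ρ))
    have hEeq : Equivalence fun u v : Fin n × Vars t → U =>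
        (R398.ErelN t n).Realize (Sum.elim u v) := by
      constructor
      · intro u
        rw [R398.realize_ErelN]
        exact fun _ => rfl
      · intro u v h
        rw [R398.realize_ErelN] at h ⊢
        exact fun j => (h j).symm
      · intro u v w h h'
        rw [R398.realize_ErelN] at h h' ⊢
        exact fun j => (h j).trans (h' j)
    have hEeq1 : Equivalence fun u v : Vars t → U =>
        (R398.Erel t).Realize (Sum.elim u v) := by
      constructor
      · intro u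
        rw [R398.realize_Erel]
      · intro u v h
        rw [R398.realize_Erel] at h ⊢
        exact h.symm
      · intro u v w h h'
        rw [R398.realize_Erel] at h h' ⊢
        exact h.trans h'
    let u0 : Fin n × Vars t → U := fun q => r q.1 q.2
    obtain ⟨u1, hu1, hu1ST, hu1X⟩ := neumann hsat hκ hM (R398.ErelN t n) hEeq u0 hX
    rw [R398.realize_ErelN] at hu1
    have hX' : #(acl L ((M : Set U) ∪ Set.range u1)) < κ :=
      card_acl hκ (R398.card_union_range hκ hM u1)
    obtain ⟨u2, hu2, hu2ST, hu2X⟩ := neumann hsat hκ hM (R398.Erel t) hEeq1 ρ hX'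
    rw [R398.realize_Erel] at hu2
    have hcls1 : ∀ i : Fin n, clsT t (fun v => u1 (i, v)) = c i := fun i =>
      (hu1 i).symm.trans (hr1 i)
    refine ⟨Fin.snoc (α := fun _ => Vars t → U) (fun j v => u1 (j, v)) u2, ?_, ?_, ?_⟩
    · intro i
      refine Fin.lastCases ?_ (fun i => ?_) i
      · rw [Fin.snoc_last]
        exact hu2.symm.trans hρ
      · rw [Fin.snoc_castSucc]
        exact hcls1 i
    · intro i
      refine Fin.lastCases ?_ (fun i => ?_) i
      · rw [Fin.snoc_last]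
        exact R398.ST_trans hu2ST hρST
      · rw [Fin.snoc_castSucc]
        exact R398.ST_trans (R398.ST_comp hu1ST fun v => (i, v)) (hr2 i)
    · intro i
      refine Fin.lastCases ?_ (fun i => ?_) i
      · rw [Fin.snoc_last]
        have e : (⋃ j : Fin (n + 1), ⋃ _ : j < Fin.last n,
            Set.range (Fin.snoc (α := fun _ => Vars t → U) (fun j v => u1 (j, v)) u2 j)) =
            Set.range u1 := by
          ext x
          rw [Set.mem_iUnion]
          constructor
          · rintro ⟨j, hj⟩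
            rw [Set.mem_iUnion] at hj
            obtain ⟨hj, hx⟩ := hj
            obtain ⟨j', rfl⟩ : ∃ j' : Fin n, j = j'.castSucc :=
              ⟨j.castPred hj.ne, (Fin.castSucc_castPred j hj.ne).symm⟩
            rw [Fin.snoc_castSucc] at hx
            obtain ⟨v, rfl⟩ := hx
            exact ⟨_, rfl⟩
          · rintro ⟨⟨j, v⟩, rfl⟩
            refine ⟨j.castSucc, ?_⟩
            rw [Set.mem_iUnion]
            refine ⟨Fin.castSucc_lt_last j, ?_⟩
            rw [Fin.snoc_castSucc]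
            exact ⟨v, rfl⟩
        rw [e]
        rintro x ⟨hx1, hx2⟩
        have hA : AlgE L (M : Set U) (R398.Erel t) ρ x := hu2X x hx2 hx1
        obtain ⟨p, m, θ, H, hm, hH, hxH, hθ⟩ := hu1X x hA hx2
        exact R398.invariance hsat hM (acl_model M) hq c hc n x ρ hρ hA H hH hxH
          {w | θ.Realize (Sum.elim w m)} (R398.def_of m hm θ) fun z y hy =>
            hθ (fun q => y q.1 q.2) ((R398.realize_ErelN t n _ _).mpr fun j =>
              (hr1 j).trans (hy j).symm) z
      · rw [Fin.snoc_castSucc]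
        have e : (⋃ j : Fin (n + 1), ⋃ _ : j < i.castSucc,
            Set.range (Fin.snoc (α := fun _ => Vars t → U) (fun j v => u1 (j, v)) u2 j)) =
            u1 '' {q | q.1 < i} := by
          ext x
          rw [Set.mem_iUnion]
          constructor
          · rintro ⟨j, hj⟩
            rw [Set.mem_iUnion] at hj
            obtain ⟨hj, hx⟩ := hj
            have hj' : j ≠ Fin.last n := (lt_of_lt_of_le hj (Fin.le_last _)).ne
            obtain ⟨j', rfl⟩ : ∃ j' : Fin n, j = j'.castSucc :=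
              ⟨j.castPred hj', (Fin.castSucc_castPred j hj').symm⟩
            rw [Fin.snoc_castSucc] at hx
            obtain ⟨v, rfl⟩ := hx
            exact ⟨(j', v), Fin.castSucc_lt_castSucc_iff.mp hj, rfl⟩
          · rintro ⟨⟨j, v⟩, hj, rfl⟩
            refine ⟨j.castSucc, ?_⟩
            rw [Set.mem_iUnion]
            refine ⟨Fin.castSucc_lt_castSucc_iff.mpr hj, ?_⟩
            rw [Fin.snoc_castSucc]
            exact ⟨v, rfl⟩
        have e2 : Set.range (fun v => u1 (i, v)) = u1 '' {q | q.1 = i} := by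
          ext x
          constructor
          · rintro ⟨v, rfl⟩
            exact ⟨(i, v), rfl, rfl⟩
          · rintro ⟨⟨j, v⟩, hj, rfl⟩
            have : j = i := hj
            subst this
            exact ⟨v, rfl⟩
        rw [e, e2]
        refine ST.inter (R398.ST_symm hu1ST) ?_
        have e3 : u0 '' {q | q.1 < i} = ⋃ j : Fin n, ⋃ _ : j < i, Set.range (r j) := by
          ext x
          rw [Set.mem_iUnion]
          constructor
          · rintro ⟨⟨j, v⟩, hj, rfl⟩
            refine ⟨j, ?_⟩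
            rw [Set.mem_iUnion]
            exact ⟨hj, v, rfl⟩
          · rintro ⟨j, hj⟩
            rw [Set.mem_iUnion] at hj
            obtain ⟨hj, v, rfl⟩ := hj
            exact ⟨(j, v), hj, rfl⟩
        have e4 : u0 '' {q | q.1 = i} = Set.range (r i) := by
          ext x
          constructor
          · rintro ⟨⟨j, v⟩, hj, rfl⟩
            have : j = i := hj
            subst this
            exact ⟨v, rfl⟩
          · rintro ⟨v, rfl⟩
            exact ⟨(i, v), rfl, rfl⟩
        rw [e3, e4]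
        exact hr3 i

end H968G
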