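import Pool.Agent.helper968_onebased.It
import Pool.Agent.helper968_onebased.Hom

/-!
The independence theorem and its iteration; countable bases (by helper701).
-/

namespace H968G

open FirstOrder FirstOrder.Language H968F


namespace It701

section st

variable {L : FirstOrder.Language.{0, 0}} {U : Type} [L.Structure U] {M : Set U} {α β : Type}

theorem st_refl (u : α → U) : ST L M u u := fun _ _ _ _ => Iff.rfl

theorem st_symm {u v : α → U} (h : ST L M u v) : ST L M v u :=
  fun p m hm φ => (h p m hm φ).symm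

theorem st_trans {u v w : α → U} (h : ST L M u v) (h' : ST L M v w) : ST L M u w :=
  fun p m hm φ => (h p m hm φ).trans (h' p m hm φ)

/-- Equality of types passes to subtuples. -/
theorem st_sub {u v : α → U} (h : ST L M u v) (ρ : β → α) : ST L M (u ∘ ρ) (v ∘ ρ) := by
  intro p m hm φ
  have h1 := h p m hm (φ.relabel (Sum.map ρ id))
  rw [Formula.realize_relabel, Formula.realize_relabel] at h1
  have e : ∀ t : α → U, Sum.elim t m ∘ Sum.map ρ id = Sum.elim (t ∘ ρ) m := by
    intro t
    funext x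
    rcases x with x | x <;> rfl
  rwa [e, e] at h1

end st

end It701

variable {U : Type} [LA.Structure U] {r : Rl U}

open It701 in
theorem Big.indep (h : Big U r) {M : Set U} (hM : M.Countable) (cM : CS r M Set.univ) {x0 : U}
    (hx0 : x0 ∈ M) (hP : r.P x0) {α β γ : Type} [Countable α] [Countable β] [Countable γ]
    {a a' : α → U} {b : β → U} {c c' : γ → U} (ha : ST LA M a a') (hc : ST LA M c c')
    (i1 : clo r (M ∪ Set.range a) ∩ clo r (M ∪ Set.range b) ⊆ M)
    (i2 : clo r (M ∪ Set.range a') ∩ clo r (M ∪ Set.range c') ⊆ M)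
    (i3 : clo r (M ∪ Set.range b) ∩ clo r (M ∪ Set.range c) ⊆ M) :
    ∃ a'' : α → U, ST LA M (Sum.elim a'' b) (Sum.elim a b) ∧
      ST LA M (Sum.elim a'' c) (Sum.elim a' c') ∧
      clo r (M ∪ Set.range a'') ∩ clo r (M ∪ Set.range b ∪ Set.range c) ⊆ M := by
  obtain ⟨f, hf1, hf2, hf3, hf4⟩ := h.iso hM ha
  obtain ⟨g, hg1, hg2, hg3, hg4⟩ := h.iso hM (st_symm hc)
  -- all closures contain `M`
  have sM : ∀ X : Set U, M ⊆ clo r (M ∪ X) := fun X =>
    Set.subset_union_left.trans (sub_clo r _)
  have cnt : ∀ X : Set U, X.Countable → (clo r (M ∪ X)).Countable := fun X hX =>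
    clo_countable h.ax (hM.union hX)
  have eAB : clo r (M ∪ Set.range a) ∩ clo r (M ∪ Set.range b) = M :=
    i1.antisymm (Set.subset_inter (sM _) (sM _))
  have eAC : clo r (M ∪ Set.range a') ∩ clo r (M ∪ Set.range c') = M :=
    i2.antisymm (Set.subset_inter (sM _) (sM _))
  have eBC : clo r (M ∪ Set.range b) ∩ clo r (M ∪ Set.range c) = M :=
    i3.antisymm (Set.subset_inter (sM _) (sM _))
  have s1a : clo r (M ∪ Set.range a) ⊆ clo r (M ∪ Set.range a ∪ Set.range b) :=
    clo_mono Set.subset_union_left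
  have s1b : clo r (M ∪ Set.range b) ⊆ clo r (M ∪ Set.range a ∪ Set.range b) :=
    clo_mono (Set.union_subset_union_left _ Set.subset_union_left)
  have s2a : clo r (M ∪ Set.range a') ⊆ clo r (M ∪ Set.range a' ∪ Set.range c') :=
    clo_mono Set.subset_union_left
  have s2b : clo r (M ∪ Set.range c') ⊆ clo r (M ∪ Set.range a' ∪ Set.range c') :=
    clo_mono (Set.union_subset_union_left _ Set.subset_union_left)
  have s3a : clo r (M ∪ Set.range b) ⊆ clo r (M ∪ Set.range b ∪ Set.range c) :=
    clo_mono Set.subset_union_left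
  have s3b : clo r (M ∪ Set.range c) ⊆ clo r (M ∪ Set.range b ∪ Set.range c) :=
    clo_mono (Set.union_subset_union_left _ Set.subset_union_left)
  have n1 : (clo r (M ∪ Set.range a ∪ Set.range b)).Countable :=
    clo_countable h.ax ((hM.union (Set.countable_range a)).union (Set.countable_range b))
  have n2 : (clo r (M ∪ Set.range a' ∪ Set.range c')).Countable :=
    clo_countable h.ax ((hM.union (Set.countable_range a')).union (Set.countable_range c'))
  have n3 : (clo r (M ∪ Set.range b ∪ Set.range c)).Countable :=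
    clo_countable h.ax ((hM.union (Set.countable_range b)).union (Set.countable_range c))
  obtain ⟨k1, k2, p1, p2, p3, p4, p5, p6, p7, p8⟩ := h.it (clo_cs r _) (clo_cs r _) (clo_cs r _)
    (clo_cs r _) (clo_cs r _) (clo_cs r _) (clo_cs r _) (clo_cs r _) n1 n2 n3 hx0 hP
    (Set.union_subset s1a s1b) (Set.union_subset s2a s2b) (Set.union_subset s3a s3b)
    eAB eAC eBC f g hf1 hf2 hf3 hg1 hg2 hg3
  have ma : ∀ i, a i ∈ clo r (M ∪ Set.range a) := fun i =>
    sub_clo r _ (Or.inr (Set.mem_range_self i))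
  have mb : ∀ i, b i ∈ clo r (M ∪ Set.range b) := fun i =>
    sub_clo r _ (Or.inr (Set.mem_range_self i))
  have ma' : ∀ i, a' i ∈ clo r (M ∪ Set.range a') := fun i =>
    sub_clo r _ (Or.inr (Set.mem_range_self i))
  have mc' : ∀ i, c' i ∈ clo r (M ∪ Set.range c') := fun i =>
    sub_clo r _ (Or.inr (Set.mem_range_self i))
  have f1 : ∀ m ∈ M, k1 m = m := fun m hm => p5 m (sM _ hm)
  have f2 : ∀ m ∈ M, k2 m = m := fun m hm => (p6 m (sM _ hm)).trans (hg3 m hm)
  refine ⟨k1 ∘ a, ?_, ?_, ?_⟩
  · have q1 : ST LA M (Sum.elim a b) (k1 ∘ Sum.elim a b) := by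
      refine h.st n1 (clo_cs r _) p2 p1 ((sM _).trans s1a) f1 ?_
      rintro (i | i)
      · exact s1a (ma i)
      · exact s1b (mb i)
    have q2 : k1 ∘ Sum.elim a b = Sum.elim (k1 ∘ a) b := by
      funext x
      rcases x with x | x
      · rfl
      · exact p5 _ (mb x)
    rw [q2] at q1
    exact st_symm q1
  · have q1 : ST LA M (Sum.elim a' c') (k2 ∘ Sum.elim a' c') := by
      refine h.st n2 (clo_cs r _) p4 p3 ((sM _).trans s2a) f2 ?_
      rintro (i | i)
      · exact s2a (ma' i)
      · exact s2b (mc' i)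
    have q2 : k2 ∘ Sum.elim a' c' = Sum.elim (k1 ∘ a) c := by
      funext x
      rcases x with x | x
      · show k2 (a' x) = k1 (a x)
        rw [p7 _ (ma x), hf4]
      · show k2 (c' x) = c x
        rw [p6 _ (mc' x), hg4]
    rw [q2] at q1
    exact st_symm q1
  · have q1 : CS r (k1 '' clo r (M ∪ Set.range a)) Set.univ :=
      (p1.cs ((clo_cs r _).mono s1a (Set.subset_univ _))).trans p2
    have q2 := image_clo (p1.mono s1a) q1
    have q3 : k1 '' (M ∪ Set.range a) = M ∪ Set.range (k1 ∘ a) := by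
      rw [Set.image_union, ← Set.range_comp]
      congr 1
      ext y
      constructor
      · rintro ⟨m, hm, rfl⟩
        rw [f1 m hm]
        exact hm
      · intro hy
        exact ⟨y, hy, f1 y hy⟩
    rw [q3] at q2
    rw [← q2]
    exact p8

open It701 in
theorem Big.seq (h : Big U r) {M : Set U} (hM : M.Countable) (cM : CS r M Set.univ) {x0 : U}
    (hx0 : x0 ∈ M) (hP : r.P x0) {α β : Type} [Countable α] [Countable β] (a : α → U)
    (w : β → U) (hi : clo r (M ∪ Set.range a) ∩ clo r (M ∪ Set.range w) ⊆ M) (n : ℕ)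
    (c : Fin n → β → U) (hc : ∀ i, ST LA M (c i) w)
    (hci : ∀ i, clo r (M ∪ Set.range (c i)) ∩
      clo r (M ∪ ⋃ j : Fin n, ⋃ _ : j < i, Set.range (c j)) ⊆ M) :
    ∃ x : α → U, ∀ i, ST LA M (Sum.elim x (c i)) (Sum.elim a w) := by
  have key : ∃ x : α → U, (∀ i, ST LA M (Sum.elim x (c i)) (Sum.elim a w)) ∧ ST LA M x a ∧
      clo r (M ∪ Set.range x) ∩ clo r (M ∪ ⋃ i, Set.range (c i)) ⊆ M := by
    induction n with
    | zero =>
      refine ⟨a, fun i => i.elim0, st_refl a, ?_⟩
      have e : (M ∪ ⋃ i : Fin 0, Set.range (c i)) = M := by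
        rw [Set.iUnion_of_empty, Set.union_empty]
      rw [e, clo_eq cM]
      exact Set.inter_subset_right
    | succ n ih =>
      obtain ⟨x, h1, h2, h3⟩ := ih (fun i => c i.castSucc) (fun i => hc _) (by
        intro i
        refine Set.Subset.trans (Set.inter_subset_inter_right _ (clo_mono ?_)) (hci i.castSucc)
        refine Set.union_subset_union_right _ ?_
        refine Set.iUnion_subset fun j => Set.iUnion_subset fun hj => ?_
        exact Set.subset_iUnion_of_subset j.castSucc
          (Set.subset_iUnion_of_subset (by simpa using hj) subset_rfl))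
      have eb : Set.range (fun p : Fin n × β => c p.1.castSucc p.2) =
          ⋃ i : Fin n, Set.range (c i.castSucc) := by
        ext y
        simp only [Set.mem_range, Set.mem_iUnion, Prod.exists]
      have eb' : (⋃ i : Fin n, Set.range (c i.castSucc)) =
          ⋃ j : Fin (n + 1), ⋃ _ : j < Fin.last n, Set.range (c j) := by
        ext y
        simp only [Set.mem_iUnion]
        constructor
        · rintro ⟨i, hi⟩
          exact ⟨i.castSucc, Fin.castSucc_lt_last i, hi⟩
        · rintro ⟨j, hj, hy⟩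
          refine ⟨j.castPred hj.ne, ?_⟩
          rw [Fin.castSucc_castPred]
          exact hy
      have eb2 : (⋃ i : Fin n, Set.range (c i.castSucc)) ∪ Set.range (c (Fin.last n)) =
          ⋃ j : Fin (n + 1), Set.range (c j) := by
        ext y
        simp only [Set.mem_union, Set.mem_iUnion]
        constructor
        · rintro (⟨i, hi⟩ | hy)
          · exact ⟨_, hi⟩
          · exact ⟨_, hy⟩
        · rintro ⟨j, hj⟩
          rcases Fin.eq_castSucc_or_eq_last j with ⟨i, rfl⟩ | rfl
          · exact Or.inl ⟨i, hj⟩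
          · exact Or.inr hj
      obtain ⟨a'', k1, k2, k3⟩ := h.indep (b := fun p : Fin n × β => c p.1.castSucc p.2)
        (c := c (Fin.last n)) (c' := w) hM cM hx0 hP h2 (hc (Fin.last n)) (by rw [eb]; exact h3) hi
        (by
          rw [eb, eb', Set.inter_comm]
          exact hci (Fin.last n))
      refine ⟨a'', ?_, ?_, ?_⟩
      · intro i
        rcases Fin.eq_castSucc_or_eq_last i with ⟨j, rfl⟩ | rfl
        · refine st_trans ?_ (h1 j)
          have k4 := st_sub k1 (Sum.map id fun y : β => (j, y))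
          have e : ∀ t : α → U, Sum.elim t (fun p : Fin n × β => c p.1.castSucc p.2) ∘
              (Sum.map id fun y : β => (j, y)) = Sum.elim t (c j.castSucc) := by
            intro t
            funext z
            rcases z with z | z <;> rfl
          rwa [e, e] at k4
        · exact k2
      · have k4 := st_sub k2 (Sum.inl : α → α ⊕ β)
        exact k4
      · rw [eb, Set.union_assoc, eb2] at k3
        exact k3
  obtain ⟨x, hx, _⟩ := key
  exact ⟨x, hx⟩

theorem exists_base {V : Type} {r : Rl V} (hax : Ax r Set.univ) {M : Set V}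
    (cM : CS r M Set.univ) {ι : Type} [Countable ι] (X Y : ι → Set V)
    (hX : ∀ i, (X i).Countable) (hY : ∀ i, (Y i).Countable)
    (hi : ∀ i, clo r (M ∪ X i) ∩ clo r (M ∪ Y i) ⊆ M) {Z : Set V} (hZ : Z.Countable)
    (hZM : Z ⊆ M) : ∃ M0 : Set V, Z ⊆ M0 ∧ M0 ⊆ M ∧ M0.Countable ∧ CS r M0 Set.univ ∧
      ∀ i, clo r (M0 ∪ X i) ∩ clo r (M0 ∪ Y i) ⊆ M0 := by
  obtain ⟨st, hst⟩ : ∃ st : Set V → Set V, ∀ A, st A =
    clo r (A ∪ ⋃ i, (clo r (A ∪ X i) ∩ clo r (A ∪ Y i))) := ⟨_, fun _ => rfl⟩
  obtain ⟨N, hN0, hNs⟩ : ∃ N : ℕ → Set V, N 0 = clo r Z ∧ ∀ n, N (n + 1) = st (N n) :=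
    ⟨fun n => Nat.rec (clo r Z) (fun _ A => st A) n, rfl, fun _ => rfl⟩
  have hcs : ∀ n, CS r (N n) Set.univ := by
    intro n
    cases n with
    | zero => rw [hN0]; exact clo_cs r _
    | succ n => rw [hNs, hst]; exact clo_cs r _
  have hsub : ∀ n, N n ⊆ M := by
    intro n
    induction n with
    | zero => rw [hN0]; exact clo_min hZM cM
    | succ n ih =>
      rw [hNs, hst]
      refine clo_min (Set.union_subset ih (Set.iUnion_subset fun i => ?_)) cM
      exact (Set.inter_subset_inter (clo_mono (Set.union_subset_union_left _ ih))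
        (clo_mono (Set.union_subset_union_left _ ih))).trans (hi i)
  have hcnt : ∀ n, (N n).Countable := by
    intro n
    induction n with
    | zero => rw [hN0]; exact clo_countable hax hZ
    | succ n ih =>
      rw [hNs, hst]
      refine clo_countable hax (ih.union (Set.countable_iUnion fun i => ?_))
      exact (clo_countable hax (ih.union (hX i))).mono Set.inter_subset_left
  have hstep : ∀ n, N n ⊆ N (n + 1) := by
    intro n
    rw [hNs, hst]
    exact Set.subset_union_left.trans (sub_clo r _)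
  have hmono : Monotone N := monotone_nat_of_le_succ hstep
  have hfin : ∀ (W X0 : Set V), X0.Finite → X0 ⊆ (⋃ n, N n) ∪ W → ∃ n, X0 ⊆ N n ∪ W := by
    intro W X0 hX0 hs
    induction X0, hX0 using Set.Finite.induction_on with
    | empty => exact ⟨0, Set.empty_subset _⟩
    | @insert x t _ _ ih =>
      obtain ⟨n, hn⟩ := ih ((Set.subset_insert _ _).trans hs)
      rcases hs (Set.mem_insert x t) with hx | hx
      · obtain ⟨m, hm⟩ := Set.mem_iUnion.1 hx
        refine ⟨max n m, Set.insert_subset (Or.inl (hmono (le_max_right n m) hm)) ?_⟩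
        exact hn.trans (Set.union_subset_union_left _ (hmono (le_max_left n m)))
      · exact ⟨n, Set.insert_subset (Or.inr hx) hn⟩
  have hclo : clo r (⋃ n, N n) = ⋃ n, N n := by
    refine Set.Subset.antisymm ?_ (sub_clo r _)
    intro y hy
    obtain ⟨X0, h1, h2, h3⟩ := clo_fin hax hy
    obtain ⟨n, hn⟩ := hfin ∅ X0 h2 (by rw [Set.union_empty]; exact h1)
    rw [Set.union_empty] at hn
    exact Set.mem_iUnion.2 ⟨n, clo_min hn (hcs n) h3⟩
  refine ⟨⋃ n, N n, ?_, Set.iUnion_subset hsub, Set.countable_iUnion hcnt, ?_, ?_⟩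
  · refine Set.Subset.trans ?_ (Set.subset_iUnion N 0)
    rw [hN0]
    exact sub_clo r Z
  · rw [← hclo]
    exact clo_cs r _
  · rintro i y ⟨hy1, hy2⟩
    obtain ⟨X1, h1, h2, h3⟩ := clo_fin hax hy1
    obtain ⟨X2, h4, h5, h6⟩ := clo_fin hax hy2
    obtain ⟨n, hn⟩ := hfin (X i) X1 h2 h1
    obtain ⟨m, hm⟩ := hfin (Y i) X2 h5 h4
    refine Set.mem_iUnion.2 ⟨max n m + 1, ?_⟩
    rw [hNs, hst]
    refine sub_clo r _ (Or.inr (Set.mem_iUnion.2 ⟨i, ?_, ?_⟩))
    · exact clo_mono (hn.trans (Set.union_subset_union_left _ (hmono (le_max_left n m)))) h3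
    · exact clo_mono (hm.trans (Set.union_subset_union_left _ (hmono (le_max_right n m)))) h6

end H968G
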